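import Mathlib
import Pool.Agent.H35.NI.Defs
import Pool.Agent.H89.CZ.HB
import Pool.Agent.H89.CZ.KSer

set_option autoImplicit false

/-!
# Project EN (MP_6cdc09_gt): definitions

Aim.  `1 ≤ r ≤ n - 1`, `e` a real orthonormal basis of a real subspace `E ⊆ ℂⁿ` of dimension `2r`,
`TT e θ = det (cos θ + sin θ Ω)`, `Ω = om (e a) (e b)`.  If
`(r+1)(3n-3r+4) ∫_0^π TT e θ cos 2θ < r (n-r) ∫_0^π TT e θ`,
the Brunn-Minkowski inequality for `V_E` fails on zonoids.

Notation.  `r = s + 1`, `q = n - r + 1 ≥ 2`, `n = s + q`; `W = cf (s+q) s` the standard real frame of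
the first `s` complex coordinates, `io s : ℂ^q → ℂ^(s+q)` the other coordinates.
`gg e w = ∫ |det ⟨φ e_a, w_b⟩| dφ` (`H35/NI/Defs.lean`).

(1) `gg e (W, u, v) = A area u v + B om(u,v)²/area u v` for `u, v ∈ ℂ^q` (module `KForm`).
(2) `gg e (cf n r) = ∫_0^π TT e / (π C(n,r))` (module `G1`, from `GLine`, `GReal`, `GVert`, `GExp`).
(3) `VV e = ∫ |P_W φ e|`: `2 q VV = ∑_{i,j} gg e (W, b_i, b_j)` (`SpSide`),
`2 r VV = ∑_{i,j} gg (e without two vectors) W` (`IxSide`).
(4) algebra (`AB`), (5) test function on the sphere of `ℂ^q` (`FIaQ`, `FIbQ`, `FConfQ`),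
(6) zonotopes (`FBodyQ`).
-/

open MeasureTheory Pool.Agent.H61.UProj Pool.Agent.H89.CZ Pool.Agent.H35.NI
open scoped Matrix

noncomputable section

namespace Pool.Agent.H89.EN

/-- The standard basis vector `s_j` of `ℂⁿ` (`0` if `j ≥ n`). -/
def st (n j : ℕ) : Cn n := if h : j < n then EuclideanSpace.single (⟨j, h⟩ : Fin n) (1 : ℂ) else 0

/-- Real frame of `ℂᵏ ⊕ ℝ ⊕ ℝ ⊕ …`: `s_0, i s_0, …, s_(k-1), i s_(k-1), s_k, s_(k+1), …`. -/
def vf (n k a : ℕ) : Cn n :=
  if a < 2 * k then (if a % 2 = 0 then st n (a / 2) else Complex.I • st n (a / 2))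
  else st n (k + (a - 2 * k))

/-- The standard real frame of `ℂʳ ⊆ ℂⁿ`. -/
def cf (n r : ℕ) (a : Fin (2 * r)) : Cn n := vf n r a

/-- The standard real basis of `ℂᵐ`. -/
def bb (m : ℕ) (a : Fin (2 * m)) : Cn m := vf m m a

/-- `ℂ^q → ℂ^(s+q)`, `u ↦ (0, u)`. -/
def io (s : ℕ) {q : ℕ} (u : Cn q) : Cn (s + q) :=
  WithLp.toLp 2 (Fin.append (fun _ : Fin s => (0 : ℂ)) (fun j => u j))

/-- `ℂⁿ → ℂ^(n+1)`, `u ↦ (0, u)`. -/
def lf {n : ℕ} (u : Cn n) : Cn (n + 1) :=
  WithLp.toLp 2 (Fin.cons (0 : ℂ) (fun j => u j))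

/-- `det (cos θ δ + sin θ om)`. -/
def TT {n i : ℕ} (e : Fin i → Cn n) (θ : ℝ) : ℝ :=
  (Matrix.of fun a b => Real.cos θ * (if a = b then 1 else 0) + Real.sin θ * om (e a) (e b)).det

/-- The matrix `⟨x_a, W_b⟩`. -/
def YY {n s : ℕ} (x : Fin (2 * s + 2) → Cn n) : Matrix (Fin (2 * s + 2)) (Fin (2 * s)) ℝ :=
  Matrix.of fun a b => inner ℝ (x a) (cf n s b)

/-- The `2s`-dimensional volume of the projections of the `W_b` to the span of `x`
(for orthonormal `x`). -/
def DN {n s : ℕ} (x : Fin (2 * s + 2) → Cn n) : ℝ := √(((YY x)ᵀ * YY x).det)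

/-- The mean of `DN`. -/
def VV {n s : ℕ} (e : Fin (2 * s + 2) → Cn n) : ℝ := ∫ φ, DN (fun a => uni φ (e a)) ∂(haarU n)

/-- The kernel `A area + B om² / area`. -/
def KQ {q : ℕ} (A B : ℝ) (u v : Cn q) : ℝ := A * area u v + B * (om u v ^ 2 / area u v)

/-- The test function `|u_0|² - |u_1|²`. -/
def dlQ {q : ℕ} (u : Cn (q + 2)) : ℝ := ‖u 0‖ ^ 2 - ‖u 1‖ ^ 2

/-! ### Basic facts -/

theorem st_apply (n j : ℕ) (i : Fin n) : st n j i = if (i : ℕ) = j then 1 else 0 := by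
  unfold st
  split_ifs with h1 h2 h2
  · subst h2
    simp
  · rw [PiLp.single_apply, if_neg]
    rintro rfl
    exact h2 rfl
  · exfalso
    apply h1
    rw [← h2]
    exact i.2
  · rfl

theorem io_natAdd (s : ℕ) {q : ℕ} (u : Cn q) (j : Fin q) : io s u (Fin.natAdd s j) = u j := by
  unfold io
  simp

theorem io_castAdd (s : ℕ) {q : ℕ} (u : Cn q) (j : Fin s) : io s u (Fin.castAdd q j) = 0 := by
  unfold io
  simp

theorem lf_zero {n : ℕ} (u : Cn n) : lf u 0 = 0 := by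
  unfold lf
  simp

theorem lf_succ {n : ℕ} (u : Cn n) (j : Fin n) : lf u j.succ = u j := by
  unfold lf
  simp

theorem cinner_eq {n : ℕ} (u v : Cn n) :
    (inner ℂ u v : ℂ) = ∑ j, v j * (starRingEnd ℂ) (u j) := by
  simp [PiLp.inner_apply]

theorem inner_io (s : ℕ) {q : ℕ} (u v : Cn q) : (inner ℂ (io s u) (io s v) : ℂ) = inner ℂ u v := by
  rw [cinner_eq, cinner_eq, Fin.sum_univ_add]
  simp only [io_natAdd, io_castAdd]
  simp

theorem inner_lf {n : ℕ} (u v : Cn n) : (inner ℂ (lf u) (lf v) : ℂ) = inner ℂ u v := by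
  rw [cinner_eq, cinner_eq, Fin.sum_univ_succ]
  simp only [lf_zero, lf_succ]
  simp

theorem rinner_eq {n : ℕ} (u v : Cn n) : (inner ℝ u v : ℝ) = (inner ℂ u v : ℂ).re := by
  rw [cinner_eq, real_inner_eq]
  congr 1
  exact Finset.sum_congr rfl fun j _ => mul_comm _ _

theorem rinner_io (s : ℕ) {q : ℕ} (u v : Cn q) : (inner ℝ (io s u) (io s v) : ℝ) = inner ℝ u v := by
  rw [rinner_eq, rinner_eq, inner_io]

theorem rinner_lf {n : ℕ} (u v : Cn n) : (inner ℝ (lf u) (lf v) : ℝ) = inner ℝ u v := by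
  rw [rinner_eq, rinner_eq, inner_lf]

theorem om_io (s : ℕ) {q : ℕ} (u v : Cn q) : om (io s u) (io s v) = om u v := by
  unfold om
  rw [inner_io]

theorem om_lf {n : ℕ} (u v : Cn n) : om (lf u) (lf v) = om u v := by
  unfold om
  rw [inner_lf]

theorem om_symm {n : ℕ} (u v : Cn n) : om v u = - om u v := by
  unfold om
  rw [← inner_conj_symm, Complex.conj_im]

theorem area_io (s : ℕ) {q : ℕ} (u v : Cn q) : area (io s u) (io s v) = area u v := by
  unfold area
  rw [← real_inner_self_eq_norm_sq, ← real_inner_self_eq_norm_sq, ← real_inner_self_eq_norm_sq u,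
    ← real_inner_self_eq_norm_sq v, rinner_io, rinner_io, rinner_io]

theorem io_add (s : ℕ) {q : ℕ} (u v : Cn q) : io s (u + v) = io s u + io s v := by
  ext j
  refine Fin.addCases (fun i => ?_) (fun i => ?_) j
  · simp [io_castAdd]
  · simp [io_natAdd]

theorem io_smul (s : ℕ) {q : ℕ} (c : ℂ) (u : Cn q) : io s (c • u) = c • io s u := by
  ext j
  refine Fin.addCases (fun i => ?_) (fun i => ?_) j
  · simp [io_castAdd]
  · simp [io_natAdd]

theorem io_rsmul (s : ℕ) {q : ℕ} (c : ℝ) (u : Cn q) : io s (c • u) = c • io s u := by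
  ext j
  refine Fin.addCases (fun i => ?_) (fun i => ?_) j
  · simp [io_castAdd]
  · simp [io_natAdd]

theorem lf_add {n : ℕ} (u v : Cn n) : lf (u + v) = lf u + lf v := by
  ext j
  refine Fin.cases ?_ (fun i => ?_) j
  · simp [lf_zero]
  · simp [lf_succ]

theorem lf_smul {n : ℕ} (c : ℂ) (u : Cn n) : lf (c • u) = c • lf u := by
  ext j
  refine Fin.cases ?_ (fun i => ?_) j
  · simp [lf_zero]
  · simp [lf_succ]

theorem lf_rsmul {n : ℕ} (c : ℝ) (u : Cn n) : lf (c • u) = c • lf u := by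
  ext j
  refine Fin.cases ?_ (fun i => ?_) j
  · simp [lf_zero]
  · simp [lf_succ]

/-- The vectors of `cf` do not depend on the later coordinates. -/
theorem cinner_st (n i j : ℕ) (hi : i < n) :
    (inner ℂ (st n i) (st n j) : ℂ) = if i = j then 1 else 0 := by
  rw [cinner_eq]
  simp only [st_apply]
  rw [Finset.sum_eq_single (⟨i, hi⟩ : Fin n)]
  · simp
  · intro b _ hb
    have h : (b : ℕ) ≠ i := fun h => hb (Fin.ext h)
    simp [h]
  · intro h
    exact absurd (Finset.mem_univ _) h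

theorem om_st (n i j : ℕ) (hi : i < n) : om (st n i) (st n j) = 0 := by
  unfold om
  rw [cinner_st n i j hi]
  split_ifs <;> simp

theorem inner_st_left (n : ℕ) (j : Fin n) (u : Cn n) : (inner ℂ (st n j) u : ℂ) = u j := by
  rw [cinner_eq]
  simp only [st_apply]
  rw [Finset.sum_eq_single j]
  · simp
  · intro b _ hb
    have h : (b : ℕ) ≠ j := fun h => hb (Fin.ext h)
    simp [h]
  · intro h
    exact absurd (Finset.mem_univ _) h

end Pool.Agent.H89.EN
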