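import Mathlib
import Pool.Agent.H35.NI.Lin
import Pool.Agent.H89.EN.Defs

set_option autoImplicit false

/-!
# GEmb: block embeddings of unitary groups, integration in two steps

* `exists_embQ`: `ψ ∈ U(q)` acts on the last `q` coordinates of `ℂ^(s+q)`: the block diagonal
  matrix `(1, ψ)` (entries via `Fin.addCases`, or `Matrix.fromBlocks 1 0 0 ψ` reindexed by
  `finSumFinEquiv`).
* `exists_embL`: the same for `1 + n`, with `Fin.cons`/`Fin.cases`, and continuous in `ψ`.
* `int_embL`: for fixed `ψ`, `∫ F (φ * h ψ) dφ = ∫ F φ dφ` (`integral_mulRight`); exchange the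
  integrals (`integral_integral_swap`, bounded continuous function on the compact space
  `U(n+1) × U(n)`; second countability as `TMean_sct` in `H89/CZ/TMean.lean`).
* `int_coord`: permutation matrices (left invariance) show that the integral does not depend on `j`;
  the sum over `j` is `∫ ‖uni φ (st 0)‖² = 1`.
-/

open MeasureTheory Pool.Agent.H61.UProj Pool.Agent.H89.CZ Pool.Agent.H35.NI

noncomputable section

namespace Pool.Agent.H89.EN

/-! ### The block `(1, A)` on `s + q` coordinates -/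

private def bq (s : ℕ) {q : ℕ} (A : Matrix (Fin q) (Fin q) ℂ) :
    Matrix (Fin (s + q)) (Fin (s + q)) ℂ :=
  Matrix.reindex finSumFinEquiv finSumFinEquiv (Matrix.fromBlocks 1 0 0 A)

private theorem bq_mul (s : ℕ) {q : ℕ} (A B : Matrix (Fin q) (Fin q) ℂ) :
    bq s A * bq s B = bq s (A * B) := by
  unfold bq
  simp only [Matrix.reindex_apply, Matrix.submatrix_mul_equiv, Matrix.fromBlocks_multiply]
  simp

private theorem bq_one (s q : ℕ) : bq s (1 : Matrix (Fin q) (Fin q) ℂ) = 1 := by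
  unfold bq
  rw [Matrix.fromBlocks_one]
  simp

private theorem bq_star (s : ℕ) {q : ℕ} (A : Matrix (Fin q) (Fin q) ℂ) :
    star (bq s A) = bq s (star A) := by
  unfold bq
  rw [Matrix.star_eq_conjTranspose, Matrix.star_eq_conjTranspose, Matrix.conjTranspose_reindex,
    Matrix.fromBlocks_conjTranspose]
  simp

private theorem bq_cc (s : ℕ) {q : ℕ} (A : Matrix (Fin q) (Fin q) ℂ) (i j : Fin s) :
    bq s A (Fin.castAdd q i) (Fin.castAdd q j) = if i = j then 1 else 0 := by
  unfold bq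
  simp [Matrix.one_apply]

private theorem bq_cn (s : ℕ) {q : ℕ} (A : Matrix (Fin q) (Fin q) ℂ) (i : Fin s) (j : Fin q) :
    bq s A (Fin.castAdd q i) (Fin.natAdd s j) = 0 := by
  unfold bq
  simp

private theorem bq_nc (s : ℕ) {q : ℕ} (A : Matrix (Fin q) (Fin q) ℂ) (i : Fin q) (j : Fin s) :
    bq s A (Fin.natAdd s i) (Fin.castAdd q j) = 0 := by
  unfold bq
  simp

private theorem bq_nn (s : ℕ) {q : ℕ} (A : Matrix (Fin q) (Fin q) ℂ) (i j : Fin q) :
    bq s A (Fin.natAdd s i) (Fin.natAdd s j) = A i j := by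
  unfold bq
  simp

theorem exists_embQ {s q : ℕ} (ψ : Un q) :
    ∃ h : Un (s + q), (∀ u : Cn q, uni h (io s u) = io s (uni ψ u)) ∧
      ∀ b, uni h (cf (s + q) s b) = cf (s + q) s b := by
  have hu : bq s (ψ : Matrix (Fin q) (Fin q) ℂ) ∈ Matrix.unitaryGroup (Fin (s + q)) ℂ := by
    rw [Matrix.mem_unitaryGroup_iff', bq_star, bq_mul, Matrix.mem_unitaryGroup_iff'.1 ψ.2, bq_one]
  have hst : ∀ t, t < s → uni (⟨_, hu⟩ : Un (s + q)) (st (s + q) t) = st (s + q) t := by
    intro t ht
    ext j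
    rw [uni_apply]
    simp only [st_apply]
    rw [Fin.sum_univ_add]
    simp only [Fin.val_castAdd, Fin.val_natAdd]
    have h2 : ∀ i : Fin q, (if s + (i : ℕ) = t then (1 : ℂ) else 0) = 0 := fun i =>
      if_neg (by omega)
    simp only [h2, mul_zero, Finset.sum_const_zero, add_zero]
    refine Fin.addCases (fun i => ?_) (fun i => ?_) j
    · simp only [bq_cc, Fin.val_castAdd]
      rw [Finset.sum_eq_single i]
      · simp
      · intro b _ hb
        rw [if_neg (Ne.symm hb), zero_mul]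
      · intro h
        exact absurd (Finset.mem_univ _) h
    · simp only [bq_nc, Fin.val_natAdd]
      rw [if_neg (by omega)]
      simp
  refine ⟨⟨_, hu⟩, fun u => ?_, fun b => ?_⟩
  · ext j
    rw [uni_apply, Fin.sum_univ_add]
    simp only [io_natAdd, io_castAdd, mul_zero, Finset.sum_const_zero, zero_add]
    refine Fin.addCases (fun i => ?_) (fun i => ?_) j
    · simp only [bq_cn, io_castAdd]
      simp
    · simp only [bq_nn, io_natAdd]
      rw [uni_apply]
  · unfold cf vf
    have hb : (b : ℕ) < 2 * s := b.2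
    rw [if_pos hb]
    split_ifs
    · exact hst _ (by omega)
    · rw [uni_csmul, hst _ (by omega)]

/-! ### The block `(1, A)` on `1 + n` coordinates -/

private def bl {n : ℕ} (A : Matrix (Fin n) (Fin n) ℂ) : Matrix (Fin (n + 1)) (Fin (n + 1)) ℂ :=
  Matrix.of (Fin.cons (Fin.cons 1 (fun _ => 0)) (fun i => Fin.cons 0 (fun k => A i k)))

private theorem bl_00 {n : ℕ} (A : Matrix (Fin n) (Fin n) ℂ) : bl A 0 0 = 1 := rfl

private theorem bl_0s {n : ℕ} (A : Matrix (Fin n) (Fin n) ℂ) (j : Fin n) : bl A 0 j.succ = 0 := rfl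

private theorem bl_s0 {n : ℕ} (A : Matrix (Fin n) (Fin n) ℂ) (i : Fin n) : bl A i.succ 0 = 0 := rfl

private theorem bl_ss {n : ℕ} (A : Matrix (Fin n) (Fin n) ℂ) (i j : Fin n) :
    bl A i.succ j.succ = A i j := rfl

private theorem bl_mul {n : ℕ} (A B : Matrix (Fin n) (Fin n) ℂ) : bl A * bl B = bl (A * B) := by
  ext i j
  rw [Matrix.mul_apply, Fin.sum_univ_succ]
  refine Fin.cases ?_ (fun i => ?_) i <;> refine Fin.cases ?_ (fun j => ?_) j
  · simp [bl_00, bl_0s]
  · simp [bl_00, bl_0s]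
  · simp [bl_s0, bl_00, bl_ss]
  · simp [bl_s0, bl_ss, Matrix.mul_apply]

private theorem bl_one (n : ℕ) : bl (1 : Matrix (Fin n) (Fin n) ℂ) = 1 := by
  ext i j
  refine Fin.cases ?_ (fun i => ?_) i <;> refine Fin.cases ?_ (fun j => ?_) j
  · simp [bl_00]
  · rw [bl_0s, Matrix.one_apply_ne (Fin.succ_ne_zero j).symm]
  · rw [bl_s0, Matrix.one_apply_ne (Fin.succ_ne_zero i)]
  · simp [bl_ss, Matrix.one_apply]

private theorem bl_star {n : ℕ} (A : Matrix (Fin n) (Fin n) ℂ) : star (bl A) = bl (star A) := by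
  ext i j
  rw [Matrix.star_apply]
  refine Fin.cases ?_ (fun i => ?_) i <;> refine Fin.cases ?_ (fun j => ?_) j
  · simp [bl_00]
  · simp [bl_0s, bl_s0]
  · simp [bl_0s, bl_s0]
  · simp [bl_ss, Matrix.star_apply]

private theorem bl_mem {n : ℕ} (ψ : Un n) :
    bl (ψ : Matrix (Fin n) (Fin n) ℂ) ∈ Matrix.unitaryGroup (Fin (n + 1)) ℂ := by
  rw [Matrix.mem_unitaryGroup_iff', bl_star, bl_mul, Matrix.mem_unitaryGroup_iff'.1 ψ.2, bl_one]

theorem exists_embL (n : ℕ) : ∃ h : Un n → Un (n + 1), Continuous h ∧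
    ∀ ψ, (∀ u : Cn n, uni (h ψ) (lf u) = lf (uni ψ u)) ∧
      uni (h ψ) (st (n + 1) 0) = st (n + 1) 0 := by
  refine ⟨fun ψ => ⟨_, bl_mem ψ⟩, ?_, fun ψ => ⟨fun u => ?_, ?_⟩⟩
  · refine Continuous.subtype_mk ?_ _
    refine continuous_matrix fun i j => ?_
    have hc : ∀ i j : Fin n, Continuous fun ψ : Un n => (ψ : Matrix (Fin n) (Fin n) ℂ) i j :=
      fun i j => (continuous_subtype_val.matrix_elem i j)
    refine Fin.cases ?_ (fun i => ?_) i <;> refine Fin.cases ?_ (fun j => ?_) j
    · simp only [bl_00]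
      exact continuous_const
    · simp only [bl_0s]
      exact continuous_const
    · simp only [bl_s0]
      exact continuous_const
    · simp only [bl_ss]
      exact hc i j
  · ext j
    rw [uni_apply, Fin.sum_univ_succ]
    simp only [lf_zero, lf_succ, mul_zero, zero_add]
    refine Fin.cases ?_ (fun i => ?_) j
    · simp [bl_0s, lf_zero]
    · simp only [bl_ss, lf_succ]
      rw [uni_apply]
  · ext j
    rw [uni_apply, Fin.sum_univ_succ]
    simp only [st_apply, Fin.val_zero, Fin.val_succ, if_true, mul_one]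
    have h2 : ∀ i : Fin n, (if (i : ℕ) + 1 = 0 then (1 : ℂ) else 0) = 0 := fun i =>
      if_neg (by omega)
    simp only [h2, mul_zero, Finset.sum_const_zero, add_zero]
    refine Fin.cases ?_ (fun i => ?_) j
    · simp [bl_00]
    · simp [bl_s0]

private theorem sct (n : ℕ) : SecondCountableTopology (Un n) := by
  have : SecondCountableTopology (Matrix (Fin n) (Fin n) ℂ) :=
    inferInstanceAs (SecondCountableTopology (Fin n → Fin n → ℂ))
  exact TopologicalSpace.Subtype.secondCountableTopology _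

theorem int_embL {n : ℕ} {F : Un (n + 1) → ℝ} (hF : Continuous F) {h : Un n → Un (n + 1)}
    (hc : Continuous h) :
    ∫ φ, F φ ∂(haarU (n + 1)) =
      ∫ φ, ∫ ψ, F (φ * h ψ) ∂(haarU n) ∂(haarU (n + 1)) := by
  have : SecondCountableTopology (Un n) := sct n
  have : SecondCountableTopology (Un (n + 1)) := sct (n + 1)
  have hI : Integrable (Function.uncurry (fun (φ : Un (n + 1)) (ψ : Un n) => F (φ * h ψ)))
      ((haarU (n + 1)).prod (haarU n)) := by
    have hcc : Continuous (Function.uncurry (fun (φ : Un (n + 1)) (ψ : Un n) => F (φ * h ψ))) :=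
      hF.comp (continuous_fst.mul (hc.comp continuous_snd))
    exact hcc.integrable_of_hasCompactSupport (HasCompactSupport.of_compactSpace _)
  rw [integral_integral_swap hI]
  have h1 : ∀ ψ : Un n, ∫ φ, F (φ * h ψ) ∂(haarU (n + 1)) = ∫ φ, F φ ∂(haarU (n + 1)) :=
    fun ψ => integral_mulRight F (h ψ)
  simp only [h1]
  simp

private theorem exists_perm {n : ℕ} (σ : Equiv.Perm (Fin n)) :
    ∃ P : Un n, ∀ (z : Cn n) (k : Fin n), uni P z k = z (σ k) := by
  have hu : (Matrix.of fun i j : Fin n => if j = σ i then (1 : ℂ) else 0) ∈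
      Matrix.unitaryGroup (Fin n) ℂ := by
    rw [Matrix.mem_unitaryGroup_iff']
    ext i k
    rw [Matrix.mul_apply]
    simp only [Matrix.star_apply, Matrix.of_apply]
    rw [Equiv.sum_comp σ (fun m => star (if i = m then (1 : ℂ) else 0) *
      (if k = m then (1 : ℂ) else 0))]
    by_cases hik : i = k
    · subst hik
      simp
    · rw [Matrix.one_apply_ne hik, Finset.sum_eq_zero]
      intro m _
      by_cases him : i = m
      · subst him
        rw [if_neg (Ne.symm hik), mul_zero]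
      · rw [if_neg him]
        simp
  refine ⟨⟨_, hu⟩, fun z k => ?_⟩
  rw [uni_apply]
  simp

theorem int_coord (n : ℕ) (j : Fin (n + 1)) :
    ∫ φ : Un (n + 1), ‖(uni φ (st (n + 1) 0)) j‖ ^ 2 ∂(haarU (n + 1)) = 1 / (n + 1) := by
  have hcont : ∀ k : Fin (n + 1),
      Continuous (fun φ : Un (n + 1) => ‖(uni φ (st (n + 1) 0)) k‖ ^ 2) := by
    intro k
    have h1 := continuous_uni (n := n + 1) (st (n + 1) 0)
    have h2 : Continuous (fun φ : Un (n + 1) => (uni φ (st (n + 1) 0)) k) :=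
      (PiLp.continuous_apply 2 (fun _ : Fin (n + 1) => ℂ) k).comp h1
    exact h2.norm.pow 2
  have hsame : ∀ k : Fin (n + 1),
      ∫ φ : Un (n + 1), ‖(uni φ (st (n + 1) 0)) k‖ ^ 2 ∂(haarU (n + 1)) =
        ∫ φ : Un (n + 1), ‖(uni φ (st (n + 1) 0)) j‖ ^ 2 ∂(haarU (n + 1)) := by
    intro k
    obtain ⟨P, hP⟩ := exists_perm (Equiv.swap j k)
    rw [← integral_mulLeft (fun φ : Un (n + 1) => ‖(uni φ (st (n + 1) 0)) j‖ ^ 2) P]
    congr 1
    funext φ
    rw [uni_mul, hP, Equiv.swap_apply_left]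
  have hsum : ∑ k : Fin (n + 1),
      ∫ φ : Un (n + 1), ‖(uni φ (st (n + 1) 0)) k‖ ^ 2 ∂(haarU (n + 1)) = 1 := by
    rw [← integral_finsetSum _ fun k _ => integrable_of_continuous (hcont k)]
    have h1 : ∀ φ : Un (n + 1), ∑ k, ‖(uni φ (st (n + 1) 0)) k‖ ^ 2 = 1 := by
      intro φ
      rw [← EuclideanSpace.norm_sq_eq, (uni φ).norm_map]
      have : ‖st (n + 1) 0‖ = 1 := by
        unfold st
        rw [dif_pos (Nat.succ_pos n)]
        simp
      rw [this, one_pow]
    simp only [h1]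
    simp
  simp only [hsame] at hsum
  rw [Finset.sum_const, Finset.card_univ, Fintype.card_fin, nsmul_eq_mul] at hsum
  have hn : ((n : ℝ) + 1) ≠ 0 := by positivity
  push_cast at hsum
  field_simp
  linarith

end Pool.Agent.H89.EN
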