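import Mathlib
import Pool.Agent.H89.EN.Defs
import Pool.Agent.H89.CZ.TFin

set_option autoImplicit false

/-!
# PairSum: the sum of Tasaki's formula over a real basis

`b = bb m` is the real basis `s_0, i s_0, s_1, i s_1, …` of `ℂᵐ`: orthonormal,
`om (b i) (b j) ^ 2 = 1` if `{i, j} = {2l, 2l+1}`, `0` otherwise.

`pair_sum`: the terms `i = j` vanish (`pair2 a a x y = 0`).  For `m ≥ 2` and `i ≠ j` use `tasaki`
(`H89/CZ/TFin.lean`, `a = ![b i, b j]`): the term is
`al m ω * area x y + be m ω * om x y ^ 2 / area x y` with `ω = om (b i) (b j) ^ 2`.  For fixed `i`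
there is one `j` with `ω = 1` and `2m - 2` with `ω = 0`, and
`al m 1 + (2m-2) al m 0 = 1`, `be m 1 + (2m-2) be m 0 = 0`.  So the sum is `2m * area x y`.
(Or: the term is affine in `ω` and `∑_j om (b i) (b j) ^ 2 = 1`, the number of `j ≠ i` is `2m - 1`.)
For `m = 1`: `uni ψ (b 0) = c • s_0`, `|c| = 1`, `b 1 = i b 0`; `|pair2 (ψ b 0) (ψ b 1) x y| =
|Im (conj x_0 y_0)| = area x y` for every `ψ` (`pair2 p (i p) x y = - om x y` type identity for
`‖p‖ = 1` in `ℂ¹`), two ordered pairs.
-/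

open MeasureTheory Pool.Agent.H61.UProj Pool.Agent.H89.CZ Pool.Agent.H35.NI

noncomputable section

namespace Pool.Agent.H89.EN

private def PSc (a : ℕ) : ℂ := if a % 2 = 0 then 1 else Complex.I

private theorem PS_bb (m : ℕ) (a : Fin (2 * m)) : bb m a = PSc a • st m ((a : ℕ) / 2) := by
  unfold bb vf PSc
  rw [if_pos a.2]
  split_ifs
  · rw [one_smul]
  · rfl

private theorem PS_inner (m : ℕ) (a b : Fin (2 * m)) :
    (inner ℂ (bb m a) (bb m b) : ℂ) =
      (starRingEnd ℂ) (PSc a) * PSc b * (if (a : ℕ) / 2 = (b : ℕ) / 2 then 1 else 0) := by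
  rw [PS_bb, PS_bb, inner_smul_left, inner_smul_right, cinner_st m _ _ (by omega)]
  ring

private theorem PS_re (m : ℕ) (a b : Fin (2 * m)) :
    (inner ℝ (bb m a) (bb m b) : ℝ) = if a = b then 1 else 0 := by
  rw [rinner_eq, PS_inner]
  by_cases h : (a : ℕ) / 2 = (b : ℕ) / 2
  · rw [if_pos h]
    unfold PSc
    by_cases ha : (a : ℕ) % 2 = 0 <;> by_cases hb : (b : ℕ) % 2 = 0
    · have : a = b := Fin.ext (by omega)
      simp [this, hb]
    · have : a ≠ b := fun e => by
        rw [e] at ha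
        exact hb ha
      simp [ha, hb, this]
    · have : a ≠ b := fun e => by
        rw [e] at ha
        exact ha hb
      simp [ha, hb, this]
    · have : a = b := Fin.ext (by omega)
      simp [this, hb]
  · have : a ≠ b := fun e => h (by rw [e])
    simp [h, this]

private theorem PS_om (m : ℕ) (a b : Fin (2 * m)) :
    om (bb m a) (bb m b) ^ 2 = if (a : ℕ) / 2 = (b : ℕ) / 2 ∧ a ≠ b then 1 else 0 := by
  unfold om
  rw [PS_inner]
  by_cases h : (a : ℕ) / 2 = (b : ℕ) / 2
  · rw [if_pos h]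
    unfold PSc
    by_cases ha : (a : ℕ) % 2 = 0 <;> by_cases hb : (b : ℕ) % 2 = 0
    · have : a = b := Fin.ext (by omega)
      simp [this, hb]
    · have : a ≠ b := fun e => by
        rw [e] at ha
        exact hb ha
      simp [ha, hb, this, h]
    · have : a ≠ b := fun e => by
        rw [e] at ha
        exact ha hb
      simp [ha, hb, this, h]
    · have : a = b := Fin.ext (by omega)
      simp [this, hb]
  · simp [h]

theorem orthonormal_bb (m : ℕ) : Orthonormal ℝ (bb m) := by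
  rw [orthonormal_iff_ite]
  intro i j
  exact PS_re m i j

/-- exactly one `j` with `om² = 1` -/
theorem om_bb_sum (m : ℕ) (i : Fin (2 * m)) : ∑ j, om (bb m i) (bb m j) ^ 2 = 1 := by
  simp only [PS_om]
  have hi := i.2
  have hp : (if (i : ℕ) % 2 = 0 then (i : ℕ) + 1 else (i : ℕ) - 1) < 2 * m := by
    split_ifs <;> omega
  rw [Finset.sum_eq_single
    (⟨if (i : ℕ) % 2 = 0 then (i : ℕ) + 1 else (i : ℕ) - 1, hp⟩ : Fin (2 * m))]
  · rw [if_pos]
    constructor
    · show (i : ℕ) / 2 = (if (i : ℕ) % 2 = 0 then (i : ℕ) + 1 else (i : ℕ) - 1) / 2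
      split_ifs <;> omega
    · intro h
      have h1 : (i : ℕ) = if (i : ℕ) % 2 = 0 then (i : ℕ) + 1 else (i : ℕ) - 1 :=
        congrArg Fin.val h
      split_ifs at h1 <;> omega
  · intro b _ hb
    rw [if_neg]
    rintro ⟨h1, h2⟩
    apply hb
    apply Fin.ext
    show (b : ℕ) = if (i : ℕ) % 2 = 0 then (i : ℕ) + 1 else (i : ℕ) - 1
    have h3 : (i : ℕ) ≠ (b : ℕ) := fun h => h2 (Fin.ext h)
    split_ifs <;> omega
  · intro h
    exact absurd (Finset.mem_univ _) h

private theorem PS_self {m : ℕ} (p x y : Cn m) : pair2 p p x y = 0 := by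
  unfold pair2
  ring

/-- one term for `m ≥ 2` -/
private theorem PS_term {m : ℕ} (hm : 2 ≤ m) (x y : Cn m) {i j : Fin (2 * m)} (hij : i ≠ j) :
    (∫ ψ, |pair2 (uni ψ (bb m i)) (uni ψ (bb m j)) x y| ∂(haarU m)) =
      al m (om (bb m i) (bb m j) ^ 2) * area x y +
        be m (om (bb m i) (bb m j) ^ 2) * om x y ^ 2 / area x y := by
  have ho : Orthonormal ℝ (![bb m i, bb m j] : Fin 2 → Cn m) := by
    rw [orthonormal_iff_ite]
    intro k l
    fin_cases k <;> fin_cases l
    · simpa using (PS_re m i i).trans (if_pos rfl)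
    · simpa using (PS_re m i j).trans (if_neg hij)
    · simpa using (PS_re m j i).trans (if_neg hij.symm)
    · simpa using (PS_re m j j).trans (if_pos rfl)
  exact tasaki hm ho x y

private theorem PS_row {m : ℕ} (hm : 2 ≤ m) (x y : Cn m) (i : Fin (2 * m)) :
    ∑ j : Fin (2 * m), (∫ ψ, |pair2 (uni ψ (bb m i)) (uni ψ (bb m j)) x y| ∂(haarU m)) =
      area x y := by
  have hM : (2 : ℝ) ≤ m := by exact_mod_cast hm
  have h0 : (∫ ψ, |pair2 (uni ψ (bb m i)) (uni ψ (bb m i)) x y| ∂(haarU m)) = 0 := by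
    simp [PS_self]
  have hom0 : om (bb m i) (bb m i) ^ 2 = 0 := by
    rw [PS_om]
    simp
  set S := area x y with hS
  set T := om x y ^ 2 / area x y with hT
  have h1 : ∀ j, (∫ ψ, |pair2 (uni ψ (bb m i)) (uni ψ (bb m j)) x y| ∂(haarU m)) =
      (al m (om (bb m i) (bb m j) ^ 2) * S + be m (om (bb m i) (bb m j) ^ 2) * T) -
        (if j = i then (al m 0 * S + be m 0 * T) else 0) := by
    intro j
    by_cases hj : j = i
    · subst hj
      rw [h0, hom0, if_pos rfl, sub_self]
    · rw [PS_term hm x y (fun h => hj h.symm), if_neg hj, sub_zero, hT, mul_div_assoc]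
  simp only [h1]
  rw [Finset.sum_sub_distrib, Finset.sum_ite_eq' Finset.univ i, if_pos (Finset.mem_univ i)]
  have h2 : ∀ j, al m (om (bb m i) (bb m j) ^ 2) * S + be m (om (bb m i) (bb m j) ^ 2) * T =
      (al m 0 * S + be m 0 * T) +
        om (bb m i) (bb m j) ^ 2 * ((-1 / (4 * m * (m - 1))) * S +
          ((2 * m - 1) / (4 * m * (m - 1))) * T) := by
    intro j
    unfold al be
    ring
  simp only [h2]
  rw [Finset.sum_add_distrib, ← Finset.sum_mul, om_bb_sum, Finset.sum_const, Finset.card_univ,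
    Fintype.card_fin, nsmul_eq_mul]
  push_cast
  unfold al be
  have hm1 : (m : ℝ) - 1 ≠ 0 := by
    have : (0 : ℝ) < (m : ℝ) - 1 := by linarith
    exact this.ne'
  have hm0 : (m : ℝ) ≠ 0 := by
    have : (0 : ℝ) < (m : ℝ) := by linarith
    exact this.ne'
  field_simp
  ring

/-- the identity in `ℂ¹` -/
private theorem PS_one (p x y : Cn 1) :
    pair2 p (Complex.I • p) x y = ‖p‖ ^ 2 * om x y := by
  unfold pair2 om
  rw [rinner_eq, rinner_eq, rinner_eq, rinner_eq, EuclideanSpace.norm_sq_eq]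
  simp only [cinner_eq, Fin.sum_univ_one, PiLp.smul_apply, smul_eq_mul, map_mul, Complex.conj_I,
    Complex.mul_re, Complex.mul_im, Complex.conj_re, Complex.conj_im, Complex.neg_re,
    Complex.neg_im, Complex.I_re, Complex.I_im, ← Complex.normSq_eq_norm_sq, Complex.normSq_apply]
  ring

private theorem PS_area_one (x y : Cn 1) : area x y = |om x y| := by
  unfold area om
  rw [rinner_eq, EuclideanSpace.norm_sq_eq, EuclideanSpace.norm_sq_eq, ← Real.sqrt_sq_eq_abs]
  congr 1
  simp only [cinner_eq, Fin.sum_univ_one,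
    Complex.mul_re, Complex.mul_im, Complex.conj_re, Complex.conj_im,
    ← Complex.normSq_eq_norm_sq, Complex.normSq_apply]
  ring

private theorem PS_b1 : bb 1 1 = Complex.I • bb 1 0 := by
  rw [PS_bb, PS_bb]
  simp [PSc]

private theorem PS_swap {m : ℕ} (p q x y : Cn m) : pair2 q p x y = - pair2 p q x y := by
  unfold pair2
  ring

theorem pair_sum {m : ℕ} (hm : 1 ≤ m) (x y : Cn m) :
    ∑ i : Fin (2 * m), ∑ j : Fin (2 * m),
      (∫ ψ, |pair2 (uni ψ (bb m i)) (uni ψ (bb m j)) x y| ∂(haarU m)) = 2 * m * area x y := by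
  rcases Nat.lt_or_ge m 2 with h | h
  · obtain rfl : m = 1 := by omega
    have hn : ∀ ψ : Un 1, ‖uni ψ (bb 1 0)‖ = 1 := by
      intro ψ
      rw [LinearIsometry.norm_map]
      have := PS_re 1 0 0
      rw [if_pos rfl, real_inner_self_eq_norm_sq] at this
      exact (pow_eq_one_iff_of_nonneg (norm_nonneg _) two_ne_zero).1 this
    have h01 : (∫ ψ, |pair2 (uni ψ (bb 1 0)) (uni ψ (bb 1 1)) x y| ∂(haarU 1)) = area x y := by
      have : ∀ ψ : Un 1, |pair2 (uni ψ (bb 1 0)) (uni ψ (bb 1 1)) x y| = area x y := by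
        intro ψ
        rw [PS_b1, uni_csmul, PS_one, hn, PS_area_one]
        simp
      simp only [this]
      simp
    have h10 : (∫ ψ, |pair2 (uni ψ (bb 1 1)) (uni ψ (bb 1 0)) x y| ∂(haarU 1)) = area x y := by
      rw [← h01]
      congr 1
      funext ψ
      rw [PS_swap, abs_neg]
    have h00 : ∀ i : Fin 2, (∫ ψ, |pair2 (uni ψ (bb 1 i)) (uni ψ (bb 1 i)) x y| ∂(haarU 1)) = 0 := by
      intro i
      simp [PS_self]
    have key : ∑ i : Fin 2, ∑ j : Fin 2,
        (∫ ψ, |pair2 (uni ψ (bb 1 i)) (uni ψ (bb 1 j)) x y| ∂(haarU 1)) = 2 * area x y := by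
      rw [Fin.sum_univ_two, Fin.sum_univ_two, Fin.sum_univ_two]
      rw [h00 0, h00 1]
      rw [h01, h10]
      ring
    have : (2 * ((1 : ℕ) : ℝ) * area x y) = 2 * area x y := by push_cast; ring
    rw [this]
    exact key
  · simp only [PS_row h]
    rw [Finset.sum_const, Finset.card_univ, Fintype.card_fin, nsmul_eq_mul]
    push_cast
    ring

end Pool.Agent.H89.EN
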