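import Mathlib
import Pool.Agent.H89.EN.PairSum
import Pool.Agent.H89.EN.GEmb

set_option autoImplicit false

/-!
# GArea: the mean area of (real part, imaginary part) of a part of a unit vector

`c = φ ε`, `ε = st (n+1) 0`, `m = 2r + 2 ≤ n + 1` real coordinates: `x_b = ⟨φ ε, s_b⟩ = Re c_b`,
`y_b = ⟨φ (iε), s_b⟩ = - Im c_b`, `b < m`.
Claim: `∫ √(|x|²|y|² - ⟨x,y⟩²) = (2r+1)/(2(n+1))`.

Proof.  Let `b_a = bb (r+1) a` be the real basis of `ℂ^(r+1)`, `X = ∑ x_a b_a`, `Y = ∑ y_a b_a` in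
`ℂ^(r+1)`: the integrand is `area X Y`.  By `pair_sum`:
`2(r+1) area X Y = ∑_{i,j} ∫_ψ |pair2 (ψ b_i) (ψ b_j) X Y|`, `ψ ∈ U(r+1)`.
`pair2 (ψ b_i) (ψ b_j) X Y = (R x)_i (R y)_j - (R x)_j (R y)_i` with the real orthogonal matrix
`R_(i a) = ⟨ψ b_i, b_a⟩`.  `R` (completed by `1`) is a real orthogonal, hence unitary matrix acting
on `ℂ^(n+1)`: by left invariance (for fixed `ψ`; exchange the integrals)
`∫_φ |(R x)_i (R y)_j - (R x)_j (R y)_i| = ∫_φ |x_i y_j - x_j y_i|`, and this is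
`∫_φ |pair2 (φ ε) (φ iε) s_i s_j| = 1/(2(n+1))` for `i ≠ j` by `tasaki`
(`om (ε) (iε) ^ 2 = 1`, `area s_i s_j = 1`, `om s_i s_j = 0`, `al (n+1) 1 = 2n/(4(n+1)n)`; `n ≥ 1`).
There are `(2r+2)(2r+1)` pairs `i ≠ j`.
-/

open MeasureTheory Pool.Agent.H61.UProj Pool.Agent.H89.CZ Pool.Agent.H35.NI

noncomputable section

namespace Pool.Agent.H89.EN

/-- `√(|x|²|y|² - ⟨x, y⟩²)` -/
def gram2 {m : ℕ} (x y : Fin m → ℝ) : ℝ :=
  √((∑ b, x b * x b) * (∑ b, y b * y b) - (∑ b, x b * y b) ^ 2)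

open scoped Matrix in
/-- a real orthogonal matrix acts on the first coordinates -/
private theorem ga_emb {m N : ℕ} (h : m ≤ N) (R : Matrix (Fin m) (Fin m) ℝ) (hR : Rᵀ * R = 1) :
    ∃ g : Un N, ∀ (z : Cn N) (j : Fin m),
      uni g z (Fin.castLE h j) = ∑ a, ((R j a : ℝ) : ℂ) * z (Fin.castLE h a) := by
  obtain ⟨k, rfl⟩ : ∃ k, N = m + k := ⟨N - m, by omega⟩
  let B : Matrix (Fin m) (Fin m) ℂ := R.map (fun x : ℝ => (x : ℂ))
  have hB : Bᴴ * B = 1 := by
    have h1 : Bᴴ * B = (Rᵀ * R).map (fun x : ℝ => (x : ℂ)) := by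
      ext a b
      simp [B, Matrix.mul_apply, Matrix.conjTranspose_apply]
    rw [h1, hR]
    ext a b
    by_cases hab : a = b
    · subst hab; simp
    · simp [hab]
  let A : Matrix (Fin m ⊕ Fin k) (Fin m ⊕ Fin k) ℂ := Matrix.fromBlocks B 0 0 1
  have hAA : Aᴴ * A = 1 := by
    simp only [A]
    rw [Matrix.fromBlocks_conjTranspose, Matrix.fromBlocks_multiply, hB]
    simp [Matrix.fromBlocks_one]
  let M : Matrix (Fin (m + k)) (Fin (m + k)) ℂ :=
    A.submatrix finSumFinEquiv.symm finSumFinEquiv.symm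
  have hM : Mᴴ * M = 1 := by
    simp only [M]
    rw [Matrix.conjTranspose_submatrix, Matrix.submatrix_mul_equiv, hAA,
      Matrix.submatrix_one_equiv]
  refine ⟨⟨M, Matrix.mem_unitaryGroup_iff'.2 hM⟩, fun z j => ?_⟩
  have e3 : ∀ a : Fin m, Fin.castLE h a = Fin.castAdd k a := fun a => rfl
  simp only [e3]
  rw [uni_apply, Fin.sum_univ_add]
  have e1 : ∀ a : Fin m, M (Fin.castAdd k j) (Fin.castAdd k a) = ((R j a : ℝ) : ℂ) := by
    intro a
    simp only [M, A, B, Matrix.submatrix_apply, finSumFinEquiv_symm_apply_castAdd,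
      Matrix.fromBlocks_apply₁₁, Matrix.map_apply]
  have e2 : ∀ b : Fin k, M (Fin.castAdd k j) (Fin.natAdd m b) = 0 := by
    intro b
    simp only [M, A, Matrix.submatrix_apply, finSumFinEquiv_symm_apply_castAdd,
      finSumFinEquiv_symm_apply_natAdd, Matrix.fromBlocks_apply₁₂, Matrix.zero_apply]
  simp only [e1, e2, zero_mul, Finset.sum_const_zero, add_zero]

private theorem ga_inner {N : ℕ} (u : Cn N) (j : Fin N) : (inner ℝ u (st N j) : ℝ) = (u j).re := by
  rw [real_inner_comm, rinner_eq, inner_st_left]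

private theorem ga_emb' {m N : ℕ} (h : m ≤ N) (R : Matrix (Fin m) (Fin m) ℝ)
    (hR : R.transpose * R = 1) :
    ∃ g : Un N, ∀ (z : Cn N) (j : Fin m),
      (inner ℝ (uni g z) (st N j) : ℝ) = ∑ a : Fin m, R j a * (inner ℝ z (st N a) : ℝ) := by
  obtain ⟨g, hg⟩ := ga_emb h R hR
  refine ⟨g, fun z j => ?_⟩
  have h1 : (inner ℝ (uni g z) (st N j) : ℝ) = (uni g z (Fin.castLE h j)).re :=
    ga_inner (uni g z) (Fin.castLE h j)
  rw [h1, hg, Complex.re_sum]
  refine Finset.sum_congr rfl fun a _ => ?_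
  have h2 : (inner ℝ z (st N a) : ℝ) = (z (Fin.castLE h a)).re := ga_inner z (Fin.castLE h a)
  rw [h2, Complex.re_ofReal_mul]

/-- the matrix of `ψ` in the real basis is orthogonal -/
private theorem ga_orth (m : ℕ) (ψ : Un m) :
    (Matrix.of fun i a : Fin (2 * m) => (inner ℝ (uni ψ (bb m i)) (bb m a) : ℝ)).transpose *
      (Matrix.of fun i a : Fin (2 * m) => (inner ℝ (uni ψ (bb m i)) (bb m a) : ℝ)) = 1 := by
  have hbb := orthonormal_bb m
  have hfr : Module.finrank ℝ (Cn m) = 2 * m := by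
    rw [finrank_real_of_complex, finrank_euclideanSpace_fin]
  have hsp : Submodule.span ℝ (Set.range (bb m)) = ⊤ :=
    hbb.linearIndependent.span_eq_top_of_card_eq_finrank' (by rw [hfr, Fintype.card_fin])
  let b : OrthonormalBasis (Fin (2 * m)) ℝ (Cn m) := OrthonormalBasis.mk hbb hsp.ge
  have hb : ∀ a, b a = bb m a := fun a => by simp [b]
  rw [← mul_eq_one_comm]
  ext i j
  rw [Matrix.mul_apply]
  have h1 := b.sum_inner_mul_inner (uni ψ (bb m i)) (uni ψ (bb m j))
  simp only [Matrix.of_apply, Matrix.transpose_apply]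
  have h2 : ∑ a, (inner ℝ (uni ψ (bb m i)) (bb m a) : ℝ) * inner ℝ (uni ψ (bb m j)) (bb m a) =
      inner ℝ (uni ψ (bb m i)) (uni ψ (bb m j)) := by
    rw [← h1]
    refine Finset.sum_congr rfl fun a _ => ?_
    rw [hb, real_inner_comm (uni ψ (bb m j))]
  rw [h2, LinearIsometry.inner_map_map, orthonormal_iff_ite.1 hbb i j, Matrix.one_apply]

/-- the vector with real coordinates `x` -/
private def gv {m : ℕ} (x : Fin (2 * m) → ℝ) : Cn m := ∑ a, x a • bb m a

private theorem inner_gv {m : ℕ} (u : Cn m) (x : Fin (2 * m) → ℝ) :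
    (inner ℝ u (gv x) : ℝ) = ∑ a, (inner ℝ u (bb m a) : ℝ) * x a := by
  unfold gv
  rw [inner_sum]
  refine Finset.sum_congr rfl fun a _ => ?_
  rw [real_inner_smul_right, mul_comm]

private theorem inner_gv_gv {m : ℕ} (x y : Fin (2 * m) → ℝ) :
    (inner ℝ (gv x) (gv y) : ℝ) = ∑ a, x a * y a := by
  rw [inner_gv]
  refine Finset.sum_congr rfl fun a _ => ?_
  rw [real_inner_comm, inner_gv, Finset.sum_eq_single a]
  · rw [orthonormal_iff_ite.1 (orthonormal_bb m) a a, if_pos rfl, one_mul]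
  · intro c _ hc
    rw [orthonormal_iff_ite.1 (orthonormal_bb m) a c, if_neg (Ne.symm hc), zero_mul]
  · intro hc
    exact absurd (Finset.mem_univ _) hc

private theorem gram2_eq {m : ℕ} (x y : Fin (2 * m) → ℝ) : gram2 x y = area (gv x) (gv y) := by
  unfold gram2 area
  rw [← real_inner_self_eq_norm_sq, ← real_inner_self_eq_norm_sq, inner_gv_gv, inner_gv_gv,
    inner_gv_gv]

private def gx {N : ℕ} (m : ℕ) (z : Cn N) (b : Fin (2 * m)) : ℝ := inner ℝ z (st N b)

/-- the mean of `|x_i y_j - x_j y_i|` -/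
private theorem ga_pair {n m : ℕ} (h : 2 * m ≤ n + 1) (hm : 1 ≤ m) (i j : Fin (2 * m)) :
    ∫ φ, |pair2 (uni φ (st (n + 1) 0)) (uni φ (Complex.I • st (n + 1) 0)) (st (n + 1) i)
      (st (n + 1) j)| ∂(haarU (n + 1)) = if i = j then (0 : ℝ) else 1 / (2 * ((n : ℝ) + 1)) := by
  by_cases hij : i = j
  · subst hij
    rw [if_pos rfl]
    have h1 : ∀ φ : Un (n + 1), |pair2 (uni φ (st (n + 1) 0)) (uni φ (Complex.I • st (n + 1) 0))
        (st (n + 1) i) (st (n + 1) i)| = 0 := by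
      intro φ
      unfold pair2
      rw [sub_self, abs_zero]
    simp only [h1, integral_zero]
  · rw [if_neg hij]
    have hn : 1 ≤ n := by omega
    have c0 : (inner ℂ (st (n + 1) 0) (st (n + 1) 0) : ℂ) = 1 := by
      rw [cinner_st (n + 1) 0 0 (by omega), if_pos rfl]
    have hsn : ∀ a : Fin (2 * m), ‖st (n + 1) a‖ ^ 2 = 1 := by
      intro a
      rw [← real_inner_self_eq_norm_sq, rinner_eq, cinner_st (n + 1) a a (by omega), if_pos rfl,
        Complex.one_re]
    have hs0 : ‖st (n + 1) 0‖ ^ 2 = 1 := hsn ⟨0, by omega⟩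
    have hs1 : ‖st (n + 1) 0‖ = 1 := by
      have h3 := norm_nonneg (st (n + 1) 0)
      nlinarith
    have ha : Orthonormal ℝ (![st (n + 1) 0, Complex.I • st (n + 1) 0] : Fin 2 → Cn (n + 1)) := by
      rw [orthonormal_iff_ite]
      have e01 : (inner ℝ (st (n + 1) 0) (Complex.I • st (n + 1) 0) : ℝ) = 0 := by
        rw [rinner_eq, inner_smul_right, c0, mul_one, Complex.I_re]
      have e11 : (inner ℝ (Complex.I • st (n + 1) 0) (Complex.I • st (n + 1) 0) : ℝ) = 1 := by
        rw [real_inner_self_eq_norm_sq, norm_smul, Complex.norm_I, one_mul, hs0]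
      have e00 : (inner ℝ (st (n + 1) 0) (st (n + 1) 0) : ℝ) = 1 := by
        rw [real_inner_self_eq_norm_sq, hs0]
      intro a b
      fin_cases a <;> fin_cases b
      · simpa using e00
      · simpa using e01
      · rw [real_inner_comm]
        simpa using e01
      · simpa using e11
    have h1 := tasaki (by omega : 2 ≤ n + 1) ha (st (n + 1) i) (st (n + 1) j)
    simp only [Matrix.cons_val_zero, Matrix.cons_val_one] at h1
    rw [h1]
    have hom : om (st (n + 1) 0) (Complex.I • st (n + 1) 0) ^ 2 = 1 := by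
      unfold om
      rw [inner_smul_right, c0]
      simp
    have hij' : (i : ℕ) ≠ j := fun h2 => hij (Fin.ext h2)
    have har : area (st (n + 1) i) (st (n + 1) j) = 1 := by
      unfold area
      rw [hsn, hsn, rinner_eq, cinner_st (n + 1) i j (by omega), if_neg hij']
      simp
    rw [hom, har, om_st (n + 1) i j (by omega)]
    unfold al
    have hn' : (0 : ℝ) < n := by exact_mod_cast hn
    push_cast
    have e5 : (n : ℝ) + 1 - 1 = n := by ring
    rw [e5]
    field_simp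
    ring

private theorem ga_key {n m : ℕ} (h : 2 * m ≤ n + 1) (hm : 1 ≤ m) (i j : Fin (2 * m)) (ψ : Un m) :
    ∫ φ, |pair2 (uni ψ (bb m i)) (uni ψ (bb m j)) (gv (gx m (uni φ (st (n + 1) 0))))
      (gv (gx m (uni φ (Complex.I • st (n + 1) 0))))| ∂(haarU (n + 1)) =
      if i = j then (0 : ℝ) else 1 / (2 * ((n : ℝ) + 1)) := by
  obtain ⟨g, hg⟩ := ga_emb' h _ (ga_orth m ψ)
  rw [← ga_pair h hm i j, ← integral_mulLeft (fun φ => |pair2 (uni φ (st (n + 1) 0))
    (uni φ (Complex.I • st (n + 1) 0)) (st (n + 1) i) (st (n + 1) j)|) g]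
  refine integral_congr_ae (Filter.Eventually.of_forall fun φ => ?_)
  have key : ∀ (z : Cn (n + 1)) (c : Fin (2 * m)), (inner ℝ (uni ψ (bb m c)) (gv (gx m z)) : ℝ) =
      inner ℝ (uni g z) (st (n + 1) c) := by
    intro z c
    rw [inner_gv, hg z c]
    rfl
  simp only [pair2, uni_mul, key]
  congr 1
  ring

private theorem continuous_gv {X : Type*} [TopologicalSpace X] {m : ℕ} {x : X → Fin (2 * m) → ℝ}
    (hx : ∀ a, Continuous fun t => x t a) : Continuous fun t => gv (x t) := by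
  unfold gv
  exact continuous_finsetSum _ fun a _ => (hx a).smul continuous_const

private theorem continuous_gx {N m : ℕ} (z : Cn N) :
    Continuous fun φ : Un N => gv (gx m (uni φ z)) := by
  refine continuous_gv fun a => ?_
  unfold gx
  exact (continuous_uni z).inner continuous_const

private theorem g_area' {n m : ℕ} (h : 2 * m ≤ n + 1) (hm : 1 ≤ m) :
    ∫ φ, area (gv (gx m (uni φ (st (n + 1) 0)))) (gv (gx m (uni φ (Complex.I • st (n + 1) 0))))
      ∂(haarU (n + 1)) = (2 * m - 1) / (2 * (n + 1)) := by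
  have : SecondCountableTopology (Un m) := TMean_sct m
  have : SecondCountableTopology (Un (n + 1)) := TMean_sct (n + 1)
  let X : Un (n + 1) → Cn m := fun φ => gv (gx m (uni φ (st (n + 1) 0)))
  let Y : Un (n + 1) → Cn m := fun φ => gv (gx m (uni φ (Complex.I • st (n + 1) 0)))
  have hX : Continuous X := continuous_gx _
  have hY : Continuous Y := continuous_gx _
  have hc : ∀ i j : Fin (2 * m), Continuous (Function.uncurry (fun (φ : Un (n + 1)) (ψ : Un m) =>
      |pair2 (uni ψ (bb m i)) (uni ψ (bb m j)) (X φ) (Y φ)|)) := by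
    intro i j
    have h1 : ∀ a : Fin (2 * m), Continuous fun q : Un (n + 1) × Un m => uni q.2 (bb m a) :=
      fun a => (continuous_uni (bb m a)).comp continuous_snd
    have h2 : Continuous fun q : Un (n + 1) × Un m => X q.1 := hX.comp continuous_fst
    have h3 : Continuous fun q : Un (n + 1) × Un m => Y q.1 := hY.comp continuous_fst
    have h4 : Continuous fun q : Un (n + 1) × Un m =>
        |pair2 (uni q.2 (bb m i)) (uni q.2 (bb m j)) (X q.1) (Y q.1)| := by
      unfold pair2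
      exact ((((h1 i).inner h2).mul ((h1 j).inner h3)).sub
        (((h1 i).inner h3).mul ((h1 j).inner h2))).abs
    exact h4
  have hI : ∀ i j : Fin (2 * m), Integrable (Function.uncurry (fun (φ : Un (n + 1)) (ψ : Un m) =>
      |pair2 (uni ψ (bb m i)) (uni ψ (bb m j)) (X φ) (Y φ)|)) ((haarU (n + 1)).prod (haarU m)) :=
    fun i j => (hc i j).integrable_of_hasCompactSupport (HasCompactSupport.of_compactSpace _)
  have hI1 : ∀ i j : Fin (2 * m), Integrable (fun φ : Un (n + 1) =>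
      ∫ ψ, |pair2 (uni ψ (bb m i)) (uni ψ (bb m j)) (X φ) (Y φ)| ∂(haarU m)) (haarU (n + 1)) :=
    fun i j => (hI i j).integral_prod_left
  have hsum : 2 * (m : ℝ) * ∫ φ, area (X φ) (Y φ) ∂(haarU (n + 1)) =
      ∑ i : Fin (2 * m), ∑ j : Fin (2 * m), (if i = j then (0 : ℝ) else 1 / (2 * ((n : ℝ) + 1))) := by
    rw [← integral_const_mul]
    have h1 : ∀ φ : Un (n + 1), 2 * (m : ℝ) * area (X φ) (Y φ) =
        ∑ i : Fin (2 * m), ∑ j : Fin (2 * m),
          ∫ ψ, |pair2 (uni ψ (bb m i)) (uni ψ (bb m j)) (X φ) (Y φ)| ∂(haarU m) :=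
      fun φ => (pair_sum hm (X φ) (Y φ)).symm
    simp only [h1]
    rw [integral_finsetSum _ fun i _ => integrable_finsetSum _ fun j _ => hI1 i j]
    refine Finset.sum_congr rfl fun i _ => ?_
    rw [integral_finsetSum _ fun j _ => hI1 i j]
    refine Finset.sum_congr rfl fun j _ => ?_
    rw [integral_integral_swap (hI i j)]
    have h2 : ∀ ψ : Un m, ∫ φ, |pair2 (uni ψ (bb m i)) (uni ψ (bb m j)) (X φ) (Y φ)|
        ∂(haarU (n + 1)) = if i = j then (0 : ℝ) else 1 / (2 * ((n : ℝ) + 1)) :=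
      fun ψ => ga_key h hm i j ψ
    simp only [h2]
    simp
  have hcount : ∑ i : Fin (2 * m), ∑ j : Fin (2 * m),
      (if i = j then (0 : ℝ) else 1 / (2 * ((n : ℝ) + 1))) =
      2 * m * ((2 * m - 1) / (2 * ((n : ℝ) + 1))) := by
    have h1 : ∀ i : Fin (2 * m), ∑ j : Fin (2 * m), (if i = j then (0 : ℝ) else 1 / (2 * ((n : ℝ) + 1))) =
        (2 * m - 1) / (2 * ((n : ℝ) + 1)) := by
      intro i
      have h2 : ∀ j : Fin (2 * m), (if i = j then (0 : ℝ) else 1 / (2 * ((n : ℝ) + 1))) =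
          1 / (2 * ((n : ℝ) + 1)) - (if i = j then 1 / (2 * ((n : ℝ) + 1)) else 0) := by
        intro j
        split_ifs <;> ring
      simp only [h2]
      rw [Finset.sum_sub_distrib, Finset.sum_const, Finset.card_univ, Fintype.card_fin,
        Finset.sum_ite_eq, if_pos (Finset.mem_univ _), nsmul_eq_mul]
      push_cast
      ring
    simp only [h1]
    rw [Finset.sum_const, Finset.card_univ, Fintype.card_fin, nsmul_eq_mul]
    push_cast
    ring
  rw [hcount] at hsum
  have hm0 : (2 * (m : ℝ)) ≠ 0 := by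
    have : (0 : ℝ) < m := by exact_mod_cast hm
    positivity
  exact mul_left_cancel₀ hm0 hsum

theorem g_area {n r : ℕ} (h : 2 * r + 2 ≤ n + 1) :
    ∫ φ, gram2 (fun b : Fin (2 * r + 2) => (inner ℝ (uni φ (st (n + 1) 0)) (st (n + 1) b) : ℝ))
      (fun b : Fin (2 * r + 2) =>
        (inner ℝ (uni φ (Complex.I • st (n + 1) 0)) (st (n + 1) b) : ℝ)) ∂(haarU (n + 1)) =
      (2 * r + 1) / (2 * (n + 1)) := by
  have h1 := g_area' (n := n) (m := r + 1) (by omega) (by omega)
  have h2 : ∀ φ : Un (n + 1),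
      gram2 (fun b : Fin (2 * r + 2) => (inner ℝ (uni φ (st (n + 1) 0)) (st (n + 1) b) : ℝ))
      (fun b : Fin (2 * r + 2) =>
        (inner ℝ (uni φ (Complex.I • st (n + 1) 0)) (st (n + 1) b) : ℝ)) =
      area (gv (gx (r + 1) (uni φ (st (n + 1) 0))))
        (gv (gx (r + 1) (uni φ (Complex.I • st (n + 1) 0)))) := by
    intro φ
    exact gram2_eq (m := r + 1) (gx (r + 1) (uni φ (st (n + 1) 0)))
      (gx (r + 1) (uni φ (Complex.I • st (n + 1) 0)))
  simp only [h2]
  rw [h1]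
  push_cast
  ring

end Pool.Agent.H89.EN
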