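import Mathlib
import Pool.Agent.H35.NI.Lin
import Pool.Agent.H35.NI.NFu
import Pool.Agent.H89.EN.GEmb
import Pool.Agent.H89.EN.GArea

set_option autoImplicit false

/-!
# GReal: integration over the stabilizer of a vector, real frame

`m = 2r + 2 ≤ n + 1`, `ε = st (n+1) 0`, `h` from `exists_embL`.  By `gg_symm` consider
`gg (cf (n+1) (r+1)) w`, `w_b = s_b`, `b < m`; `cf (n+1) (r+1) = (ε, iε, lf (cf n r))`
(`s_(j+1) = lf s_j`).  By `int_embL`: `∫_φ ∫_ψ |DD ((φ h(ψ)) cf) w|`.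

Fix `φ`, `x_b = ⟨φ ε, s_b⟩`, `y_b = ⟨φ (iε), s_b⟩`.  Claim:
`∫_ψ |DD ((φ h(ψ)) cf) w| = gram2 x y * gg (cf n r) (s_0, …, s_(2r-1))`.  Let `x', y', g_1, …, g_(2r)`
be an orthonormal basis of `ℝ^m` with `g_l` orthogonal to `x` and `y` (orthogonal complement has
dimension `≥ 2r`).  Replace `w` by `w O` (`|det O| = 1`): `w' = (∑ x'_b s_b, ∑ y'_b s_b, G_l)`,
`G_l = ∑_b g_l b • s_b`.  The rows `φ ε`, `φ iε` vanish on the `G_l`, so the determinant is
`(2×2 determinant of (x, y) in the basis (x', y'), of absolute value gram2 x y) *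
DD ((φ h(ψ)) lf (cf n r)) G`.  And `DD ((φ h(ψ)) lf cf) G = DD (lf (ψ cf)) (φ⁻¹ G)`; `φ⁻¹ G_l` is
orthogonal to `ε` and `iε` (real inner products `⟨φ ε, G_l⟩ = ⟨x, g_l⟩ = 0`), so its first
coordinate vanishes, `φ⁻¹ G_l = lf H_l`; `G` is complex orthonormal (real combinations of `s_b`:
`om (G_l) (G_k) = 0`), so `H` is; `∫_ψ |DD (ψ cf) H| = gg (cf n r) H = gg (cf n r) (s_0, …)`
(`uni_of_gram`, `gg_symm`, `gg_uni`).
(If `gram2 x y = 0`, the vectors `x, y` are dependent and everything is still true.)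
Then `g_area`.
-/

open MeasureTheory Pool.Agent.H61.UProj Pool.Agent.H89.CZ Pool.Agent.H35.NI

noncomputable section

namespace Pool.Agent.H89.EN

/-! ### An orthonormal basis adapted to two vectors -/

private theorem gr_basis {r : ℕ} (x y : EuclideanSpace ℝ (Fin (2 * r + 2))) :
    ∃ b : OrthonormalBasis (Fin (2 * r + 2)) ℝ (EuclideanSpace ℝ (Fin (2 * r + 2))),
      ∀ a : Fin (2 * r + 2), 2 ≤ (a : ℕ) →
        (inner ℝ x (b a) : ℝ) = 0 ∧ (inner ℝ y (b a) : ℝ) = 0 := by
  classical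
  let S : Submodule ℝ (EuclideanSpace ℝ (Fin (2 * r + 2))) := Submodule.span ℝ (Set.range ![x, y])
  have hS : Module.finrank ℝ S ≤ 2 := by
    have := finrank_range_le_card (R := ℝ) ![x, y]
    simpa [S, Set.finrank] using this
  have hd : 2 * r ≤ Module.finrank ℝ Sᗮ := by
    have h1 := Submodule.finrank_add_finrank_orthogonal S
    rw [finrank_euclideanSpace_fin] at h1
    omega
  have hx : x ∈ S := Submodule.subset_span ⟨0, rfl⟩
  have hy : y ∈ S := Submodule.subset_span ⟨1, rfl⟩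
  let g := stdOrthonormalBasis ℝ Sᗮ
  let v : Fin (2 * r + 2) → EuclideanSpace ℝ (Fin (2 * r + 2)) := fun a =>
    if h : 2 ≤ (a : ℕ) then ((g ⟨(a : ℕ) - 2, by omega⟩ : Sᗮ) : EuclideanSpace ℝ _) else 0
  have hva : ∀ (a : Fin (2 * r + 2)) (h : 2 ≤ (a : ℕ)),
      v a = ((g ⟨(a : ℕ) - 2, by omega⟩ : Sᗮ) : EuclideanSpace ℝ _) := fun a h => dif_pos h
  have hv : Orthonormal ℝ (Set.domRestrict {a : Fin (2 * r + 2) | 2 ≤ (a : ℕ)} v) := by
    rw [orthonormal_iff_ite]
    rintro ⟨a, ha⟩ ⟨c, hc⟩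
    have ha' : 2 ≤ (a : ℕ) := ha
    have hc' : 2 ≤ (c : ℕ) := hc
    have h1 := orthonormal_iff_ite.1 g.orthonormal ⟨(a : ℕ) - 2, by omega⟩ ⟨(c : ℕ) - 2, by omega⟩
    rw [Submodule.coe_inner] at h1
    change (inner ℝ (v a) (v c) : ℝ) = _
    rw [hva a ha', hva c hc', h1]
    by_cases hac : a = c
    · subst hac
      simp
    · rw [if_neg, if_neg]
      · intro h
        exact hac (Subtype.mk.inj h)
      · intro h
        have := Fin.mk.inj h
        exact hac (Fin.ext (by omega))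
  obtain ⟨b, hb⟩ := hv.exists_orthonormalBasis_extension_of_card_eq (by simp)
  refine ⟨b, fun a ha => ?_⟩
  rw [hb a ha, hva a ha]
  exact ⟨Submodule.inner_right_of_mem_orthogonal hx (Subtype.mem _),
    Submodule.inner_right_of_mem_orthogonal hy (Subtype.mem _)⟩

/-! ### The frame `cf (n+1) (r+1)` -/

private theorem gr_st_lf (n j : ℕ) : st (n + 1) (j + 1) = lf (st n j) := by
  ext i
  refine Fin.cases ?_ (fun i => ?_) i
  · rw [st_apply, lf_zero]
    simp
  · rw [st_apply, lf_succ, st_apply]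
    simp

private theorem gr_cf0 (n r : ℕ) (a : Fin (2 * (r + 1))) (ha : (a : ℕ) = 0) :
    cf (n + 1) (r + 1) a = st (n + 1) 0 := by
  unfold cf vf
  rw [ha, if_pos (by omega)]
  simp

private theorem gr_cf1 (n r : ℕ) (a : Fin (2 * (r + 1))) (ha : (a : ℕ) = 1) :
    cf (n + 1) (r + 1) a = Complex.I • st (n + 1) 0 := by
  unfold cf vf
  rw [ha, if_pos (by omega)]
  simp

private theorem gr_cf2 (n r : ℕ) (a : Fin (2 * (r + 1))) (l : Fin (2 * r))
    (ha : (a : ℕ) = l + 2) : cf (n + 1) (r + 1) a = lf (cf n r l) := by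
  unfold cf vf
  have hl := l.2
  rw [ha, if_pos (by omega), if_pos hl]
  have h2 : ((l : ℕ) + 2) / 2 = (l : ℕ) / 2 + 1 := by omega
  have h3 : ((l : ℕ) + 2) % 2 = (l : ℕ) % 2 := by omega
  rw [h2, h3, gr_st_lf]
  split_ifs
  · rfl
  · rw [lf_smul]

/-! ### Vectors orthogonal to `ε` and `iε` -/

private theorem gr_lift {n : ℕ} (u : Cn (n + 1))
    (h0 : (inner ℝ (st (n + 1) 0) u : ℝ) = 0)
    (h1 : (inner ℝ (Complex.I • st (n + 1) 0) u : ℝ) = 0) :
    ∃ v : Cn n, u = lf v := by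
  have h2 : (inner ℂ (st (n + 1) 0) u : ℂ) = u 0 := inner_st_left (n + 1) 0 u
  rw [rinner_eq, h2] at h0
  rw [rinner_eq, inner_smul_left, h2] at h1
  have h3 : (u 0).im = 0 := by
    have : ((starRingEnd ℂ) Complex.I * u 0).re = (u 0).im := by
      simp
    rw [this] at h1
    exact h1
  have h4 : u 0 = 0 := Complex.ext h0 h3
  refine ⟨WithLp.toLp 2 (fun j => u j.succ), ?_⟩
  ext j
  refine Fin.cases ?_ (fun j => ?_) j
  · rw [lf_zero, h4]
  · rw [lf_succ]

private theorem gr_cinner_uni {n : ℕ} (φ : Un n) (u v : Cn n) :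
    (inner ℂ (uni φ u) (uni φ v) : ℂ) = inner ℂ u v := by
  refine Complex.ext ?_ ?_
  · rw [← rinner_eq, ← rinner_eq, LinearIsometry.inner_map_map]
  · exact om_uni φ u v

private theorem gr_sum2 {r : ℕ} (f : Fin (2 * r + 2) → ℝ) 
    (hf : ∀ a : Fin (2 * r + 2), 2 ≤ (a : ℕ) → f a = 0) :
    ∑ a, f a = f 0 + f 1 := by
  rw [Fin.sum_univ_succ, Fin.sum_univ_succ, Finset.sum_eq_zero, add_zero]
  · rfl
  · intro l _
    apply hf
    simp

private theorem gr_block {r : ℕ} (M : Matrix (Fin (2 * r + 2)) (Fin (2 * r + 2)) ℝ)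
    (hM : ∀ l : Fin (2 * r), M 0 l.succ.succ = 0 ∧ M 1 l.succ.succ = 0) :
    M.det = (M 0 0 * M 1 1 - M 0 1 * M 1 0) *
      (Matrix.of fun l k : Fin (2 * r) => M l.succ.succ k.succ.succ).det := by
  let e : Fin 2 ⊕ Fin (2 * r) ≃ Fin (2 * r + 2) := finSumFinEquiv.trans (finCongr (by omega))
  have e0 : e (Sum.inl 0) = 0 := by
    apply Fin.ext
    simp [e]
  have e1 : e (Sum.inl 1) = 1 := by
    apply Fin.ext
    simp [e]
  have e2 : ∀ l, e (Sum.inr l) = l.succ.succ := by
    intro l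
    apply Fin.ext
    simp [e]
  have h1 : M.submatrix e e = Matrix.fromBlocks (!![M 0 0, M 0 1; M 1 0, M 1 1]) 0
      (Matrix.of fun (l : Fin (2 * r)) (j : Fin 2) => M l.succ.succ (e (Sum.inl j)))
      (Matrix.of fun l k : Fin (2 * r) => M l.succ.succ k.succ.succ) := by
    ext i j
    rcases i with i | i <;> rcases j with j | j
    · fin_cases i <;> fin_cases j <;> simp [e0, e1]
    · fin_cases i
      · simp [e0, e2, (hM j).1]
      · simp [e1, e2, (hM j).2]
    · simp [e2]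
    · simp [e2]
  rw [← Matrix.det_submatrix_equiv_self e M, h1, Matrix.det_fromBlocks_zero₁₂,
    Matrix.det_fin_two_of]

private theorem gr_csum {n m : ℕ} (s t : Fin m → ℝ) (hmn : m ≤ n) :
    (inner ℂ (∑ b, s b • st n b) (∑ c, t c • st n c) : ℂ) = ((∑ b, s b * t b : ℝ) : ℂ) := by
  rw [sum_inner]
  push_cast
  refine Finset.sum_congr rfl fun b _ => ?_
  rw [inner_sum, Finset.sum_eq_single b]
  · rw [← Complex.coe_smul, ← Complex.coe_smul, inner_smul_left, inner_smul_right,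
      cinner_st n b b (by omega), if_pos rfl, Complex.conj_ofReal, mul_one]
  · intro c _ hc
    have h : (b : ℕ) ≠ c := fun h => hc (Fin.ext h.symm)
    rw [← Complex.coe_smul, ← Complex.coe_smul, inner_smul_left, inner_smul_right,
      cinner_st n b c (by omega), if_neg h, mul_zero, mul_zero]
  · intro h
    exact absurd (Finset.mem_univ _) h

/-- The determinant for fixed `φ`. -/
private theorem gr_fix {n r : ℕ} (h : 2 * r + 2 ≤ n + 1) (φ : Un (n + 1)) :
    ∃ H : Fin (2 * r) → Cn n, (∀ k l, (inner ℂ (H k) (H l) : ℂ) = if k = l then 1 else 0) ∧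
      ∀ (z : Fin (2 * r) → Cn n) (X : Fin (2 * r + 2) → Cn (n + 1)),
        X 0 = uni φ (st (n + 1) 0) → X 1 = uni φ (Complex.I • st (n + 1) 0) →
        (∀ l : Fin (2 * r), X l.succ.succ = uni φ (lf (z l))) →
        |DD X (fun b : Fin (2 * r + 2) => st (n + 1) b)| =
          gram2 (fun b : Fin (2 * r + 2) =>
              (inner ℝ (uni φ (st (n + 1) 0)) (st (n + 1) b) : ℝ))
            (fun b : Fin (2 * r + 2) =>
              (inner ℝ (uni φ (Complex.I • st (n + 1) 0)) (st (n + 1) b) : ℝ)) * |DD z H| := by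
  set x : EuclideanSpace ℝ (Fin (2 * r + 2)) := WithLp.toLp 2 (fun b : Fin (2 * r + 2) =>
    (inner ℝ (uni φ (st (n + 1) 0)) (st (n + 1) b) : ℝ)) with hx
  set y : EuclideanSpace ℝ (Fin (2 * r + 2)) := WithLp.toLp 2 (fun b : Fin (2 * r + 2) =>
    (inner ℝ (uni φ (Complex.I • st (n + 1) 0)) (st (n + 1) b) : ℝ)) with hy
  obtain ⟨O, hO⟩ := gr_basis x y
  let w : Fin (2 * r + 2) → Cn (n + 1) := fun a => ∑ b : Fin (2 * r + 2), O a b • st (n + 1) b
  have hinn : ∀ u v : EuclideanSpace ℝ (Fin (2 * r + 2)), (inner ℝ u v : ℝ) = ∑ b, u b * v b := by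
    intro u v
    rw [PiLp.inner_apply]
    refine Finset.sum_congr rfl fun b _ => ?_
    simp [mul_comm]
  have hwx : ∀ a, (inner ℝ (uni φ (st (n + 1) 0)) (w a) : ℝ) = inner ℝ x (O a) := by
    intro a
    rw [hinn]
    simp only [w]
    rw [inner_sum]
    refine Finset.sum_congr rfl fun b _ => ?_
    rw [real_inner_smul_right, mul_comm]
  have hwy : ∀ a, (inner ℝ (uni φ (Complex.I • st (n + 1) 0)) (w a) : ℝ) = inner ℝ y (O a) := by
    intro a
    rw [hinn]
    simp only [w]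
    rw [inner_sum]
    refine Finset.sum_congr rfl fun b _ => ?_
    rw [real_inner_smul_right, mul_comm]
  have hOO : ∀ a c, ∑ b, O a b * O c b = if a = c then 1 else 0 := by
    intro a c
    rw [← hinn]
    exact orthonormal_iff_ite.1 O.orthonormal a c
  have hww : ∀ a c, (inner ℂ (w a) (w c) : ℂ) = if a = c then 1 else 0 := by
    intro a c
    simp only [w]
    rw [gr_csum _ _ h, hOO]
    split_ifs <;> simp
  have hlift : ∀ k : Fin (2 * r), ∃ v : Cn n, uni φ⁻¹ (w k.succ.succ) = lf v := by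
    intro k
    have hk : 2 ≤ ((k.succ.succ : Fin (2 * r + 2)) : ℕ) := by simp
    apply gr_lift
    · rw [← LinearIsometry.inner_map_map (uni φ), uni_uni_inv, hwx]
      exact (hO _ hk).1
    · rw [← LinearIsometry.inner_map_map (uni φ), uni_uni_inv, hwy]
      exact (hO _ hk).2
  choose H hH using hlift
  have hH2 : ∀ k, w k.succ.succ = uni φ (lf (H k)) := fun k => by rw [← hH, uni_uni_inv]
  refine ⟨H, fun k l => ?_, fun z X hX0 hX1 hX2 => ?_⟩
  · rw [← inner_lf, ← gr_cinner_uni φ, ← hH2, ← hH2, hww]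
    by_cases hkl : k = l
    · subst hkl
      simp
    · rw [if_neg hkl, if_neg]
      intro h'
      exact hkl (Fin.succ_injective _ (Fin.succ_injective _ h'))
  · -- change of the frame
    let R : Matrix (Fin (2 * r + 2)) (Fin (2 * r + 2)) ℝ := Matrix.of fun a b => O a b
    have hR : R * R.transpose = 1 := by
      ext a c
      rw [Matrix.mul_apply, Matrix.one_apply]
      simp only [R, Matrix.transpose_apply, Matrix.of_apply]
      exact hOO a c
    have hdet : |R.det| = 1 := by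
      have h1 : R.det * R.det = 1 := by
        have h2 := congrArg Matrix.det hR
        rw [Matrix.det_mul, Matrix.det_transpose, Matrix.det_one] at h2
        exact h2
      have h3 : |R.det| * |R.det| = 1 := by rw [← abs_mul, h1, abs_one]
      nlinarith [abs_nonneg R.det]
    have h1 : DD X w = R.det * DD X (fun b : Fin (2 * r + 2) => st (n + 1) b) := by
      rw [DD_comm X, DD_comm X]
      exact DD_comb (fun a => rfl) X
    have h2 : |DD X (fun b : Fin (2 * r + 2) => st (n + 1) b)| = |DD X w| := by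
      rw [h1, abs_mul, hdet, one_mul]
    rw [h2]
    -- block structure
    have hz0 : ∀ a : Fin (2 * r + 2), 2 ≤ (a : ℕ) → (inner ℝ (X 0) (w a) : ℝ) = 0 := by
      intro a ha
      rw [hX0, hwx]
      exact (hO a ha).1
    have hz1 : ∀ a : Fin (2 * r + 2), 2 ≤ (a : ℕ) → (inner ℝ (X 1) (w a) : ℝ) = 0 := by
      intro a ha
      rw [hX1, hwy]
      exact (hO a ha).2
    have h3 : DD X w = ((inner ℝ (X 0) (w 0) : ℝ) * inner ℝ (X 1) (w 1) -
        (inner ℝ (X 0) (w 1) : ℝ) * inner ℝ (X 1) (w 0)) * DD z H := by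
      unfold DD
      rw [gr_block]
      · simp only [Matrix.of_apply]
        congr 2
        ext l k
        simp only [Matrix.of_apply]
        rw [hX2, hH2, LinearIsometry.inner_map_map, rinner_lf]
      · intro l
        have hl : 2 ≤ ((l.succ.succ : Fin (2 * r + 2)) : ℕ) := by simp
        exact ⟨hz0 _ hl, hz1 _ hl⟩
    have hpar : ∀ u v : EuclideanSpace ℝ (Fin (2 * r + 2)),
        (∀ a : Fin (2 * r + 2), 2 ≤ (a : ℕ) → (inner ℝ u (O a) : ℝ) = 0) →
        ∑ b, u b * v b = (inner ℝ u (O 0) : ℝ) * inner ℝ v (O 0) +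
          (inner ℝ u (O 1) : ℝ) * inner ℝ v (O 1) := by
      intro u v hu
      rw [← hinn, ← O.sum_inner_mul_inner u v, gr_sum2]
      · rw [real_inner_comm (O 0) v, real_inner_comm (O 1) v]
      · intro a ha
        rw [hu a ha, zero_mul]
    have hox : ∀ a : Fin (2 * r + 2), 2 ≤ (a : ℕ) → (inner ℝ x (O a) : ℝ) = 0 :=
      fun a ha => (hO a ha).1
    have hoy : ∀ a : Fin (2 * r + 2), 2 ≤ (a : ℕ) → (inner ℝ y (O a) : ℝ) = 0 :=
      fun a ha => (hO a ha).2
    have h4 : gram2 (fun b => x b) (fun b => y b) =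
        |(inner ℝ (X 0) (w 0) : ℝ) * inner ℝ (X 1) (w 1) -
        (inner ℝ (X 0) (w 1) : ℝ) * inner ℝ (X 1) (w 0)| := by
      unfold gram2
      rw [hpar x x hox, hpar y y hoy, hpar x y hox, hX0, hX1, hwx, hwx, hwy, hwy,
        ← Real.sqrt_sq_eq_abs]
      congr 1
      ring
    rw [h3, abs_mul, ← h4]

private theorem gr_cont {n m : ℕ} (E W : Fin m → Cn n) :
    Continuous (fun φ : Un n => |DD (fun a => uni φ (E a)) W|) := by
  refine Continuous.abs ?_
  have h1 : Continuous (fun φ : Un n => ((fun a => uni φ (E a), W) :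
      (Fin m → Cn n) × (Fin m → Cn n))) :=
    (continuous_pi fun a => continuous_uni (E a)).prodMk continuous_const
  have h2 := (continuous_DD (n := n) (i := m)).comp h1
  exact h2

private theorem gr_main {n r : ℕ} (h : 2 * r + 2 ≤ n + 1) (E : Fin (2 * r + 2) → Cn (n + 1))
    (hE0 : E 0 = st (n + 1) 0) (hE1 : E 1 = Complex.I • st (n + 1) 0)
    (hE2 : ∀ l : Fin (2 * r), E l.succ.succ = lf (cf n r l)) :
    gg (fun a : Fin (2 * r + 2) => st (n + 1) a) E =
      (2 * r + 1) / (2 * (n + 1)) * gg (fun a : Fin (2 * r) => st n a) (cf n r) := by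
  rw [gg_symm]
  obtain ⟨g, hc, hg⟩ := exists_embL n
  have h1 : gg E (fun a : Fin (2 * r + 2) => st (n + 1) a) = ∫ φ, ∫ ψ,
      |DD (fun a => uni (φ * g ψ) (E a)) (fun a : Fin (2 * r + 2) => st (n + 1) a)|
        ∂(haarU n) ∂(haarU (n + 1)) :=
    int_embL (gr_cont E _) hc
  have h2 : ∀ φ : Un (n + 1), ∫ ψ,
      |DD (fun a => uni (φ * g ψ) (E a)) (fun a : Fin (2 * r + 2) => st (n + 1) a)| ∂(haarU n) =
      gram2 (fun b : Fin (2 * r + 2) =>
          (inner ℝ (uni φ (st (n + 1) 0)) (st (n + 1) b) : ℝ))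
        (fun b : Fin (2 * r + 2) =>
          (inner ℝ (uni φ (Complex.I • st (n + 1) 0)) (st (n + 1) b) : ℝ)) *
      gg (fun a : Fin (2 * r) => st n a) (cf n r) := by
    intro φ
    obtain ⟨H, hH, hfix⟩ := gr_fix h φ
    have h3 : ∀ ψ : Un n,
        |DD (fun a => uni (φ * g ψ) (E a)) (fun a : Fin (2 * r + 2) => st (n + 1) a)| =
        gram2 (fun b : Fin (2 * r + 2) =>
          (inner ℝ (uni φ (st (n + 1) 0)) (st (n + 1) b) : ℝ))
        (fun b : Fin (2 * r + 2) =>
          (inner ℝ (uni φ (Complex.I • st (n + 1) 0)) (st (n + 1) b) : ℝ)) *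
        |DD (fun l => uni ψ (cf n r l)) H| := by
      intro ψ
      refine hfix (fun l => uni ψ (cf n r l)) (fun a => uni (φ * g ψ) (E a)) ?_ ?_ ?_
      · rw [uni_mul, hE0, (hg ψ).2]
      · rw [uni_mul, hE1, uni_csmul, (hg ψ).2]
      · intro l
        rw [uni_mul, hE2, (hg ψ).1]
    simp only [h3]
    rw [integral_const_mul]
    congr 1
    obtain ⟨ψ0, hψ0⟩ := uni_of_gram (e := H) (f := fun a : Fin (2 * r) => st n a) (by
      intro a b
      rw [hH, cinner_st n a b (by omega)]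
      by_cases hab : a = b
      · subst hab
        simp
      · rw [if_neg hab, if_neg]
        intro h'
        exact hab (Fin.ext h'))
    have h4 : H = fun a : Fin (2 * r) => uni ψ0 (st n a) := funext hψ0
    change gg (cf n r) H = _
    rw [gg_symm, h4, gg_uni]
  rw [h1]
  simp only [h2]
  rw [integral_mul_const, g_area h]

theorem g_real {n r : ℕ} (h : 2 * r + 2 ≤ n + 1) :
    gg (fun a : Fin (2 * r + 2) => st (n + 1) a) (cf (n + 1) (r + 1)) =
      (2 * r + 1) / (2 * (n + 1)) * gg (fun a : Fin (2 * r) => st n a) (cf n r) :=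
  gr_main h _ (gr_cf0 n r _ rfl) (gr_cf1 n r _ rfl) fun l => gr_cf2 n r _ l (by simp)

end Pool.Agent.H89.EN
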