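import Mathlib
import Pool.Agent.H35.NI.Lin
import Pool.Agent.H35.NI.NFu
import Pool.Agent.H89.EN.GEmb

set_option autoImplicit false

/-!
# GLine: integration over the stabilizer of a complex line

`ε = st (n+1) 0`, `e = (ε, iε, lf x_0, lf x_1, …)`, `w = cf (n+1) (r+1)`, `h` from `exists_embL`.

(1) `gg e w = ∫_φ ∫_ψ |DD ((φ h(ψ)) e) w|` (`int_embL`; continuity: `continuous_DD`,
`continuous_uni`).
(2) `GL_pt`: fix `φ`.  A unitary map `K` which acts on the first `r + 1` coordinates only moves the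
vector of the first `r + 1` coordinates of `φ ε` to `(t, 0, …, 0)`.  It changes `w` by a real
orthogonal matrix, so `|DD (φ e) w| = |DD (K φ e) w|`.  The matrix of `DD (K φ e) w` is block
triangular, its determinant is `t² DD x g`, where `lf g_b = (K φ)⁻¹ w_(b+2)`; `g` has the Gram
matrix of `cf n r`, so `g = χ (cf n r)` for a unitary `χ` (`uni_of_gram`).
`t² = ∑_{j ≤ r} |(φ ε)_j|²`.
(3) `∫_φ ∑_{j ≤ r} |(φ ε)_j|² = (r+1)/(n+1)` (`int_coord`).
-/

open MeasureTheory Pool.Agent.H61.UProj Pool.Agent.H89.CZ Pool.Agent.H35.NI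

noncomputable section

namespace Pool.Agent.H89.EN

variable {n : ℕ}

/-! ### The real frame -/

private def GL_bv (n t : ℕ) : Cn n :=
  if t % 2 = 0 then st n (t / 2) else Complex.I • st n (t / 2)

private theorem GL_cf {n r : ℕ} (a : Fin (2 * r)) : cf n r a = GL_bv n a := by
  unfold cf vf GL_bv
  rw [if_pos a.2]

private theorem GL_bv_apply (n t : ℕ) (j : Fin n) (h : (j : ℕ) ≠ t / 2) : GL_bv n t j = 0 := by
  unfold GL_bv
  split_ifs
  · rw [st_apply, if_neg h]
  · rw [PiLp.smul_apply, st_apply, if_neg h, smul_zero]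

private theorem GL_inner (n t : ℕ) (j : Fin n) (h : t / 2 = j) (z : Cn n) :
    (inner ℝ (GL_bv n t) z : ℝ) = if t % 2 = 0 then (z j).re else (z j).im := by
  rw [rinner_eq]
  unfold GL_bv
  rw [h]
  split_ifs
  · rw [inner_st_left]
  · rw [inner_smul_left, inner_st_left]
    simp

private theorem GL_st_succ (n j : ℕ) : st (n + 1) (j + 1) = lf (st n j) := by
  ext k
  refine Fin.cases ?_ (fun k => ?_) k
  · rw [st_apply, lf_zero, if_neg]
    simp
  · rw [st_apply, lf_succ, st_apply]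
    simp

private theorem GL_bv_lf (n t : ℕ) : GL_bv (n + 1) (t + 2) = lf (GL_bv n t) := by
  unfold GL_bv
  have h1 : (t + 2) % 2 = t % 2 := by omega
  have h2 : (t + 2) / 2 = t / 2 + 1 := by omega
  rw [h1, h2]
  split_ifs
  · exact GL_st_succ n _
  · rw [lf_smul, GL_st_succ]

private theorem GL_pair {M : Type*} [AddCommMonoid M] (F : ℕ → M) (m : ℕ) :
    ∑ c ∈ Finset.range (2 * m), F c = ∑ i ∈ Finset.range m, (F (2 * i) + F (2 * i + 1)) := by
  induction m with
  | zero => simp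
  | succ m ih =>
    rw [Nat.mul_succ, Finset.sum_range_succ, Finset.sum_range_succ, ih, Finset.sum_range_succ,
      add_assoc]

private theorem GL_two {n : ℕ} (i : Fin n) (z : Cn n) :
    (inner ℝ (GL_bv n (2 * i)) z : ℝ) • GL_bv n (2 * i) +
      (inner ℝ (GL_bv n (2 * i + 1)) z : ℝ) • GL_bv n (2 * i + 1) = z i • st n i := by
  rw [GL_inner n (2 * i) i (by omega), GL_inner n (2 * i + 1) i (by omega),
    if_pos (by omega), if_neg (by omega)]
  have h1 : GL_bv n (2 * i) = st n i := by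
    unfold GL_bv
    rw [if_pos (by omega)]
    congr 1
    omega
  have h2 : GL_bv n (2 * i + 1) = Complex.I • st n i := by
    unfold GL_bv
    rw [if_neg (by omega)]
    congr 2
    omega
  rw [h1, h2]
  ext k
  simp only [PiLp.add_apply, PiLp.smul_apply, Complex.real_smul, smul_eq_mul]
  conv_rhs => rw [← Complex.re_add_im (z i)]
  ring

private theorem GL_expand {n m : ℕ} (hm : m ≤ n) (z : Cn n)
    (hz : ∀ j : Fin n, m ≤ (j : ℕ) → z j = 0) :
    z = ∑ c : Fin (2 * m), (inner ℝ (cf n m c) z : ℝ) • cf n m c := by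
  have h0 : ∀ c : Fin (2 * m), (inner ℝ (cf n m c) z : ℝ) • cf n m c =
      (fun t : ℕ => (inner ℝ (GL_bv n t) z : ℝ) • GL_bv n t) c := fun c => by rw [GL_cf]
  rw [Finset.sum_congr rfl fun c _ => h0 c, Fin.sum_univ_eq_sum_range
    (fun t : ℕ => (inner ℝ (GL_bv n t) z : ℝ) • GL_bv n t) (2 * m), GL_pair]
  have h1 : ∀ i ∈ Finset.range m, (inner ℝ (GL_bv n (2 * i)) z : ℝ) • GL_bv n (2 * i) +
      (inner ℝ (GL_bv n (2 * i + 1)) z : ℝ) • GL_bv n (2 * i + 1) =
      (if h : i < n then z ⟨i, h⟩ else 0) • st n i := by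
    intro i hi
    have h2 : i < n := lt_of_lt_of_le (Finset.mem_range.1 hi) hm
    rw [dif_pos h2]
    exact GL_two ⟨i, h2⟩ z
  rw [Finset.sum_congr rfl h1]
  ext j
  rw [WithLp.ofLp_sum, Finset.sum_apply]
  simp only [PiLp.smul_apply, st_apply, smul_eq_mul, mul_ite, mul_one, mul_zero]
  rw [Finset.sum_ite_eq, dif_pos j.2]
  split_ifs with h3
  · rfl
  · exact hz j (by simpa using h3)

private theorem GL_orth {n r : ℕ} (hr : r ≤ n) : Orthonormal ℝ (cf n r) := by
  rw [orthonormal_iff_ite]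
  intro a b
  have ha : (a : ℕ) / 2 < n := by have := a.2; omega
  rw [GL_cf, GL_cf, GL_inner n a ⟨a / 2, ha⟩ rfl]
  by_cases hab : a = b
  · subst hab
    rw [if_pos rfl]
    unfold GL_bv
    split_ifs with h
    · rw [st_apply, if_pos rfl]; simp
    · rw [PiLp.smul_apply, st_apply, if_pos rfl]; simp
  · rw [if_neg hab]
    have hne : (a : ℕ) ≠ b := fun h => hab (Fin.ext h)
    by_cases h2 : (a : ℕ) / 2 = b / 2
    · unfold GL_bv
      rcases Nat.mod_two_eq_zero_or_one a with ha2 | ha2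
      · have hb2 : (b : ℕ) % 2 = 1 := by omega
        rw [if_pos ha2, if_neg (by omega), PiLp.smul_apply, st_apply, if_pos h2]
        simp
      · have hb2 : (b : ℕ) % 2 = 0 := by omega
        rw [if_neg (by omega), if_pos hb2, st_apply, if_pos h2]
        simp
    · rw [GL_bv_apply n b _ h2]
      simp

/-! ### Unitary maps on the first coordinates -/

private def GL_e {r : ℕ} (hr : r ≤ n) : Fin (r + 1) ⊕ Fin (n - r) ≃ Fin (n + 1) :=
  finSumFinEquiv.trans (finCongr (by omega))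

private theorem GL_e_inl {r : ℕ} (hr : r ≤ n) (i : Fin (r + 1)) :
    ((GL_e hr (Sum.inl i) : Fin (n + 1)) : ℕ) = i := by
  simp [GL_e]

private theorem GL_e_inr {r : ℕ} (hr : r ≤ n) (k : Fin (n - r)) :
    ((GL_e hr (Sum.inr k) : Fin (n + 1)) : ℕ) = r + 1 + k := by
  simp [GL_e]

private theorem GL_K_mem {r : ℕ} (hr : r ≤ n) (U : Un (r + 1)) :
    Matrix.reindex (GL_e hr) (GL_e hr)
      (Matrix.fromBlocks (U : Matrix (Fin (r + 1)) (Fin (r + 1)) ℂ) 0 0
        (1 : Matrix (Fin (n - r)) (Fin (n - r)) ℂ)) ∈ Matrix.unitaryGroup (Fin (n + 1)) ℂ := by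
  rw [Matrix.mem_unitaryGroup_iff', Matrix.star_eq_conjTranspose, Matrix.conjTranspose_reindex,
    Matrix.fromBlocks_conjTranspose]
  have h := Matrix.mem_unitaryGroup_iff'.1 U.2
  rw [Matrix.star_eq_conjTranspose] at h
  simp only [Matrix.reindex_apply, Matrix.submatrix_mul_equiv, Matrix.fromBlocks_multiply]
  rw [h]
  simp

private def GL_K {r : ℕ} (hr : r ≤ n) (U : Un (r + 1)) : Un (n + 1) := ⟨_, GL_K_mem hr U⟩

private theorem GL_K_inl {r : ℕ} (hr : r ≤ n) (U : Un (r + 1)) (z : Cn (n + 1))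
    (i : Fin (r + 1)) : uni (GL_K hr U) z (GL_e hr (Sum.inl i)) =
      ∑ j, (U : Matrix (Fin (r + 1)) (Fin (r + 1)) ℂ) i j * z (GL_e hr (Sum.inl j)) := by
  rw [uni_apply, ← (GL_e hr).sum_comp, Fintype.sum_sum_type]
  simp [GL_K]

private theorem GL_K_inr {r : ℕ} (hr : r ≤ n) (U : Un (r + 1)) (z : Cn (n + 1))
    (k : Fin (n - r)) : uni (GL_K hr U) z (GL_e hr (Sum.inr k)) = z (GL_e hr (Sum.inr k)) := by
  rw [uni_apply, ← (GL_e hr).sum_comp, Fintype.sum_sum_type]
  simp [GL_K, Matrix.one_apply]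

private theorem GL_abs {N m : ℕ} {w : Fin m → Cn N} (hw : Orthonormal ℝ w) (K : Un N)
    (R : Matrix (Fin m) (Fin m) ℝ) (h : ∀ b, uni K (w b) = ∑ c, R b c • w c)
    (X : Fin m → Cn N) : |DD X w| = |DD (fun a => uni K (X a)) w| := by
  have h0 : DD w w = 1 := GG_orth hw
  have h1 : DD (fun b => uni K (w b)) (fun b => uni K (w b)) = 1 := by
    rw [DD_uni]
    exact h0
  have h2 : ∀ Y, DD (fun b => uni K (w b)) Y = R.det * DD w Y := fun Y => DD_comb h Y
  have h3 : R.det * R.det = 1 := by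
    rw [h2, DD_comm, h2, h0, mul_one] at h1
    exact h1
  have h4 : |R.det| = 1 := by
    have h5 : |R.det| * |R.det| = 1 := by rw [← abs_mul, h3, abs_one]
    nlinarith [abs_nonneg R.det]
  rw [← DD_uni K X w, DD_comm, h2, abs_mul, h4, one_mul, DD_comm]

private theorem GL_rot {r : ℕ} (hr : r ≤ n) (U : Un (r + 1))
    (X : Fin (2 * (r + 1)) → Cn (n + 1)) :
    |DD X (cf (n + 1) (r + 1))| =
      |DD (fun a => uni (GL_K hr U) (X a)) (cf (n + 1) (r + 1))| := by
  refine GL_abs (GL_orth (by omega)) (GL_K hr U) (Matrix.of fun b c =>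
    (inner ℝ (cf (n + 1) (r + 1) c) (uni (GL_K hr U) (cf (n + 1) (r + 1) b)) : ℝ)) ?_ X
  intro b
  simp only [Matrix.of_apply]
  refine GL_expand (by omega) _ ?_
  intro j hj
  obtain ⟨s, rfl⟩ := (GL_e hr).surjective j
  rcases s with i | k
  · rw [GL_e_inl] at hj
    exact absurd i.2 (by omega)
  · rw [GL_K_inr, GL_cf]
    refine GL_bv_apply _ _ _ ?_
    rw [GL_e_inr]
    have := b.2
    omega

/-! ### The determinant -/

private theorem GL_det {m : ℕ} (A : Matrix (Fin (m + 1)) (Fin (m + 1)) ℝ)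
    (h : ∀ j, j ≠ 0 → A 0 j = 0) : A.det = A 0 0 * (A.submatrix Fin.succ Fin.succ).det := by
  rw [Matrix.det_succ_row_zero, Finset.sum_eq_single 0]
  · simp
  · intro j _ hj
    rw [h j hj]
    ring
  · intro hj
    exact absurd (Finset.mem_univ _) hj

/-- The frame `(ε, iε, lf y_0, …)`. -/
private def GL_E {r : ℕ} (y : Fin (2 * r) → Cn n) : Fin (2 * r + 2) → Cn (n + 1) :=
  Fin.cons (st (n + 1) 0) (Fin.cons (Complex.I • st (n + 1) 0) (fun a => lf (y a)))

private theorem GL_block {r : ℕ} (hr : r ≤ n) (φ : Un (n + 1)) (t : ℝ)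
    (h0 : (uni φ (st (n + 1) 0)) 0 = t)
    (h1 : ∀ j : Fin (n + 1), j ≠ 0 → (j : ℕ) < r + 1 → (uni φ (st (n + 1) 0)) j = 0) :
    ∃ χ : Un n, ∀ y : Fin (2 * r) → Cn n,
      DD (fun a => uni φ (GL_E y a)) (cf (n + 1) (r + 1)) =
        t * (t * DD y (fun a => uni χ (cf n r a))) := by
  -- the frame `g`
  obtain ⟨G, hG⟩ : ∃ G : Fin (2 * r) → Cn n, ∀ b : Fin (2 * r),
      lf (G b) = uni φ⁻¹ (GL_bv (n + 1) ((b : ℕ) + 2)) := by
    refine ⟨fun b => WithLp.toLp 2 (fun k => (uni φ⁻¹ (GL_bv (n + 1) ((b : ℕ) + 2))) k.succ),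
      fun b => ?_⟩
    ext j
    refine Fin.cases ?_ (fun k => ?_) j
    · rw [lf_zero]
      have h2 := inner_st_left (n + 1) 0 (uni φ⁻¹ (GL_bv (n + 1) ((b : ℕ) + 2)))
      have h3 : (((0 : Fin (n + 1)) : ℕ)) = 0 := rfl
      rw [h3] at h2
      rw [← h2, ← inner_uni φ, uni_uni_inv, cinner_eq]
      symm
      refine Finset.sum_eq_zero fun j _ => ?_
      by_cases hj : (j : ℕ) = ((b : ℕ) + 2) / 2
      · have hb := b.2
        rw [h1 j (by rintro rfl; simp at hj) (by omega)]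
        simp
      · rw [GL_bv_apply _ _ _ hj, zero_mul]
    · rw [lf_succ]
  have hgram : ∀ a b, (inner ℂ (G a) (G b) : ℂ) = inner ℂ (cf n r a) (cf n r b) := by
    intro a b
    rw [← inner_lf, hG, hG, inner_uni, GL_bv_lf, GL_bv_lf, inner_lf, GL_cf, GL_cf]
  obtain ⟨χ, hχ⟩ := uni_of_gram hgram
  refine ⟨χ, fun y => ?_⟩
  have hχ' : (fun a => uni χ (cf n r a)) = G := funext fun a => (hχ a).symm
  rw [hχ']
  -- the entries
  have hrow0 : ∀ j : Fin (2 * r + 2), (inner ℝ (uni φ (st (n + 1) 0)) (GL_bv (n + 1) j) : ℝ) =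
      if (j : ℕ) = 0 then t else 0 := by
    intro j
    have hj : (j : ℕ) / 2 < n + 1 := by have := j.2; omega
    rw [real_inner_comm, GL_inner (n + 1) j ⟨j / 2, hj⟩ rfl]
    by_cases h2 : (j : ℕ) / 2 = 0
    · have h3 : (⟨(j : ℕ) / 2, hj⟩ : Fin (n + 1)) = 0 := Fin.ext h2
      rw [h3, h0]
      by_cases h4 : (j : ℕ) = 0
      · rw [if_pos (by omega), if_pos h4, Complex.ofReal_re]
      · rw [if_neg (by omega), if_neg h4, Complex.ofReal_im]
    · rw [h1 _ (fun h => h2 (by simpa using congrArg Fin.val h)) (by have := j.2; simp; omega),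
        if_neg (by omega : ¬ (j : ℕ) = 0)]
      simp
  have hrow1 : ∀ j : Fin (2 * r + 2),
      (inner ℝ (uni φ (Complex.I • st (n + 1) 0)) (GL_bv (n + 1) j) : ℝ) =
      if (j : ℕ) = 1 then t else 0 := by
    intro j
    have hj : (j : ℕ) / 2 < n + 1 := by have := j.2; omega
    rw [real_inner_comm, GL_inner (n + 1) j ⟨j / 2, hj⟩ rfl, uni_csmul, PiLp.smul_apply]
    by_cases h2 : (j : ℕ) / 2 = 0
    · have h3 : (⟨(j : ℕ) / 2, hj⟩ : Fin (n + 1)) = 0 := Fin.ext h2
      rw [h3, h0]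
      by_cases h4 : (j : ℕ) = 1
      · rw [if_neg (by omega), if_pos h4]
        simp
      · rw [if_pos (by omega), if_neg h4]
        simp
    · rw [h1 _ (fun h => h2 (by simpa using congrArg Fin.val h)) (by have := j.2; simp; omega),
        if_neg (by omega : ¬ (j : ℕ) = 1)]
      simp
  obtain ⟨A, hA⟩ : ∃ A : Matrix (Fin (2 * r + 2)) (Fin (2 * r + 2)) ℝ, ∀ a b, A a b =
      (inner ℝ (uni φ (GL_E y a)) (GL_bv (n + 1) b) : ℝ) :=
    ⟨Matrix.of fun a b => (inner ℝ (uni φ (GL_E y a)) (GL_bv (n + 1) b) : ℝ), fun a b => rfl⟩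
  have hdet : DD (fun a => uni φ (GL_E y a)) (cf (n + 1) (r + 1)) = A.det := by
    unfold DD
    congr 1
    ext a b
    rw [hA, Matrix.of_apply, GL_cf]
  rw [hdet, GL_det A, GL_det (A.submatrix Fin.succ Fin.succ)]
  · have e0 : A 0 0 = t := by
      rw [hA]
      exact (hrow0 0).trans (if_pos (by simp))
    have e1 : (A.submatrix Fin.succ Fin.succ) 0 0 = t := by
      rw [Matrix.submatrix_apply, hA]
      exact (hrow1 1).trans (if_pos (by simp))
    have e5 : ((A.submatrix Fin.succ Fin.succ).submatrix Fin.succ Fin.succ).det = DD y G := by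
      unfold DD
      congr 1
      ext a b
      rw [Matrix.submatrix_apply, Matrix.submatrix_apply, hA, Matrix.of_apply]
      have e2 : GL_E y a.succ.succ = lf (y a) := rfl
      have e3 : ((b.succ.succ : Fin (2 * r + 2)) : ℕ) = (b : ℕ) + 2 := rfl
      rw [e2, inner_uni_left, e3, ← hG, rinner_lf]
    rw [e0, e1, e5]
  · intro j hj
    rw [Matrix.submatrix_apply, hA]
    refine (hrow1 j.succ).trans (if_neg ?_)
    intro h
    apply hj
    ext
    simpa using h
  · intro j hj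
    rw [hA]
    refine (hrow0 j).trans (if_neg ?_)
    intro h
    apply hj
    ext
    simpa using h

private theorem GL_pt {r : ℕ} (hr : r ≤ n) (φ : Un (n + 1)) :
    ∃ χ : Un n, ∀ y : Fin (2 * r) → Cn n,
      |DD (fun a => uni φ (GL_E y a)) (cf (n + 1) (r + 1))| =
        (∑ j : Fin (r + 1), ‖(uni φ (st (n + 1) 0)) (GL_e hr (Sum.inl j))‖ ^ 2) *
          |DD y (fun a => uni χ (cf n r a))| := by
  obtain ⟨v, hv⟩ : ∃ v : Cn (r + 1), ∀ j, v j = (uni φ (st (n + 1) 0)) (GL_e hr (Sum.inl j)) :=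
    ⟨WithLp.toLp 2 (fun j => (uni φ (st (n + 1) 0)) (GL_e hr (Sum.inl j))), fun j => rfl⟩
  obtain ⟨U, hU⟩ := exists_uni_eq v (EuclideanSpace.single (0 : Fin (r + 1)) ((‖v‖ : ℝ) : ℂ))
    (by simp)
  have hK : ∀ i : Fin (r + 1), uni (GL_K hr U * φ) (st (n + 1) 0) (GL_e hr (Sum.inl i)) =
      (EuclideanSpace.single (0 : Fin (r + 1)) ((‖v‖ : ℝ) : ℂ) : Cn (r + 1)) i := by
    intro i
    rw [uni_mul, GL_K_inl, ← hU, uni_apply]
    exact Finset.sum_congr rfl fun j _ => by rw [hv]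
  have e0 : GL_e hr (Sum.inl 0) = 0 := Fin.ext (by rw [GL_e_inl]; rfl)
  obtain ⟨χ, hχ⟩ := GL_block hr (GL_K hr U * φ) ‖v‖ (by
      rw [← e0, hK]
      simp) (by
      intro j hj hjr
      have e1 : j = GL_e hr (Sum.inl ⟨j, hjr⟩) := Fin.ext (by rw [GL_e_inl])
      rw [e1, hK]
      have hne : (⟨j, hjr⟩ : Fin (r + 1)) ≠ 0 := by
        intro h
        apply hj
        ext
        simpa using congrArg Fin.val h
      simp [hne])
  refine ⟨χ, fun y => ?_⟩
  have h1 : |DD (fun a => uni φ (GL_E y a)) (cf (n + 1) (r + 1))| =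
      |DD (fun a => uni (GL_K hr U * φ) (GL_E y a)) (cf (n + 1) (r + 1))| := by
    refine (GL_rot hr U _).trans ?_
    congr 2
    funext a
    exact (uni_mul _ _ _).symm
  have h2 : ∑ j : Fin (r + 1), ‖(uni φ (st (n + 1) 0)) (GL_e hr (Sum.inl j))‖ ^ 2 = ‖v‖ ^ 2 := by
    rw [EuclideanSpace.norm_sq_eq]
    exact Finset.sum_congr rfl fun j _ => by rw [hv]
  rw [h1, hχ, h2, abs_mul, abs_mul, abs_norm]
  ring

/-! ### The integral -/

private theorem GL_cont {i : ℕ} (e w : Fin i → Cn n) :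
    Continuous (fun φ : Un n => |DD (fun a => uni φ (e a)) w|) := by
  have h1 : ∀ a b : Fin i, Continuous (fun φ : Un n => (inner ℝ (uni φ (e a)) (w b) : ℝ)) :=
    fun a b => (continuous_uni (e a)).inner continuous_const
  have h2 : Continuous (fun φ : Un n =>
      (Matrix.of fun a b => (inner ℝ (uni φ (e a)) (w b) : ℝ) : Matrix (Fin i) (Fin i) ℝ)) :=
    continuous_matrix fun a b => h1 a b
  exact h2.matrix_det.abs

private theorem GL_sum {r : ℕ} (hr : r ≤ n) :
    ∫ φ : Un (n + 1), (∑ j : Fin (r + 1),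
      ‖(uni φ (st (n + 1) 0)) (GL_e hr (Sum.inl j))‖ ^ 2) ∂(haarU (n + 1)) =
      (r + 1) / (n + 1) := by
  rw [integral_finsetSum]
  · simp only [int_coord, Finset.sum_const, Finset.card_univ, Fintype.card_fin, nsmul_eq_mul]
    push_cast
    ring
  · intro j _
    refine integrable_of_continuous ?_
    have h1 := continuous_uni (n := n + 1) (st (n + 1) 0)
    have h2 : Continuous (fun φ : Un (n + 1) =>
        (uni φ (st (n + 1) 0)) (GL_e hr (Sum.inl j))) :=
      (PiLp.continuous_apply 2 (fun _ : Fin (n + 1) => ℂ) _).comp h1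
    exact h2.norm.pow 2

theorem g_line {r : ℕ} (hr : r ≤ n) (x : Fin (2 * r) → Cn n) :
    gg (Fin.cons (st (n + 1) 0) (Fin.cons (Complex.I • st (n + 1) 0) (fun a => lf (x a))) :
      Fin (2 * r + 2) → Cn (n + 1)) (cf (n + 1) (r + 1)) =
      (r + 1) / (n + 1) * gg x (cf n r) := by
  obtain ⟨h, hc, hh⟩ := exists_embL n
  change gg (GL_E x) (cf (n + 1) (r + 1)) = _
  unfold gg
  rw [int_embL (F := fun φ : Un (n + 1) =>
    |DD (fun a => uni φ (GL_E x a)) (cf (n + 1) (r + 1))|) (GL_cont _ _) hc]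
  have h1 : ∀ φ : Un (n + 1), ∀ ψ : Un n,
      |DD (fun a => uni (φ * h ψ) (GL_E x a)) (cf (n + 1) (r + 1))| =
      |DD (fun a => uni φ (GL_E (fun b => uni ψ (x b)) a)) (cf (n + 1) (r + 1))| := by
    intro φ ψ
    congr 2
    funext a
    rw [uni_mul]
    congr 1
    refine Fin.cases ?_ (fun a => Fin.cases ?_ (fun a => ?_) a) a
    · exact (hh ψ).2
    · change uni (h ψ) (Complex.I • st (n + 1) 0) = Complex.I • st (n + 1) 0
      rw [uni_csmul, (hh ψ).2]
    · exact (hh ψ).1 (x a)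
  have h2 : ∀ φ : Un (n + 1), ∫ ψ, |DD (fun a => uni (φ * h ψ) (GL_E x a))
      (cf (n + 1) (r + 1))| ∂(haarU n) =
      (∑ j : Fin (r + 1), ‖(uni φ (st (n + 1) 0)) (GL_e hr (Sum.inl j))‖ ^ 2) *
        gg x (cf n r) := by
    intro φ
    obtain ⟨χ, hχ⟩ := GL_pt hr φ
    simp only [h1, hχ]
    rw [integral_const_mul]
    congr 1
    change gg x (fun a => uni χ (cf n r a)) = _
    rw [gg_symm, gg_uni, gg_symm]
  simp only [h2]
  rw [integral_mul_const, GL_sum hr]
  rfl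

end Pool.Agent.H89.EN
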