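import Mathlib
import Pool.Agent.H89.EN.GLine
import Pool.Agent.H89.EN.GReal

set_option autoImplicit false

/-!
# GVert: the values at the frames of `ℂᵏ ⊕ ℝ^(2(r-k))`

Induction on `r` (all `n`, `k`).  `r = 0`: the family is empty, `gg = 1 = dd 0 / C(n,0)`.
`r + 1`: `2(r+1) ≤ n + k`, `k ≤ r + 1 `, so `n ≥ 1`, `n = n' + 1`.
If `k = k' + 1`: `vf (n'+1) (k'+1)` on `Fin (2r+2)` is `(ε, iε, lf (vf n' k' a))` (`lf (st n' j) =
st (n'+1) (j+1)`), `g_line`: factor `(r+1)/(n'+1)`, `C(n'+1, r+1) = C(n', r) (n'+1)/(r+1)`,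
`2r ≤ n' + k'`.
If `k = 0`: `vf n 0 a = st n a`, `g_real`: factor `(2r+1)/(2(n'+1))`,
`dd (r+1) = dd r (2r+1)/(2r+2)`.

`orthonormal_vf`: coordinates used: `k + (2r - 2k) ≤ n`.  `dz_vf`: block diagonal.
-/

open MeasureTheory Pool.Agent.H61.UProj Pool.Agent.H89.CZ Pool.Agent.H35.NI

noncomputable section

namespace Pool.Agent.H89.EN

/-- The coordinate of `vf n k a`. -/
private def ix (k a : ℕ) : ℕ := if a < 2 * k then a / 2 else k + (a - 2 * k)

/-- The coefficient of `vf n k a`. -/
private def cc (k a : ℕ) : ℂ := if a < 2 * k then (if a % 2 = 0 then 1 else Complex.I) else 1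

private theorem vf_eq (n k a : ℕ) : vf n k a = cc k a • st n (ix k a) := by
  unfold vf cc ix
  split_ifs <;> simp

private theorem cinner_vf {n k a : ℕ} (b : ℕ) (ha : ix k a < n) :
    (inner ℂ (vf n k a) (vf n k b) : ℂ) =
      (starRingEnd ℂ) (cc k a) * cc k b * (if ix k a = ix k b then 1 else 0) := by
  rw [vf_eq, vf_eq, inner_smul_left, inner_smul_right, cinner_st n _ _ ha]
  ring

private theorem ix_lt {n r k a : ℕ} (hk : k ≤ r) (h : 2 * r ≤ n + k) (ha : a < 2 * r) :
    ix k a < n := by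
  unfold ix
  split_ifs <;> omega

private theorem rinner_vf {n r k : ℕ} (hk : k ≤ r) (h : 2 * r ≤ n + k) (a b : Fin (2 * r)) :
    (inner ℝ (vf n k a) (vf n k b) : ℝ) = if a = b then 1 else 0 := by
  rw [rinner_eq, cinner_vf _ (ix_lt hk h a.2)]
  by_cases hab : a = b
  · subst hab
    rw [if_pos rfl, if_pos rfl]
    unfold cc
    split_ifs <;> simp
  · rw [if_neg hab]
    by_cases hi : ix k a = ix k b
    · rw [if_pos hi]
      have hab' : (a : ℕ) ≠ b := fun h => hab (Fin.ext h)
      unfold ix at hi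
      unfold cc
      split_ifs at hi ⊢ <;> first | (exfalso; omega) | simp
    · rw [if_neg hi]
      simp

theorem orthonormal_vf {n r k : ℕ} (hk : k ≤ r) (h : 2 * r ≤ n + k) :
    Orthonormal ℝ (fun a : Fin (2 * r) => vf n k a) := by
  rw [orthonormal_iff_ite]
  intro a b
  exact rinner_vf hk h a b

private theorem om_vf {n r k : ℕ} (hk : k ≤ r) (h : 2 * r ≤ n + k) (a b : Fin (2 * r)) :
    om (vf n k a) (vf n k b) =
      if (a : ℕ) / 2 = (b : ℕ) / 2 ∧ (a : ℕ) / 2 < k ∧ (a : ℕ) ≠ b then
        (if (a : ℕ) % 2 = 0 then 1 else -1) else 0 := by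
  unfold om
  rw [cinner_vf _ (ix_lt hk h a.2)]
  by_cases hi : ix k a = ix k b
  · rw [if_pos hi]
    unfold ix at hi
    unfold cc
    split_ifs at hi ⊢ <;> first | (exfalso; omega) | simp
  · rw [if_neg hi, if_neg]
    · simp
    · rintro ⟨h1, h2, h3⟩
      apply hi
      unfold ix
      rw [if_pos (by omega), if_pos (by omega)]
      exact h1

/-- The blocks. -/
private def BB (k : ℕ) (z : ℝ) (j : ℕ) : Matrix (Fin 2) (Fin 2) ℝ :=
  if j < k then !![1, z; -z, 1] else 1

private def eqv (r : ℕ) : Fin 2 × Fin r ≃ Fin (2 * r) :=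
  ((Equiv.prodComm (Fin 2) (Fin r)).trans finProdFinEquiv).trans (finCongr (Nat.mul_comm r 2))

private theorem eqv_val (r : ℕ) (x : Fin 2 × Fin r) :
    ((eqv r x : Fin (2 * r)) : ℕ) = (x.1 : ℕ) + 2 * (x.2 : ℕ) := by
  simp [eqv]

theorem dz_vf {n r k : ℕ} (hk : k ≤ r) (h : 2 * r ≤ n + k) (z : ℝ) :
    dz (fun a : Fin (2 * r) => vf n k a) z = (1 + z ^ 2) ^ k := by
  unfold dz
  rw [← Matrix.det_submatrix_equiv_self (eqv r)]
  have hM : (Matrix.of fun a b : Fin (2 * r) =>
      (inner ℝ (vf n k a) (vf n k b) : ℝ) + z * om (vf n k a) (vf n k b)).submatrix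
        (eqv r) (eqv r) = Matrix.blockDiagonal (fun j : Fin r => BB k z j) := by
    ext x y
    rw [Matrix.submatrix_apply, Matrix.of_apply, rinner_vf hk h, om_vf hk h,
      Matrix.blockDiagonal_apply]
    have hx := eqv_val r x
    have hy := eqv_val r y
    obtain ⟨x1, x2⟩ := x
    obtain ⟨y1, y2⟩ := y
    simp only at hx hy ⊢
    have hinj : (eqv r (x1, x2) = eqv r (y1, y2)) ↔ (x1 = y1 ∧ x2 = y2) := by
      rw [(eqv r).injective.eq_iff, Prod.mk.injEq]
    have hx1 : (x1 : ℕ) < 2 := x1.2
    have hy1 : (y1 : ℕ) < 2 := y1.2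
    by_cases h2 : x2 = y2
    · subst h2
      rw [if_pos rfl]
      have e1 : ((eqv r (x1, x2) : Fin (2 * r)) : ℕ) / 2 = x2 := by rw [hx]; omega
      have e2 : ((eqv r (y1, x2) : Fin (2 * r)) : ℕ) / 2 = x2 := by rw [hy]; omega
      have e3 : ((eqv r (x1, x2) : Fin (2 * r)) : ℕ) % 2 = x1 := by rw [hx]; omega
      have e4 : ((eqv r (x1, x2) : Fin (2 * r)) : ℕ) ≠ (eqv r (y1, x2) : Fin (2 * r)) ↔
          x1 ≠ y1 := by
        rw [hx, hy]
        constructor
        · rintro h1 rfl
          exact h1 rfl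
        · intro h1 h3
          apply h1
          apply Fin.ext
          omega
      rw [e1, e2, e3]
      simp only [hinj, e4, and_true, true_and]
      unfold BB
      by_cases h3 : (x2 : ℕ) < k
      · rw [if_pos h3]
        fin_cases x1 <;> fin_cases y1 <;> simp [h3]
      · rw [if_neg h3, Matrix.one_apply]
        simp [h3]
    · rw [if_neg h2, if_neg, if_neg]
      · simp
      · rintro ⟨h3, _⟩
        apply h2
        apply Fin.ext
        rw [hx, hy] at h3
        omega
      · rw [hinj]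
        exact fun h3 => h2 h3.2
  rw [hM, Matrix.det_blockDiagonal]
  have hB : ∀ j : Fin r, (BB k z j).det = if (j : ℕ) < k then (1 + z ^ 2) else 1 := by
    intro j
    unfold BB
    split_ifs
    · rw [Matrix.det_fin_two_of]
      ring
    · exact Matrix.det_one
  rw [Finset.prod_congr rfl fun j _ => hB j]
  rw [Fin.prod_univ_eq_prod_range (fun j => if j < k then (1 + z ^ 2) else 1) r]
  rw [Finset.prod_ite, Finset.prod_const_one, mul_one, Finset.prod_const]
  congr 1
  have : (Finset.range r).filter (fun j => j < k) = Finset.range k := by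
    ext j
    simp only [Finset.mem_filter, Finset.mem_range]
    omega
  rw [this, Finset.card_range]

private theorem lf_st (n j : ℕ) : lf (st n j) = st (n + 1) (j + 1) := by
  ext i
  refine Fin.cases ?_ (fun i => ?_) i
  · rw [lf_zero, st_apply]
    simp
  · rw [lf_succ, st_apply, st_apply]
    simp

private theorem vf_zero' (n k : ℕ) : vf (n + 1) (k + 1) 0 = st (n + 1) 0 := by
  unfold vf
  simp

private theorem vf_one' (n k : ℕ) : vf (n + 1) (k + 1) 1 = Complex.I • st (n + 1) 0 := by
  unfold vf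
  rw [if_pos (by omega), if_neg (by omega)]

private theorem vf_add_two (n k a : ℕ) : vf (n + 1) (k + 1) (a + 2) = lf (vf n k a) := by
  unfold vf
  by_cases h1 : a < 2 * k
  · rw [if_pos (show a + 2 < 2 * (k + 1) by omega), if_pos h1]
    have h3 : (a + 2) / 2 = a / 2 + 1 := by omega
    have h4 : (a + 2) % 2 = a % 2 := by omega
    rw [h3, h4]
    split_ifs
    · rw [lf_st]
    · rw [lf_smul, lf_st]
  · rw [if_neg (show ¬ a + 2 < 2 * (k + 1) by omega), if_neg h1, lf_st]
    congr 1
    omega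

private theorem vf_nil (n a : ℕ) : vf n 0 a = st n a := by
  unfold vf
  simp

theorem g_vert {n r k : ℕ} (hk : k ≤ r) (h : 2 * r ≤ n + k) :
    gg (fun a : Fin (2 * r) => vf n k a) (cf n r) = dd (r - k) / (n.choose r) := by
  induction r generalizing n k with
  | zero =>
    have hk0 : k = 0 := by omega
    subst hk0
    have : IsEmpty (Fin (2 * 0)) := Fin.isEmpty'
    have hD : ∀ x y : Fin (2 * 0) → Cn n, DD x y = 1 := fun x y => Matrix.det_isEmpty
    unfold gg
    simp [hD, dd_zero]
  | succ r ih =>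
    obtain ⟨n, rfl⟩ : ∃ m, n = m + 1 := ⟨n - 1, by omega⟩
    rcases k with _ | k
    · have h1 := g_real (n := n) (r := r) (by omega)
      have h2 := ih (n := n) (k := 0) (by omega) (by omega)
      have e1 : (fun a : Fin (2 * (r + 1)) => vf (n + 1) 0 a) =
          (fun a : Fin (2 * r + 2) => st (n + 1) a) := funext fun a => vf_nil _ _
      have e2 : (fun a : Fin (2 * r) => vf n 0 a) =
          (fun a : Fin (2 * r) => st n a) := funext fun a => vf_nil _ _
      rw [e2] at h2
      rw [e1]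
      refine Eq.trans h1 ?_
      rw [h2, Nat.sub_zero, Nat.sub_zero, dd_succ]
      have hc : ((n + 1 : ℕ) : ℝ) * (n.choose r : ℝ) =
          ((n + 1).choose (r + 1) : ℝ) * ((r + 1 : ℕ) : ℝ) := by
        exact_mod_cast Nat.add_one_mul_choose_eq n r
      have hp1 : (0 : ℝ) < (n.choose r : ℝ) := by
        exact_mod_cast Nat.choose_pos (show r ≤ n by omega)
      have hp2 : (0 : ℝ) < ((n + 1).choose (r + 1) : ℝ) := by
        exact_mod_cast Nat.choose_pos (show r + 1 ≤ n + 1 by omega)
      push_cast at hc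
      field_simp
      linear_combination (-dd r) * hc
    · have h1 := g_line (n := n) (r := r) (by omega) (fun a : Fin (2 * r) => vf n k a)
      have h2 := ih (n := n) (k := k) (by omega) (by omega)
      have e1 : (fun a : Fin (2 * (r + 1)) => vf (n + 1) (k + 1) a) =
          (Fin.cons (st (n + 1) 0) (Fin.cons (Complex.I • st (n + 1) 0)
            (fun a : Fin (2 * r) => lf (vf n k a))) : Fin (2 * r + 2) → Cn (n + 1)) := by
        funext a
        refine Fin.cases ?_ (fun a => ?_) a
        · exact vf_zero' n k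
        · refine Fin.cases ?_ (fun a => ?_) a
          · exact vf_one' n k
          · exact vf_add_two n k a
      rw [e1]
      refine Eq.trans h1 ?_
      rw [h2, Nat.add_sub_add_right]
      have hc : ((n + 1 : ℕ) : ℝ) * (n.choose r : ℝ) =
          ((n + 1).choose (r + 1) : ℝ) * ((r + 1 : ℕ) : ℝ) := by
        exact_mod_cast Nat.add_one_mul_choose_eq n r
      have hp1 : (0 : ℝ) < (n.choose r : ℝ) := by
        exact_mod_cast Nat.choose_pos (show r ≤ n by omega)
      have hp2 : (0 : ℝ) < ((n + 1).choose (r + 1) : ℝ) := by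
        exact_mod_cast Nat.choose_pos (show r + 1 ≤ n + 1 by omega)
      push_cast at hc
      field_simp
      linear_combination (-dd (r - k)) * hc

end Pool.Agent.H89.EN
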