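import Mathlib
import Pool.Agent.H35.NI.NF
import Pool.Agent.H35.NI.Dua
import Pool.Agent.H89.EN.Defs

set_option autoImplicit false

/-!
# GExp: expansion of `dz e` in powers of `1 + z²`, and of `TT e` in powers of `cos θ`

`dz_exp`.  If `2r ≤ n`: `normal_form` (`H35/NI/NF.lean`), `dz_ef`, `dz_uni`, `dz_comb`:
`dz e z = ∏_{j<r} (1 + z² c_j²)`, and `1 + z² x = (1 - x) + x (1 + z²)`; expand the product.
If `2r > n` (`r < n`): complement `e'` of dimension `2n - 2r ≤ n` (`exists_cpl`, `Cpl.dz_eq`):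
`dz e z = (1 + z²)^(2r-n) dz e' z`, and `dz e' z` is such a sum with `k ≤ n - r`.

`TT_exp`: for `cos θ ≠ 0`, `TT e θ = cos^(2r) θ * dz e (tan θ)` and `1 + tan² = 1/cos²`
(orthonormal `e`, so the matrix of `dz` is `1 + z om`).  For `cos θ = 0` by continuity in `θ` (both
sides are continuous) or use that the polynomial identity is homogeneous.
-/

open MeasureTheory Pool.Agent.H61.UProj Pool.Agent.H89.CZ Pool.Agent.H35.NI

noncomputable section

namespace Pool.Agent.H89.EN

/-- the case `2r ≤ n`, with a polynomial -/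
private theorem dz_poly {n s : ℕ} (hs : 2 * s ≤ n) {e : Fin (2 * s) → Cn n}
    (he : Orthonormal ℝ e) :
    ∃ P : Polynomial ℝ, P.natDegree ≤ s ∧ ∀ z : ℝ, dz e z = P.eval (1 + z ^ 2) := by
  obtain ⟨c, ψ, R, hc, hR, hRe⟩ := normal_form hs he
  refine ⟨∏ j ∈ Finset.range s, (Polynomial.C (1 - c j ^ 2) + Polynomial.C (c j ^ 2) *
    Polynomial.X), ?_, ?_⟩
  · refine (Polynomial.natDegree_prod_le _ _).trans ?_
    calc ∑ j ∈ Finset.range s, (Polynomial.C (1 - c j ^ 2) + Polynomial.C (c j ^ 2) *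
          Polynomial.X).natDegree ≤ ∑ j ∈ Finset.range s, 1 := by
          refine Finset.sum_le_sum fun j _ => ?_
          rw [add_comm]
          exact Polynomial.natDegree_linear_le
      _ = s := by simp
  · intro z
    have h1 : dz e z = dz (ef hs c) z := by
      rw [dz_comb hRe, dz_uni]
      have h3 : R.det ^ 2 = 1 := by rw [← sq_abs, hR, one_pow]
      rw [h3, one_mul]
    rw [h1, dz_ef hs hc, Polynomial.eval_prod]
    have h4 : 2 * s / 2 = s := by omega
    rw [h4]
    refine Finset.prod_congr rfl fun j _ => ?_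
    simp only [Polynomial.eval_add, Polynomial.eval_mul, Polynomial.eval_C, Polynomial.eval_X]
    ring

theorem dz_exp {n r : ℕ} (hr : r < n) {e : Fin (2 * r) → Cn n} (he : Orthonormal ℝ e) :
    ∃ b : ℕ → ℝ, (∀ k, k ≤ r → n + k < 2 * r → b k = 0) ∧
      ∀ z : ℝ, dz e z = ∑ k ∈ Finset.range (r + 1), b k * (1 + z ^ 2) ^ k := by
  by_cases h : 2 * r ≤ n
  · obtain ⟨P, hP, hPe⟩ := dz_poly h he
    refine ⟨fun k => P.coeff k, fun k _ hk => by omega, fun z => ?_⟩
    rw [hPe, Polynomial.eval_eq_sum_range' (Nat.lt_succ_of_le hP)]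
  · have hij : 2 * r + 2 * (n - r) = 2 * n := by omega
    obtain ⟨e', he'⟩ := exists_cpl hij he
    obtain ⟨P, hP, hPe⟩ := dz_poly (s := n - r) (by omega) he'.2.1
    refine ⟨fun k => (Polynomial.X ^ (2 * r - n) * P).coeff k, fun k _ hk => ?_, fun z => ?_⟩
    · simp only [Polynomial.coeff_X_pow_mul']
      rw [if_neg (by omega)]
    · have h1 := Cpl.dz_eq hij he' z
      have hY : (0 : ℝ) < 1 + z ^ 2 := by positivity
      have h2 : dz e z = (Polynomial.X ^ (2 * r - n) * P).eval (1 + z ^ 2) := by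
        rw [Polynomial.eval_mul, Polynomial.eval_pow, Polynomial.eval_X, ← hPe]
        have h3 : (1 + z ^ 2) ^ n = (1 + z ^ 2) ^ (2 * (n - r)) * (1 + z ^ 2) ^ (2 * r - n) := by
          rw [← pow_add]
          congr 1
          omega
        rw [h3, mul_assoc] at h1
        exact mul_left_cancel₀ (pow_ne_zero _ hY.ne') h1
      rw [h2, Polynomial.eval_eq_sum_range' (n := r + 1)]
      refine Nat.lt_succ_of_le (Polynomial.natDegree_mul_le.trans ?_)
      rw [Polynomial.natDegree_X_pow]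
      omega

theorem continuous_TT {n i : ℕ} (e : Fin i → Cn n) : Continuous (TT e) := by
  refine Continuous.matrix_det ?_
  refine continuous_matrix fun a b => ?_
  exact (Real.continuous_cos.mul continuous_const).add (Real.continuous_sin.mul continuous_const)

theorem TT_exp {n r : ℕ} {e : Fin (2 * r) → Cn n} (he : Orthonormal ℝ e) {b : ℕ → ℝ}
    (hb : ∀ z : ℝ, dz e z = ∑ k ∈ Finset.range (r + 1), b k * (1 + z ^ 2) ^ k) (θ : ℝ) :
    TT e θ = ∑ k ∈ Finset.range (r + 1), b k * Real.cos θ ^ (2 * (r - k)) := by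
  have hd : Dense {x : ℝ | Real.cos x = 0}ᶜ := by
    refine Set.Countable.dense_compl ℝ ?_
    refine (Set.countable_range (fun k : ℤ => (2 * k + 1) * Real.pi / 2)).mono ?_
    intro x hx
    obtain ⟨k, hk⟩ := Real.cos_eq_zero_iff.1 hx
    exact ⟨k, hk.symm⟩
  have hcr : Continuous fun θ : ℝ =>
      ∑ k ∈ Finset.range (r + 1), b k * Real.cos θ ^ (2 * (r - k)) := by
    refine continuous_finsetSum _ fun k _ => ?_
    exact continuous_const.mul (Real.continuous_cos.pow _)
  refine congrFun (Continuous.ext_on hd (continuous_TT e) hcr ?_) θ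
  intro x hx
  have hx' : Real.cos x ≠ 0 := hx
  have h1 : TT e x = Real.cos x ^ (2 * r) * dz e (Real.tan x) := by
    unfold TT dz
    have h2 : (Matrix.of fun a b => Real.cos x * (if a = b then 1 else 0) +
        Real.sin x * om (e a) (e b)) = Real.cos x • (Matrix.of fun a b =>
        (inner ℝ (e a) (e b) : ℝ) + Real.tan x * om (e a) (e b)) := by
      ext a b
      rw [Matrix.smul_apply, Matrix.of_apply, Matrix.of_apply, orthonormal_iff_ite.1 he,
        smul_eq_mul, mul_add, ← mul_assoc, mul_comm (Real.cos x) (Real.tan x),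
        Real.tan_mul_cos hx']
    rw [h2, Matrix.det_smul, Fintype.card_fin]
  have h3 : 1 + Real.tan x ^ 2 = (Real.cos x ^ 2)⁻¹ := by
    rw [Real.tan_eq_sin_div_cos]
    have h4 := Real.sin_sq_add_cos_sq x
    field_simp
    linarith
  change TT e x = ∑ k ∈ Finset.range (r + 1), b k * Real.cos x ^ (2 * (r - k))
  rw [h1, hb, Finset.mul_sum]
  refine Finset.sum_congr rfl fun k hk => ?_
  have hk' : k ≤ r := Nat.lt_succ_iff.1 (Finset.mem_range.1 hk)
  rw [h3, inv_pow, ← pow_mul]
  have h5 : Real.cos x ^ (2 * r) = Real.cos x ^ (2 * (r - k)) * Real.cos x ^ (2 * k) := by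
    rw [← pow_add]
    congr 1
    omega
  rw [h5]
  have h6 : Real.cos x ^ (2 * k) ≠ 0 := pow_ne_zero _ hx'
  field_simp

theorem int_cos_pow (m : ℕ) :
    ∫ θ in (0 : ℝ)..Real.pi, Real.cos θ ^ (2 * m) = Real.pi * dd m := by
  induction m with
  | zero => simp [dd_zero]
  | succ m ih =>
    have h1 : 2 * (m + 1) = 2 * m + 2 := by ring
    rw [h1, integral_cos_pow, ih, dd_succ]
    simp only [Real.sin_pi, Real.sin_zero, mul_zero, sub_zero, zero_div, zero_add]
    push_cast
    ring

end Pool.Agent.H89.EN
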