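import Mathlib
import Pool.Agent.H35.NI.Ext
import Pool.Agent.H89.EN.GVert
import Pool.Agent.H89.EN.GExp

set_option autoImplicit false

/-!
# G1: the value `gg e (cf n r)`

`r = 0`: both sides `1` (`gg` of the empty family is `1`, `TT = 1`, `∫_0^π 1 = π`).
`r ≥ 1`: `gg_strA` with `i = 2r`, `w = cf n r` (orthonormal: `orthonormal_vf` with `k = r`,
`GG w = 1`): `gg f w = ∑_l α_l dz f l` for all orthonormal `f`.  `dz_exp`: with `b`,
`gg e w = ∑_l α_l ∑_k b_k (1+l²)^k = ∑_k b_k ∑_l α_l dz (vf n k) l = ∑_k b_k gg (vf n k) w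
= ∑_k b_k dd (r-k) / C(n,r)` (`b_k = 0` unless `2r ≤ n + k`; `dz_vf`, `g_vert`).
And `∫ TT e = ∑_k b_k ∫ cos^(2(r-k)) = π ∑_k b_k dd (r-k)` (`TT_exp`, `int_cos_pow`).
-/

open MeasureTheory Pool.Agent.H61.UProj Pool.Agent.H89.CZ Pool.Agent.H35.NI

noncomputable section

namespace Pool.Agent.H89.EN

/-- The case `r = 0`. -/
private theorem g_one_zero {n : ℕ} (e : Fin (2 * 0) → Cn n) :
    gg e (cf n 0) = (∫ θ in (0 : ℝ)..Real.pi, TT e θ) / (Real.pi * n.choose 0) := by
  have : IsEmpty (Fin (2 * 0)) := by simpa using Fin.isEmpty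
  have h1 : gg e (cf n 0) = 1 := by
    unfold gg DD
    simp only [Matrix.det_isEmpty, abs_one]
    simp
  have h2 : ∀ θ, TT e θ = 1 := fun θ => by
    unfold TT
    rw [Matrix.det_isEmpty]
  rw [h1]
  simp only [h2]
  rw [intervalIntegral.integral_const]
  have := Real.pi_pos
  simp

/-- The double sum. -/
private theorem g_swap (p q : ℕ) (Γ : ℕ → ℕ → ℝ) (b : ℕ → ℝ) (d : ℕ → ℝ) :
    ∑ l ∈ Finset.range p, (∑ k ∈ Finset.range p, Γ k l *
      ∑ j ∈ Finset.range q, b j * (1 + (k : ℝ) ^ 2) ^ j) * d l =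
    ∑ j ∈ Finset.range q, b j * ∑ l ∈ Finset.range p,
      (∑ k ∈ Finset.range p, Γ k l * (1 + (k : ℝ) ^ 2) ^ j) * d l := by
  have h1 : ∀ l, (∑ k ∈ Finset.range p, Γ k l *
      ∑ j ∈ Finset.range q, b j * (1 + (k : ℝ) ^ 2) ^ j) * d l =
      ∑ j ∈ Finset.range q, b j * ((∑ k ∈ Finset.range p, Γ k l * (1 + (k : ℝ) ^ 2) ^ j) * d l) := by
    intro l
    have h2 : ∑ k ∈ Finset.range p, Γ k l * ∑ j ∈ Finset.range q, b j * (1 + (k : ℝ) ^ 2) ^ j =
        ∑ j ∈ Finset.range q, b j * ∑ k ∈ Finset.range p, Γ k l * (1 + (k : ℝ) ^ 2) ^ j := by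
      simp only [Finset.mul_sum]
      rw [Finset.sum_comm]
      refine Finset.sum_congr rfl fun j _ => Finset.sum_congr rfl fun k _ => ?_
      ring
    rw [h2, Finset.sum_mul]
    exact Finset.sum_congr rfl fun j _ => by ring
  rw [Finset.sum_congr rfl fun l _ => h1 l, Finset.sum_comm]
  exact Finset.sum_congr rfl fun j _ => by rw [Finset.mul_sum]

theorem g_one {n r : ℕ} (hr : r < n) {e : Fin (2 * r) → Cn n} (he : Orthonormal ℝ e) :
    gg e (cf n r) = (∫ θ in (0 : ℝ)..Real.pi, TT e θ) / (Real.pi * n.choose r) := by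
  rcases Nat.eq_zero_or_pos r with h0 | hpos
  · subst h0
    exact g_one_zero e
  · obtain ⟨Γ, hΓ⟩ := gg_strA (n := n) (i := 2 * r) (by omega) (by omega)
    have hw : Orthonormal ℝ (cf n r) := orthonormal_vf (n := n) (r := r) (k := r) le_rfl (by omega)
    have hG : ∀ f : Fin (2 * r) → Cn n, Orthonormal ℝ f → gg f (cf n r) =
        ∑ l ∈ Finset.range (n + 1),
          (∑ k ∈ Finset.range (n + 1), Γ k l * dz f k) * dz (cf n r) l := by
      intro f hf
      have h := hΓ f hf (cf n r)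
      rwa [GG_orth hw, Real.sqrt_one, mul_one] at h
    obtain ⟨b, hb0, hb⟩ := dz_exp hr he
    have h1 : gg e (cf n r) = ∑ j ∈ Finset.range (r + 1), b j * (dd (r - j) / (n.choose r)) := by
      rw [hG e he]
      simp only [hb]
      rw [g_swap]
      refine Finset.sum_congr rfl fun j hj => ?_
      have hjr : j ≤ r := Nat.lt_succ_iff.1 (Finset.mem_range.1 hj)
      rcases Nat.lt_or_ge (n + j) (2 * r) with hlt | hge
      · rw [hb0 j hjr hlt, zero_mul, zero_mul]
      · congr 1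
        rw [← g_vert hjr hge, hG _ (orthonormal_vf hjr hge)]
        simp only [dz_vf hjr hge]
    have h2 : ∫ θ in (0 : ℝ)..Real.pi, TT e θ =
        ∑ j ∈ Finset.range (r + 1), b j * (Real.pi * dd (r - j)) := by
      simp only [TT_exp he hb]
      rw [intervalIntegral.integral_finsetSum]
      · refine Finset.sum_congr rfl fun j _ => ?_
        rw [intervalIntegral.integral_const_mul, int_cos_pow]
      · intro j _
        apply Continuous.intervalIntegrable
        fun_prop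
    rw [h1, h2, Finset.sum_div]
    refine Finset.sum_congr rfl fun j _ => ?_
    have := Real.pi_pos.ne'
    rw [show b j * (Real.pi * dd (r - j)) = Real.pi * (b j * dd (r - j)) by ring,
      mul_div_mul_left _ _ this, mul_div_assoc]

end Pool.Agent.H89.EN
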