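import Mathlib
import Pool.Agent.H35.NI.Ext
import Pool.Agent.H89.EN.PairSum

set_option autoImplicit false

/-!
# KForm: the form of the kernel

`w = (W, io u, io v)`, `W = cf (s+q) s`.  Block structure: `⟨W_a, io u⟩ = 0`, `om (W_a) (io u) = 0`
(disjoint coordinates), so `dz w z = (1 + z²)^s (area² + z² om u v ²)` (the block of `W` is
`1 + z Ω_W`, block diagonal with 2×2 blocks `(1, z; -z, 1)`, determinant `(1+z²)^s`
(`dz_cf`); the block of `u, v` has determinant `‖u‖²‖v‖² - (⟨u,v⟩² - z² om²)`).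
`GG w = dz w 0 = area²` (`dz_zero`).  `gg_strA` (`0 < 2s+2 < 2(s+q)`):
`gg e w * area = ∑_l β_l dz w l = A area² + B om²` with
`A = ∑ β_l (1+l²)^s`, `B = ∑ β_l (1+l²)^s l²`.  If `area > 0` divide; if `area = 0` then `GG w = 0`
and `gg e w = 0` (`frame`), and the right-hand side is `0` too (`x / 0 = 0`).
-/

open MeasureTheory Pool.Agent.H61.UProj Pool.Agent.H89.CZ Pool.Agent.H35.NI

noncomputable section

namespace Pool.Agent.H89.EN

variable {s q : ℕ}

private theorem cf_eq {n r : ℕ} (a : Fin (2 * r)) :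
    cf n r a = if (a : ℕ) % 2 = 0 then st n (a / 2) else Complex.I • st n (a / 2) := by
  unfold cf vf
  rw [if_pos a.2]

private def wg (a b : ℕ) : ℝ :=
  if a % 2 = 0 ∧ b = a + 1 then 1 else if b % 2 = 0 ∧ a = b + 1 then -1 else 0

private theorem gram_cf {n r : ℕ} (hr : r ≤ n) (a b : Fin (2 * r)) :
    (inner ℂ (cf n r a) (cf n r b) : ℂ) =
      ((if a = b then 1 else 0 : ℝ) : ℂ) + ((wg a b : ℝ) : ℂ) * Complex.I := by
  have ha : (a : ℕ) / 2 < n := by omega
  rw [cf_eq, cf_eq]
  unfold wg
  rcases Nat.mod_two_eq_zero_or_one a with h1 | h1 <;>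
    rcases Nat.mod_two_eq_zero_or_one b with h2 | h2 <;>
    by_cases h : (a : ℕ) / 2 = (b : ℕ) / 2
  · have hab : a = b := Fin.ext (by omega)
    rw [if_pos h1, if_pos h2, cinner_st n _ _ ha, if_pos h, if_pos hab,
      if_neg (by omega), if_neg (by omega)]
    simp
  · have hab : a ≠ b := fun h' => h (by rw [h'])
    rw [if_pos h1, if_pos h2, cinner_st n _ _ ha, if_neg h, if_neg hab,
      if_neg (by omega), if_neg (by omega)]
    simp
  · have hab : a ≠ b := fun h' => by rw [h'] at h1; omega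
    rw [if_pos h1, if_neg (by omega), inner_smul_right, cinner_st n _ _ ha, if_pos h, if_neg hab,
      if_pos (by omega)]
    simp
  · have hab : a ≠ b := fun h' => by rw [h'] at h1; omega
    rw [if_pos h1, if_neg (by omega), inner_smul_right, cinner_st n _ _ ha, if_neg h, if_neg hab,
      if_neg (by omega), if_neg (by omega)]
    simp
  · have hab : a ≠ b := fun h' => by rw [h'] at h1; omega
    rw [if_neg (by omega), if_pos h2, inner_smul_left, cinner_st n _ _ ha, if_pos h, if_neg hab,
      if_neg (by omega), if_pos (by omega)]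
    simp
  · have hab : a ≠ b := fun h' => by rw [h'] at h1; omega
    rw [if_neg (by omega), if_pos h2, inner_smul_left, cinner_st n _ _ ha, if_neg h, if_neg hab,
      if_neg (by omega), if_neg (by omega)]
    simp
  · have hab : a = b := Fin.ext (by omega)
    rw [if_neg (by omega), if_neg (by omega), inner_smul_left, inner_smul_right,
      cinner_st n _ _ ha, if_pos h, if_pos hab, if_neg (by omega), if_neg (by omega)]
    simp
  · have hab : a ≠ b := fun h' => h (by rw [h'])
    rw [if_neg (by omega), if_neg (by omega), inner_smul_left, inner_smul_right,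
      cinner_st n _ _ ha, if_neg h, if_neg hab, if_neg (by omega), if_neg (by omega)]
    simp

private theorem inner_cf {n r : ℕ} (hr : r ≤ n) (a b : Fin (2 * r)) :
    (inner ℝ (cf n r a) (cf n r b) : ℝ) = if a = b then 1 else 0 := by
  rw [rinner_eq, gram_cf hr]
  simp

private theorem om_cf {n r : ℕ} (hr : r ≤ n) (a b : Fin (2 * r)) :
    om (cf n r a) (cf n r b) = wg a b := by
  unfold om
  rw [gram_cf hr]
  simp

theorem orthonormal_cf {n r : ℕ} (hr : r ≤ n) : Orthonormal ℝ (cf n r) := by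
  rw [orthonormal_iff_ite]
  intro a b
  rw [inner_cf hr]

/-- block diagonal determinant -/
private theorem det_wg : ∀ (r : ℕ) (z : ℝ),
    (Matrix.of fun a b : Fin (2 * r) => (if a = b then (1 : ℝ) else 0) + z * wg a b).det =
      (1 + z ^ 2) ^ r
  | 0, z => by simp
  | (r + 1), z => by
    have ih := det_wg r z
    have e : 2 * (r + 1) = 2 + 2 * r := by ring
    rw [← Matrix.det_reindex_self ((finCongr e).trans finSumFinEquiv.symm)]
    have hM : (Matrix.reindex ((finCongr e).trans finSumFinEquiv.symm)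
        ((finCongr e).trans finSumFinEquiv.symm))
        (Matrix.of fun a b : Fin (2 * (r + 1)) => (if a = b then (1 : ℝ) else 0) + z * wg a b) =
        Matrix.fromBlocks !![1, z; -z, 1] 0 0
          (Matrix.of fun a b : Fin (2 * r) => (if a = b then (1 : ℝ) else 0) + z * wg a b) := by
      ext p q
      have hs : ∀ t : Fin 2 ⊕ Fin (2 * r),
          ((((finCongr e).trans finSumFinEquiv.symm).symm t : Fin (2 * (r + 1))) : ℕ)
          = Sum.elim (fun k : Fin 2 => (k : ℕ)) (fun k : Fin (2 * r) => 2 + (k : ℕ)) t := by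
        intro t
        rcases t with k | k
        · simp
        · simp [add_comm]
      have hq : ∀ t u : Fin 2 ⊕ Fin (2 * r), (if ((finCongr e).trans finSumFinEquiv.symm).symm t =
          ((finCongr e).trans finSumFinEquiv.symm).symm u then (1 : ℝ) else 0) =
          if t = u then 1 else 0 := by
        intro t u
        exact if_congr (Equiv.apply_eq_iff_eq _) rfl rfl
      rw [Matrix.reindex_apply, Matrix.submatrix_apply, Matrix.of_apply, hs, hs, hq]
      rcases p with p | p <;> rcases q with q | q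
      · rw [Matrix.fromBlocks_apply₁₁]
        fin_cases p <;> fin_cases q <;> simp [wg]
      · rw [Matrix.fromBlocks_apply₁₂]
        have h1 : ¬ ((p : ℕ) % 2 = 0 ∧ 2 + (q : ℕ) = p + 1) := by omega
        have h2 : ¬ ((2 + (q : ℕ)) % 2 = 0 ∧ (p : ℕ) = 2 + q + 1) := by omega
        rw [Sum.elim_inl, Sum.elim_inr, wg, if_neg h1, if_neg h2, if_neg (by simp)]
        simp
      · rw [Matrix.fromBlocks_apply₂₁]
        have h1 : ¬ ((q : ℕ) % 2 = 0 ∧ 2 + (p : ℕ) = q + 1) := by omega
        have h2 : ¬ ((2 + (p : ℕ)) % 2 = 0 ∧ (q : ℕ) = 2 + p + 1) := by omega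
        rw [Sum.elim_inl, Sum.elim_inr, wg, if_neg h2, if_neg h1, if_neg (by simp)]
        simp
      · rw [Matrix.fromBlocks_apply₂₂]
        have h1 : ∀ x : ℕ, (2 + x) % 2 = x % 2 := by intro x; omega
        have h3 : ∀ x y : ℕ, (2 + x = 2 + y + 1) = (x = y + 1) := by
          intro x y
          exact propext ⟨fun h => by omega, fun h => by omega⟩
        simp only [wg, Sum.elim_inr, h1, h3, Matrix.of_apply, Sum.inr.injEq]
    rw [hM, Matrix.det_fromBlocks_zero₂₁, ih, Matrix.det_fin_two]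
    simp
    ring

theorem dz_cf {n r : ℕ} (hr : r ≤ n) (z : ℝ) : dz (cf n r) z = (1 + z ^ 2) ^ r := by
  rw [← det_wg r z, dz]
  congr 1
  ext a b
  rw [Matrix.of_apply, Matrix.of_apply, om_cf hr, inner_cf hr]

/-- the first vectors are orthogonal to the others (also for the hermitian product) -/
private theorem cinner_cf_io (a : Fin (2 * s)) (u : Cn q) :
    (inner ℂ (cf (s + q) s a) (io s u) : ℂ) = 0 := by
  have ha : (a : ℕ) / 2 < s := by omega
  have h0 : (inner ℂ (st (s + q) ((a : ℕ) / 2)) (io s u) : ℂ) = 0 := by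
    have h1 := inner_st_left (s + q) (Fin.castAdd q (⟨(a : ℕ) / 2, ha⟩ : Fin s)) (io s u)
    rw [io_castAdd] at h1
    exact h1
  rw [cf_eq]
  split_ifs
  · exact h0
  · rw [inner_smul_left, h0, mul_zero]

private theorem dz_app (u v : Cn q) (z : ℝ) :
    dz (Fin.append (cf (s + q) s) ![io s u, io s v]) z =
      (1 + z ^ 2) ^ s * (‖u‖ ^ 2 * ‖v‖ ^ 2 - (inner ℝ u v) ^ 2 + z ^ 2 * om u v ^ 2) := by
  have hs : s ≤ s + q := Nat.le_add_right _ _
  rw [← dz_cf hs z]
  unfold dz
  rw [← Matrix.det_reindex_self finSumFinEquiv.symm]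
  have hM : (Matrix.reindex finSumFinEquiv.symm finSumFinEquiv.symm)
      (Matrix.of fun a b : Fin (2 * s + 2) =>
        (inner ℝ ((Fin.append (cf (s + q) s) ![io s u, io s v] : Fin (2 * s + 2) → Cn (s + q)) a)
          ((Fin.append (cf (s + q) s) ![io s u, io s v] : Fin (2 * s + 2) → Cn (s + q)) b) : ℝ) +
        z * om ((Fin.append (cf (s + q) s) ![io s u, io s v] : Fin (2 * s + 2) → Cn (s + q)) a)
          ((Fin.append (cf (s + q) s) ![io s u, io s v] : Fin (2 * s + 2) → Cn (s + q)) b)) =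
      Matrix.fromBlocks (Matrix.of fun a b : Fin (2 * s) =>
          (inner ℝ (cf (s + q) s a) (cf (s + q) s b) : ℝ) +
            z * om (cf (s + q) s a) (cf (s + q) s b)) 0 0
        (Matrix.of fun a b : Fin 2 =>
          (inner ℝ ((![io s u, io s v] : Fin 2 → Cn (s + q)) a)
            ((![io s u, io s v] : Fin 2 → Cn (s + q)) b) : ℝ) +
            z * om ((![io s u, io s v] : Fin 2 → Cn (s + q)) a)
              ((![io s u, io s v] : Fin 2 → Cn (s + q)) b)) := by
    have hz : ∀ (a : Fin (2 * s)) (b : Fin 2),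
        (inner ℂ (cf (s + q) s a) ((![io s u, io s v] : Fin 2 → Cn (s + q)) b) : ℂ) = 0 := by
      intro a b
      fin_cases b
      · exact cinner_cf_io a u
      · exact cinner_cf_io a v
    have hz' : ∀ (a : Fin (2 * s)) (b : Fin 2),
        (inner ℂ ((![io s u, io s v] : Fin 2 → Cn (s + q)) b) (cf (s + q) s a) : ℂ) = 0 := by
      intro a b
      rw [← inner_conj_symm, hz, map_zero]
    ext p r
    rw [Matrix.reindex_apply, Matrix.submatrix_apply, Matrix.of_apply]
    rcases p with p | p <;> rcases r with r | r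
    · rw [Matrix.fromBlocks_apply₁₁]
      simp
    · rw [Matrix.fromBlocks_apply₁₂]
      simp only [Equiv.symm_symm, finSumFinEquiv_apply_left, finSumFinEquiv_apply_right,
        Fin.append_left, Fin.append_right]
      rw [rinner_eq, om, hz]
      simp
    · rw [Matrix.fromBlocks_apply₂₁]
      simp only [Equiv.symm_symm, finSumFinEquiv_apply_left, finSumFinEquiv_apply_right,
        Fin.append_left, Fin.append_right]
      rw [rinner_eq, om, hz']
      simp
    · rw [Matrix.fromBlocks_apply₂₂]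
      simp
  rw [hM, Matrix.det_fromBlocks_zero₂₁, Matrix.det_fin_two]
  congr 1
  simp only [Matrix.of_apply, Matrix.cons_val_zero, Matrix.cons_val_one]
  rw [rinner_io, rinner_io, rinner_io, rinner_io, om_io, om_io, om_io, om_io,
    real_inner_self_eq_norm_sq, real_inner_self_eq_norm_sq, om_symm u v, real_inner_comm v u]
  have h1 : ∀ x : Cn q, om x x = 0 := by
    intro x
    have := om_symm x x
    linarith
  rw [h1, h1]
  ring

private theorem area_sq (u v : Cn q) :
    area u v ^ 2 = ‖u‖ ^ 2 * ‖v‖ ^ 2 - (inner ℝ u v) ^ 2 := by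
  unfold area
  rw [Real.sq_sqrt]
  have h := abs_real_inner_le_norm u v
  have h2 : (inner ℝ u v : ℝ) ^ 2 ≤ (‖u‖ * ‖v‖) ^ 2 := by
    rw [← sq_abs]
    exact pow_le_pow_left₀ (abs_nonneg _) h 2
  rw [mul_pow] at h2
  linarith

private theorem GG_app (u v : Cn q) :
    GG (Fin.append (cf (s + q) s) ![io s u, io s v]) = area u v ^ 2 := by
  rw [← dz_zero, dz_app, area_sq]
  simp

theorem k_form (hq : 2 ≤ q) {e : Fin (2 * s + 2) → Cn (s + q)} (he : Orthonormal ℝ e) :
    ∃ A B : ℝ, ∀ u v : Cn q,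
      gg e (Fin.append (cf (s + q) s) ![io s u, io s v]) = KQ A B u v := by
  obtain ⟨Γ, hΓ⟩ := gg_strA (n := s + q) (i := 2 * s + 2) (by omega) (by omega)
  refine ⟨∑ l ∈ Finset.range (s + q + 1),
      (∑ k ∈ Finset.range (s + q + 1), Γ k l * dz e k) * (1 + (l : ℝ) ^ 2) ^ s,
    ∑ l ∈ Finset.range (s + q + 1),
      (∑ k ∈ Finset.range (s + q + 1), Γ k l * dz e k) * (1 + (l : ℝ) ^ 2) ^ s * (l : ℝ) ^ 2,
    fun u v => ?_⟩
  have h1 := hΓ e he (Fin.append (cf (s + q) s) ![io s u, io s v])
  have ha0 : 0 ≤ area u v := Real.sqrt_nonneg _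
  have h2 : √(GG (Fin.append (cf (s + q) s) ![io s u, io s v])) = area u v := by
    rw [GG_app, Real.sqrt_sq ha0]
  have h3 : ∑ l ∈ Finset.range (s + q + 1), (∑ k ∈ Finset.range (s + q + 1), Γ k l * dz e k) *
        dz (Fin.append (cf (s + q) s) ![io s u, io s v]) l =
      (∑ l ∈ Finset.range (s + q + 1),
        (∑ k ∈ Finset.range (s + q + 1), Γ k l * dz e k) * (1 + (l : ℝ) ^ 2) ^ s) * area u v ^ 2 +
      (∑ l ∈ Finset.range (s + q + 1),
        (∑ k ∈ Finset.range (s + q + 1), Γ k l * dz e k) * (1 + (l : ℝ) ^ 2) ^ s * (l : ℝ) ^ 2) *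
        om u v ^ 2 := by
    rw [Finset.sum_mul, Finset.sum_mul, ← Finset.sum_add_distrib]
    refine Finset.sum_congr rfl fun l _ => ?_
    rw [dz_app, area_sq]
    ring
  rw [h2, h3] at h1
  unfold KQ
  rcases eq_or_lt_of_le ha0 with h0 | h0
  · rw [← h0]
    have hGG : GG (Fin.append (cf (s + q) s) ![io s u, io s v]) = 0 := by
      rw [GG_app, ← h0]
      simp
    rcases frame (by omega) (Fin.append (cf (s + q) s) ![io s u, io s v]) with
      ⟨-, h4, -⟩ | ⟨f, t, -, ht, h5, -, -⟩
    · unfold gg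
      simp [h4]
    · rw [hGG] at h5
      exfalso
      have : 0 < t ^ 2 := by positivity
      linarith
  · have h6 : gg e (Fin.append (cf (s + q) s) ![io s u, io s v]) =
        ((∑ l ∈ Finset.range (s + q + 1),
        (∑ k ∈ Finset.range (s + q + 1), Γ k l * dz e k) * (1 + (l : ℝ) ^ 2) ^ s) * area u v ^ 2 +
      (∑ l ∈ Finset.range (s + q + 1),
        (∑ k ∈ Finset.range (s + q + 1), Γ k l * dz e k) * (1 + (l : ℝ) ^ 2) ^ s * (l : ℝ) ^ 2) *
        om u v ^ 2) / area u v := by
      rw [eq_div_iff h0.ne']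
      exact h1
    rw [h6]
    field_simp

end Pool.Agent.H89.EN
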