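import Mathlib
import Pool.Agent.H35.NI.Lin
import Pool.Agent.H89.EN.Defs

set_option autoImplicit false

/-!
# PMin: sums of principal minors

`hasDerivAt_det_add`: the determinant is multilinear in the rows; the derivative of
`x ↦ det (x 1 + M)` is `∑_i det (row i replaced by the i-th unit vector)` = `∑_i` of the principal
minor without `i`.

`sum_dz_rot`: `e' = R e` with `R Rᵀ = 1`; with `A` the matrix of `dz`,
`∑_i ∑_j dz (e without i, j) z` is the second derivative of `x ↦ det (x 1 + (A - 1))` at `x = 1`,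
and `A' = R A Rᵀ`, so `det (x 1 + (A' - 1)) = det (x 1 + (A - 1))` for all `x`.
-/

open MeasureTheory Pool.Agent.H61.UProj Pool.Agent.H89.CZ Pool.Agent.H35.NI

noncomputable section

namespace Pool.Agent.H89.EN

/-- The determinant as a continuous multilinear map of the rows. -/
private def detC (m : ℕ) : ContinuousMultilinearMap ℝ (fun _ : Fin m => Fin m → ℝ) ℝ where
  toMultilinearMap := (Matrix.detRowAlternating (n := Fin m) (R := ℝ)).toMultilinearMap
  cont := by
    have h : Continuous fun A : Matrix (Fin m) (Fin m) ℝ => A.det := continuous_id.matrix_det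
    exact h

private theorem detC_apply {m : ℕ} (A : Matrix (Fin m) (Fin m) ℝ) : detC m A = A.det := rfl

theorem hasDerivAt_det_add {m : ℕ} (M : Matrix (Fin (m + 1)) (Fin (m + 1)) ℝ) (x : ℝ) :
    HasDerivAt (fun t : ℝ => (t • (1 : Matrix (Fin (m + 1)) (Fin (m + 1)) ℝ) + M).det)
      (∑ i : Fin (m + 1), ((x • (1 : Matrix (Fin (m + 1)) (Fin (m + 1)) ℝ) + M).submatrix
        i.succAbove i.succAbove).det) x := by
  have h1 : HasDerivAt (fun t : ℝ => (fun i => (t • (1 : Matrix (Fin (m + 1)) (Fin (m + 1)) ℝ) + M) i))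
      (fun i => (1 : Matrix (Fin (m + 1)) (Fin (m + 1)) ℝ) i) x := by
    rw [hasDerivAt_pi]
    intro i
    rw [hasDerivAt_pi]
    intro j
    have h : HasDerivAt (fun t : ℝ => t * (1 : Matrix (Fin (m + 1)) (Fin (m + 1)) ℝ) i j + M i j)
        (1 * (1 : Matrix (Fin (m + 1)) (Fin (m + 1)) ℝ) i j) x :=
      ((hasDerivAt_id x).mul_const _).add_const _
    rw [one_mul] at h
    exact h
  have h2 := ((detC (m + 1)).hasStrictFDerivAt
    (fun i => (x • (1 : Matrix (Fin (m + 1)) (Fin (m + 1)) ℝ) + M) i)).hasFDerivAt.comp_hasDerivAt x h1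
  refine h2.congr_deriv ?_
  rw [ContinuousMultilinearMap.linearDeriv_apply]
  refine Finset.sum_congr rfl fun i _ => ?_
  have h3 := Matrix.adjugate_fin_succ_eq_det_submatrix
    (x • (1 : Matrix (Fin (m + 1)) (Fin (m + 1)) ℝ) + M) i i
  rw [Matrix.adjugate_apply, ← two_mul, pow_mul, neg_one_sq, one_pow, one_mul] at h3
  rw [← h3, ← detC_apply]
  congr 1
  unfold Matrix.updateRow
  congr 1
  ext j
  rw [Matrix.one_apply, Pi.single_apply]
  simp only [eq_comm]

private theorem sub_add {m : ℕ} (M : Matrix (Fin (m + 1)) (Fin (m + 1)) ℝ) (x : ℝ) (i : Fin (m + 1)) :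
    (x • (1 : Matrix (Fin (m + 1)) (Fin (m + 1)) ℝ) + M).submatrix i.succAbove i.succAbove =
      x • (1 : Matrix (Fin m) (Fin m) ℝ) + M.submatrix i.succAbove i.succAbove := by
  ext a b
  simp only [Matrix.submatrix_apply, Matrix.add_apply, Matrix.smul_apply, Matrix.one_apply,
    Fin.succAbove_right_inj]

private theorem minors {m : ℕ} {M M' : Matrix (Fin (m + 2)) (Fin (m + 2)) ℝ}
    (h : ∀ t : ℝ, (t • (1 : Matrix (Fin (m + 2)) (Fin (m + 2)) ℝ) + M').det =
      (t • (1 : Matrix (Fin (m + 2)) (Fin (m + 2)) ℝ) + M).det) (x : ℝ) :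
    ∑ i : Fin (m + 2), ∑ j : Fin (m + 1), (((x • (1 : Matrix (Fin (m + 2)) (Fin (m + 2)) ℝ) +
        M').submatrix i.succAbove i.succAbove).submatrix j.succAbove j.succAbove).det =
      ∑ i : Fin (m + 2), ∑ j : Fin (m + 1), (((x • (1 : Matrix (Fin (m + 2)) (Fin (m + 2)) ℝ) +
        M).submatrix i.succAbove i.succAbove).submatrix j.succAbove j.succAbove).det := by
  have h1 : ∀ t : ℝ, ∑ i : Fin (m + 2), (t • (1 : Matrix (Fin (m + 1)) (Fin (m + 1)) ℝ) +
        M'.submatrix i.succAbove i.succAbove).det =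
      ∑ i : Fin (m + 2), (t • (1 : Matrix (Fin (m + 1)) (Fin (m + 1)) ℝ) +
        M.submatrix i.succAbove i.succAbove).det := by
    intro t
    have a1 := hasDerivAt_det_add M' t
    have a2 := hasDerivAt_det_add M t
    rw [funext h] at a1
    simpa only [sub_add] using a1.unique a2
  have b : ∀ N : Matrix (Fin (m + 2)) (Fin (m + 2)) ℝ,
      HasDerivAt (fun t : ℝ => ∑ i : Fin (m + 2), (t • (1 : Matrix (Fin (m + 1)) (Fin (m + 1)) ℝ) +
        N.submatrix i.succAbove i.succAbove).det)
        (∑ i : Fin (m + 2), ∑ j : Fin (m + 1), ((x • (1 : Matrix (Fin (m + 1)) (Fin (m + 1)) ℝ) +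
        N.submatrix i.succAbove i.succAbove).submatrix j.succAbove j.succAbove).det) x :=
    fun N => HasDerivAt.fun_sum fun i _ => hasDerivAt_det_add (N.submatrix i.succAbove i.succAbove) x
  have b1 := b M'
  rw [funext h1] at b1
  simpa only [sub_add] using b1.unique (b M)

private theorem om_suml {n : ℕ} {ι : Type*} (s : Finset ι) (r : ι → ℝ) (x : ι → Cn n) (y : Cn n) :
    om (∑ b ∈ s, r b • x b) y = ∑ b ∈ s, r b * om (x b) y := by
  classical
  induction s using Finset.induction_on with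
  | empty => simp [om]
  | insert a s ha ih =>
    rw [Finset.sum_insert ha, Finset.sum_insert ha, om_add_left, om_smul_left, ih]

private theorem om_sumr {n : ℕ} {ι : Type*} (s : Finset ι) (r : ι → ℝ) (x : ι → Cn n) (y : Cn n) :
    om y (∑ b ∈ s, r b • x b) = ∑ b ∈ s, r b * om y (x b) := by
  classical
  induction s using Finset.induction_on with
  | empty => simp [om]
  | insert a s ha ih =>
    rw [Finset.sum_insert ha, Finset.sum_insert ha, om_add_right, om_smul_right, ih]

theorem sum_dz_rot {n m : ℕ} {e e' : Fin (m + 2) → Cn n} (he : Orthonormal ℝ e)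
    {R : Matrix (Fin (m + 2)) (Fin (m + 2)) ℝ} (hR : R * R.transpose = 1)
    (h : ∀ a, e' a = ∑ b, R a b • e b) (z : ℝ) :
    ∑ i : Fin (m + 2), ∑ j : Fin (m + 1), dz (fun a => e' (i.succAbove (j.succAbove a))) z =
      ∑ i : Fin (m + 2), ∑ j : Fin (m + 1), dz (fun a => e (i.succAbove (j.succAbove a))) z := by
  set A : Matrix (Fin (m + 2)) (Fin (m + 2)) ℝ :=
    Matrix.of fun a b => (inner ℝ (e a) (e b) : ℝ) + z * om (e a) (e b) with hA
  set A' : Matrix (Fin (m + 2)) (Fin (m + 2)) ℝ :=
    Matrix.of fun a b => (inner ℝ (e' a) (e' b) : ℝ) + z * om (e' a) (e' b) with hA'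
  have hAA : A' = R * A * R.transpose := by
    ext a b
    simp only [hA, hA', Matrix.of_apply, Matrix.mul_apply, Matrix.transpose_apply]
    rw [h a, h b, sum_inner, om_suml, Finset.mul_sum, ← Finset.sum_add_distrib]
    simp only [inner_sum, om_sumr, real_inner_smul_left, real_inner_smul_right,
      Finset.mul_sum, Finset.sum_mul]
    rw [Finset.sum_comm]
    refine Finset.sum_congr rfl fun c _ => ?_
    rw [← Finset.sum_add_distrib]
    refine Finset.sum_congr rfl fun d _ => ?_
    ring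
  have h1 : ∀ t : ℝ, (t • (1 : Matrix (Fin (m + 2)) (Fin (m + 2)) ℝ) + (A' - 1)).det =
      (t • (1 : Matrix (Fin (m + 2)) (Fin (m + 2)) ℝ) + (A - 1)).det := by
    intro t
    have h2 : t • (1 : Matrix (Fin (m + 2)) (Fin (m + 2)) ℝ) + (A' - 1) =
        R * (t • (1 : Matrix (Fin (m + 2)) (Fin (m + 2)) ℝ) + (A - 1)) * R.transpose := by
      rw [mul_add, add_mul, mul_sub, sub_mul, mul_smul_comm, mul_one, smul_mul_assoc, hR, ← hAA]
    have h3 : R.det * R.det = 1 := by
      have := congrArg Matrix.det hR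
      rwa [Matrix.det_mul, Matrix.det_transpose, Matrix.det_one] at this
    rw [h2, Matrix.det_mul, Matrix.det_mul, Matrix.det_transpose]
    calc R.det * (t • (1 : Matrix (Fin (m + 2)) (Fin (m + 2)) ℝ) + (A - 1)).det * R.det =
        (R.det * R.det) * (t • (1 : Matrix (Fin (m + 2)) (Fin (m + 2)) ℝ) + (A - 1)).det := by ring
      _ = _ := by rw [h3, one_mul]
  have h4 := minors h1 1
  rw [one_smul, add_sub_cancel, add_sub_cancel] at h4
  exact h4

end Pool.Agent.H89.EN
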