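import Mathlib

set_option autoImplicit false

/-!
# Simp: the contraction of a volume form is decomposable

`Y` a real `(k+2) × k` matrix.  Take `n1, n2` orthonormal and orthogonal to the `k` columns of `Y`
(the orthogonal complement of the span of `k` vectors of `ℝ^(k+2)` has dimension `≥ 2`).  For
`M = (Y | U | V)` and `N = (Y | n1 | n2)` (columns) the matrix `Nᵀ M` is block triangular with blocks
`Yᵀ Y` and the `2 × 2` matrix of the `⟨n_i, U⟩, ⟨n_i, V⟩`, so
`det N · det M = det (Yᵀ Y) · |2 × 2 determinant|`, and `(det N)² = det (Yᵀ Y)`.  If `det (Yᵀ Y) = 0`, the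
columns of `Y` are dependent and both sides vanish.
-/

open scoped Matrix

noncomputable section

namespace Pool.Agent.H89.EN

private def mk {k : ℕ} (Y : Matrix (Fin (k + 2)) (Fin k) ℝ) (U V : Fin (k + 2) → ℝ) :
    Matrix (Fin (k + 2)) (Fin (k + 2)) ℝ :=
  Matrix.of fun a => Fin.append (fun b => Y a b) ![U a, V a]

private theorem mk_mul {k : ℕ} (Y : Matrix (Fin (k + 2)) (Fin k) ℝ) (P Q U V : Fin (k + 2) → ℝ)
    (hP : ∀ b, ∑ a, P a * Y a b = 0) (hQ : ∀ b, ∑ a, Q a * Y a b = 0) :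
    ((mk Y P Q)ᵀ * mk Y U V).submatrix finSumFinEquiv finSumFinEquiv =
      Matrix.fromBlocks (Yᵀ * Y) (Matrix.of fun b j => ∑ a, Y a b * ![U a, V a] j) 0
        (Matrix.of fun i j => ∑ a, ![P a, Q a] i * ![U a, V a] j) := by
  ext i j
  rcases i with i | i <;> rcases j with j | j
  · simp [mk, Matrix.mul_apply]
  · simp [mk, Matrix.mul_apply]
  · have h : ∀ i : Fin 2, ∑ a, ![P a, Q a] i * Y a j = 0 := by
      intro i
      fin_cases i
      · exact hP j
      · exact hQ j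
    simpa [mk, Matrix.mul_apply] using h i
  · simp [mk, Matrix.mul_apply]

private theorem det_mk {k : ℕ} (Y : Matrix (Fin (k + 2)) (Fin k) ℝ) (P Q U V : Fin (k + 2) → ℝ)
    (hP : ∀ b, ∑ a, P a * Y a b = 0) (hQ : ∀ b, ∑ a, Q a * Y a b = 0) :
    (mk Y P Q).det * (mk Y U V).det = (Yᵀ * Y).det *
      ((∑ a, P a * U a) * (∑ a, Q a * V a) - (∑ a, P a * V a) * (∑ a, Q a * U a)) := by
  have h1 := congrArg Matrix.det (mk_mul Y P Q U V hP hQ)
  rw [Matrix.det_submatrix_equiv_self, Matrix.det_mul, Matrix.det_transpose,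
    Matrix.det_fromBlocks_zero₂₁, Matrix.det_fin_two] at h1
  simpa using h1

private theorem exists_pair {k : ℕ} (Y : Matrix (Fin (k + 2)) (Fin k) ℝ) :
    ∃ n1 n2 : Fin (k + 2) → ℝ, ∑ a, n1 a * n1 a = 1 ∧ ∑ a, n2 a * n2 a = 1 ∧
      ∑ a, n1 a * n2 a = 0 ∧ (∀ b, ∑ a, n1 a * Y a b = 0) ∧ (∀ b, ∑ a, n2 a * Y a b = 0) := by
  classical
  let y : Fin k → EuclideanSpace ℝ (Fin (k + 2)) := fun b => WithLp.toLp 2 fun a => Y a b
  let W : Submodule ℝ (EuclideanSpace ℝ (Fin (k + 2))) := Submodule.span ℝ (Set.range y)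
  have h1 : Module.finrank ℝ W ≤ k := by
    have := finrank_range_le_card (R := ℝ) y
    rw [Fintype.card_fin] at this
    exact this
  have h2 : Module.finrank ℝ W + Module.finrank ℝ Wᗮ = k + 2 := by
    have := W.finrank_add_finrank_orthogonal
    simpa using this
  have h3 : 2 ≤ Module.finrank ℝ Wᗮ := by omega
  let b := stdOrthonormalBasis ℝ Wᗮ
  let i0 : Fin (Module.finrank ℝ Wᗮ) := ⟨0, by omega⟩
  let i1 : Fin (Module.finrank ℝ Wᗮ) := ⟨1, by omega⟩
  have hinner : ∀ u v : EuclideanSpace ℝ (Fin (k + 2)), inner ℝ u v = ∑ a, u a * v a := by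
    intro u v
    rw [PiLp.inner_apply]
    refine Finset.sum_congr rfl fun a _ => ?_
    simp [mul_comm]
  have ho := b.orthonormal
  have h00 : inner ℝ (b i0 : EuclideanSpace ℝ (Fin (k + 2))) (b i0 : EuclideanSpace ℝ (Fin (k + 2))) = 1 := by
    have := (orthonormal_iff_ite.1 ho) i0 i0
    rw [if_pos rfl] at this
    exact this
  have h11 : inner ℝ (b i1 : EuclideanSpace ℝ (Fin (k + 2))) (b i1 : EuclideanSpace ℝ (Fin (k + 2))) = 1 := by
    have := (orthonormal_iff_ite.1 ho) i1 i1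
    rw [if_pos rfl] at this
    exact this
  have h01 : inner ℝ (b i0 : EuclideanSpace ℝ (Fin (k + 2))) (b i1 : EuclideanSpace ℝ (Fin (k + 2))) = 0 := by
    have := (orthonormal_iff_ite.1 ho) i0 i1
    rw [if_neg (by simp [i0, i1])] at this
    exact this
  have hy : ∀ (i : Fin (Module.finrank ℝ Wᗮ)) (c : Fin k),
      inner ℝ (b i : EuclideanSpace ℝ (Fin (k + 2))) (y c) = 0 := by
    intro i c
    rw [real_inner_comm]
    exact (W.mem_orthogonal _).1 (b i).2 (y c) (Submodule.subset_span ⟨c, rfl⟩)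
  refine ⟨fun a => (b i0 : EuclideanSpace ℝ (Fin (k + 2))) a,
    fun a => (b i1 : EuclideanSpace ℝ (Fin (k + 2))) a, ?_, ?_, ?_, ?_, ?_⟩
  · rw [← hinner]; exact h00
  · rw [← hinner]; exact h11
  · rw [← hinner]; exact h01
  · intro c
    have := hy i0 c
    rw [hinner] at this
    exact this
  · intro c
    have := hy i1 c
    rw [hinner] at this
    exact this

theorem simp_rep {k : ℕ} (Y : Matrix (Fin (k + 2)) (Fin k) ℝ) :
    ∃ n1 n2 : Fin (k + 2) → ℝ, ∑ a, n1 a * n1 a = 1 ∧ ∑ a, n2 a * n2 a = 1 ∧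
      ∑ a, n1 a * n2 a = 0 ∧ (∀ b, ∑ a, n1 a * Y a b = 0) ∧ (∀ b, ∑ a, n2 a * Y a b = 0) ∧
      ∀ U V : Fin (k + 2) → ℝ,
        |(Matrix.of fun a => Fin.append (fun b => Y a b) ![U a, V a] :
            Matrix (Fin (k + 2)) (Fin (k + 2)) ℝ).det| =
          √((Yᵀ * Y).det) * |(∑ a, n1 a * U a) * (∑ a, n2 a * V a) -
            (∑ a, n1 a * V a) * (∑ a, n2 a * U a)| := by
  obtain ⟨n1, n2, h11, h22, h12, hn1, hn2⟩ := exists_pair Y
  refine ⟨n1, n2, h11, h22, h12, hn1, hn2, fun U V => ?_⟩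
  have h21 : ∑ a, n2 a * n1 a = 0 := by
    rw [← h12]
    exact Finset.sum_congr rfl fun a _ => mul_comm _ _
  have hN : (mk Y n1 n2).det * (mk Y n1 n2).det = (Yᵀ * Y).det := by
    rw [det_mk Y n1 n2 n1 n2 hn1 hn2, h11, h22, h12, h21]
    ring
  have hM := det_mk Y n1 n2 U V hn1 hn2
  change |(mk Y U V).det| = _
  rw [← hN, Real.sqrt_mul_self_eq_abs]
  rcases eq_or_ne (mk Y n1 n2).det 0 with h0 | h0
  · have hg : (Yᵀ * Y).det = 0 := by rw [← hN, h0, zero_mul]
    obtain ⟨v, hv, hv0⟩ := Matrix.exists_mulVec_eq_zero_iff.2 hg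
    have hYv : Y.mulVec v = 0 := by
      have := (Matrix.conjTranspose_mul_self_mulVec_eq_zero Y v).1 (by
        rw [Matrix.conjTranspose_eq_transpose_of_trivial]; exact hv0)
      exact this
    have hdet : (mk Y U V).det = 0 := by
      refine Matrix.exists_mulVec_eq_zero_iff.1 ⟨Fin.append v 0, ?_, ?_⟩
      · intro h
        apply hv
        funext b
        have := congrFun h (Fin.castAdd 2 b)
        rw [Fin.append_left] at this
        exact this
      · funext a
        have := congrFun hYv a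
        simp only [Matrix.mulVec, dotProduct, Pi.zero_apply] at this ⊢
        rw [Fin.sum_univ_add]
        simp [mk, this]
    rw [hdet, h0]
    simp
  · rw [← hN] at hM
    have h2 : (mk Y U V).det = (mk Y n1 n2).det *
        ((∑ a, n1 a * U a) * (∑ a, n2 a * V a) - (∑ a, n1 a * V a) * (∑ a, n2 a * U a)) := by
      have := mul_left_cancel₀ h0 (hM.trans (mul_assoc _ _ _))
      exact this
    rw [h2, abs_mul]

end Pool.Agent.H89.EN
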