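import Mathlib
import Pool.Agent.H35.NI.Ext
import Pool.Agent.H89.EN.PairSum
import Pool.Agent.H89.EN.Simp
import Pool.Agent.H89.EN.PMin
import Pool.Agent.H89.EN.KForm
import Pool.Agent.H89.CZ.TMean

set_option autoImplicit false

/-!
# IxSide: averaging over rotations of the frame

Let `r = s + 1`, `x : Fin (2r) → ℂⁿ`, `Y = YY x`.
(1) `S(e) = ∑_i ∑_j gg (e without i, j) W` does not change if `e` (orthonormal) is replaced by
`R e`, `R Rᵀ = 1`: for `s ≥ 1` there are `α k` with `gg f W = ∑_k α k * dz f k` for all orthonormal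
`f : Fin (2s) → ℂⁿ` (`gg_strA` of `H35/NI/Ext.lean` with `i = 2s`, `0 < 2s < 2n`, `w = W = cf n s`
orthonormal, `GG W = 1` (`GG_orth`)), then `sum_dz_rot`.  For `s = 0` the family is empty and
`gg = 1` for both.
(2) For `ψ ∈ U(r)` let `R_ψ i a = ⟨ψ b_i, b_a⟩` (`b = bb r`): orthogonal.  By (1)
`S(e) = ∫_ψ S(R_ψ e) dψ`, exchange with the integral over `φ` in `gg` (Fubini as in `SpSide`).
(3) For fixed `φ`, `x = φ e`, `Y = YY x`: the minor of `R Y` without the rows `i` and
`i.succAbove j` is up to sign `det (R Y | e_i | e_(i.succAbove j))` (Laplace expansion along the two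
last columns, twice), up to sign `det (Y | Rᵀ e_i | Rᵀ e_j')`.  By `simp_rep`
it is `DN x * |⟨n1, Rᵀ e_i⟩⟨n2, Rᵀ e_j'⟩ - …|`; with `y_l = ∑_a n_l a • b_a ∈ ℂʳ` (orthonormal) this
is `DN x * |pair2 (ψ b_i) (ψ b_j') y1 y2|` for `R = R_ψ`.
(4) `pair_sum` (`m = r ≥ 1`; the terms `i = j'` vanish, and `(i, j) ↦ (i, i.succAbove j)` runs over
all pairs `i ≠ j'`: `Fin.sum_univ_succAbove`) with `area y1 y2 = 1`: the sum is `2 r DN x`.
-/

open MeasureTheory Pool.Agent.H61.UProj Pool.Agent.H89.CZ Pool.Agent.H35.NI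
open scoped Matrix

noncomputable section

namespace Pool.Agent.H89.EN

variable {n s : ℕ}

/-! ### The sum over the minors is invariant under rotations -/

private lemma ix_swap {ι κ : Type*} [Fintype ι] [Fintype κ] (N : ℕ) (G : ι → κ → ℕ → ℝ)
    (Γ : ℕ → ℕ → ℝ) (D : ℕ → ℝ) :
    ∑ i, ∑ j, ∑ l ∈ Finset.range N, (∑ k ∈ Finset.range N, Γ k l * G i j k) * D l =
      ∑ l ∈ Finset.range N, (∑ k ∈ Finset.range N, Γ k l * ∑ i, ∑ j, G i j k) * D l := by
  have h1 : ∀ i, ∑ j, ∑ l ∈ Finset.range N, (∑ k ∈ Finset.range N, Γ k l * G i j k) * D l =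
      ∑ l ∈ Finset.range N, (∑ k ∈ Finset.range N, Γ k l * ∑ j, G i j k) * D l := by
    intro i
    rw [Finset.sum_comm]
    refine Finset.sum_congr rfl fun l _ => ?_
    rw [← Finset.sum_mul, Finset.sum_comm]
    simp only [Finset.mul_sum]
  simp only [h1]
  rw [Finset.sum_comm]
  refine Finset.sum_congr rfl fun l _ => ?_
  rw [← Finset.sum_mul, Finset.sum_comm]
  congr 1
  refine Finset.sum_congr rfl fun k _ => ?_
  rw [Finset.mul_sum]

private lemma ix_orth_rot {m : ℕ} {e e' : Fin m → Cn n} (he : Orthonormal ℝ e)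
    {R : Matrix (Fin m) (Fin m) ℝ} (hR : R * R.transpose = 1)
    (h : ∀ a, e' a = ∑ b, R a b • e b) : Orthonormal ℝ e' := by
  rw [orthonormal_iff_ite] at he ⊢
  intro a b
  have h1 := congrFun (congrFun hR a) b
  rw [Matrix.mul_apply, Matrix.one_apply] at h1
  rw [h a, h b, sum_inner, ← h1]
  refine Finset.sum_congr rfl fun c _ => ?_
  rw [real_inner_smul_left, inner_sum, Finset.sum_eq_single c]
  · rw [real_inner_smul_right, he c c, if_pos rfl, mul_one, Matrix.transpose_apply]
  · intro d _ hd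
    rw [real_inner_smul_right, he c d, if_neg (Ne.symm hd), mul_zero]
  · intro hc
    exact absurd (Finset.mem_univ _) hc

private lemma ix_sub {m : ℕ} {e : Fin (m + 2) → Cn n} (he : Orthonormal ℝ e) (i : Fin (m + 2))
    (j : Fin (m + 1)) : Orthonormal ℝ (fun a : Fin m => e (i.succAbove (j.succAbove a))) :=
  he.comp (fun a : Fin m => i.succAbove (j.succAbove a))
    (Fin.succAbove_right_injective.comp Fin.succAbove_right_injective)

theorem sum_gg_rot (hs : s + 1 ≤ n) {e e' : Fin (2 * s + 2) → Cn n} (he : Orthonormal ℝ e)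
    {R : Matrix (Fin (2 * s + 2)) (Fin (2 * s + 2)) ℝ} (hR : R * R.transpose = 1)
    (h : ∀ a, e' a = ∑ b, R a b • e b) :
    ∑ i : Fin (2 * s + 2), ∑ j : Fin (2 * s + 1),
      gg (fun a : Fin (2 * s) => e' (i.succAbove (j.succAbove a))) (cf n s) =
    ∑ i : Fin (2 * s + 2), ∑ j : Fin (2 * s + 1),
      gg (fun a : Fin (2 * s) => e (i.succAbove (j.succAbove a))) (cf n s) := by
  rcases Nat.eq_zero_or_pos s with hs0 | hs0
  · subst hs0
    refine Finset.sum_congr rfl fun i _ => Finset.sum_congr rfl fun j _ => ?_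
    congr 1
    funext a
    exact absurd a.2 (by simp)
  · have he' : Orthonormal ℝ e' := ix_orth_rot he hR h
    obtain ⟨Γ, hΓ⟩ := gg_strA (n := n) (i := 2 * s) (by omega) (by omega)
    have hW : Orthonormal ℝ (cf n s) := orthonormal_cf (by omega)
    have key : ∀ f : Fin (2 * s) → Cn n, Orthonormal ℝ f → gg f (cf n s) =
        ∑ l ∈ Finset.range (n + 1), (∑ k ∈ Finset.range (n + 1), Γ k l * dz f k) *
          dz (cf n s) l := by
      intro f hf
      have h1 := hΓ f hf (cf n s)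
      rw [GG_orth hW, Real.sqrt_one, mul_one] at h1
      exact h1
    have h2 : ∀ f : Fin (2 * s + 2) → Cn n, Orthonormal ℝ f →
        ∑ i : Fin (2 * s + 2), ∑ j : Fin (2 * s + 1),
          gg (fun a : Fin (2 * s) => f (i.succAbove (j.succAbove a))) (cf n s) =
        ∑ l ∈ Finset.range (n + 1), (∑ k ∈ Finset.range (n + 1), Γ k l *
          ∑ i : Fin (2 * s + 2), ∑ j : Fin (2 * s + 1),
            dz (fun a : Fin (2 * s) => f (i.succAbove (j.succAbove a))) k) *
              dz (cf n s) l := by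
      intro f hf
      rw [← ix_swap]
      refine Finset.sum_congr rfl fun i _ => Finset.sum_congr rfl fun j _ => ?_
      exact key _ (ix_sub hf i j)
    rw [h2 e' he', h2 e he]
    refine Finset.sum_congr rfl fun l _ => ?_
    congr 1
    refine Finset.sum_congr rfl fun k _ => ?_
    rw [sum_dz_rot he hR h]

/-! ### Laplace expansion -/

private lemma ix_laplace {m : ℕ} (M : Matrix (Fin (m + 1)) (Fin (m + 1)) ℝ) (i : Fin (m + 1))
    (h : ∀ a, M a (Fin.last m) = if a = i then 1 else 0) :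
    |M.det| = |(M.submatrix i.succAbove Fin.castSucc).det| := by
  rw [Matrix.det_succ_column M (Fin.last m), Finset.sum_eq_single i]
  · rw [h i, if_pos rfl, mul_one, abs_mul, abs_pow, abs_neg, abs_one, one_pow, one_mul,
      Fin.succAbove_last]
  · intro b _ hb
    rw [h b, if_neg hb, mul_zero, zero_mul]
  · intro hi
    exact absurd (Finset.mem_univ _) hi

private lemma ix_minor {k : ℕ} (Y : Matrix (Fin (k + 2)) (Fin k) ℝ) (i : Fin (k + 2))
    (j : Fin (k + 1)) :
    |(Y.submatrix (fun a : Fin k => i.succAbove (j.succAbove a)) id).det| =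
      |(Matrix.of fun a => Fin.append (fun b => Y a b)
        ![(if a = i.succAbove j then (1 : ℝ) else 0), (if a = i then (1 : ℝ) else 0)] :
          Matrix (Fin (k + 2)) (Fin (k + 2)) ℝ).det| := by
  rw [ix_laplace _ i, ix_laplace _ j]
  · congr 2
    ext a b
    simp only [Matrix.submatrix_apply, Matrix.of_apply, id]
    have hb : (b.castSucc.castSucc : Fin (k + 2)) = Fin.castAdd 2 b := rfl
    rw [hb, Fin.append_left]
  · intro a
    simp only [Matrix.submatrix_apply, Matrix.of_apply]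
    have hb : ((Fin.last k).castSucc : Fin (k + 2)) = Fin.natAdd k (0 : Fin 2) := rfl
    rw [hb, Fin.append_right]
    simp only [Matrix.cons_val_zero]
    have : (i.succAbove a = i.succAbove j) ↔ a = j := Fin.succAbove_right_injective.eq_iff
    simp only [this]
  · intro a
    simp only [Matrix.of_apply]
    have hb : (Fin.last (k + 1) : Fin (k + 2)) = Fin.natAdd k (1 : Fin 2) := rfl
    rw [hb, Fin.append_right]
    simp

private lemma ix_rot {k : ℕ} (R : Matrix (Fin (k + 2)) (Fin (k + 2)) ℝ) (hR : R * Rᵀ = 1)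
    (Y : Matrix (Fin (k + 2)) (Fin k) ℝ) (i j' : Fin (k + 2)) :
    |(Matrix.of fun a => Fin.append (fun b => (R * Y) a b)
        ![(if a = j' then (1 : ℝ) else 0), (if a = i then (1 : ℝ) else 0)] :
          Matrix (Fin (k + 2)) (Fin (k + 2)) ℝ).det| =
      |(Matrix.of fun a => Fin.append (fun b => Y a b) ![R j' a, R i a] :
          Matrix (Fin (k + 2)) (Fin (k + 2)) ℝ).det| := by
  have h0 : ∀ a c, ∑ b, R a b * R c b = if a = c then (1 : ℝ) else 0 := by
    intro a c
    have h1 := congrFun (congrFun hR a) c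
    rw [Matrix.mul_apply, Matrix.one_apply] at h1
    rw [← h1]
    rfl
  have hd : |R.det| = 1 := by
    have h1 : R.det * R.det = 1 := by
      have h2 := congrArg Matrix.det hR
      rw [Matrix.det_mul, Matrix.det_transpose, Matrix.det_one] at h2
      exact h2
    have h2 : |R.det| * |R.det| = 1 := by rw [← abs_mul, h1, abs_one]
    have h3 := abs_nonneg R.det
    nlinarith
  have hM : (Matrix.of fun a => Fin.append (fun b => (R * Y) a b)
        ![(if a = j' then (1 : ℝ) else 0), (if a = i then (1 : ℝ) else 0)] :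
          Matrix (Fin (k + 2)) (Fin (k + 2)) ℝ) =
      R * (Matrix.of fun a => Fin.append (fun b => Y a b) ![R j' a, R i a] :
          Matrix (Fin (k + 2)) (Fin (k + 2)) ℝ) := by
    ext a c
    rw [Matrix.mul_apply]
    simp only [Matrix.of_apply]
    refine Fin.addCases (fun b => ?_) (fun b => ?_) c
    · simp only [Fin.append_left]
      rw [Matrix.mul_apply]
    · simp only [Fin.append_right]
      fin_cases b
      · exact (h0 a j').symm
      · exact (h0 a i).symm
  rw [hM, Matrix.det_mul, abs_mul, hd, one_mul]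

/-! ### The minors of a rotated frame -/

private lemma ix_YY {x x' : Fin (2 * s + 2) → Cn n}
    {R : Matrix (Fin (2 * s + 2)) (Fin (2 * s + 2)) ℝ}
    (h : ∀ a, x' a = ∑ b, R a b • x b) : YY x' = R * YY x := by
  ext a c
  rw [Matrix.mul_apply]
  simp only [YY, Matrix.of_apply]
  rw [h a, sum_inner]
  refine Finset.sum_congr rfl fun b _ => ?_
  rw [real_inner_smul_left]

private lemma ix_DD (x : Fin (2 * s + 2) → Cn n) :
    ∃ n1 n2 : Fin (2 * s + 2) → ℝ, ∑ a, n1 a * n1 a = 1 ∧ ∑ a, n2 a * n2 a = 1 ∧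
      ∑ a, n1 a * n2 a = 0 ∧
      ∀ R : Matrix (Fin (2 * s + 2)) (Fin (2 * s + 2)) ℝ, R * Rᵀ = 1 →
        ∀ x' : Fin (2 * s + 2) → Cn n, (∀ a, x' a = ∑ b, R a b • x b) →
        ∀ (i : Fin (2 * s + 2)) (j : Fin (2 * s + 1)),
          |DD (fun a : Fin (2 * s) => x' (i.succAbove (j.succAbove a))) (cf n s)| =
            DN x * |(∑ a, n1 a * R (i.succAbove j) a) * (∑ a, n2 a * R i a) -
              (∑ a, n1 a * R i a) * (∑ a, n2 a * R (i.succAbove j) a)| := by
  obtain ⟨n1, n2, h11, h22, h12, _, _, hUV⟩ := simp_rep (YY x)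
  refine ⟨n1, n2, h11, h22, h12, fun R hR x' hx' i j => ?_⟩
  have h1 : DD (fun a : Fin (2 * s) => x' (i.succAbove (j.succAbove a))) (cf n s) =
      ((R * YY x).submatrix (fun a : Fin (2 * s) => i.succAbove (j.succAbove a)) id).det := by
    rw [← ix_YY hx']
    rfl
  rw [h1, ix_minor, ix_rot R hR, hUV]
  rfl

/-! ### The rotation of a unitary map -/

private def ixR (s : ℕ) (ψ : Un (s + 1)) : Matrix (Fin (2 * s + 2)) (Fin (2 * s + 2)) ℝ :=
  Matrix.of fun i a => inner ℝ (uni ψ (bb (s + 1) i)) (bb (s + 1) a)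

private lemma ix_finrank (m : ℕ) : Module.finrank ℝ (Cn m) = 2 * m := by
  rw [finrank_real_of_complex, finrank_euclideanSpace_fin]

private lemma ix_parseval (m : ℕ) (u v : Cn m) :
    ∑ a, (inner ℝ u (bb m a) : ℝ) * inner ℝ v (bb m a) = inner ℝ u v := by
  have hb := orthonormal_bb m
  have hc : Fintype.card (Fin (2 * m)) = Module.finrank ℝ (Cn m) := by
    rw [ix_finrank, Fintype.card_fin]
  have h1 : Submodule.span ℝ (Set.range (bb m)) = ⊤ :=
    hb.linearIndependent.span_eq_top_of_card_eq_finrank' hc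
  let o : OrthonormalBasis (Fin (2 * m)) ℝ (Cn m) := OrthonormalBasis.mk hb h1.ge
  have ho : ∀ a, o a = bb m a := by
    intro a
    change (OrthonormalBasis.mk hb h1.ge) a = _
    rw [OrthonormalBasis.coe_mk]
  rw [← o.sum_inner_mul_inner u v]
  refine Finset.sum_congr rfl fun a _ => ?_
  rw [ho, real_inner_comm v (bb m a)]

private lemma ixR_orth (ψ : Un (s + 1)) : ixR s ψ * (ixR s ψ)ᵀ = 1 := by
  ext a c
  rw [Matrix.mul_apply, Matrix.one_apply]
  simp only [ixR, Matrix.transpose_apply, Matrix.of_apply]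
  have h1 := ix_parseval (s + 1) (uni ψ (bb (s + 1) a)) (uni ψ (bb (s + 1) c))
  have h2 := orthonormal_iff_ite.1 (orthonormal_bb (s + 1)) a c
  rw [LinearIsometry.inner_map_map, h2] at h1
  exact h1

/-! ### Unit vectors of `ℂʳ` from the coordinates -/

private lemma ix_vec (m : ℕ) (n1 n2 : Fin (2 * m) → ℝ) :
    (inner ℝ (∑ a, n1 a • bb m a) (∑ a, n2 a • bb m a) : ℝ) = ∑ a, n1 a * n2 a := by
  have hb := orthonormal_iff_ite.1 (orthonormal_bb m)
  rw [sum_inner]
  refine Finset.sum_congr rfl fun a _ => ?_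
  rw [real_inner_smul_left, inner_sum, Finset.sum_eq_single a]
  · rw [real_inner_smul_right, hb, if_pos rfl, mul_one]
  · intro c _ hc
    rw [real_inner_smul_right, hb, if_neg (Ne.symm hc), mul_zero]
  · intro h
    exact absurd (Finset.mem_univ _) h

private lemma ix_area (m : ℕ) {n1 n2 : Fin (2 * m) → ℝ} (h11 : ∑ a, n1 a * n1 a = 1)
    (h22 : ∑ a, n2 a * n2 a = 1) (h12 : ∑ a, n1 a * n2 a = 0) :
    area (∑ a, n1 a • bb m a) (∑ a, n2 a • bb m a) = 1 := by
  unfold area
  rw [← real_inner_self_eq_norm_sq, ← real_inner_self_eq_norm_sq, ix_vec, ix_vec, ix_vec, h11, h22,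
    h12]
  norm_num

private lemma ixR_sum (ψ : Un (s + 1)) (m1 : Fin (2 * s + 2) → ℝ) (i : Fin (2 * s + 2)) :
    ∑ a, m1 a * ixR s ψ i a =
      inner ℝ (uni ψ (bb (s + 1) i)) (∑ a : Fin (2 * (s + 1)), m1 a • bb (s + 1) a) := by
  rw [inner_sum]
  refine Finset.sum_congr rfl fun a _ => ?_
  rw [real_inner_smul_right]
  rfl

private lemma ix_pair (ψ : Un (s + 1)) (n1 n2 : Fin (2 * s + 2) → ℝ) (i j : Fin (2 * s + 2)) :
    |(∑ a, n1 a * ixR s ψ j a) * (∑ a, n2 a * ixR s ψ i a) -
      (∑ a, n1 a * ixR s ψ i a) * (∑ a, n2 a * ixR s ψ j a)| =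
    |pair2 (uni ψ (bb (s + 1) i)) (uni ψ (bb (s + 1) j))
      (∑ a : Fin (2 * (s + 1)), n1 a • bb (s + 1) a)
      (∑ a : Fin (2 * (s + 1)), n2 a • bb (s + 1) a)| := by
  simp only [ixR_sum, pair2]
  rw [← abs_neg]
  congr 1
  ring

private lemma ix_pair_self (m : ℕ) (p x y : Cn m) : pair2 p p x y = 0 := by
  unfold pair2
  ring

/-! ### Continuity and the exchange of the integrals -/

private def ixF (e : Fin (2 * s + 2) → Cn n) (ψ : Un (s + 1)) (φ : Un n) (i : Fin (2 * s + 2))
    (j : Fin (2 * s + 1)) : ℝ :=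
  |DD (fun a : Fin (2 * s) =>
    uni φ (∑ b, ixR s ψ (i.succAbove (j.succAbove a)) b • e b)) (cf n s)|

private lemma ixR_cont (i b : Fin (2 * s + 2)) :
    Continuous (fun ψ : Un (s + 1) => ixR s ψ i b) := by
  have h1 : Continuous (fun ψ : Un (s + 1) =>
      (inner ℝ (uni ψ (bb (s + 1) i)) (bb (s + 1) b) : ℝ)) :=
    Continuous.inner (continuous_uni (bb (s + 1) i)) continuous_const
  exact h1

private lemma ix_cont_uni {X : Type} [TopologicalSpace X] {g : X → Un n} {v : X → Cn n}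
    (hg : Continuous g) (hv : Continuous v) : Continuous (fun x => uni (g x) (v x)) := by
  have h1 : Continuous (fun x => ((g x, v x) : Un n × Cn n)) := hg.prodMk hv
  have h2 : (fun x => uni (g x) (v x)) =
      (fun q : Un n × Cn n => uni q.1 q.2) ∘ (fun x => ((g x, v x) : Un n × Cn n)) := by
    funext x
    simp only [Function.comp_apply]
  rw [h2]
  exact Continuous.comp continuous_uni2 h1

private lemma ix_cont_vec (e : Fin (2 * s + 2) → Cn n) (i : Fin (2 * s + 2)) :
    Continuous (fun q : Un (s + 1) × Un n => uni q.2 (∑ b, ixR s q.1 i b • e b)) := by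
  have h2 : ∀ b, Continuous (fun q : Un (s + 1) × Un n => ixR s q.1 i b • e b) := by
    intro b
    have h1 : Continuous (fun q : Un (s + 1) × Un n => q.1) := continuous_fst
    have h2 := ixR_cont (s := s) i b
    have h0 : Continuous (fun q : Un (s + 1) × Un n => ixR s q.1 i b) := h2.comp h1
    exact h0.smul continuous_const
  have h3 : Continuous (fun q : Un (s + 1) × Un n => ∑ b, ixR s q.1 i b • e b) :=
    continuous_finsetSum _ fun b _ => h2 b
  have h4 : Continuous (fun q : Un (s + 1) × Un n => q.2) := continuous_snd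
  exact ix_cont_uni h4 h3

private lemma ixF_cont (e : Fin (2 * s + 2) → Cn n) (i : Fin (2 * s + 2)) (j : Fin (2 * s + 1)) :
    Continuous (fun q : Un (s + 1) × Un n => ixF e q.1 q.2 i j) := by
  have h1 : Continuous (fun q : Un (s + 1) × Un n => (fun a : Fin (2 * s) =>
      uni q.2 (∑ b, ixR s q.1 (i.succAbove (j.succAbove a)) b • e b))) :=
    continuous_pi fun a => ix_cont_vec e (i.succAbove (j.succAbove a))
  have h2 : Continuous (fun q : Un (s + 1) × Un n => ((fun a : Fin (2 * s) =>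
      uni q.2 (∑ b, ixR s q.1 (i.succAbove (j.succAbove a)) b • e b), cf n s) :
        (Fin (2 * s) → Cn n) × (Fin (2 * s) → Cn n))) := h1.prodMk continuous_const
  have h3 := Continuous.comp (g := fun q : (Fin (2 * s) → Cn n) × (Fin (2 * s) → Cn n) =>
    DD q.1 q.2) continuous_DD h2
  exact h3.abs

private lemma ixF_eq (e : Fin (2 * s + 2) → Cn n) (φ : Un n) :
    ∃ y1 y2 : Cn (s + 1), area y1 y2 = 1 ∧ ∀ ψ i j, ixF e ψ φ i j =
      DN (fun a => uni φ (e a)) * |pair2 (uni ψ (bb (s + 1) i))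
        (uni ψ (bb (s + 1) (i.succAbove j : Fin (2 * s + 2)))) y1 y2| := by
  obtain ⟨n1, n2, h11, h22, h12, h⟩ := ix_DD (fun a => uni φ (e a))
  refine ⟨∑ a : Fin (2 * (s + 1)), n1 a • bb (s + 1) a,
    ∑ a : Fin (2 * (s + 1)), n2 a • bb (s + 1) a, ix_area (s + 1) h11 h22 h12, fun ψ i j => ?_⟩
  have h3 := h (ixR s ψ) (ixR_orth ψ) (fun a => uni φ (∑ b, ixR s ψ a b • e b))
    (fun a => by rw [map_sum]; exact Finset.sum_congr rfl fun b _ => by rw [map_smul]) i j
  rw [ix_pair] at h3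
  exact h3

private lemma ix_fubini {m n : ℕ} (f : Un m → Un n → ℝ)
    (hf : Continuous (Function.uncurry f)) :
    ∫ ψ, ∫ φ, f ψ φ ∂(haarU n) ∂(haarU m) = ∫ φ, ∫ ψ, f ψ φ ∂(haarU m) ∂(haarU n) := by
  have : SecondCountableTopology (Un m) := TMean_sct m
  have : SecondCountableTopology (Un n) := TMean_sct n
  exact integral_integral_swap
    (hf.integrable_of_hasCompactSupport (HasCompactSupport.of_compactSpace _))

private lemma ix_int1 {m n : ℕ} {f : Un m → Un n → ℝ}
    (hf : Continuous (Function.uncurry f)) (ψ : Un m) : Integrable (fun φ => f ψ φ) (haarU n) :=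
  integrable_of_continuous (Continuous.uncurry_left ψ hf)

private lemma ix_int2 {m n : ℕ} {f : Un m → Un n → ℝ}
    (hf : Continuous (Function.uncurry f)) (φ : Un n) : Integrable (fun ψ => f ψ φ) (haarU m) :=
  integrable_of_continuous (Continuous.uncurry_right φ hf)

private lemma ixF_cont' (e : Fin (2 * s + 2) → Cn n) (i : Fin (2 * s + 2))
    (j : Fin (2 * s + 1)) :
    Continuous (Function.uncurry fun (ψ : Un (s + 1)) (φ : Un n) => ixF e ψ φ i j) :=
  ixF_cont e i j

private lemma ix_left (hs : s + 1 ≤ n) {e : Fin (2 * s + 2) → Cn n} (he : Orthonormal ℝ e)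
    (ψ : Un (s + 1)) :
    ∫ φ, ∑ i, ∑ j, ixF e ψ φ i j ∂(haarU n) =
      ∑ i : Fin (2 * s + 2), ∑ j : Fin (2 * s + 1),
        gg (fun a : Fin (2 * s) => e (i.succAbove (j.succAbove a))) (cf n s) := by
  rw [integral_finsetSum _ fun i _ => integrable_finsetSum _ fun j _ => ix_int1 (ixF_cont' e i j) ψ]
  rw [← sum_gg_rot hs he (ixR_orth ψ) (e' := fun a => ∑ b, ixR s ψ a b • e b) (fun a => rfl)]
  refine Finset.sum_congr rfl fun i _ => ?_
  rw [integral_finsetSum _ fun j _ => ix_int1 (ixF_cont' e i j) ψ]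
  rfl

private lemma ix_right (e : Fin (2 * s + 2) → Cn n) (φ : Un n) :
    ∫ ψ, ∑ i, ∑ j, ixF e ψ φ i j ∂(haarU (s + 1)) =
      2 * (s + 1) * DN (fun a => uni φ (e a)) := by
  obtain ⟨y1, y2, hy, h⟩ := ixF_eq e φ
  have hp := pair_sum (m := s + 1) (by omega) y1 y2
  rw [hy, mul_one] at hp
  rw [integral_finsetSum _ fun i _ => integrable_finsetSum _ fun j _ => ix_int2 (ixF_cont' e i j) φ]
  have h3 : ∀ i : Fin (2 * s + 2),
      ∫ ψ, ∑ j, ixF e ψ φ i j ∂(haarU (s + 1)) = DN (fun a => uni φ (e a)) *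
        ∑ j : Fin (2 * s + 2), ∫ ψ, |pair2 (uni ψ (bb (s + 1) i)) (uni ψ (bb (s + 1) j)) y1 y2|
          ∂(haarU (s + 1)) := by
    intro i
    rw [integral_finsetSum _ fun j _ => ix_int2 (ixF_cont' e i j) φ, Fin.sum_univ_succAbove _ i]
    simp only [ix_pair_self, abs_zero, integral_zero, zero_add]
    rw [Finset.mul_sum]
    refine Finset.sum_congr rfl fun j _ => ?_
    simp only [h]
    rw [integral_const_mul]
  simp only [h3]
  rw [← Finset.mul_sum]
  have h4 : ∑ i : Fin (2 * s + 2), ∑ j : Fin (2 * s + 2),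
      ∫ ψ, |pair2 (uni ψ (bb (s + 1) i)) (uni ψ (bb (s + 1) j)) y1 y2| ∂(haarU (s + 1)) =
        2 * ((s + 1 : ℕ) : ℝ) := hp
  rw [h4]
  push_cast
  ring

theorem ix_side (hs : s + 1 ≤ n) {e : Fin (2 * s + 2) → Cn n} (he : Orthonormal ℝ e) :
    ∑ i : Fin (2 * s + 2), ∑ j : Fin (2 * s + 1),
      gg (fun a : Fin (2 * s) => e (i.succAbove (j.succAbove a))) (cf n s) =
        2 * (s + 1) * VV e := by
  have hc : Continuous (Function.uncurry (fun (ψ : Un (s + 1)) (φ : Un n) =>
      ∑ i, ∑ j, ixF e ψ φ i j)) := by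
    have hc' : Continuous (fun q : Un (s + 1) × Un n => ∑ i, ∑ j, ixF e q.1 q.2 i j) :=
      continuous_finsetSum _ fun i _ => continuous_finsetSum _ fun j _ => ixF_cont e i j
    exact hc'
  have hsw := ix_fubini (fun (ψ : Un (s + 1)) (φ : Un n) => ∑ i, ∑ j, ixF e ψ φ i j) hc
  simp only [ix_left hs he, ix_right] at hsw
  rw [integral_const, probReal_univ, one_smul, integral_const_mul] at hsw
  exact hsw

end Pool.Agent.H89.EN
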