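import Mathlib
import Pool.Agent.H35.NI.Lin
import Pool.Agent.H89.EN.PairSum
import Pool.Agent.H89.EN.Simp
import Pool.Agent.H89.EN.GEmb

set_option autoImplicit false

/-!
# SpSide: averaging over the unitary group of the complement of `W`

(1) `exists_embQ` (`GEmb`): `ψ ∈ U(q)` acts on the last `q` coordinates of `ℂ^(s+q)`,
`uni (emb ψ) (io s u) = io s (uni ψ u)`, and it fixes the vectors of `cf (s+q) s`.
(2) So `gg e (W, io u, io v) = gg e (W, io (ψ u), io (ψ v))` for all `ψ` (`gg_symm`, `gg_uni` of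
`H35/NI/Lin.lean`: `gg` is invariant if the second argument is moved by a unitary map), hence the
left-hand side is `∑_{i,j} ∫_ψ gg e (W, io (ψ b_i), io (ψ b_j)) dψ`.  Exchange the integrals
(`integral_integral_swap`; continuous bounded integrand on `U(n) × U(q)`,
`integrable_of_continuous` pattern of `H89/CZ/HB.lean`; second countability as `TMean_sct` of
`H89/CZ/TMean.lean`).
(3) Fixed `φ`, `x = φ e` orthonormal.  `simp_rep` for `Y = YY x`: `|DD x (W, io u, io v)| =
DN x * |pair2 p1 p2 (io u) (io v)|`, `p_l = ∑_a n_l a • x_a`: `p1, p2` orthonormal (real), and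
`⟨p_l, W_b⟩ = 0` for all `b`, so the first `s` coordinates of `p_l` vanish: `p_l = io y_l` with
`y1, y2 ∈ ℂ^q` orthonormal, `area y1 y2 = 1`, and `pair2 (io y1) (io y2) (io u) (io v) =
pair2 y1 y2 u v` (`rinner_io`), `|pair2 y1 y2 u v| = |pair2 u v y1 y2|`.
(4) `pair_sum`: `∑_{i,j} ∫_ψ |pair2 (ψ b_i) (ψ b_j) y1 y2| = 2 q`.
-/

open MeasureTheory Pool.Agent.H61.UProj Pool.Agent.H89.CZ Pool.Agent.H35.NI

noncomputable section

namespace Pool.Agent.H89.EN

variable {s q : ℕ}

/-- the frame `(W, u, v)` -/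
private def fr (s : ℕ) {q : ℕ} (u v : Cn q) : Fin (2 * s + 2) → Cn (s + q) :=
  Fin.append (cf (s + q) s) ![io s u, io s v]

private theorem inner_st_re (n : ℕ) (j : Fin n) (p : Cn n) :
    (inner ℝ p (st n j) : ℝ) = (p j).re := by
  rw [real_inner_comm, rinner_eq, inner_st_left]

private theorem inner_Ist_re (n : ℕ) (j : Fin n) (p : Cn n) :
    (inner ℝ p (Complex.I • st n j) : ℝ) = (p j).im := by
  rw [real_inner_comm, rinner_eq, inner_smul_left, inner_st_left]
  simp

/-- a vector orthogonal to `W` has vanishing first coordinates -/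
private theorem exists_io (p : Cn (s + q)) (h : ∀ b, (inner ℝ p (cf (s + q) s b) : ℝ) = 0) :
    ∃ y : Cn q, p = io s y := by
  refine ⟨WithLp.toLp 2 (fun j => p (Fin.natAdd s j)), ?_⟩
  ext j
  refine Fin.addCases (fun i => ?_) (fun i => ?_) j
  · rw [io_castAdd]
    have h1 := h ⟨2 * (i : ℕ), by omega⟩
    have h2 := h ⟨2 * (i : ℕ) + 1, by omega⟩
    have e1 : cf (s + q) s ⟨2 * (i : ℕ), by omega⟩
        = st (s + q) (Fin.castAdd q i : Fin (s + q)) := by
      unfold cf vf
      have ha : 2 * (i : ℕ) < 2 * s := by omega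
      have hb : 2 * (i : ℕ) % 2 = 0 := by omega
      have hc : 2 * (i : ℕ) / 2 = (i : ℕ) := by omega
      simp only [ha, hb, hc, if_true, Fin.val_castAdd]
    have e2 : cf (s + q) s ⟨2 * (i : ℕ) + 1, by omega⟩
        = Complex.I • st (s + q) (Fin.castAdd q i : Fin (s + q)) := by
      unfold cf vf
      have ha : 2 * (i : ℕ) + 1 < 2 * s := by omega
      have hb : ¬ ((2 * (i : ℕ) + 1) % 2 = 0) := by omega
      have hc : (2 * (i : ℕ) + 1) / 2 = (i : ℕ) := by omega
      simp only [ha, hb, hc, if_true, if_false, Fin.val_castAdd]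
    rw [e1, inner_st_re] at h1
    rw [e2, inner_Ist_re] at h2
    exact Complex.ext h1 h2
  · rw [io_natAdd]

private theorem area_eq_one {y1 y2 : Cn q} (h1 : (inner ℝ y1 y1 : ℝ) = 1)
    (h2 : (inner ℝ y2 y2 : ℝ) = 1) (h3 : (inner ℝ y1 y2 : ℝ) = 0) : area y1 y2 = 1 := by
  unfold area
  rw [← real_inner_self_eq_norm_sq, ← real_inner_self_eq_norm_sq, h1, h2, h3]
  simp

private theorem pair2_comm (y1 y2 u v : Cn q) : pair2 y1 y2 u v = pair2 u v y1 y2 := by
  unfold pair2
  rw [real_inner_comm u y1, real_inner_comm v y2, real_inner_comm v y1, real_inner_comm u y2]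
  ring

/-- step (3) -/
private theorem step3 {x : Fin (2 * s + 2) → Cn (s + q)} (hx : Orthonormal ℝ x) :
    ∃ y1 y2 : Cn q, area y1 y2 = 1 ∧ ∀ u v : Cn q,
      |DD x (fr s u v)| = DN x * |pair2 u v y1 y2| := by
  obtain ⟨n1, n2, h11, h22, h12, hY1, hY2, hdet⟩ := simp_rep (YY x)
  have hxx := orthonormal_iff_ite.1 hx
  set p1 : Cn (s + q) := ∑ a, n1 a • x a with hp1
  set p2 : Cn (s + q) := ∑ a, n2 a • x a with hp2
  have hin : ∀ (m : Fin (2 * s + 2) → ℝ) (w : Cn (s + q)),
      (inner ℝ (∑ a, m a • x a) w : ℝ) = ∑ a, m a * inner ℝ (x a) w := by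
    intro m w
    rw [sum_inner]
    exact Finset.sum_congr rfl fun a _ => real_inner_smul_left _ _ _
  have hmm : ∀ (m m' : Fin (2 * s + 2) → ℝ),
      (inner ℝ (∑ a, m a • x a) (∑ a, m' a • x a) : ℝ) = ∑ a, m a * m' a := by
    intro m m'
    rw [hin]
    refine Finset.sum_congr rfl fun a _ => ?_
    rw [real_inner_comm, hin]
    congr 1
    simp [hxx]
  obtain ⟨y1, hy1⟩ := exists_io (s := s) (q := q) p1 (fun b => by rw [hp1, hin]; exact hY1 b)
  obtain ⟨y2, hy2⟩ := exists_io (s := s) (q := q) p2 (fun b => by rw [hp2, hin]; exact hY2 b)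
  refine ⟨y1, y2, area_eq_one ?_ ?_ ?_, ?_⟩
  · rw [← rinner_io s, ← hy1, hp1, hmm, h11]
  · rw [← rinner_io s, ← hy2, hp2, hmm, h22]
  · rw [← rinner_io s, ← hy1, ← hy2, hp1, hp2, hmm, h12]
  · intro u v
    have h1 := hdet (fun a => inner ℝ (x a) (io s u)) (fun a => inner ℝ (x a) (io s v))
    have h2 : DD x (fr s u v) = (Matrix.of fun a => Fin.append (fun b => YY x a b)
        ![(inner ℝ (x a) (io s u) : ℝ), inner ℝ (x a) (io s v)] :
          Matrix (Fin (2 * s + 2)) (Fin (2 * s + 2)) ℝ).det := by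
      unfold DD
      congr 1
      ext a b
      simp only [Matrix.of_apply]
      unfold fr
      refine Fin.addCases (fun i => ?_) (fun i => ?_) b
      · rw [Fin.append_left, Fin.append_left]
        rfl
      · rw [Fin.append_right, Fin.append_right]
        fin_cases i <;> rfl
    rw [h2, h1]
    have e11 : ∑ a, n1 a * (inner ℝ (x a) (io s u) : ℝ) = inner ℝ y1 u := by
      rw [← hin, ← hp1, hy1, rinner_io]
    have e12 : ∑ a, n1 a * (inner ℝ (x a) (io s v) : ℝ) = inner ℝ y1 v := by
      rw [← hin, ← hp1, hy1, rinner_io]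
    have e21 : ∑ a, n2 a * (inner ℝ (x a) (io s u) : ℝ) = inner ℝ y2 u := by
      rw [← hin, ← hp2, hy2, rinner_io]
    have e22 : ∑ a, n2 a * (inner ℝ (x a) (io s v) : ℝ) = inner ℝ y2 v := by
      rw [← hin, ← hp2, hy2, rinner_io]
    rw [e11, e12, e21, e22, ← pair2_comm]
    rfl

private theorem io_cont (s : ℕ) {q : ℕ} : Continuous (fun u : Cn q => io s u) := by
  unfold io
  refine (PiLp.continuous_toLp 2 _).comp ?_
  refine continuous_pi fun j => ?_
  refine Fin.addCases (fun i => ?_) (fun i => ?_) j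
  · simp only [Fin.append_left]
    exact continuous_const
  · simp only [Fin.append_right]
    exact PiLp.continuous_apply 2 (fun _ : Fin q => ℂ) i

private theorem fr_cont (s : ℕ) {q : ℕ} :
    Continuous (fun p : Cn q × Cn q => fr s p.1 p.2) := by
  unfold fr
  refine continuous_pi fun j => ?_
  refine Fin.addCases (fun i => ?_) (fun i => ?_) j
  · simp only [Fin.append_left]
    exact continuous_const
  · simp only [Fin.append_right]
    fin_cases i
    · exact (io_cont s).comp continuous_fst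
    · exact (io_cont s).comp continuous_snd

private theorem cont_absDD {X : Type*} [TopologicalSpace X] {n i : ℕ} {f g : X → Fin i → Cn n}
    (hf : Continuous f) (hg : Continuous g) : Continuous (fun p => |DD (f p) (g p)|) := by
  unfold DD
  refine Continuous.abs (Continuous.matrix_det ?_)
  refine continuous_matrix fun a b => ?_
  simp only [Matrix.of_apply]
  exact ((continuous_apply a).comp hf).inner ((continuous_apply b).comp hg)

private theorem F_cont (e : Fin (2 * s + 2) → Cn (s + q)) (a b : Cn q) :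
    Continuous (fun p : Un (s + q) × Un q =>
      |DD (fun k => uni p.1 (e k)) (fr s (uni p.2 a) (uni p.2 b))|) := by
  have h1 : Continuous (fun p : Un (s + q) × Un q => fun k => uni p.1 (e k)) :=
    continuous_pi fun k => (continuous_uni (e k)).comp continuous_fst
  have ha : Continuous (fun p : Un (s + q) × Un q => uni p.2 a) :=
    (continuous_uni a).comp continuous_snd
  have hb : Continuous (fun p : Un (s + q) × Un q => uni p.2 b) :=
    (continuous_uni b).comp continuous_snd
  have h2 : Continuous (fun p : Un (s + q) × Un q => fr s (uni p.2 a) (uni p.2 b)) :=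
    Continuous.comp (g := fun p : Cn q × Cn q => fr s p.1 p.2) (fr_cont s) (ha.prodMk hb)
  exact cont_absDD h1 h2

private theorem sct (n : ℕ) : SecondCountableTopology (Un n) := by
  have : SecondCountableTopology (Matrix (Fin n) (Fin n) ℂ) :=
    inferInstanceAs (SecondCountableTopology (Fin n → Fin n → ℂ))
  exact TopologicalSpace.Subtype.secondCountableTopology _

private theorem gg_move (e : Fin (2 * s + 2) → Cn (s + q)) (a b : Cn q) (ψ : Un q) :
    gg e (fr s a b) = gg e (fr s (uni ψ a) (uni ψ b)) := by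
  obtain ⟨h, h1, h2⟩ := exists_embQ (s := s) ψ
  have h3 : (fun k => uni h (fr s a b k)) = fr s (uni ψ a) (uni ψ b) := by
    funext k
    unfold fr
    refine Fin.addCases (fun i => ?_) (fun i => ?_) k
    · rw [Fin.append_left, Fin.append_left, h2]
    · rw [Fin.append_right, Fin.append_right]
      fin_cases i
      · exact h1 a
      · exact h1 b
  rw [gg_symm, ← gg_uni h, h3, gg_symm]

/-- the frame `(W, u, v)` -/
theorem sp_side (hq : 1 ≤ q) {e : Fin (2 * s + 2) → Cn (s + q)} (he : Orthonormal ℝ e) :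
    ∑ i : Fin (2 * q), ∑ j : Fin (2 * q),
      gg e (Fin.append (cf (s + q) s) ![io s (bb q i), io s (bb q j)]) = 2 * q * VV e := by
  have : SecondCountableTopology (Un q) := sct q
  have : SecondCountableTopology (Un (s + q)) := sct (s + q)
  -- the integrand
  let F : Fin (2 * q) → Fin (2 * q) → Un (s + q) → Un q → ℝ := fun i j φ ψ =>
    |DD (fun k => uni φ (e k)) (fr s (uni ψ (bb q i)) (uni ψ (bb q j)))|
  have hI : ∀ i j, Integrable (Function.uncurry (F i j)) ((haarU (s + q)).prod (haarU q)) := by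
    intro i j
    exact (F_cont e (bb q i) (bb q j)).integrable_of_hasCompactSupport
      (HasCompactSupport.of_compactSpace _)
  have h1 : ∀ i j, gg e (Fin.append (cf (s + q) s) ![io s (bb q i), io s (bb q j)])
      = ∫ φ, ∫ ψ, F i j φ ψ ∂(haarU q) ∂(haarU (s + q)) := by
    intro i j
    rw [integral_integral_swap (hI i j)]
    have h2 : ∀ ψ : Un q, ∫ φ, F i j φ ψ ∂(haarU (s + q)) = gg e (fr s (bb q i) (bb q j)) :=
      fun ψ => (gg_move e (bb q i) (bb q j) ψ).symm
    simp only [h2]
    simp [fr]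
  simp only [h1]
  have h3 : ∀ i j, Integrable (fun φ => ∫ ψ, F i j φ ψ ∂(haarU q)) (haarU (s + q)) :=
    fun i j => (hI i j).integral_prod_left
  have h4 : ∀ i, ∑ j, ∫ φ, ∫ ψ, F i j φ ψ ∂(haarU q) ∂(haarU (s + q))
      = ∫ φ, ∑ j, ∫ ψ, F i j φ ψ ∂(haarU q) ∂(haarU (s + q)) :=
    fun i => (integral_finsetSum _ fun j _ => h3 i j).symm
  simp only [h4]
  rw [← integral_finsetSum _ fun i _ => integrable_finsetSum _ fun j _ => h3 i j]
  unfold VV
  rw [← integral_const_mul]
  refine integral_congr_ae (Filter.Eventually.of_forall fun φ => ?_)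
  simp only []
  have hx : Orthonormal ℝ (fun a => uni φ (e a)) := he.comp_linearIsometry (uni φ)
  obtain ⟨y1, y2, hy, hf⟩ := step3 hx
  have h5 : ∀ i j, ∫ ψ, F i j φ ψ ∂(haarU q)
      = DN (fun a => uni φ (e a)) *
        ∫ ψ, |pair2 (uni ψ (bb q i)) (uni ψ (bb q j)) y1 y2| ∂(haarU q) := by
    intro i j
    rw [← integral_const_mul]
    refine integral_congr_ae (Filter.Eventually.of_forall fun ψ => ?_)
    exact hf _ _
  simp only [h5, ← Finset.mul_sum]
  rw [pair_sum hq, hy]
  ring

end Pool.Agent.H89.EN
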