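import Mathlib
import Pool.Agent.H89.EN.PMin

set_option autoImplicit false

/-!
# Trig: the integral of the sum of principal minors of `cos θ + sin θ Ω`

`P x y = det (x 1 + y Ω)` is homogeneous of degree `N = 2r + 2`, `T θ = P (cos θ) (sin θ) = TT e θ`.
With `∂_x P = ∑_i` (principal minors without `i`), `∂_x² P = ∑_i ∑_j` (without two) (`PMin`).
For a homogeneous polynomial of degree `N` on the circle `(∂_x P)(cos θ, sin θ) =
N cos θ T θ - sin θ T' θ` (`T' = -sin ∂_x P + cos ∂_y P` and Euler `cos ∂_x P + sin ∂_y P = N T`).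
Let `T1 = ∂_x P` (degree `N - 1`), `T2 = ∂_x² P` on the circle:
`∫_0^π T2 = ∫ ((N-1) cos θ T1 - sin θ T1') = N ∫ cos θ T1` (by parts, `sin 0 = sin π = 0`),
`∫ cos θ T1 = ∫ (N cos² θ T - sin θ cos θ T') = ∫ (N cos² θ + cos 2θ) T` (by parts), and
`cos² θ = (1 + cos 2θ)/2`, so `∫ T2 = N (N/2 ∫ T + (N/2 + 1) ∫ T cos 2θ)`, `N = 2r + 2`.

The derivative of `T` on `(0, π)` is computed from `T θ = sin^N θ f (cot θ)`,
`f t = det (t 1 + Ω)`.
-/

open MeasureTheory Pool.Agent.H61.UProj Pool.Agent.H89.CZ Pool.Agent.H35.NI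

noncomputable section

namespace Pool.Agent.H89.EN

/-- the matrix of `om` -/
private def Om {n m : ℕ} (e : Fin m → Cn n) : Matrix (Fin m) (Fin m) ℝ :=
  Matrix.of fun a b => om (e a) (e b)

/-- `det (t 1 + Ω)` -/
private def gt {n m : ℕ} (e : Fin m → Cn n) (t : ℝ) : ℝ :=
  (t • (1 : Matrix (Fin m) (Fin m) ℝ) + Om e).det

private theorem TT_eq {n m : ℕ} (e : Fin m → Cn n) (θ : ℝ) :
    TT e θ = (Real.cos θ • (1 : Matrix (Fin m) (Fin m) ℝ) + Real.sin θ • Om e).det := by
  unfold TT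
  congr 1

private theorem TT_cot {n m : ℕ} (e : Fin m → Cn n) (θ : ℝ) (h : Real.sin θ ≠ 0) :
    TT e θ = Real.sin θ ^ m * gt e (Real.cos θ / Real.sin θ) := by
  rw [TT_eq]
  unfold gt
  have h1 : Real.cos θ • (1 : Matrix (Fin m) (Fin m) ℝ) + Real.sin θ • Om e =
      Real.sin θ • ((Real.cos θ / Real.sin θ) • (1 : Matrix (Fin m) (Fin m) ℝ) + Om e) := by
    rw [smul_add, smul_smul, mul_div_cancel₀ _ h]
  rw [h1, Matrix.det_smul, Fintype.card_fin]

private theorem gt_deriv {n m : ℕ} (e : Fin (m + 1) → Cn n) (t : ℝ) :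
    HasDerivAt (gt e) (∑ i : Fin (m + 1), gt (fun a => e (i.succAbove a)) t) t := by
  have h := hasDerivAt_det_add (Om e) t
  have h1 : ∀ i : Fin (m + 1), ((t • (1 : Matrix (Fin (m + 1)) (Fin (m + 1)) ℝ) + Om e).submatrix
      i.succAbove i.succAbove).det = gt (fun a => e (i.succAbove a)) t := by
    intro i
    unfold gt
    congr 1
    ext a b
    simp [Om, Matrix.one_apply]
  simp only [h1] at h
  exact h

private theorem TT_continuous {n m : ℕ} (e : Fin m → Cn n) : Continuous (TT e) := by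
  unfold TT
  apply Continuous.matrix_det
  apply continuous_matrix
  intro a b
  simp only [Matrix.of_apply]
  fun_prop

private theorem TT_deriv {n m : ℕ} (e : Fin (m + 1) → Cn n) (θ : ℝ) (h : Real.sin θ ≠ 0) :
    HasDerivAt (TT e) ((((m : ℝ) + 1) * Real.cos θ * TT e θ -
      ∑ i : Fin (m + 1), TT (fun a => e (i.succAbove a)) θ) / Real.sin θ) θ := by
  have h1 : HasDerivAt (fun θ : ℝ => Real.cos θ / Real.sin θ)
      ((-Real.sin θ * Real.sin θ - Real.cos θ * Real.cos θ) / Real.sin θ ^ 2) θ :=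
    (Real.hasDerivAt_cos θ).div (Real.hasDerivAt_sin θ) h
  have h2 := (gt_deriv e (Real.cos θ / Real.sin θ)).comp θ h1
  have h3 := ((Real.hasDerivAt_sin θ).pow (m + 1)).mul h2
  have h4 : TT e =ᶠ[nhds θ] fun θ => Real.sin θ ^ (m + 1) * gt e (Real.cos θ / Real.sin θ) := by
    have h5 : ∀ᶠ x in nhds θ, Real.sin x ≠ 0 := Real.continuous_sin.continuousAt.eventually_ne h
    filter_upwards [h5] with x hx
    exact TT_cot e x hx
  have h6 := h3.congr_of_eventuallyEq h4
  refine h6.congr_deriv ?_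
  have h7 : ∑ i : Fin (m + 1), TT (fun a => e (i.succAbove a)) θ = Real.sin θ ^ m *
      ∑ i : Fin (m + 1), gt (fun a => e (i.succAbove a)) (Real.cos θ / Real.sin θ) := by
    rw [Finset.mul_sum]
    apply Finset.sum_congr rfl
    intro i _
    exact TT_cot _ θ h
  rw [h7, TT_cot e θ h]
  have h8 : -Real.sin θ * Real.sin θ - Real.cos θ * Real.cos θ = -1 := by
    have := Real.sin_sq_add_cos_sq θ
    nlinarith
  rw [h8]
  simp only [Function.comp, Pi.pow_apply]
  push_cast
  field_simp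
  ring

theorem int_minors {n r : ℕ} (e : Fin (2 * r + 2) → Cn n) :
    ∑ i : Fin (2 * r + 2), ∑ j : Fin (2 * r + 1),
      (∫ θ in (0 : ℝ)..Real.pi, TT (fun a : Fin (2 * r) => e (i.succAbove (j.succAbove a))) θ) =
    2 * (r + 1) * ((r + 1) * (∫ θ in (0 : ℝ)..Real.pi, TT e θ) +
      (r + 2) * ∫ θ in (0 : ℝ)..Real.pi, TT e θ * Real.cos (2 * θ)) := by
  set T1 : ℝ → ℝ := fun θ => ∑ i : Fin (2 * r + 2),
    TT (fun a : Fin (2 * r + 1) => e (i.succAbove a)) θ with hT1
  set T2 : ℝ → ℝ := fun θ => ∑ i : Fin (2 * r + 2), ∑ j : Fin (2 * r + 1),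
    TT (fun a : Fin (2 * r) => e (i.succAbove (j.succAbove a))) θ with hT2
  have cT : Continuous (TT e) := TT_continuous e
  have cT1 : Continuous T1 := continuous_finsetSum _ (fun i _ => TT_continuous _)
  have cT2 : Continuous T2 :=
    continuous_finsetSum _ (fun i _ => continuous_finsetSum _ (fun j _ => TT_continuous _))
  have hsin : ∀ θ ∈ Set.Ioo (0 : ℝ) Real.pi, Real.sin θ ≠ 0 :=
    fun θ hθ => (Real.sin_pos_of_pos_of_lt_pi hθ.1 hθ.2).ne'
  -- derivatives
  have dT : ∀ θ ∈ Set.Ioo (0 : ℝ) Real.pi,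
      HasDerivAt (TT e) (((2 * (r : ℝ) + 2) * Real.cos θ * TT e θ - T1 θ) / Real.sin θ) θ := by
    intro θ hθ
    refine (TT_deriv (m := 2 * r + 1) e θ (hsin θ hθ)).congr_deriv ?_
    rw [hT1]
    push_cast
    ring_nf
  have dT1 : ∀ θ ∈ Set.Ioo (0 : ℝ) Real.pi,
      HasDerivAt T1 (((2 * (r : ℝ) + 1) * Real.cos θ * T1 θ - T2 θ) / Real.sin θ) θ := by
    intro θ hθ
    have h1 : HasDerivAt T1 (∑ i : Fin (2 * r + 2), (((2 * (r : ℝ) + 1) * Real.cos θ *
        TT (fun a : Fin (2 * r + 1) => e (i.succAbove a)) θ -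
        ∑ j : Fin (2 * r + 1), TT (fun a : Fin (2 * r) => e (i.succAbove (j.succAbove a))) θ) /
        Real.sin θ)) θ := by
      apply HasDerivAt.fun_sum
      intro i _
      refine (TT_deriv (m := 2 * r) (fun a : Fin (2 * r + 1) => e (i.succAbove a)) θ
        (hsin θ hθ)).congr_deriv ?_
      push_cast
      ring_nf
    refine h1.congr_deriv ?_
    rw [← Finset.sum_div, Finset.sum_sub_distrib, ← Finset.mul_sum]
  -- two integrations
  have e1 : ∫ θ in (0 : ℝ)..Real.pi, ((2 * (r : ℝ) + 2) * (Real.cos θ * T1 θ) - T2 θ) = 0 := by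
    rw [intervalIntegral.integral_eq_sub_of_hasDerivAt_of_le (f := fun θ => Real.sin θ * T1 θ)
      Real.pi_pos.le (by fun_prop) ?_ ?_]
    · simp
    · intro θ hθ
      refine ((Real.hasDerivAt_sin θ).mul (dT1 θ hθ)).congr_deriv ?_
      have := hsin θ hθ
      field_simp
      ring
    · apply Continuous.intervalIntegrable
      fun_prop
  have e2 : ∫ θ in (0 : ℝ)..Real.pi, ((Real.cos (2 * θ) * TT e θ +
      (2 * (r : ℝ) + 2) * (Real.cos θ ^ 2 * TT e θ)) - Real.cos θ * T1 θ) = 0 := by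
    rw [intervalIntegral.integral_eq_sub_of_hasDerivAt_of_le
      (f := fun θ => Real.sin θ * Real.cos θ * TT e θ) Real.pi_pos.le (by fun_prop) ?_ ?_]
    · simp
    · intro θ hθ
      refine (((Real.hasDerivAt_sin θ).mul (Real.hasDerivAt_cos θ)).mul (dT θ hθ)).congr_deriv ?_
      have := hsin θ hθ
      rw [Real.cos_two_mul']
      simp only [Pi.mul_apply]
      field_simp
      ring
    · apply Continuous.intervalIntegrable
      fun_prop
  have ii : ∀ {f : ℝ → ℝ}, Continuous f → IntervalIntegrable f volume 0 Real.pi :=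
    fun h => h.intervalIntegrable _ _
  have e3 : ∫ θ in (0 : ℝ)..Real.pi, Real.cos θ ^ 2 * TT e θ =
      (∫ θ in (0 : ℝ)..Real.pi, TT e θ) / 2 +
        (∫ θ in (0 : ℝ)..Real.pi, TT e θ * Real.cos (2 * θ)) / 2 := by
    rw [← intervalIntegral.integral_div, ← intervalIntegral.integral_div,
      ← intervalIntegral.integral_add (ii (by fun_prop)) (ii (by fun_prop))]
    congr 1
    ext θ
    rw [Real.cos_sq]
    ring
  have e4 : ∫ θ in (0 : ℝ)..Real.pi, Real.cos (2 * θ) * TT e θ =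
      ∫ θ in (0 : ℝ)..Real.pi, TT e θ * Real.cos (2 * θ) := by
    congr 1
    ext θ
    ring
  rw [intervalIntegral.integral_sub (ii (by fun_prop)) (ii (by fun_prop)),
    intervalIntegral.integral_const_mul] at e1
  rw [intervalIntegral.integral_sub (ii (by fun_prop)) (ii (by fun_prop)),
    intervalIntegral.integral_add (ii (by fun_prop)) (ii (by fun_prop)),
    intervalIntegral.integral_const_mul, e3, e4] at e2
  have e5 : ∑ i : Fin (2 * r + 2), ∑ j : Fin (2 * r + 1),
      (∫ θ in (0 : ℝ)..Real.pi, TT (fun a : Fin (2 * r) => e (i.succAbove (j.succAbove a))) θ) =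
      ∫ θ in (0 : ℝ)..Real.pi, T2 θ := by
    rw [hT2, intervalIntegral.integral_finsetSum (fun i _ => ii
      (continuous_finsetSum _ (fun j _ => TT_continuous _)))]
    apply Finset.sum_congr rfl
    intro i _
    rw [intervalIntegral.integral_finsetSum (fun j _ => ii (TT_continuous _))]
  rw [e5]
  linear_combination (-1 : ℝ) * e1 - (2 * (r : ℝ) + 2) * e2

end Pool.Agent.H89.EN
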