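import Mathlib
import Pool.Agent.H89.EN.SpSide
import Pool.Agent.H89.EN.IxSide
import Pool.Agent.H89.EN.KForm
import Pool.Agent.H89.EN.Trig
import Pool.Agent.H89.EN.G1

set_option autoImplicit false

/-!
# AB: the constants of the kernel

`I0 = ∫ TT e`, `I2 = ∫ TT e cos 2θ`, `r = s + 1`, `q = n - s`.  `A, B` from `k_form`.
`(W, io s_0, io (i s_0)) = cf (s+q) (s+1)`: `A + B = I0/(π C(n,r))` (`g_one`).
`sp_side`, `om_bb_sum`: `2q VV = ∑_{i≠j} (A + B om²) = 2q ((2q-1) A + B)`.
`ix_side`, `g_one` (for `s`; the families without two vectors are orthonormal), `int_minors`: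
`2r VV = 2r (r I0 + (r+1) I2) / (π C(n,s))`.  `C(n,r) r = C(n,s) q`.
-/

open MeasureTheory Pool.Agent.H61.UProj Pool.Agent.H89.CZ Pool.Agent.H35.NI

noncomputable section

namespace Pool.Agent.H89.EN

private theorem AB_io_st {s q j : ℕ} : io s (st q j) = st (s + q) (s + j) := by
  ext i
  refine Fin.addCases (fun i => ?_) (fun i => ?_) i
  · rw [io_castAdd, st_apply, if_neg]
    simp only [Fin.val_castAdd]
    have := i.2
    omega
  · rw [io_natAdd, st_apply, st_apply]
    simp only [Fin.val_natAdd]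
    by_cases h : (i : ℕ) = j
    · simp [h]
    · have : ¬ (s + (i : ℕ) = s + j) := by omega
      simp [h]

private theorem AB_append {s q : ℕ} :
    (Fin.append (cf (s + q) s) ![io s (st q 0), io s (Complex.I • st q 0)] :
      Fin (2 * s + 2) → Cn (s + q)) = cf (s + q) (s + 1) := by
  funext a
  refine Fin.addCases (fun a => ?_) (fun a => ?_) a
  · rw [Fin.append_left]
    unfold cf vf
    have h1 : (a : ℕ) < 2 * s := a.2
    have h2 : (a : ℕ) < 2 * (s + 1) := by omega
    simp only [Fin.val_castAdd, h1, h2, if_true]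
  · rw [Fin.append_right]
    unfold cf vf
    have h0 : io s (st q 0) = st (s + q) s := by
      have := AB_io_st (s := s) (q := q) (j := 0)
      simpa using this
    fin_cases a
    · have h2 : 2 * s < 2 * (s + 1) := by omega
      have h4 : 2 * s / 2 = s := by omega
      simp [h0]
    · have h2 : 2 * s + 1 < 2 * (s + 1) := by omega
      have h3 : (2 * s + 1) % 2 = 1 := by omega
      have h4 : (2 * s + 1) / 2 = s := by omega
      simp only [io_smul, h0]
      simp only [Fin.natAdd, Fin.mk_one, h2, h3, h4]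
      simp

private theorem AB_orth_area {q : ℕ} {u v : Cn q} (hu : ‖u‖ = 1) (hv : ‖v‖ = 1)
    (h : (inner ℝ u v : ℝ) = 0) : area u v = 1 := by
  unfold area
  rw [hu, hv, h]
  simp

private theorem AB_cpx {q : ℕ} (hq : 2 ≤ q) (A B : ℝ) :
    KQ A B (st q 0) (Complex.I • st q 0) = A + B := by
  have h1 : (inner ℂ (st q 0) (st q 0) : ℂ) = 1 := by
    rw [cinner_st q 0 0 (by omega)]
    simp
  have h2 : (inner ℂ (st q 0) (Complex.I • st q 0) : ℂ) = Complex.I := by
    rw [inner_smul_right, h1, mul_one]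
  have h3 : ‖st q 0‖ = 1 := by
    have h := @inner_self_eq_norm_sq ℂ (Cn q) _ _ _ (st q 0)
    rw [h1] at h
    have h4 : ‖st q 0‖ ^ 2 = 1 := by
      rw [← h]
      simp
    have h6 := norm_nonneg (st q 0)
    nlinarith
  have h4 : ‖Complex.I • st q 0‖ = 1 := by
    rw [norm_smul, h3]
    simp
  have h5 : (inner ℝ (st q 0) (Complex.I • st q 0) : ℝ) = 0 := by
    rw [rinner_eq, h2]
    simp
  have h6 : om (st q 0) (Complex.I • st q 0) = 1 := by
    unfold om
    rw [h2]
    simp
  unfold KQ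
  rw [AB_orth_area h3 h4 h5, h6]
  ring

private theorem AB_bb {q : ℕ} (A B : ℝ) (i j : Fin (2 * q)) :
    KQ A B (bb q i) (bb q j) = (if i = j then 0 else A) + B * om (bb q i) (bb q j) ^ 2 := by
  have ho := orthonormal_bb q
  by_cases h : i = j
  · subst h
    have h1 : area (bb q i) (bb q i) = 0 := by
      unfold area
      rw [real_inner_self_eq_norm_sq, ho.1 i]
      simp
    have h2 : om (bb q i) (bb q i) = 0 := by
      have := om_symm (bb q i) (bb q i)
      linarith
    unfold KQ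
    rw [h1, h2]
    simp
  · have h1 : area (bb q i) (bb q j) = 1 := AB_orth_area (ho.1 i) (ho.1 j) (ho.2 h)
    unfold KQ
    rw [h1, if_neg h]
    ring

private theorem AB_sum {q : ℕ} (A B : ℝ) :
    ∑ i : Fin (2 * q), ∑ j : Fin (2 * q), KQ A B (bb q i) (bb q j) =
      2 * q * ((2 * q - 1) * A + B) := by
  have h1 : ∀ i : Fin (2 * q), ∑ j : Fin (2 * q), KQ A B (bb q i) (bb q j) =
      (2 * q - 1) * A + B := by
    intro i
    simp only [AB_bb]
    rw [Finset.sum_add_distrib, ← Finset.mul_sum, om_bb_sum, mul_one]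
    congr 1
    have h2 : ∀ j : Fin (2 * q), (if i = j then (0 : ℝ) else A) = A - (if i = j then A else 0) := by
      intro j
      split_ifs <;> ring
    simp only [h2]
    rw [Finset.sum_sub_distrib, Finset.sum_const, Finset.sum_ite_eq, if_pos (Finset.mem_univ _),
      Finset.card_univ, Fintype.card_fin, nsmul_eq_mul]
    push_cast
    ring
  rw [Finset.sum_congr rfl fun i _ => h1 i, Finset.sum_const, Finset.card_univ, Fintype.card_fin,
    nsmul_eq_mul]
  push_cast
  ring

private theorem AB_alg {s q A B P Q : ℝ} (hq : 2 ≤ q) (h1 : q * (A + B) = (s + 1) * P)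
    (h2 : (2 * q - 1) * A + B = (s + 1) * P + (s + 2) * Q)
    (h3 : (s + 2) * (3 * q + 1) * Q < (s + 1) * (q - 1) * P) :
    (2 * q + 1) * A < (4 * q + 1) * B := by
  have h4 : q * (q - 1) * ((4 * q + 1) * B - (2 * q + 1) * A) =
      q * ((s + 1) * (q - 1) * P - (s + 2) * (3 * q + 1) * Q) := by
    linear_combination ((4 * q + 1) * (q - 1) + (3 * q + 1)) * h1 - q * (3 * q + 1) * h2
  have h5 : 0 < q * ((s + 1) * (q - 1) * P - (s + 2) * (3 * q + 1) * Q) := by
    apply mul_pos
    · linarith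
    · linarith
  rw [← h4] at h5
  have h6 : 0 < q * (q - 1) := by
    apply mul_pos <;> linarith
  have h7 := (pos_iff_pos_of_mul_pos h5).1 h6
  linarith

theorem ab_val {s q : ℕ} (hq : 2 ≤ q) {e : Fin (2 * s + 2) → Cn (s + q)}
    (he : Orthonormal ℝ e)
    (hc : ((s : ℝ) + 2) * (3 * q + 1) *
      (∫ θ in (0 : ℝ)..Real.pi, TT e θ * Real.cos (2 * θ)) <
        ((s : ℝ) + 1) * (q - 1) * ∫ θ in (0 : ℝ)..Real.pi, TT e θ) :
    ∃ A B : ℝ, (∀ u v : Cn q,
      gg e (Fin.append (cf (s + q) s) ![io s u, io s v]) = KQ A B u v) ∧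
      (2 * q + 1) * A < (4 * q + 1) * B := by
  obtain ⟨A, B, hk⟩ := k_form hq he
  refine ⟨A, B, hk, ?_⟩
  have hsp := sp_side (s := s) (q := q) (by omega) he
  have hix := ix_side (n := s + q) (s := s) (by omega) he
  have hmin := int_minors (r := s) e
  have h1 : A + B = (∫ θ in (0 : ℝ)..Real.pi, TT e θ) / (Real.pi * (s + q).choose (s + 1)) := by
    have h := g_one (n := s + q) (r := s + 1) (by omega) he
    rw [← AB_append, hk, AB_cpx hq] at h
    exact h
  simp only [hk] at hsp
  rw [AB_sum] at hsp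
  have hq0 : (0 : ℝ) < 2 * q := by
    have : 0 < 2 * q := by omega
    exact_mod_cast this
  have hV : VV e = (2 * q - 1) * A + B := (mul_left_cancel₀ hq0.ne' hsp).symm
  have hon : ∀ (i : Fin (2 * s + 2)) (j : Fin (2 * s + 1)),
      Orthonormal ℝ (fun a : Fin (2 * s) => e (i.succAbove (j.succAbove a))) := by
    intro i j
    exact he.comp _ (Fin.succAbove_right_injective.comp Fin.succAbove_right_injective)
  have hix2 : ∑ i : Fin (2 * s + 2), ∑ j : Fin (2 * s + 1),
      gg (fun a : Fin (2 * s) => e (i.succAbove (j.succAbove a))) (cf (s + q) s) =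
      (∑ i : Fin (2 * s + 2), ∑ j : Fin (2 * s + 1),
        (∫ θ in (0 : ℝ)..Real.pi, TT (fun a : Fin (2 * s) => e (i.succAbove (j.succAbove a))) θ)) /
          (Real.pi * (s + q).choose s) := by
    rw [Finset.sum_div]
    refine Finset.sum_congr rfl fun i _ => ?_
    rw [Finset.sum_div]
    refine Finset.sum_congr rfl fun j _ => ?_
    exact g_one (n := s + q) (r := s) (by omega) (hon i j)
  rw [hix2, hmin, hV] at hix
  have hCpos : 0 < (s + q).choose s := Nat.choose_pos (by omega)
  have hC'pos : 0 < (s + q).choose (s + 1) := Nat.choose_pos (by omega)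
  have hC0 : (0 : ℝ) < (s + q).choose s := by exact_mod_cast hCpos
  have hC1 : (0 : ℝ) < (s + q).choose (s + 1) := by exact_mod_cast hC'pos
  have hCC : ((s + q).choose (s + 1) : ℝ) * (s + 1) = (s + q).choose s * q := by
    have h := Nat.choose_succ_right_eq (s + q) s
    have h2 : s + q - s = q := by omega
    rw [h2] at h
    exact_mod_cast h
  have hpi := Real.pi_pos
  set I0 := ∫ θ in (0 : ℝ)..Real.pi, TT e θ with hI0
  set I2 := ∫ θ in (0 : ℝ)..Real.pi, TT e θ * Real.cos (2 * θ) with hI2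
  set C0 : ℝ := ((s + q).choose s : ℝ) with hC0'
  set C1 : ℝ := ((s + q).choose (s + 1) : ℝ) with hC1'
  have hq2 : (2 : ℝ) ≤ q := by exact_mod_cast hq
  have hs0 : (0 : ℝ) < 2 * ((s : ℝ) + 1) := by positivity
  refine AB_alg (s := s) (q := q) (P := I0 / (Real.pi * C0)) (Q := I2 / (Real.pi * C0)) hq2 ?_ ?_ ?_
  · rw [h1]
    have e1 : (q : ℝ) * (I0 / (Real.pi * C1)) = (q * C0) * I0 / (Real.pi * C1 * C0) := by
      field_simp
    have e2 : ((s : ℝ) + 1) * (I0 / (Real.pi * C0)) =
        (C1 * ((s : ℝ) + 1)) * I0 / (Real.pi * C1 * C0) := by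
      field_simp
    rw [e1, e2, hCC]
    ring
  · have e3 : 2 * ((s : ℝ) + 1) * (((s : ℝ) + 1) * I0 + (s + 2) * I2) / (Real.pi * C0) =
        2 * ((s : ℝ) + 1) * (((s : ℝ) + 1) * (I0 / (Real.pi * C0)) +
          (s + 2) * (I2 / (Real.pi * C0))) := by
      field_simp
    rw [e3] at hix
    exact (mul_left_cancel₀ hs0.ne' hix).symm
  · have e4 : ((s : ℝ) + 2) * (3 * q + 1) * (I2 / (Real.pi * C0)) =
        (((s : ℝ) + 2) * (3 * q + 1) * I2) / (Real.pi * C0) := by ring
    have e5 : ((s : ℝ) + 1) * (q - 1) * (I0 / (Real.pi * C0)) =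
        (((s : ℝ) + 1) * (q - 1) * I0) / (Real.pi * C0) := by ring
    rw [e4, e5]
    exact div_lt_div_of_pos_right hc (by positivity)

end Pool.Agent.H89.EN
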