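import Mathlib
import Pool.Agent.H89.CZ.NF0
import Pool.Agent.H89.EN.Defs

set_option autoImplicit false

/-!
# FIaQ: reduction of the test integral

`p = q + 2 ≥ 2` is the dimension, `ε = st p 0`, `pt φ = uni φ ε` (first column, unit vector),
`dlQ u = |u_0|² - |u_1|²`.  Generalize `H89/CZ/FIa.lean` (there `p = 2`, `κ = 1/3`).

Step 1.  `ψ → φ ψ`: `KQ A B (φ ε) (φ ψ ε) = KQ A B ε (ψ ε)` (`area`, `om` are invariant).
Step 2.  Fubini: for fixed `ψ`, `z = ψ ε`:
`∫_φ dlQ (φ ε) dlQ (φ z) = ∑_{j,k} z_j conj z_k ∫_φ dlQ (φ ε) (φ_0j conj φ_0k - φ_1j conj φ_1k)`;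
the terms `j ≠ k` vanish (right multiplication by a diagonal matrix); `j = k = 0` gives
`κ0 = ∫ dlQ (φ ε)² > 0`, and the terms `j = k ≥ 1` are all equal (right multiplication by
permutations fixing `0`) with total sum `κ0 + (p-1) κ1 = ∫ dlQ (φ ε) (∑_j |φ_0j|² - |φ_1j|²) = 0`.
So it is `κ0 |z_0|² + κ1 (1 - |z_0|²) = κ0/(p-1) (p |z_0|² - 1)`; `κ = κ0/(p-1)`.
`κ0 > 0`: continuous, nonnegative, nonzero at `φ = 1`, Haar measure is positive on open sets
(`Continuous.integral_pos_of_hasCompactSupport_nonneg_nonzero`, or `integral_pos_iff_support…`).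
Measurability and bounds as in `FIa` (`area ≤ 1`, `om² ≤ area²`).
-/

open MeasureTheory Pool.Agent.H61.UProj Pool.Agent.H89.CZ Pool.Agent.H35.NI

noncomputable section

namespace Pool.Agent.H89.EN

/-- entries -/
private abbrev en {n : ℕ} (φ : Un n) (i j : Fin n) : ℂ := (φ : Matrix (Fin n) (Fin n) ℂ) i j

private theorem continuous_en {n : ℕ} (i j : Fin n) : Continuous (fun φ : Un n => en φ i j) :=
  continuous_subtype_val.matrix_elem i j

private theorem sct (n : ℕ) : SecondCountableTopology (Un n) := by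
  have : SecondCountableTopology (Matrix (Fin n) (Fin n) ℂ) :=
    inferInstanceAs (SecondCountableTopology (Fin n → Fin n → ℂ))
  exact Topology.IsInducing.subtypeVal.secondCountableTopology

private theorem uni_st (q : ℕ) (φ : Un (q + 2)) (j : Fin (q + 2)) :
    uni φ (st (q + 2) 0) j = en φ j 0 := by
  rw [uni_apply, Finset.sum_eq_single (0 : Fin (q + 2))]
  · rw [st_apply]
    simp
  · intro b _ hb
    rw [st_apply, if_neg, mul_zero]
    intro h
    exact hb (Fin.ext h)
  · intro h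
    exact absurd (Finset.mem_univ _) h

private theorem norm_st (q : ℕ) : ‖st (q + 2) 0‖ = 1 := by
  have h : st (q + 2) 0 = EuclideanSpace.single (0 : Fin (q + 2)) (1 : ℂ) := by
    unfold st
    rw [dif_pos (by omega)]
    rfl
  rw [h, PiLp.norm_single, norm_one]

private theorem norm_pt (q : ℕ) (φ : Un (q + 2)) : ‖uni φ (st (q + 2) 0)‖ = 1 := by
  rw [(uni φ).norm_map, norm_st]

private theorem continuous_area2 {n : ℕ} :
    Continuous (fun x : Cn n × Cn n => area x.1 x.2) := by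
  unfold area
  fun_prop

private theorem area_uni {n : ℕ} (φ : Un n) (u v : Cn n) :
    area (uni φ u) (uni φ v) = area u v := by
  unfold area
  rw [(uni φ).norm_map, (uni φ).norm_map, (uni φ).inner_map_map]

private theorem KQ_uni {n : ℕ} (A B : ℝ) (φ : Un n) (u v : Cn n) :
    KQ A B (uni φ u) (uni φ v) = KQ A B u v := by
  unfold KQ
  rw [area_uni, om_uni]

theorem measurable_KQ_pt (q : ℕ) (A B : ℝ) : Measurable (fun x : Un (q + 2) × Un (q + 2) =>
    KQ A B (uni x.1 (st (q + 2) 0)) (uni x.2 (st (q + 2) 0))) := by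
  have := sct (q + 2)
  have h1 : Continuous (fun x : Un (q + 2) × Un (q + 2) =>
      (uni x.1 (st (q + 2) 0), uni x.2 (st (q + 2) 0))) :=
    ((continuous_uni _).comp continuous_fst).prodMk ((continuous_uni _).comp continuous_snd)
  have h2 : Measurable (fun x : Un (q + 2) × Un (q + 2) =>
      area (uni x.1 (st (q + 2) 0)) (uni x.2 (st (q + 2) 0))) :=
    (continuous_area2.comp h1).measurable
  have h3 : Measurable (fun x : Un (q + 2) × Un (q + 2) =>
      om (uni x.1 (st (q + 2) 0)) (uni x.2 (st (q + 2) 0))) :=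
    (continuous_om.comp h1).measurable
  unfold KQ
  exact (h2.const_mul A).add (((h3.pow_const 2).div h2).const_mul B)

private theorem KQ_le {n : ℕ} (A B : ℝ) (u v : Cn n) (hu : ‖u‖ = 1) (hv : ‖v‖ = 1) :
    |KQ A B u v| ≤ |A| + |B| := by
  have h0 : 0 ≤ area u v := Real.sqrt_nonneg _
  have h1 : area u v ≤ 1 := by
    unfold area
    rw [hu, hv, Real.sqrt_le_one]
    nlinarith [sq_nonneg (inner ℝ u v : ℝ)]
  have h2 := abs_om_le_area u v
  have h3 : |om u v ^ 2 / area u v| ≤ 1 := by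
    rw [abs_div, abs_of_nonneg h0, abs_pow]
    rcases h0.eq_or_lt with h | h
    · rw [← h]
      simp
    · rw [div_le_one h]
      have h4 := abs_nonneg (om u v)
      nlinarith
  have h5 : |area u v| ≤ 1 := by
    rw [abs_of_nonneg h0]
    exact h1
  unfold KQ
  calc |A * area u v + B * (om u v ^ 2 / area u v)|
      ≤ |A * area u v| + |B * (om u v ^ 2 / area u v)| := abs_add_le _ _
    _ = |A| * |area u v| + |B| * |om u v ^ 2 / area u v| := by rw [abs_mul, abs_mul]
    _ ≤ |A| * 1 + |B| * 1 :=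
        add_le_add (mul_le_mul_of_nonneg_left h5 (abs_nonneg _))
          (mul_le_mul_of_nonneg_left h3 (abs_nonneg _))
    _ = |A| + |B| := by ring

theorem KQ_pt_le (q : ℕ) (A B : ℝ) (φ ψ : Un (q + 2)) :
    |KQ A B (uni φ (st (q + 2) 0)) (uni ψ (st (q + 2) 0))| ≤ |A| + |B| :=
  KQ_le A B _ _ (norm_pt q φ) (norm_pt q ψ)

/-- `|φ_00|² - |φ_10|²` -/
private def ff {q : ℕ} (φ : Un (q + 2)) : ℝ := ‖en φ 0 0‖ ^ 2 - ‖en φ 1 0‖ ^ 2

private theorem dlQ_pt {q : ℕ} (φ : Un (q + 2)) : dlQ (uni φ (st (q + 2) 0)) = ff φ := by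
  unfold dlQ ff
  rw [uni_st, uni_st]

private theorem continuous_ff {q : ℕ} : Continuous (fun φ : Un (q + 2) => ff φ) := by
  have h1 := continuous_en (n := q + 2) 0 0
  have h2 := continuous_en (n := q + 2) 1 0
  unfold ff
  exact (h1.norm.pow 2).sub (h2.norm.pow 2)

private theorem dlQ_le {q : ℕ} (u : Cn (q + 2)) (hu : ‖u‖ = 1) : |dlQ u| ≤ 1 := by
  have h := EuclideanSpace.norm_sq_eq u
  rw [hu, Fin.sum_univ_succ, Fin.sum_univ_succ] at h
  have h2 : 0 ≤ ∑ i : Fin q, ‖u i.succ.succ‖ ^ 2 := Finset.sum_nonneg fun i _ => sq_nonneg _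
  have h3 : (Fin.succ 0 : Fin (q + 2)) = 1 := rfl
  rw [h3] at h
  unfold dlQ
  rw [abs_le]
  constructor <;> nlinarith [sq_nonneg ‖u 0‖, sq_nonneg ‖u 1‖]

private theorem row_sq {n : ℕ} (φ : Un n) (i : Fin n) : ∑ j, ‖en φ i j‖ ^ 2 = 1 := by
  have h := congrFun (congrFun (Matrix.mem_unitaryGroup_iff.1 φ.2) i) i
  rw [Matrix.mul_apply, Matrix.one_apply, if_pos rfl] at h
  have h2 : ((∑ j, ‖en φ i j‖ ^ 2 : ℝ) : ℂ) = 1 := by
    rw [← h]
    push_cast
    refine Finset.sum_congr rfl fun j _ => ?_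
    rw [← Complex.mul_conj']
    rfl
  exact_mod_cast h2

/-- the coefficient `φ_0j conj φ_0k - φ_1j conj φ_1k` -/
private def cc {q : ℕ} (φ : Un (q + 2)) (j k : Fin (q + 2)) : ℂ :=
  en φ 0 j * (starRingEnd ℂ) (en φ 0 k) - en φ 1 j * (starRingEnd ℂ) (en φ 1 k)

private theorem continuous_cc {q : ℕ} (j k : Fin (q + 2)) :
    Continuous (fun φ : Un (q + 2) => cc φ j k) := by
  have h1 := continuous_en (n := q + 2) 0 j
  have h2 := continuous_en (n := q + 2) 0 k
  have h3 := continuous_en (n := q + 2) 1 j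
  have h4 := continuous_en (n := q + 2) 1 k
  unfold cc
  exact (h1.mul (Complex.continuous_conj.comp h2)).sub (h3.mul (Complex.continuous_conj.comp h4))

private theorem cc_self {q : ℕ} (φ : Un (q + 2)) (j : Fin (q + 2)) :
    cc φ j j = ((‖en φ 0 j‖ ^ 2 - ‖en φ 1 j‖ ^ 2 : ℝ) : ℂ) := by
  unfold cc
  rw [Complex.mul_conj', Complex.mul_conj']
  push_cast
  rfl

private theorem dlQ_uni {q : ℕ} (φ : Un (q + 2)) (z : Cn (q + 2)) :
    ((dlQ (uni φ z) : ℝ) : ℂ) =
      ∑ j, ∑ k, (z j * (starRingEnd ℂ) (z k)) * cc φ j k := by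
  unfold dlQ
  push_cast
  rw [← Complex.mul_conj', ← Complex.mul_conj', uni_apply, uni_apply, map_sum, map_sum,
    Finset.sum_mul_sum, Finset.sum_mul_sum, ← Finset.sum_sub_distrib]
  refine Finset.sum_congr rfl fun j _ => ?_
  rw [← Finset.sum_sub_distrib]
  refine Finset.sum_congr rfl fun k _ => ?_
  unfold cc
  rw [map_mul, map_mul]
  ring

/-- the integral `∫ f(φ) c_jk(φ)` -/
private def kk (q : ℕ) (j k : Fin (q + 2)) : ℂ :=
  ∫ φ : Un (q + 2), ((ff φ : ℝ) : ℂ) * cc φ j k ∂(haarU (q + 2))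

private theorem integrable_fc {q : ℕ} (j k : Fin (q + 2)) :
    Integrable (fun φ : Un (q + 2) => ((ff φ : ℝ) : ℂ) * cc φ j k) (haarU (q + 2)) :=
  integrable_of_continuous ((Complex.continuous_ofReal.comp continuous_ff).mul
    (continuous_cc j k))

/-- diagonal matrix with `-1` at `a`, `1` elsewhere -/
private def sg {n : ℕ} (a : Fin n) : Un n :=
  ⟨Matrix.diagonal (fun i => if i = a then (-1 : ℂ) else 1), by
    rw [Matrix.mem_unitaryGroup_iff, Matrix.star_eq_conjTranspose, Matrix.diagonal_conjTranspose,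
      Matrix.diagonal_mul_diagonal, ← Matrix.diagonal_one]
    congr 1
    funext i
    by_cases h : i = a <;> simp [h]⟩

private theorem en_sg {n : ℕ} (a : Fin n) (φ : Un n) (i j : Fin n) :
    en (φ * sg a) i j = en φ i j * (if j = a then (-1 : ℂ) else 1) := by
  have h : en (φ * sg a) i j =
      ((φ : Matrix (Fin n) (Fin n) ℂ) *
        (Matrix.diagonal (fun i => if i = a then (-1 : ℂ) else 1) :
          Matrix (Fin n) (Fin n) ℂ)) i j := rfl
  rw [h, Matrix.mul_diagonal]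

private theorem norm_en_sg {n : ℕ} (a : Fin n) (φ : Un n) (i j : Fin n) :
    ‖en (φ * sg a) i j‖ = ‖en φ i j‖ := by
  rw [en_sg]
  by_cases h : j = a <;> simp [h]

private theorem kk_ne {q : ℕ} {j k : Fin (q + 2)} (h : j ≠ k) : kk q j k = 0 := by
  have h1 := integral_mulRight
    (fun φ : Un (q + 2) => ((ff φ : ℝ) : ℂ) * cc φ j k) (sg j)
  have h2 : ∀ φ : Un (q + 2), ((ff (φ * sg j) : ℝ) : ℂ) * cc (φ * sg j) j k =
      -(((ff φ : ℝ) : ℂ) * cc φ j k) := by
    intro φ
    have e1 : ff (φ * sg j) = ff φ := by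
      unfold ff
      rw [norm_en_sg, norm_en_sg]
    have e2 : cc (φ * sg j) j k = - cc φ j k := by
      unfold cc
      rw [en_sg, en_sg, en_sg, en_sg, if_pos rfl, if_neg (Ne.symm h), mul_one, mul_one]
      ring
    rw [e1, e2]
    ring
  simp only [h2, integral_neg] at h1
  unfold kk
  exact self_eq_neg.1 h1.symm

/-- permutation matrix -/
private def pm {n : ℕ} (σ : Equiv.Perm (Fin n)) : Un n :=
  ⟨σ.permMatrix ℂ, by
    rw [Matrix.mem_unitaryGroup_iff, Matrix.star_eq_conjTranspose]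
    ext i j
    rw [Matrix.mul_apply, Matrix.one_apply]
    simp only [Matrix.conjTranspose_apply, Equiv.Perm.permMatrix, PEquiv.toMatrix_apply,
      Equiv.toPEquiv_apply, Option.mem_def, Option.some.injEq]
    simp [eq_comm]⟩

private theorem en_pm {n : ℕ} (σ : Equiv.Perm (Fin n)) (φ : Un n) (i j : Fin n) :
    en (φ * pm σ) i j = en φ i (σ.symm j) := by
  have h : en (φ * pm σ) i j =
      ((φ : Matrix (Fin n) (Fin n) ℂ) * (σ.permMatrix ℂ : Matrix (Fin n) (Fin n) ℂ)) i j := rfl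
  rw [h, Matrix.mul_apply, Finset.sum_eq_single (σ.symm j)]
  · simp [Equiv.Perm.permMatrix, PEquiv.toMatrix_apply, Equiv.toPEquiv_apply]
  · intro b _ hb
    have h3 : ¬ (σ b = j) := by
      rintro rfl
      exact hb (by simp)
    simp [Equiv.Perm.permMatrix, PEquiv.toMatrix_apply, Equiv.toPEquiv_apply, h3]
  · intro h4
    exact absurd (Finset.mem_univ _) h4

private theorem kk_swap {q : ℕ} {j : Fin (q + 2)} (h : j ≠ 0) : kk q j j = kk q 1 1 := by
  have h1 := integral_mulRight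
    (fun φ : Un (q + 2) => ((ff φ : ℝ) : ℂ) * cc φ j j) (pm (Equiv.swap 1 j))
  have h01 : (0 : Fin (q + 2)) ≠ 1 := by
    intro h2
    have := congrArg Fin.val h2
    simp at this
  have h2 : ∀ φ : Un (q + 2), ((ff (φ * pm (Equiv.swap 1 j)) : ℝ) : ℂ) *
      cc (φ * pm (Equiv.swap 1 j)) j j = (((ff φ : ℝ) : ℂ) * cc φ 1 1) := by
    intro φ
    have e1 : ff (φ * pm (Equiv.swap 1 j)) = ff φ := by
      unfold ff
      rw [en_pm, en_pm, Equiv.symm_swap, Equiv.swap_apply_of_ne_of_ne h01 (Ne.symm h)]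
    have e2 : cc (φ * pm (Equiv.swap 1 j)) j j = cc φ 1 1 := by
      unfold cc
      rw [en_pm, en_pm, Equiv.symm_swap, Equiv.swap_apply_right]
    rw [e1, e2]
  simp only [h2] at h1
  unfold kk
  exact h1.symm

private theorem kk_sum (q : ℕ) : ∑ j, kk q j j = 0 := by
  unfold kk
  rw [← integral_finsetSum _ fun j _ => integrable_fc j j]
  have h : ∀ φ : Un (q + 2), ∑ j, ((ff φ : ℝ) : ℂ) * cc φ j j = 0 := by
    intro φ
    rw [← Finset.mul_sum]
    simp only [cc_self]
    rw [← Complex.ofReal_sum, Finset.sum_sub_distrib, row_sq, row_sq, sub_self, Complex.ofReal_zero,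
      mul_zero]
  simp only [h, integral_zero]

/-- `κ0` -/
private def k0 (q : ℕ) : ℝ := ∫ φ : Un (q + 2), ff φ * ff φ ∂(haarU (q + 2))

private theorem kk_zero (q : ℕ) : kk q 0 0 = ((k0 q : ℝ) : ℂ) := by
  unfold kk k0
  rw [← integral_complex_ofReal]
  refine integral_congr_ae (Filter.Eventually.of_forall fun φ => ?_)
  simp only [cc_self]
  unfold ff
  push_cast
  rfl

private theorem kk_one (q : ℕ) : ((q : ℂ) + 1) * kk q 1 1 = - ((k0 q : ℝ) : ℂ) := by
  have h := kk_sum q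
  rw [Fin.sum_univ_succ, kk_zero] at h
  have h2 : ∀ i : Fin (q + 1), kk q i.succ i.succ = kk q 1 1 := fun i =>
    kk_swap (Fin.succ_ne_zero i)
  simp only [h2, Finset.sum_const, Finset.card_univ, Fintype.card_fin, nsmul_eq_mul] at h
  push_cast at h
  linear_combination h

private theorem k0_pos (q : ℕ) : 0 < k0 q := by
  unfold k0
  have hc : Continuous (fun φ : Un (q + 2) => ff φ * ff φ) := continuous_ff.mul continuous_ff
  refine hc.integral_pos_of_hasCompactSupport_nonneg_nonzero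
    (HasCompactSupport.of_compactSpace _) (fun φ => mul_self_nonneg _) (x := 1) ?_
  have h01 : (1 : Fin (q + 2)) ≠ 0 := by
    intro h2
    have := congrArg Fin.val h2
    simp at this
  have e0 : en (1 : Un (q + 2)) 0 0 = 1 := Matrix.one_apply_eq 0
  have e1 : en (1 : Un (q + 2)) 1 0 = 0 := Matrix.one_apply_ne h01
  have h : ff (1 : Un (q + 2)) = 1 := by
    unfold ff
    rw [e0, e1]
    norm_num
  rw [h]
  norm_num

private theorem inner_int {q : ℕ} (z : Cn (q + 2)) (hz : ‖z‖ = 1) :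
    ∫ φ : Un (q + 2), ff φ * dlQ (uni φ z) ∂(haarU (q + 2)) =
      k0 q / ((q : ℝ) + 1) * (((q : ℝ) + 2) * ‖z 0‖ ^ 2 - 1) := by
  have h1 : ((∫ φ : Un (q + 2), ff φ * dlQ (uni φ z) ∂(haarU (q + 2)) : ℝ) : ℂ) =
      ∑ j, ∑ k, (z j * (starRingEnd ℂ) (z k)) * kk q j k := by
    rw [← integral_complex_ofReal]
    have h2 : ∀ φ : Un (q + 2), ((ff φ * dlQ (uni φ z) : ℝ) : ℂ) =
        ∑ j, ∑ k, (z j * (starRingEnd ℂ) (z k)) * (((ff φ : ℝ) : ℂ) * cc φ j k) := by
      intro φ
      push_cast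
      rw [dlQ_uni, Finset.mul_sum]
      refine Finset.sum_congr rfl fun j _ => ?_
      rw [Finset.mul_sum]
      refine Finset.sum_congr rfl fun k _ => ?_
      ring
    simp only [h2]
    rw [integral_finsetSum _ fun j _ => integrable_finsetSum _ fun k _ =>
      (integrable_fc j k).const_mul _]
    refine Finset.sum_congr rfl fun j _ => ?_
    rw [integral_finsetSum _ fun k _ => (integrable_fc j k).const_mul _]
    refine Finset.sum_congr rfl fun k _ => ?_
    rw [integral_const_mul]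
    rfl
  have h3 : ∀ j, ∑ k, (z j * (starRingEnd ℂ) (z k)) * kk q j k =
      ((‖z j‖ ^ 2 : ℝ) : ℂ) * kk q j j := by
    intro j
    rw [Finset.sum_eq_single j]
    · rw [Complex.mul_conj']
      push_cast
      rfl
    · intro k _ hk
      rw [kk_ne (Ne.symm hk), mul_zero]
    · intro h
      exact absurd (Finset.mem_univ _) h
  simp only [h3] at h1
  rw [Fin.sum_univ_succ, kk_zero] at h1
  have h2 : ∀ i : Fin (q + 1), kk q i.succ i.succ = kk q 1 1 := fun i =>
    kk_swap (Fin.succ_ne_zero i)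
  simp only [h2] at h1
  rw [← Finset.sum_mul, ← Complex.ofReal_sum] at h1
  have h4 := EuclideanSpace.norm_sq_eq z
  rw [hz, Fin.sum_univ_succ] at h4
  have h5 : ∑ i : Fin (q + 1), ‖z i.succ‖ ^ 2 = 1 - ‖z 0‖ ^ 2 := by linarith
  rw [h5] at h1
  have hq : ((q : ℂ) + 1) ≠ 0 := by
    have := Nat.cast_add_one_ne_zero (R := ℂ) q
    exact this
  have h6 : kk q 1 1 = - ((k0 q : ℝ) : ℂ) / ((q : ℂ) + 1) := by
    rw [eq_div_iff hq, mul_comm]
    exact kk_one q
  rw [h6] at h1
  have h7 : ((∫ φ : Un (q + 2), ff φ * dlQ (uni φ z) ∂(haarU (q + 2)) : ℝ) : ℂ) =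
      ((k0 q / ((q : ℝ) + 1) * (((q : ℝ) + 2) * ‖z 0‖ ^ 2 - 1) : ℝ) : ℂ) := by
    rw [h1]
    push_cast
    field_simp
    ring
  exact Complex.ofReal_injective h7

private theorem continuous_uu {n : ℕ} (z : Cn n) :
    Continuous (fun x : Un n × Un n => uni x.1 (uni x.2 z)) := by
  have h0 : Continuous (fun x : Un n × Un n => uni x.2 z) := by
    have e : (fun x : Un n × Un n => uni x.2 z) = (fun φ : Un n => uni φ z) ∘ Prod.snd := by
      funext x
      simp only [Function.comp_apply]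
    rw [e]
    exact Continuous.comp (continuous_uni z) continuous_snd
  have h1 : Continuous (fun x : Un n × Un n => ((x.1, uni x.2 z) : Un n × Cn n)) :=
    Continuous.prodMk continuous_fst h0
  have h2 : (fun x : Un n × Un n => uni x.1 (uni x.2 z)) =
      (fun p : Un n × Cn n => uni p.1 p.2) ∘
        (fun x : Un n × Un n => ((x.1, uni x.2 z) : Un n × Cn n)) := by
    funext x
    simp only [Function.comp_apply]
  rw [h2]
  exact Continuous.comp continuous_uni2 h1

private theorem continuous_dlQ {q : ℕ} : Continuous (fun u : Cn (q + 2) => dlQ u) := by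
  unfold dlQ
  fun_prop

private theorem continuous_ffdl (q : ℕ) : Continuous (fun x : Un (q + 2) × Un (q + 2) =>
    ff x.1 * dlQ (uni x.1 (uni x.2 (st (q + 2) 0)))) := by
  have h1 : Continuous (fun x : Un (q + 2) × Un (q + 2) => ff x.1) :=
    Continuous.comp continuous_ff continuous_fst
  have h2 : Continuous (fun x : Un (q + 2) × Un (q + 2) =>
      dlQ (uni x.1 (uni x.2 (st (q + 2) 0)))) := by
    have e : (fun x : Un (q + 2) × Un (q + 2) =>
        dlQ (uni x.1 (uni x.2 (st (q + 2) 0)))) = (fun u : Cn (q + 2) => dlQ u) ∘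
          (fun x : Un (q + 2) × Un (q + 2) => uni x.1 (uni x.2 (st (q + 2) 0))) := by
      funext x
      simp only [Function.comp_apply]
    rw [e]
    exact Continuous.comp continuous_dlQ (continuous_uu (st (q + 2) 0))
  exact h1.mul h2

theorem int_reduceQ (q : ℕ) : ∃ κ : ℝ, 0 < κ ∧ ∀ A B : ℝ,
    ∫ φ, ∫ ψ, dlQ (uni φ (st (q + 2) 0)) * dlQ (uni ψ (st (q + 2) 0)) *
      KQ A B (uni φ (st (q + 2) 0)) (uni ψ (st (q + 2) 0)) ∂(haarU (q + 2)) ∂(haarU (q + 2)) =
      κ * ∫ ψ : Un (q + 2), (((q : ℝ) + 2) *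
        ‖(ψ : Matrix (Fin (q + 2)) (Fin (q + 2)) ℂ) 0 0‖ ^ 2 - 1) *
        KQ A B (st (q + 2) 0) (uni ψ (st (q + 2) 0)) ∂(haarU (q + 2)) := by
  refine ⟨k0 q / ((q : ℝ) + 1), div_pos (k0_pos q) (by positivity), fun A B => ?_⟩
  have h1 : ∀ φ : Un (q + 2), ∫ ψ, dlQ (uni φ (st (q + 2) 0)) * dlQ (uni ψ (st (q + 2) 0)) *
      KQ A B (uni φ (st (q + 2) 0)) (uni ψ (st (q + 2) 0)) ∂(haarU (q + 2)) =
      ∫ ψ, ff φ * dlQ (uni φ (uni ψ (st (q + 2) 0))) *
        KQ A B (st (q + 2) 0) (uni ψ (st (q + 2) 0)) ∂(haarU (q + 2)) := by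
    intro φ
    rw [← integral_mulLeft (fun ψ => dlQ (uni φ (st (q + 2) 0)) * dlQ (uni ψ (st (q + 2) 0)) *
      KQ A B (uni φ (st (q + 2) 0)) (uni ψ (st (q + 2) 0))) φ]
    simp only [uni_mul, KQ_uni, dlQ_pt]
  simp only [h1]
  have := sct (q + 2)
  have hcm := continuous_ffdl q
  have hmk : Measurable (fun x : Un (q + 2) × Un (q + 2) =>
      KQ A B (st (q + 2) 0) (uni x.2 (st (q + 2) 0))) := by
    have h2 : Measurable (fun x : Un (q + 2) × Un (q + 2) => ((1 : Un (q + 2)), x.2)) :=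
      measurable_const.prodMk measurable_snd
    have h3 := (measurable_KQ_pt q A B).comp h2
    have h4 : (fun x : Un (q + 2) × Un (q + 2) =>
        KQ A B (st (q + 2) 0) (uni x.2 (st (q + 2) 0))) =
        (fun x : Un (q + 2) × Un (q + 2) =>
          KQ A B (uni x.1 (st (q + 2) 0)) (uni x.2 (st (q + 2) 0))) ∘
        (fun x : Un (q + 2) × Un (q + 2) => ((1 : Un (q + 2)), x.2)) := by
      funext x
      change _ = KQ A B (uni (1 : Un (q + 2)) (st (q + 2) 0)) (uni x.2 (st (q + 2) 0))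
      rw [uni_one]
    rw [h4]
    exact h3
  rw [integral_integral_swap]
  · rw [← integral_const_mul]
    refine integral_congr_ae (Filter.Eventually.of_forall fun ψ => ?_)
    simp only
    rw [integral_mul_const, inner_int _ (norm_pt q ψ), uni_st]
    ring
  · refine Integrable.of_bound (C := 1 * 1 * (|A| + |B|))
      (hcm.measurable.mul hmk).aestronglyMeasurable (Filter.Eventually.of_forall fun x => ?_)
    simp only [Function.uncurry, Real.norm_eq_abs, abs_mul]
    have g1 : |ff x.1| ≤ 1 := by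
      rw [← dlQ_pt]
      exact dlQ_le _ (norm_pt q x.1)
    have g2 : |dlQ (uni x.1 (uni x.2 (st (q + 2) 0)))| ≤ 1 :=
      dlQ_le _ (by rw [(uni x.1).norm_map, norm_pt])
    have g3 := KQ_le A B (st (q + 2) 0) (uni x.2 (st (q + 2) 0)) (norm_st q) (norm_pt q x.2)
    have g4 : |ff x.1| * |dlQ (uni x.1 (uni x.2 (st (q + 2) 0)))| ≤ 1 * 1 :=
      mul_le_mul g1 g2 (abs_nonneg _) zero_le_one
    exact mul_le_mul g4 g3 (abs_nonneg _) (by norm_num)

end Pool.Agent.H89.EN
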