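import Mathlib
import Pool.Agent.H89.EN.Defs

set_option autoImplicit false

/-!
# MomQ: moments of an entry of a Haar distributed matrix in `U(q)`

Generalize `H89/CZ/TMom.lean` (there `q = 2`, `∫ |z|^(2k) = 1/(k+1)`).

`momQ_mixed`: replace `g` by `ζ g`.
`momQ`: `cq q k = 1/C(q+k-1, k)`.  Let `x_j = g 0 j` be the first row.  For two columns `0, 1`, right
multiplication by the rotation in these two coordinates gives, as in `TMom`, for
`n_j = ∫ |x_0|^(2j) |x_1|^(2(k-j)) H` with `H` a function of the other coordinates: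
`C(k,j) n_j` does not depend on `j`.  Hence for all multi-indices `∫ ∏ |x_l|^(2 k_l)` depends on the
multi-index only by the factor `∏ k_l! / k!`, i.e. `multinomial(k) ∫ ∏ |x_l|^(2 k_l) = ∫ |x_0|^(2k)`,
and `1 = ∫ (∑ |x_l|²)^k = ∑_k multinomial · ∫ … = C(q+k-1, k) ∫ |x_0|^(2k)`.
Shorter: only the recursion is needed, `(q + k) M_(k+1) = (k + 1) M_k`, `M_k = ∫ |x_0|^(2k)`:
`M_k = ∫ |x_0|^(2k) ∑_l |x_l|² = M_(k+1) + (q-1) ∫ |x_0|^(2k) |x_1|²` (permutations of the columns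
`≥ 1`), and `∫ |x_0|^(2k) |x_1|² = M_(k+1)/(k+1)` from the rotation in the coordinates `0, 1`
(coefficient of `s^k (1-s)` resp. `s^(k+1)` in
`M_(k+1) = ∫ |√s x_0 + √(1-s) x_1|^(2k+2)`; or compare the derivatives at `s = 1`).
-/

open MeasureTheory Pool.Agent.H61.UProj Pool.Agent.H89.CZ Pool.Agent.H35.NI

noncomputable section

namespace Pool.Agent.H89.EN

/-- `k! (q-1)! / (q+k-1)!` for `q ≥ 1`, by recursion. -/
def cq (q : ℕ) : ℕ → ℝ
  | 0 => 1
  | k + 1 => cq q k * ((k + 1) / (q + k))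

theorem cq_pos (q : ℕ) (hq : 1 ≤ q) (k : ℕ) : 0 < cq q k := by
  induction k with
  | zero => exact one_pos
  | succ k ih =>
    rw [cq]
    have h : (0 : ℝ) < q := by exact_mod_cast hq
    positivity

/-! ### The first two entries of the first row -/

/-- the entry `(0, 0)` -/
private def MomQ_X {q : ℕ} (g : Un (q + 2)) : ℂ := (g : Matrix (Fin (q + 2)) (Fin (q + 2)) ℂ) 0 0

/-- the entry `(0, 1)` -/
private def MomQ_Y {q : ℕ} (g : Un (q + 2)) : ℂ := (g : Matrix (Fin (q + 2)) (Fin (q + 2)) ℂ) 0 1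

/-- the entry `(0, j)` -/
private def MomQ_Z {q : ℕ} (j : Fin (q + 2)) (g : Un (q + 2)) : ℂ :=
  (g : Matrix (Fin (q + 2)) (Fin (q + 2)) ℂ) 0 j

private theorem MomQ_contZ {q : ℕ} (j : Fin (q + 2)) : Continuous (MomQ_Z (q := q) j) := by
  unfold MomQ_Z
  exact continuous_subtype_val.matrix_elem 0 j

private theorem MomQ_contX {q : ℕ} : Continuous (MomQ_X (q := q)) := MomQ_contZ 0

private theorem MomQ_contY {q : ℕ} : Continuous (MomQ_Y (q := q)) := MomQ_contZ 1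

private theorem MomQ_norm {q : ℕ} (g : Un (q + 2)) : ∑ j, ‖MomQ_Z j g‖ ^ 2 = 1 := by
  have h1 : (g : Matrix (Fin (q + 2)) (Fin (q + 2)) ℂ) *
      star (g : Matrix (Fin (q + 2)) (Fin (q + 2)) ℂ) = 1 := Matrix.mem_unitaryGroup_iff.1 g.2
  have h2 := congrFun (congrFun h1 0) 0
  rw [Matrix.mul_apply, Matrix.star_eq_conjTranspose, Matrix.one_apply_eq] at h2
  have h3 : ∑ j, MomQ_Z j g * (starRingEnd ℂ) (MomQ_Z j g) = 1 := h2
  simp only [Complex.mul_conj'] at h3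
  exact_mod_cast h3

private theorem MomQ_diag_mem {q : ℕ} (d : Fin (q + 2) → ℂ) (hd : ∀ j, ‖d j‖ = 1) :
    Matrix.diagonal d ∈ Matrix.unitaryGroup (Fin (q + 2)) ℂ := by
  rw [Matrix.mem_unitaryGroup_iff, Matrix.star_eq_conjTranspose, Matrix.diagonal_conjTranspose,
    Matrix.diagonal_mul_diagonal, ← Matrix.diagonal_one]
  congr 1
  funext j
  have h : d j * (starRingEnd ℂ) (d j) = 1 := by
    rw [Complex.mul_conj', hd]
    norm_num
  exact h

private theorem MomQ_mul_diag {q : ℕ} (d : Fin (q + 2) → ℂ) (hd : ∀ j, ‖d j‖ = 1)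
    (g : Un (q + 2)) (j : Fin (q + 2)) :
    MomQ_Z j (g * ⟨_, MomQ_diag_mem d hd⟩) = MomQ_Z j g * d j := by
  change ((g : Matrix (Fin (q + 2)) (Fin (q + 2)) ℂ) * Matrix.diagonal d) 0 j = _
  rw [Matrix.mul_diagonal]
  rfl

/-- the rotation in the coordinates `0, 1` -/
private def MomQ_rot (q : ℕ) (c d : ℝ) : Matrix (Fin (q + 2)) (Fin (q + 2)) ℂ :=
  Matrix.of fun i j => if i = 0 then (if j = 0 then (c : ℂ) else if j = 1 then -(d : ℂ) else 0) else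
    if i = 1 then (if j = 0 then (d : ℂ) else if j = 1 then (c : ℂ) else 0) else
    if i = j then 1 else 0

private theorem MomQ_ss0 {q : ℕ} (i : Fin q) : i.succ.succ ≠ (0 : Fin (q + 2)) := Fin.succ_ne_zero _

private theorem MomQ_ss1 {q : ℕ} (i : Fin q) : i.succ.succ ≠ (1 : Fin (q + 2)) := by
  intro h
  have h1 := congrArg Fin.val h
  simp at h1

private theorem MomQ_cases {q : ℕ} {P : Fin (q + 2) → Prop} (h0 : P 0) (h1 : P 1)
    (h2 : ∀ i : Fin q, P i.succ.succ) (i : Fin (q + 2)) : P i := by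
  refine Fin.cases h0 (fun i => ?_) i
  refine Fin.cases h1 (fun i => ?_) i
  exact h2 i

private theorem MomQ_sum {q : ℕ} (f : Fin (q + 2) → ℂ) :
    ∑ i, f i = f 0 + f 1 + ∑ i : Fin q, f i.succ.succ := by
  rw [Fin.sum_univ_succ, Fin.sum_univ_succ, ← add_assoc]
  rfl

private theorem MomQ_rot_mem {q : ℕ} {c d : ℝ} (h : c ^ 2 + d ^ 2 = 1) :
    MomQ_rot q c d ∈ Matrix.unitaryGroup (Fin (q + 2)) ℂ := by
  have h1 : (c : ℂ) * c + (d : ℂ) * d = 1 := by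
    have h2 : c * c + d * d = 1 := by
      rw [← h]
      ring
    exact_mod_cast h2
  have h1' : (d : ℂ) * d + (c : ℂ) * c = 1 := by
    rw [← h1]
    ring
  have h10 : (1 : Fin (q + 2)) ≠ 0 := by
    intro h
    have h1 := congrArg Fin.val h
    simp at h1
  rw [Matrix.mem_unitaryGroup_iff, Matrix.star_eq_conjTranspose]
  ext i j
  rw [Matrix.mul_apply, MomQ_sum]
  simp only [Matrix.conjTranspose_apply, MomQ_rot, Matrix.of_apply, Matrix.one_apply]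
  revert i j
  refine MomQ_cases ?_ ?_ (fun i => ?_) <;> refine MomQ_cases ?_ ?_ (fun j => ?_) <;>
    simp [h10, h10.symm, MomQ_ss1, (MomQ_ss0 _).symm, (MomQ_ss1 _).symm, h1, h1', mul_comm]

private theorem MomQ_mul_rot {q : ℕ} {c d : ℝ} (h : c ^ 2 + d ^ 2 = 1) (g : Un (q + 2)) :
    MomQ_X (g * ⟨_, MomQ_rot_mem h⟩) = MomQ_X g * c + MomQ_Y g * d := by
  change ((g : Matrix (Fin (q + 2)) (Fin (q + 2)) ℂ) * MomQ_rot q c d) 0 0 = _
  have h10 : (1 : Fin (q + 2)) ≠ 0 := by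
    intro h
    have h1 := congrArg Fin.val h
    simp at h1
  rw [Matrix.mul_apply, MomQ_sum]
  simp only [MomQ_rot, Matrix.of_apply]
  simp [h10, MomQ_ss1, MomQ_X, MomQ_Y]

private theorem MomQ_perm_mem {q : ℕ} (σ : Equiv.Perm (Fin (q + 2))) :
    σ.permMatrix ℂ ∈ Matrix.unitaryGroup (Fin (q + 2)) ℂ := by
  rw [Matrix.mem_unitaryGroup_iff, Matrix.star_eq_conjTranspose, Matrix.conjTranspose_permMatrix,
    ← Matrix.permMatrix_mul]
  simp

private theorem MomQ_mul_perm {q : ℕ} (σ : Equiv.Perm (Fin (q + 2))) (g : Un (q + 2))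
    (j : Fin (q + 2)) :
    MomQ_Z j (g * ⟨_, MomQ_perm_mem σ⟩) = MomQ_Z (σ.symm j) g := by
  change ((g : Matrix (Fin (q + 2)) (Fin (q + 2)) ℂ) * σ.permMatrix ℂ) 0 j = _
  have h := congrFun (Matrix.vecMul_permMatrix (σ := σ)
    (v := (g : Matrix (Fin (q + 2)) (Fin (q + 2)) ℂ) 0)) j
  exact h

/-- a unit `ζ` with `ζ ^ p * conj ζ ^ q = -1` -/
private theorem MomQ_root {p q : ℕ} (hpq : p ≠ q) :
    ∃ z : ℂ, ‖z‖ = 1 ∧ z ^ p * ((starRingEnd ℂ) z) ^ q = -1 := by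
  have hne : ((p : ℝ) - (q : ℝ)) ≠ 0 := by
    intro h
    exact hpq (by exact_mod_cast sub_eq_zero.1 h)
  refine ⟨Complex.exp ((Real.pi / ((p : ℝ) - (q : ℝ)) : ℝ) * Complex.I),
    Complex.norm_exp_ofReal_mul_I _, ?_⟩
  rw [← Complex.exp_conj, ← Complex.exp_nat_mul, ← Complex.exp_nat_mul, ← Complex.exp_add, map_mul,
    Complex.conj_I, Complex.conj_ofReal]
  rw [← Complex.exp_pi_mul_I]
  congr 1
  have hne' : ((p : ℂ) - (q : ℂ)) ≠ 0 := by exact_mod_cast hne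
  push_cast
  field_simp
  ring

private theorem MomQ_mixed2 {q : ℕ} (a b c : ℕ) {d : ℕ} (hbd : b ≠ d) :
    ∫ g : Un (q + 2), MomQ_X g ^ a * MomQ_Y g ^ b * ((starRingEnd ℂ) (MomQ_X g)) ^ c *
      ((starRingEnd ℂ) (MomQ_Y g)) ^ d ∂(haarU (q + 2)) = 0 := by
  obtain ⟨z, hz, hz1⟩ := MomQ_root hbd
  have hd : ∀ j : Fin (q + 2), ‖(if j = 1 then z else 1 : ℂ)‖ = 1 := by
    intro j
    split_ifs
    · exact hz
    · exact norm_one
  have h10 : (0 : Fin (q + 2)) ≠ 1 := by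
    intro h
    have h1 := congrArg Fin.val h
    simp at h1
  have h1 := integral_mulRight (fun g : Un (q + 2) => MomQ_X g ^ a * MomQ_Y g ^ b *
    ((starRingEnd ℂ) (MomQ_X g)) ^ c * ((starRingEnd ℂ) (MomQ_Y g)) ^ d)
    ⟨_, MomQ_diag_mem _ hd⟩
  have eX : ∀ g : Un (q + 2), MomQ_X (g * ⟨_, MomQ_diag_mem _ hd⟩) = MomQ_X g := fun g => by
    have h2 := MomQ_mul_diag _ hd g 0
    rw [if_neg h10, mul_one] at h2
    exact h2
  have eY : ∀ g : Un (q + 2), MomQ_Y (g * ⟨_, MomQ_diag_mem _ hd⟩) = MomQ_Y g * z := fun g => by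
    have h2 := MomQ_mul_diag _ hd g 1
    rw [if_pos rfl] at h2
    exact h2
  simp only [eX, eY] at h1
  have h2 : ∀ g : Un (q + 2), MomQ_X g ^ a * (MomQ_Y g * z) ^ b * ((starRingEnd ℂ) (MomQ_X g)) ^ c *
      ((starRingEnd ℂ) (MomQ_Y g * z)) ^ d = -(MomQ_X g ^ a * MomQ_Y g ^ b *
      ((starRingEnd ℂ) (MomQ_X g)) ^ c * ((starRingEnd ℂ) (MomQ_Y g)) ^ d) := by
    intro g
    rw [map_mul, mul_pow, mul_pow]
    calc _ = (MomQ_X g ^ a * MomQ_Y g ^ b * ((starRingEnd ℂ) (MomQ_X g)) ^ c *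
          ((starRingEnd ℂ) (MomQ_Y g)) ^ d) * (z ^ b * ((starRingEnd ℂ) z) ^ d) := by ring
      _ = _ := by rw [hz1, mul_neg_one]
  simp only [h2] at h1
  rw [integral_neg] at h1
  exact self_eq_neg.1 h1.symm

private theorem MomQ_scale {q : ℕ} (k : ℕ) (t : ℝ) :
    ∫ g : Un (q + 2), ‖MomQ_X g + t * MomQ_Y g‖ ^ (2 * k) ∂(haarU (q + 2)) =
      (1 + t ^ 2) ^ k * ∫ g : Un (q + 2), ‖MomQ_X g‖ ^ (2 * k) ∂(haarU (q + 2)) := by
  have ht : 0 < 1 + t ^ 2 := by positivity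
  have hs : 0 < √(1 + t ^ 2) := Real.sqrt_pos.2 ht
  have hs2 : √(1 + t ^ 2) ^ 2 = 1 + t ^ 2 := Real.sq_sqrt ht.le
  have hcd : (1 / √(1 + t ^ 2)) ^ 2 + (t / √(1 + t ^ 2)) ^ 2 = 1 := by
    rw [div_pow, div_pow, hs2, one_pow, ← add_div, div_self ht.ne']
  have h1 := integral_mulRight (fun g : Un (q + 2) => ‖MomQ_X g‖ ^ (2 * k)) ⟨_, MomQ_rot_mem hcd⟩
  rw [← h1, ← integral_const_mul]
  congr 1
  funext g
  rw [MomQ_mul_rot hcd]
  have e1 : MomQ_X g * ((1 / √(1 + t ^ 2) : ℝ) : ℂ) + MomQ_Y g * ((t / √(1 + t ^ 2) : ℝ) : ℂ) =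
      ((1 / √(1 + t ^ 2) : ℝ) : ℂ) * (MomQ_X g + t * MomQ_Y g) := by
    have hs' : ((√(1 + t ^ 2) : ℝ) : ℂ) ≠ 0 := by exact_mod_cast hs.ne'
    push_cast
    field_simp
  rw [e1, norm_mul, mul_pow, Complex.norm_real, Real.norm_of_nonneg (by positivity),
    pow_mul (1 / √(1 + t ^ 2)), div_pow, hs2, one_pow, ← mul_assoc,
    ← mul_pow, mul_one_div_cancel ht.ne', one_pow, one_mul]

private theorem MomQ_sq (k : ℕ) (z : ℂ) :
    ((‖z‖ ^ (2 * k) : ℝ) : ℂ) = z ^ k * ((starRingEnd ℂ) z) ^ k := by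
  rw [← mul_pow, Complex.mul_conj', pow_mul]
  push_cast
  rfl

/-- the moments `∫ |x| ^ (2 (k - j)) |y| ^ (2 j)` -/
private def MomQ_n (q k j : ℕ) : ℝ :=
  ∫ g : Un (q + 2), (‖MomQ_X g‖ ^ 2) ^ (k - j) * (‖MomQ_Y g‖ ^ 2) ^ j ∂(haarU (q + 2))

private theorem MomQ_expand (q k : ℕ) (t : ℝ) :
    ∫ g : Un (q + 2), ‖MomQ_X g + t * MomQ_Y g‖ ^ (2 * k) ∂(haarU (q + 2)) =
      ∑ j ∈ Finset.range (k + 1), ((k.choose j : ℝ)) ^ 2 * MomQ_n q k j * (t ^ 2) ^ j := by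
  have hX := MomQ_contX (q := q)
  have hY := MomQ_contY (q := q)
  have hcX : Continuous fun g : Un (q + 2) => (starRingEnd ℂ) (MomQ_X g) :=
    Complex.continuous_conj.comp hX
  have hcY : Continuous fun g : Un (q + 2) => (starRingEnd ℂ) (MomQ_Y g) :=
    Complex.continuous_conj.comp hY
  have h1 : ((∫ g : Un (q + 2), ‖MomQ_X g + t * MomQ_Y g‖ ^ (2 * k) ∂(haarU (q + 2)) : ℝ) : ℂ) =
      ∫ g : Un (q + 2), ∑ i ∈ Finset.range (k + 1), ∑ j ∈ Finset.range (k + 1),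
        ((k.choose i : ℂ) * (k.choose j : ℂ) * (t : ℂ) ^ (i + j)) *
        (MomQ_X g ^ (k - i) * MomQ_Y g ^ i * ((starRingEnd ℂ) (MomQ_X g)) ^ (k - j) *
          ((starRingEnd ℂ) (MomQ_Y g)) ^ j) ∂(haarU (q + 2)) := by
    rw [← integral_complex_ofReal]
    congr 1
    funext g
    have e1 := MomQ_sq k (MomQ_X g + t * MomQ_Y g)
    rw [e1, map_add, map_mul, Complex.conj_ofReal, add_comm (MomQ_X g),
      add_comm ((starRingEnd ℂ) (MomQ_X g)), add_pow, add_pow, Finset.sum_mul_sum]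
    refine Finset.sum_congr rfl fun i _ => Finset.sum_congr rfl fun j _ => ?_
    rw [mul_pow, mul_pow, pow_add]
    ring
  have h2 : ∀ i j : ℕ, Integrable (fun g : Un (q + 2) =>
      ((k.choose i : ℂ) * (k.choose j : ℂ) * (t : ℂ) ^ (i + j)) *
        (MomQ_X g ^ (k - i) * MomQ_Y g ^ i * ((starRingEnd ℂ) (MomQ_X g)) ^ (k - j) *
          ((starRingEnd ℂ) (MomQ_Y g)) ^ j)) (haarU (q + 2)) := by
    intro i j
    refine integrable_of_continuous ?_
    exact continuous_const.mul ((((hX.pow _).mul (hY.pow _)).mul (hcX.pow _)).mul (hcY.pow _))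
  rw [integral_finsetSum _ (fun i _ => integrable_finsetSum _ fun j _ => h2 i j)] at h1
  have h3 : ∀ i ∈ Finset.range (k + 1), ∫ g : Un (q + 2), ∑ j ∈ Finset.range (k + 1),
      ((k.choose i : ℂ) * (k.choose j : ℂ) * (t : ℂ) ^ (i + j)) *
        (MomQ_X g ^ (k - i) * MomQ_Y g ^ i * ((starRingEnd ℂ) (MomQ_X g)) ^ (k - j) *
          ((starRingEnd ℂ) (MomQ_Y g)) ^ j) ∂(haarU (q + 2)) =
      (((k.choose i : ℝ) ^ 2 * MomQ_n q k i * (t ^ 2) ^ i : ℝ) : ℂ) := by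
    intro i hi
    rw [integral_finsetSum _ (fun j _ => h2 i j), Finset.sum_eq_single i]
    · rw [integral_const_mul]
      have e1 : (MomQ_n q k i : ℂ) = ∫ g : Un (q + 2), (MomQ_X g ^ (k - i) * MomQ_Y g ^ i *
          ((starRingEnd ℂ) (MomQ_X g)) ^ (k - i) *
          ((starRingEnd ℂ) (MomQ_Y g)) ^ i) ∂(haarU (q + 2)) := by
        unfold MomQ_n
        rw [← integral_complex_ofReal]
        congr 1
        funext g
        rw [← pow_mul, ← pow_mul, Complex.ofReal_mul, MomQ_sq, MomQ_sq]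
        ring
      rw [← e1]
      push_cast
      ring
    · intro j _ hji
      rw [integral_const_mul, MomQ_mixed2 _ _ _ (Ne.symm hji), mul_zero]
    · intro h
      exact absurd hi h
  rw [Finset.sum_congr rfl h3, ← Complex.ofReal_sum] at h1
  exact_mod_cast h1

private theorem MomQ_coeff (q k j : ℕ) (hj : j ≤ k) :
    (k.choose j : ℝ) * MomQ_n q k j = ∫ g : Un (q + 2), ‖MomQ_X g‖ ^ (2 * k) ∂(haarU (q + 2)) := by
  obtain ⟨m, hm⟩ : ∃ m : ℝ, m = ∫ g : Un (q + 2), ‖MomQ_X g‖ ^ (2 * k) ∂(haarU (q + 2)) :=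
    ⟨_, rfl⟩
  rw [← hm]
  have hP : (∑ i ∈ Finset.range (k + 1),
      Polynomial.C ((k.choose i : ℝ) ^ 2 * MomQ_n q k i) * Polynomial.X ^ i -
      Polynomial.C m * (1 + Polynomial.X) ^ k : Polynomial ℝ) = 0 := by
    refine Polynomial.eq_zero_of_infinite_isRoot _ ((Set.Ioi_infinite (0 : ℝ)).mono ?_)
    intro v hv
    have hv0 : (0 : ℝ) ≤ v := le_of_lt hv
    change Polynomial.IsRoot _ v
    rw [Polynomial.IsRoot.def, Polynomial.eval_sub, Polynomial.eval_finsetSum, Polynomial.eval_mul,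
      Polynomial.eval_C, Polynomial.eval_pow,
      Polynomial.eval_add, Polynomial.eval_one, Polynomial.eval_X]
    have h1 := MomQ_scale (q := q) k (√v)
    rw [MomQ_expand, Real.sq_sqrt hv0, ← hm] at h1
    rw [sub_eq_zero, mul_comm, ← h1]
    refine Finset.sum_congr rfl fun i _ => ?_
    rw [Polynomial.eval_mul, Polynomial.eval_C, Polynomial.eval_pow, Polynomial.eval_X]
  have h1 := congrArg (fun P => Polynomial.coeff P j) hP
  simp only [Polynomial.coeff_sub, Polynomial.finsetSum_coeff, Polynomial.coeff_C_mul,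
    Polynomial.coeff_X_pow, Polynomial.coeff_zero,
    Polynomial.coeff_one_add_X_pow] at h1
  rw [Finset.sum_eq_single j, if_pos rfl, mul_one, sub_eq_zero] at h1
  · have hc : (k.choose j : ℝ) ≠ 0 := by
      have := Nat.choose_pos hj
      exact_mod_cast this.ne'
    refine mul_right_cancel₀ hc ?_
    rw [← h1]
    ring
  · intro i _ hij
    rw [if_neg (Ne.symm hij), mul_zero]
  · intro h
    exact absurd (Finset.mem_range.2 (by omega)) h

/-- `∫ |x|^(2k) |z_j|^2` does not depend on `j ≥ 1`. -/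
private theorem MomQ_sym {q : ℕ} (k : ℕ) (i : Fin (q + 1)) :
    ∫ g : Un (q + 2), ‖MomQ_X g‖ ^ (2 * k) * ‖MomQ_Z i.succ g‖ ^ 2 ∂(haarU (q + 2)) =
      MomQ_n q (k + 1) 1 := by
  have h1 := integral_mulRight (fun g : Un (q + 2) => ‖MomQ_X g‖ ^ (2 * k) *
    ‖MomQ_Z i.succ g‖ ^ 2) ⟨_, MomQ_perm_mem (Equiv.swap 1 i.succ)⟩
  have h10 : (0 : Fin (q + 2)) ≠ 1 := by
    intro h
    have h1 := congrArg Fin.val h
    simp at h1
  have eX : ∀ g : Un (q + 2), MomQ_X (g * ⟨_, MomQ_perm_mem (Equiv.swap 1 i.succ)⟩) = MomQ_X g :=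
    fun g => by
      have h2 := MomQ_mul_perm (Equiv.swap 1 i.succ) g 0
      rw [Equiv.symm_swap, Equiv.swap_apply_of_ne_of_ne h10 (Fin.succ_ne_zero i).symm] at h2
      exact h2
  have eZ : ∀ g : Un (q + 2), MomQ_Z i.succ (g * ⟨_, MomQ_perm_mem (Equiv.swap 1 i.succ)⟩) =
      MomQ_Y g := fun g => by
    have h2 := MomQ_mul_perm (Equiv.swap 1 i.succ) g i.succ
    rw [Equiv.symm_swap, Equiv.swap_apply_right] at h2
    exact h2
  simp only [eX, eZ] at h1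
  rw [← h1]
  unfold MomQ_n
  congr 1
  funext g
  rw [Nat.add_sub_cancel, pow_one, pow_mul]

private theorem MomQ_rec (q k : ℕ) :
    ∫ g : Un (q + 2), ‖MomQ_X g‖ ^ (2 * (k + 1)) ∂(haarU (q + 2)) =
      (∫ g : Un (q + 2), ‖MomQ_X g‖ ^ (2 * k) ∂(haarU (q + 2))) *
        ((k + 1) / (((q + 2 : ℕ) : ℝ) + k)) := by
  have hX := MomQ_contX (q := q)
  have h0 : ∀ g : Un (q + 2), ‖MomQ_X g‖ ^ (2 * k) = ‖MomQ_X g‖ ^ (2 * (k + 1)) +
      ∑ i : Fin (q + 1), ‖MomQ_X g‖ ^ (2 * k) * ‖MomQ_Z i.succ g‖ ^ 2 := by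
    intro g
    have h1 := MomQ_norm g
    rw [Fin.sum_univ_succ] at h1
    have h2 : ‖MomQ_X g‖ ^ (2 * (k + 1)) = ‖MomQ_X g‖ ^ (2 * k) * ‖MomQ_Z 0 g‖ ^ 2 := by
      rw [mul_add, mul_one, pow_add]
      rfl
    rw [h2, ← Finset.mul_sum, ← mul_add, h1, mul_one]
  have h1 : ∫ g : Un (q + 2), ‖MomQ_X g‖ ^ (2 * k) ∂(haarU (q + 2)) =
      (∫ g : Un (q + 2), ‖MomQ_X g‖ ^ (2 * (k + 1)) ∂(haarU (q + 2))) +
        (q + 1) * MomQ_n q (k + 1) 1 := by
    calc _ = ∫ g : Un (q + 2), (‖MomQ_X g‖ ^ (2 * (k + 1)) +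
          ∑ i : Fin (q + 1), ‖MomQ_X g‖ ^ (2 * k) * ‖MomQ_Z i.succ g‖ ^ 2) ∂(haarU (q + 2)) := by
          congr 1
          funext g
          exact h0 g
      _ = (∫ g : Un (q + 2), ‖MomQ_X g‖ ^ (2 * (k + 1)) ∂(haarU (q + 2))) +
          ∫ g : Un (q + 2), ∑ i : Fin (q + 1), ‖MomQ_X g‖ ^ (2 * k) * ‖MomQ_Z i.succ g‖ ^ 2
            ∂(haarU (q + 2)) := by
          refine integral_add (integrable_of_continuous (hX.norm.pow _))
            (integrable_of_continuous ?_)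
          exact continuous_finsetSum _ fun i _ =>
            (hX.norm.pow _).mul ((MomQ_contZ i.succ).norm.pow _)
      _ = _ := by
          have hI : ∀ i : Fin (q + 1), Integrable (fun g : Un (q + 2) =>
              ‖MomQ_X g‖ ^ (2 * k) * ‖MomQ_Z i.succ g‖ ^ 2) (haarU (q + 2)) := fun i =>
            integrable_of_continuous ((hX.norm.pow _).mul ((MomQ_contZ i.succ).norm.pow _))
          rw [integral_finsetSum _ fun i _ => hI i]
          simp only [MomQ_sym]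
          simp
  have h2 := MomQ_coeff q (k + 1) 1 (by omega)
  rw [Nat.choose_one_right] at h2
  rw [h1, ← h2]
  have h3 : ((q : ℝ) + 2 + k) ≠ 0 := by positivity
  push_cast
  field_simp
  ring

theorem momQ {q : ℕ} (k : ℕ) :
    ∫ g : Un (q + 2), ‖(g : Matrix (Fin (q + 2)) (Fin (q + 2)) ℂ) 0 0‖ ^ (2 * k)
      ∂(haarU (q + 2)) = cq (q + 2) k := by
  change ∫ g : Un (q + 2), ‖MomQ_X g‖ ^ (2 * k) ∂(haarU (q + 2)) = _
  induction k with
  | zero => simp [cq]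
  | succ k ih => rw [MomQ_rec, ih, cq]

theorem momQ_mixed {q a b : ℕ} (hab : a ≠ b) :
    ∫ g : Un (q + 2), (g : Matrix (Fin (q + 2)) (Fin (q + 2)) ℂ) 0 0 ^ a *
      (starRingEnd ℂ ((g : Matrix (Fin (q + 2)) (Fin (q + 2)) ℂ) 0 0)) ^ b ∂(haarU (q + 2)) =
        0 := by
  obtain ⟨z, hz, hz1⟩ := MomQ_root hab
  have h1 := integral_mulRight (fun g : Un (q + 2) => MomQ_X g ^ a *
    ((starRingEnd ℂ) (MomQ_X g)) ^ b) ⟨_, MomQ_diag_mem (fun _ => z) (fun _ => hz)⟩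
  have eX : ∀ g : Un (q + 2), MomQ_X (g * ⟨_, MomQ_diag_mem (fun _ => z) (fun _ => hz)⟩) =
      MomQ_X g * z := fun g => MomQ_mul_diag (fun _ => z) (fun _ => hz) g 0
  simp only [eX] at h1
  have h2 : ∀ g : Un (q + 2), (MomQ_X g * z) ^ a * ((starRingEnd ℂ) (MomQ_X g * z)) ^ b =
      -(MomQ_X g ^ a * ((starRingEnd ℂ) (MomQ_X g)) ^ b) := by
    intro g
    rw [map_mul, mul_pow, mul_pow]
    calc _ = (MomQ_X g ^ a * ((starRingEnd ℂ) (MomQ_X g)) ^ b) *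
          (z ^ a * ((starRingEnd ℂ) z) ^ b) := by ring
      _ = _ := by rw [hz1, mul_neg_one]
  simp only [h2] at h1
  rw [integral_neg] at h1
  exact self_eq_neg.1 h1.symm

end Pool.Agent.H89.EN
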