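import Mathlib
import Pool.Agent.H89.EN.MomQ
import Pool.Agent.H89.EN.FIaQ

set_option autoImplicit false

/-!
# FIbQ: positivity of the reduced integral

`p = q + 2`, `z = ψ 0 0 = X + iY`, `⟨ε, ψ ε⟩ = z`: `area ε (ψ ε) = √(1 - X²)`, `om ε (ψ ε) = Y`,
`X² + Y² ≤ 1`.  `KQ A B ε (ψ ε) = A √(1-X²) + B Y²/√(1-X²)
= A - ∑_{M ≥ 0} dd M X^(2M) (A X²/(2M+2) - B Y²)` (`hasSum_sqrt`, `hasSum_inv_sqrt` of
`H89/CZ/KSer.lean`; if `|X| = 1` then `Y = 0`).  Partial sums are bounded, integrate termwise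
(dominated convergence) exactly as in `H89/CZ/FIb.lean`.  `∫ (p |z|² - 1) = 0`.

`int_termQ`: `∫ (p|z|²-1) X^(2M) (A X²/(2M+2) - B Y²) =
 dd (M+1) (A/(2M+2) - B/(2M+1)) (p cq (M+2) - cq (M+1))`, and
`p cq (M+2) - cq (M+1) = cq (M+1) (M+1)(p-1)/(p+M+1)` (as in `FIb`: only the powers `|z|^(2M+2)`
contribute, `momQ_mixed`, coefficients `dd (M+1)` and `dd (M+1)/(2M+1)`).

So the integral is `- (p-1) ∑_M t_M`,
`t_M = dd M dd (M+1) cq (M+1) (M+1)/(p+M+1) (A/(2M+2) - B/(2M+1))`.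
With `b = (2p+1)/(4p+1)`, `B = b A + η`, `η > 0`:
`dd M dd (M+1) cq (M+1) (M+1)/(p+M+1) (1/(2M+2) - b/(2M+1)) = ρ (M+1) - ρ M`,
`ρ M = - M/((4p+1)(p+M)) dd M² cq M` (both sides are
`dd M² cq M (4Mp - 1)/(4 (4p+1) (p+M)(p+M+1))`), `ρ 0 = 0`, `ρ K → 0` (`dd K → 0`, `cq ≤ 1`).
So the integral is `(p-1) η ∑_M dd M dd (M+1) cq (M+1) (M+1)/((2M+1)(p+M+1)) > 0`
(at least the term `M = 0`).
-/

open MeasureTheory Pool.Agent.H61.UProj Pool.Agent.H89.CZ Pool.Agent.H35.NI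

noncomputable section

namespace Pool.Agent.H89.EN

/-! ### binomial sums -/

private theorem FIbQ_S0 (z w : ℂ) (n : ℕ) :
    ∑ p ∈ Finset.range (n + 1), (n.choose p : ℂ) * (z ^ p * w ^ (n - p)) = (z + w) ^ n := by
  rw [add_pow]
  exact Finset.sum_congr rfl fun p _ => by ring

private theorem FIbQ_S1 (z w : ℂ) (n : ℕ) :
    ∑ p ∈ Finset.range (n + 2), (p : ℂ) * ((n + 1).choose p : ℂ) * (z ^ p * w ^ (n + 1 - p)) =
      (n + 1) * z * (z + w) ^ n := by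
  rw [Finset.sum_range_succ', Nat.cast_zero, zero_mul, zero_mul, add_zero, ← FIbQ_S0 z w n,
    Finset.mul_sum]
  refine Finset.sum_congr rfl fun p _ => ?_
  have h : (((n + 1).choose (p + 1) : ℕ) : ℂ) * ((p : ℂ) + 1) =
      ((n : ℂ) + 1) * (n.choose p : ℕ) := by
    exact_mod_cast (Nat.add_one_mul_choose_eq n p).symm
  have e : n + 1 - (p + 1) = n - p := by omega
  rw [e]
  push_cast
  linear_combination (z ^ (p + 1) * w ^ (n - p)) * h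

private theorem FIbQ_S2 (z w : ℂ) (n : ℕ) :
    ∑ p ∈ Finset.range (n + 3), (p : ℂ) * ((p : ℂ) - 1) * ((n + 2).choose p : ℂ) *
      (z ^ p * w ^ (n + 2 - p)) = (n + 2) * (n + 1) * z ^ 2 * (z + w) ^ n := by
  rw [Finset.sum_range_succ', Nat.cast_zero, zero_mul, zero_mul, zero_mul, add_zero]
  have h1 := FIbQ_S1 z w n
  have h2 : ((n : ℂ) + 2) * (n + 1) * z ^ 2 * (z + w) ^ n =
      ((n : ℂ) + 2) * z * ((n + 1) * z * (z + w) ^ n) := by ring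
  rw [h2, ← h1, Finset.mul_sum]
  refine Finset.sum_congr rfl fun p _ => ?_
  have h : (((n + 2).choose (p + 1) : ℕ) : ℂ) * ((p : ℂ) + 1) =
      ((n : ℂ) + 2) * ((n + 1).choose p : ℕ) := by
    have := (Nat.add_one_mul_choose_eq (n + 1) p).symm
    have h' : (((n + 1 + 1).choose (p + 1) * (p + 1) : ℕ) : ℂ) =
      (((n + 1 + 1) * (n + 1).choose p : ℕ) : ℂ) := by rw [this]
    push_cast at h'
    rw [show (n : ℂ) + 2 = n + 1 + 1 by ring]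
    exact h'
  have e : n + 2 - (p + 1) = n + 1 - p := by omega
  rw [e]
  push_cast
  linear_combination ((p : ℂ) * z ^ (p + 1) * w ^ (n + 1 - p)) * h

private theorem FIbQ_key (z w : ℂ) (n : ℕ) :
    ∑ p ∈ Finset.range (n + 3), ((n + 2).choose p : ℂ) * (2 * (p : ℂ) - (n + 2)) ^ 2 *
      (z ^ p * w ^ (n + 2 - p)) =
      (n + 2) * (n + 1) * (z + w) ^ n * (z - w) ^ 2 + (n + 2) * (z + w) ^ (n + 2) := by
  have h0 := FIbQ_S0 z w (n + 2)
  have h1 := FIbQ_S1 z w (n + 1)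
  have h2 := FIbQ_S2 z w n
  have e : ∑ p ∈ Finset.range (n + 3), ((n + 2).choose p : ℂ) * (2 * (p : ℂ) - (n + 2)) ^ 2 *
      (z ^ p * w ^ (n + 2 - p)) =
      4 * (∑ p ∈ Finset.range (n + 3), (p : ℂ) * ((p : ℂ) - 1) * ((n + 2).choose p : ℂ) *
        (z ^ p * w ^ (n + 2 - p))) + (4 - 4 * ((n : ℂ) + 2)) *
        (∑ p ∈ Finset.range (n + 3), (p : ℂ) * ((n + 2).choose p : ℂ) *
          (z ^ p * w ^ (n + 2 - p))) + ((n : ℂ) + 2) ^ 2 *
        (∑ p ∈ Finset.range (n + 3), ((n + 2).choose p : ℂ) * (z ^ p * w ^ (n + 2 - p))) := by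
    rw [Finset.mul_sum, Finset.mul_sum, Finset.mul_sum, ← Finset.sum_add_distrib,
      ← Finset.sum_add_distrib]
    refine Finset.sum_congr rfl fun p _ => ?_
    ring
  have h1' : ∑ p ∈ Finset.range (n + 3), (p : ℂ) * ((n + 2).choose p : ℂ) *
      (z ^ p * w ^ (n + 2 - p)) = ((n : ℂ) + 2) * z * (z + w) ^ (n + 1) := by
    have : (((n + 1 : ℕ) : ℂ) + 1) = (n : ℂ) + 2 := by push_cast; ring
    rw [← this]
    exact h1
  rw [e, h2, h1', h0]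
  ring

/-- the coefficient of `z^p conj(z)^(2M+2-p)` -/
private def FIbQ_g (A B : ℝ) (M p : ℕ) : ℝ :=
  ((2 * M + 2).choose p : ℝ) / 4 ^ (M + 1) / (2 * M + 2) *
    (A - B * (2 * M + 2 - (2 * (p : ℝ) - (2 * M + 2)) ^ 2) / (2 * M + 1))

private theorem FIbQ_point (z : ℂ) (A B : ℝ) (M : ℕ) :
    ((z.re ^ (2 * M) * (A * z.re ^ 2 / (2 * M + 2) - B * z.im ^ 2) : ℝ) : ℂ) =
      ∑ p ∈ Finset.range (2 * M + 3),
        (FIbQ_g A B M p : ℂ) * (z ^ p * starRingEnd ℂ z ^ (2 * M + 2 - p)) := by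
  have hk := FIbQ_key z (starRingEnd ℂ z) (2 * M)
  have h0 := FIbQ_S0 z (starRingEnd ℂ z) (2 * M + 2)
  have hz1 : z + starRingEnd ℂ z = ((2 * z.re : ℝ) : ℂ) := Complex.add_conj z
  have hz2 : (z - starRingEnd ℂ z) ^ 2 = ((-4 * z.im ^ 2 : ℝ) : ℂ) := by
    rw [Complex.sub_conj]
    push_cast
    rw [mul_pow, Complex.I_sq]
    ring
  rw [hz1, hz2] at hk
  rw [hz1] at h0
  have hM1 : (2 * (M : ℂ) + 1) ≠ 0 := by
    have : ((2 * M + 1 : ℕ) : ℂ) ≠ 0 := by exact_mod_cast Nat.succ_ne_zero (2 * M)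
    push_cast at this
    exact this
  have hM2 : (2 * (M : ℂ) + 2) ≠ 0 := by
    have : ((2 * M + 2 : ℕ) : ℂ) ≠ 0 := by exact_mod_cast Nat.succ_ne_zero (2 * M + 1)
    push_cast at this
    exact this
  have hsum : ∑ p ∈ Finset.range (2 * M + 3),
        (FIbQ_g A B M p : ℂ) * (z ^ p * starRingEnd ℂ z ^ (2 * M + 2 - p)) =
      (1 / 4 ^ (M + 1) / (2 * M + 2) * ((A : ℂ) - (B : ℂ) * (2 * M + 2) / (2 * M + 1))) *
        (∑ p ∈ Finset.range (2 * M + 3), ((2 * M + 2).choose p : ℂ) *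
          (z ^ p * starRingEnd ℂ z ^ (2 * M + 2 - p))) +
      (1 / 4 ^ (M + 1) / (2 * M + 2) * ((B : ℂ) / (2 * M + 1))) *
        (∑ p ∈ Finset.range (2 * M + 3), ((2 * M + 2).choose p : ℂ) *
          (2 * (p : ℂ) - (((2 * M : ℕ) : ℂ) + 2)) ^ 2 *
            (z ^ p * starRingEnd ℂ z ^ (2 * M + 2 - p))) := by
    rw [Finset.mul_sum, Finset.mul_sum, ← Finset.sum_add_distrib]
    refine Finset.sum_congr rfl fun p _ => ?_
    unfold FIbQ_g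
    push_cast
    ring
  rw [hsum, h0, hk]
  have h5 : (4 : ℂ) ^ (M + 1) = 2 ^ (2 * M + 2) := by
    rw [show (4 : ℂ) = 2 ^ 2 by norm_num, ← pow_mul]
    congr 1
  have h9 : (2 : ℂ) ^ (2 * M) ≠ 0 := pow_ne_zero _ two_ne_zero
  have h8 : (2 : ℂ) ^ (2 * M + 2) = 4 * 2 ^ (2 * M) := by rw [pow_add]; ring
  rw [h5]
  push_cast
  rw [mul_pow, mul_pow, h8]
  field_simp
  ring

private theorem FIbQ_mid (A B : ℝ) (M : ℕ) :
    FIbQ_g A B M (M + 1) = dd (M + 1) * (A / (2 * M + 2) - B / (2 * M + 1)) := by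
  unfold FIbQ_g dd
  rw [Nat.centralBinom_eq_two_mul_choose]
  have e : 2 * (M + 1) = 2 * M + 2 := by ring
  rw [e]
  have h1 : (2 * (M : ℝ) + 1) ≠ 0 := by positivity
  have h2 : (2 * (M : ℝ) + 2) ≠ 0 := by positivity
  push_cast
  field_simp
  ring

/-- the entry -/
private def FIbQ_z {q : ℕ} (ψ : Un (q + 2)) : ℂ :=
  (ψ : Matrix (Fin (q + 2)) (Fin (q + 2)) ℂ) 0 0

private theorem FIbQ_cont {q : ℕ} : Continuous (fun ψ : Un (q + 2) => FIbQ_z ψ) :=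
  (continuous_id.matrix_elem 0 0).comp continuous_subtype_val

private theorem FIbQ_int {q : ℕ} (a b : ℕ) :
    Integrable (fun ψ : Un (q + 2) => FIbQ_z ψ ^ a * (starRingEnd ℂ (FIbQ_z ψ)) ^ b)
      (haarU (q + 2)) :=
  integrable_of_continuous ((FIbQ_cont.pow a).mul
    ((Complex.continuous_conj.comp FIbQ_cont).pow b))

private theorem FIbQ_diag {q : ℕ} (k : ℕ) :
    ∫ ψ : Un (q + 2), FIbQ_z ψ ^ k * (starRingEnd ℂ (FIbQ_z ψ)) ^ k ∂(haarU (q + 2)) =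
      ((cq (q + 2) k : ℝ) : ℂ) := by
  rw [← momQ k, ← integral_complex_ofReal]
  refine integral_congr_ae (Filter.Eventually.of_forall fun ψ => ?_)
  show FIbQ_z ψ ^ k * (starRingEnd ℂ (FIbQ_z ψ)) ^ k = ((‖FIbQ_z ψ‖ ^ (2 * k) : ℝ) : ℂ)
  rw [← mul_pow, Complex.mul_conj, Complex.normSq_eq_norm_sq, ← Complex.ofReal_pow, ← pow_mul]

private theorem FIbQ_mixed {q a b : ℕ} (hab : a ≠ b) :
    ∫ ψ : Un (q + 2), FIbQ_z ψ ^ a * (starRingEnd ℂ (FIbQ_z ψ)) ^ b ∂(haarU (q + 2)) = 0 :=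
  momQ_mixed hab

private theorem int_termQ (q : ℕ) (A B : ℝ) (M : ℕ) :
    ∫ ψ : Un (q + 2), (((q : ℝ) + 2) * ‖FIbQ_z ψ‖ ^ 2 - 1) *
      ((FIbQ_z ψ).re ^ (2 * M) *
        (A * (FIbQ_z ψ).re ^ 2 / (2 * M + 2) - B * (FIbQ_z ψ).im ^ 2)) ∂(haarU (q + 2)) =
      dd (M + 1) * (A / (2 * M + 2) - B / (2 * M + 1)) *
        (((q : ℝ) + 2) * cq (q + 2) (M + 2) - cq (q + 2) (M + 1)) := by
  have hc : ∀ ψ : Un (q + 2), (((((q : ℝ) + 2) * ‖FIbQ_z ψ‖ ^ 2 - 1) *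
      ((FIbQ_z ψ).re ^ (2 * M) *
        (A * (FIbQ_z ψ).re ^ 2 / (2 * M + 2) - B * (FIbQ_z ψ).im ^ 2)) : ℝ) : ℂ) =
      ∑ p ∈ Finset.range (2 * M + 3), (FIbQ_g A B M p : ℂ) *
        (((q : ℂ) + 2) * (FIbQ_z ψ ^ (p + 1) *
          (starRingEnd ℂ (FIbQ_z ψ)) ^ (2 * M + 2 - p + 1)) -
          FIbQ_z ψ ^ p * (starRingEnd ℂ (FIbQ_z ψ)) ^ (2 * M + 2 - p)) := by
    intro ψ
    set z := FIbQ_z ψ with hz
    have h1 : ((‖z‖ ^ 2 : ℝ) : ℂ) = z * starRingEnd ℂ z := by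
      rw [Complex.mul_conj, Complex.normSq_eq_norm_sq]
    rw [Complex.ofReal_mul, FIbQ_point z A B M]
    have h2 : ((((q : ℝ) + 2) * ‖z‖ ^ 2 - 1 : ℝ) : ℂ) =
        ((q : ℂ) + 2) * (z * starRingEnd ℂ z) - 1 := by
      rw [← h1]
      push_cast
      ring
    rw [h2, Finset.mul_sum]
    refine Finset.sum_congr rfl fun p _ => ?_
    rw [pow_succ z p, pow_succ (starRingEnd ℂ z)]
    ring
  have hint : ∀ p ∈ Finset.range (2 * M + 3), Integrable (fun ψ : Un (q + 2) =>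
      (FIbQ_g A B M p : ℂ) *
        (((q : ℂ) + 2) * (FIbQ_z ψ ^ (p + 1) *
          (starRingEnd ℂ (FIbQ_z ψ)) ^ (2 * M + 2 - p + 1)) -
          FIbQ_z ψ ^ p * (starRingEnd ℂ (FIbQ_z ψ)) ^ (2 * M + 2 - p))) (haarU (q + 2)) := by
    intro p _
    exact (((FIbQ_int (p + 1) (2 * M + 2 - p + 1)).const_mul ((q : ℂ) + 2)).sub
      (FIbQ_int p (2 * M + 2 - p))).const_mul _
  have hI : ((∫ ψ : Un (q + 2), (((q : ℝ) + 2) * ‖FIbQ_z ψ‖ ^ 2 - 1) *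
      ((FIbQ_z ψ).re ^ (2 * M) *
        (A * (FIbQ_z ψ).re ^ 2 / (2 * M + 2) - B * (FIbQ_z ψ).im ^ 2)) ∂(haarU (q + 2)) : ℝ) : ℂ) =
      ∑ p ∈ Finset.range (2 * M + 3), (FIbQ_g A B M p : ℂ) *
        (((q : ℂ) + 2) * ∫ ψ : Un (q + 2), (FIbQ_z ψ ^ (p + 1) *
          (starRingEnd ℂ (FIbQ_z ψ)) ^ (2 * M + 2 - p + 1)) ∂(haarU (q + 2)) -
          ∫ ψ : Un (q + 2), FIbQ_z ψ ^ p * (starRingEnd ℂ (FIbQ_z ψ)) ^ (2 * M + 2 - p)
            ∂(haarU (q + 2))) := by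
    rw [← integral_complex_ofReal, integral_congr_ae (Filter.Eventually.of_forall hc),
      integral_finsetSum _ hint]
    refine Finset.sum_congr rfl fun p _ => ?_
    rw [integral_const_mul, integral_sub
      ((FIbQ_int (p + 1) (2 * M + 2 - p + 1)).const_mul ((q : ℂ) + 2))
      (FIbQ_int p (2 * M + 2 - p)), integral_const_mul]
  rw [Finset.sum_eq_single (M + 1)] at hI
  · have e1 : 2 * M + 2 - (M + 1) = M + 1 := by omega
    rw [e1, FIbQ_diag (M + 1), FIbQ_diag (M + 1 + 1), FIbQ_mid] at hI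
    have h3 : ((dd (M + 1) * (A / (2 * M + 2) - B / (2 * M + 1)) : ℝ) : ℂ) *
        (((q : ℂ) + 2) * ((cq (q + 2) (M + 1 + 1) : ℝ) : ℂ) -
          ((cq (q + 2) (M + 1) : ℝ) : ℂ)) =
        ((dd (M + 1) * (A / (2 * M + 2) - B / (2 * M + 1)) *
          (((q : ℝ) + 2) * cq (q + 2) (M + 2) - cq (q + 2) (M + 1)) : ℝ) : ℂ) := by
      push_cast
      ring
    rw [h3] at hI
    exact Complex.ofReal_injective hI
  · intro p hp hpM
    rw [Finset.mem_range] at hp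
    have hne1 : p + 1 ≠ 2 * M + 2 - p + 1 := by omega
    have hne2 : p ≠ 2 * M + 2 - p := by omega
    rw [FIbQ_mixed hne1, FIbQ_mixed hne2]
    ring
  · intro h
    exact absurd (Finset.mem_range.2 (by omega)) h

/-! ### the kernel -/

private theorem FIbQ_inner {q : ℕ} (ψ : Un (q + 2)) :
    (inner ℂ (st (q + 2) 0) (uni ψ (st (q + 2) 0)) : ℂ) = FIbQ_z ψ := by
  have h := inner_st_left (q + 2) 0 (uni ψ (st (q + 2) 0))
  have h0 : (((0 : Fin (q + 2)) : ℕ)) = 0 := rfl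
  rw [h0] at h
  rw [h, uni_apply, FIbQ_z, Finset.sum_eq_single (0 : Fin (q + 2))]
  · rw [st_apply, if_pos h0, mul_one]
  · intro b _ hb
    rw [st_apply, if_neg, mul_zero]
    intro h1
    exact hb (Fin.ext h1)
  · intro h1
    exact absurd (Finset.mem_univ _) h1

private theorem FIbQ_norm {q : ℕ} : ‖st (q + 2) 0‖ = 1 := by
  have h := cinner_st (q + 2) 0 0 (by omega)
  rw [if_pos rfl] at h
  have h1 : ‖st (q + 2) 0‖ ^ 2 = 1 := by
    have h2 := inner_self_eq_norm_sq_to_K (𝕜 := ℂ) (st (q + 2) 0)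
    rw [h] at h2
    have h3 : ((‖st (q + 2) 0‖ ^ 2 : ℝ) : ℂ) = ((1 : ℝ) : ℂ) := by
      push_cast
      exact h2.symm
    exact Complex.ofReal_injective h3
  have h4 : 0 ≤ ‖st (q + 2) 0‖ := norm_nonneg _
  nlinarith

private theorem FIbQ_zle {q : ℕ} (ψ : Un (q + 2)) : ‖FIbQ_z ψ‖ ≤ 1 := by
  rw [← FIbQ_inner ψ]
  refine (norm_inner_le_norm _ _).trans ?_
  rw [LinearIsometry.norm_map, FIbQ_norm, mul_one]

private theorem FIbQ_xy {q : ℕ} (ψ : Un (q + 2)) :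
    (FIbQ_z ψ).re ^ 2 + (FIbQ_z ψ).im ^ 2 ≤ 1 := by
  have h := FIbQ_zle ψ
  have h1 : ‖FIbQ_z ψ‖ ^ 2 = (FIbQ_z ψ).re ^ 2 + (FIbQ_z ψ).im ^ 2 := by
    rw [← Complex.normSq_eq_norm_sq, Complex.normSq_apply]
    ring
  rw [← h1]
  nlinarith [norm_nonneg (FIbQ_z ψ)]

private theorem FIbQ_KQ {q : ℕ} (A B : ℝ) (ψ : Un (q + 2)) :
    KQ A B (st (q + 2) 0) (uni ψ (st (q + 2) 0)) =
      A * √(1 - (FIbQ_z ψ).re ^ 2) + B * ((FIbQ_z ψ).im ^ 2 / √(1 - (FIbQ_z ψ).re ^ 2)) := by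
  unfold KQ om area
  rw [rinner_eq, FIbQ_inner, LinearIsometry.norm_map, FIbQ_norm]
  norm_num

private theorem FIbQ_hasSum0 {q : ℕ} (ψ : Un (q + 2)) :
    HasSum (fun M : ℕ => dd M * ((FIbQ_z ψ).re ^ (2 * M) * ((FIbQ_z ψ).re ^ 2 / (2 * M + 2))))
      (1 - √(1 - (FIbQ_z ψ).re ^ 2)) := by
  have hx : |(FIbQ_z ψ).re| ≤ 1 := by
    rw [← sq_le_one_iff_abs_le_one]
    have := FIbQ_xy ψ
    nlinarith [sq_nonneg (FIbQ_z ψ).im]
  have h := hasSum_sqrt hx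
  have e : (fun M : ℕ => dd M * ((FIbQ_z ψ).re ^ (2 * M) * ((FIbQ_z ψ).re ^ 2 / (2 * M + 2)))) =
      fun m : ℕ => dd m / (2 * m + 2) * (FIbQ_z ψ).re ^ (2 * m + 2) := by
    funext M
    rw [pow_add]
    ring
  rw [e]
  exact h

private theorem FIbQ_hasSum1 {q : ℕ} (ψ : Un (q + 2)) :
    HasSum (fun M : ℕ => dd M * ((FIbQ_z ψ).re ^ (2 * M) * (FIbQ_z ψ).im ^ 2))
      ((FIbQ_z ψ).im ^ 2 / √(1 - (FIbQ_z ψ).re ^ 2)) := by
  have hxy := FIbQ_xy ψ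
  have hx : (FIbQ_z ψ).re ^ 2 ≤ 1 := by nlinarith [sq_nonneg (FIbQ_z ψ).im]
  rcases hx.lt_or_eq with hlt | heq
  · have h := (hasSum_inv_sqrt ((sq_lt_one_iff_abs_lt_one _).mp hlt)).mul_right
      ((FIbQ_z ψ).im ^ 2)
    have e : (fun M : ℕ => dd M * ((FIbQ_z ψ).re ^ (2 * M) * (FIbQ_z ψ).im ^ 2)) =
        fun m : ℕ => dd m * (FIbQ_z ψ).re ^ (2 * m) * (FIbQ_z ψ).im ^ 2 := by
      funext M
      ring
    rw [e]
    have e2 : (FIbQ_z ψ).im ^ 2 / √(1 - (FIbQ_z ψ).re ^ 2) =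
        1 / √(1 - (FIbQ_z ψ).re ^ 2) * (FIbQ_z ψ).im ^ 2 := by ring
    rw [e2]
    exact h
  · have hy : (FIbQ_z ψ).im ^ 2 = 0 := by nlinarith [sq_nonneg (FIbQ_z ψ).im]
    rw [hy, zero_div]
    simp only [mul_zero]
    exact hasSum_zero

private theorem FIbQ_bd1 {q : ℕ} (ψ : Un (q + 2)) :
    (FIbQ_z ψ).im ^ 2 / √(1 - (FIbQ_z ψ).re ^ 2) ≤ 1 := by
  have hxy := FIbQ_xy ψ
  have h0 : 0 ≤ 1 - (FIbQ_z ψ).re ^ 2 := by nlinarith [sq_nonneg (FIbQ_z ψ).im]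
  refine div_le_one_of_le₀ ?_ (Real.sqrt_nonneg _)
  refine Real.le_sqrt_of_sq_le ?_
  nlinarith [sq_nonneg (FIbQ_z ψ).im, sq_nonneg (FIbQ_z ψ).re]

private theorem FIbQ_hasSum {q : ℕ} (A B : ℝ) (ψ : Un (q + 2)) :
    HasSum (fun M : ℕ => dd M * ((FIbQ_z ψ).re ^ (2 * M) *
      (A * (FIbQ_z ψ).re ^ 2 / (2 * M + 2) - B * (FIbQ_z ψ).im ^ 2)))
      (A - KQ A B (st (q + 2) 0) (uni ψ (st (q + 2) 0))) := by
  have h := ((FIbQ_hasSum0 ψ).mul_left A).sub ((FIbQ_hasSum1 ψ).mul_left B)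
  rw [FIbQ_KQ]
  have e : (fun M : ℕ => dd M * ((FIbQ_z ψ).re ^ (2 * M) *
      (A * (FIbQ_z ψ).re ^ 2 / (2 * M + 2) - B * (FIbQ_z ψ).im ^ 2))) = fun M : ℕ =>
      A * (dd M * ((FIbQ_z ψ).re ^ (2 * M) * ((FIbQ_z ψ).re ^ 2 / (2 * M + 2)))) -
        B * (dd M * ((FIbQ_z ψ).re ^ (2 * M) * (FIbQ_z ψ).im ^ 2)) := by
    funext M
    ring
  rw [e]
  have e2 : A - (A * √(1 - (FIbQ_z ψ).re ^ 2) +
      B * ((FIbQ_z ψ).im ^ 2 / √(1 - (FIbQ_z ψ).re ^ 2))) =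
      A * (1 - √(1 - (FIbQ_z ψ).re ^ 2)) -
        B * ((FIbQ_z ψ).im ^ 2 / √(1 - (FIbQ_z ψ).re ^ 2)) := by ring
  rw [e2]
  exact h

private theorem FIbQ_xe {q : ℕ} (ψ : Un (q + 2)) (M : ℕ) : 0 ≤ (FIbQ_z ψ).re ^ (2 * M) := by
  rw [pow_mul]
  exact pow_nonneg (sq_nonneg _) M

/-- partial sums are bounded -/
private theorem FIbQ_partial {q : ℕ} (A B : ℝ) (ψ : Un (q + 2)) (K : ℕ) :
    |∑ M ∈ Finset.range K, dd M * ((FIbQ_z ψ).re ^ (2 * M) *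
      (A * (FIbQ_z ψ).re ^ 2 / (2 * M + 2) - B * (FIbQ_z ψ).im ^ 2))| ≤ |A| + |B| := by
  have n0 : ∀ M : ℕ, 0 ≤ dd M * ((FIbQ_z ψ).re ^ (2 * M) *
      ((FIbQ_z ψ).re ^ 2 / (2 * M + 2))) := fun M =>
    mul_nonneg (dd_pos M).le (mul_nonneg (FIbQ_xe ψ M) (by positivity))
  have n1 : ∀ M : ℕ, 0 ≤ dd M * ((FIbQ_z ψ).re ^ (2 * M) * (FIbQ_z ψ).im ^ 2) := fun M =>
    mul_nonneg (dd_pos M).le (mul_nonneg (FIbQ_xe ψ M) (sq_nonneg _))
  have s0 : ∑ M ∈ Finset.range K, dd M * ((FIbQ_z ψ).re ^ (2 * M) *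
      ((FIbQ_z ψ).re ^ 2 / (2 * M + 2))) ≤ 1 := by
    have := sum_le_hasSum (Finset.range K) (fun M _ => n0 M) (FIbQ_hasSum0 ψ)
    have h2 := Real.sqrt_nonneg (1 - (FIbQ_z ψ).re ^ 2)
    linarith
  have s1 : ∑ M ∈ Finset.range K, dd M * ((FIbQ_z ψ).re ^ (2 * M) * (FIbQ_z ψ).im ^ 2) ≤ 1 := by
    have := sum_le_hasSum (Finset.range K) (fun M _ => n1 M) (FIbQ_hasSum1 ψ)
    have h2 := FIbQ_bd1 ψ
    linarith
  have p0 : 0 ≤ ∑ M ∈ Finset.range K, dd M * ((FIbQ_z ψ).re ^ (2 * M) *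
      ((FIbQ_z ψ).re ^ 2 / (2 * M + 2))) := Finset.sum_nonneg fun M _ => n0 M
  have p1 : 0 ≤ ∑ M ∈ Finset.range K, dd M * ((FIbQ_z ψ).re ^ (2 * M) * (FIbQ_z ψ).im ^ 2) :=
    Finset.sum_nonneg fun M _ => n1 M
  have e2 : ∑ M ∈ Finset.range K, dd M * ((FIbQ_z ψ).re ^ (2 * M) *
      (A * (FIbQ_z ψ).re ^ 2 / (2 * M + 2) - B * (FIbQ_z ψ).im ^ 2)) =
      A * (∑ M ∈ Finset.range K, dd M * ((FIbQ_z ψ).re ^ (2 * M) *
        ((FIbQ_z ψ).re ^ 2 / (2 * M + 2)))) -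
        B * ∑ M ∈ Finset.range K, dd M * ((FIbQ_z ψ).re ^ (2 * M) * (FIbQ_z ψ).im ^ 2) := by
    rw [Finset.mul_sum, Finset.mul_sum, ← Finset.sum_sub_distrib]
    exact Finset.sum_congr rfl fun M _ => by ring
  rw [e2]
  refine (abs_sub _ _).trans ?_
  rw [abs_mul, abs_mul, abs_of_nonneg p0, abs_of_nonneg p1]
  exact add_le_add (mul_le_of_le_one_right (abs_nonneg _) s0)
    (mul_le_of_le_one_right (abs_nonneg _) s1)

/-! ### telescoping -/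

private theorem FIbQ_cq_succ (q k : ℕ) :
    cq (q + 2) (k + 1) = cq (q + 2) k * (((k : ℝ) + 1) / ((q : ℝ) + 2 + k)) := by
  rw [cq]
  push_cast
  rfl

private theorem FIbQ_cq_le (q k : ℕ) : cq (q + 2) k ≤ 1 := by
  induction k with
  | zero => exact le_of_eq rfl
  | succ k ih =>
    rw [FIbQ_cq_succ]
    have h1 : ((k : ℝ) + 1) / ((q : ℝ) + 2 + k) ≤ 1 := by
      rw [div_le_one (by positivity)]
      have : (0 : ℝ) ≤ q := Nat.cast_nonneg q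
      linarith
    have h2 : 0 ≤ ((k : ℝ) + 1) / ((q : ℝ) + 2 + k) := by positivity
    calc _ ≤ 1 * 1 := mul_le_mul ih h1 h2 zero_le_one
      _ = 1 := one_mul 1

/-- the telescoping sequence -/
private def FIbQ_rho (q M : ℕ) : ℝ :=
  -((M : ℝ) / ((4 * ((q : ℝ) + 2) + 1) * ((q : ℝ) + 2 + M)) * (dd M ^ 2 * cq (q + 2) M))

private theorem FIbQ_tele (q M : ℕ) :
    dd M * (dd (M + 1) * (1 / (2 * M + 2) -
      ((2 * ((q : ℝ) + 2) + 1) / (4 * ((q : ℝ) + 2) + 1)) / (2 * M + 1)) *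
        (cq (q + 2) (M + 1) * (((M : ℝ) + 1) / ((q : ℝ) + 2 + M + 1)))) =
      FIbQ_rho q (M + 1) - FIbQ_rho q M := by
  unfold FIbQ_rho
  rw [dd_succ, FIbQ_cq_succ]
  push_cast
  have h1 : (2 * (M : ℝ) + 1) ≠ 0 := by positivity
  have h2 : (2 * (M : ℝ) + 2) ≠ 0 := by positivity
  have h3 : (4 * ((q : ℝ) + 2) + 1) ≠ 0 := by positivity
  have h4 : ((q : ℝ) + 2 + M) ≠ 0 := by positivity
  have h5 : ((q : ℝ) + 2 + M + 1) ≠ 0 := by positivity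
  have h6 : ((q : ℝ) + 2 + (M + 1)) ≠ 0 := by positivity
  field_simp
  ring

private theorem FIbQ_rho_tendsto (q : ℕ) :
    Filter.Tendsto (FIbQ_rho q) Filter.atTop (nhds 0) := by
  have hd : Filter.Tendsto (fun M : ℕ => dd M ^ 2) Filter.atTop (nhds 0) := by
    have := dd_tendsto.pow 2
    simpa using this
  refine squeeze_zero_norm (fun M => ?_) hd
  have c0 := (cq_pos (q + 2) (by omega) M).le
  have c1 := FIbQ_cq_le q M
  have d0 : 0 ≤ dd M ^ 2 := sq_nonneg _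
  have f0 : 0 ≤ (M : ℝ) / ((4 * ((q : ℝ) + 2) + 1) * ((q : ℝ) + 2 + M)) := by positivity
  have f1 : (M : ℝ) / ((4 * ((q : ℝ) + 2) + 1) * ((q : ℝ) + 2 + M)) ≤ 1 := by
    rw [div_le_one (by positivity)]
    have hq : (0 : ℝ) ≤ q := Nat.cast_nonneg q
    have hM : (0 : ℝ) ≤ M := Nat.cast_nonneg M
    nlinarith [mul_nonneg hq hM]
  rw [FIbQ_rho, norm_neg, Real.norm_of_nonneg (by positivity)]
  calc _ ≤ 1 * (dd M ^ 2 * 1) :=
        mul_le_mul f1 (mul_le_mul_of_nonneg_left c1 d0) (by positivity) zero_le_one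
    _ = dd M ^ 2 := by ring

theorem int_reducedQ_pos (q : ℕ) {A B : ℝ} (h : (2 * ((q : ℝ) + 2) + 1) * A <
    (4 * ((q : ℝ) + 2) + 1) * B) :
    0 < ∫ ψ : Un (q + 2), (((q : ℝ) + 2) *
        ‖(ψ : Matrix (Fin (q + 2)) (Fin (q + 2)) ℂ) 0 0‖ ^ 2 - 1) *
        KQ A B (st (q + 2) 0) (uni ψ (st (q + 2) 0)) ∂(haarU (q + 2)) := by
  have hq : (0 : ℝ) ≤ q := Nat.cast_nonneg q
  set w : Un (q + 2) → ℝ := fun ψ => ((q : ℝ) + 2) * ‖FIbQ_z ψ‖ ^ 2 - 1 with hw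
  have hwc : Continuous w := (continuous_const.mul (FIbQ_cont.norm.pow 2)).sub continuous_const
  have hwb : ∀ ψ, |w ψ| ≤ (q : ℝ) + 3 := by
    intro ψ
    have h1 := FIbQ_zle ψ
    have h2 : 0 ≤ ‖FIbQ_z ψ‖ := norm_nonneg _
    have h3 : ‖FIbQ_z ψ‖ ^ 2 ≤ 1 := by nlinarith
    have h4 : 0 ≤ ‖FIbQ_z ψ‖ ^ 2 := sq_nonneg _
    rw [abs_le]
    constructor <;> simp only [hw] <;> nlinarith
  set P : ℕ → Un (q + 2) → ℝ := fun K ψ => ∑ M ∈ Finset.range K,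
    dd M * ((FIbQ_z ψ).re ^ (2 * M) *
      (A * (FIbQ_z ψ).re ^ 2 / (2 * M + 2) - B * (FIbQ_z ψ).im ^ 2)) with hP
  have hre : Continuous (fun ψ : Un (q + 2) => (FIbQ_z ψ).re) :=
    Complex.continuous_re.comp FIbQ_cont
  have him : Continuous (fun ψ : Un (q + 2) => (FIbQ_z ψ).im) :=
    Complex.continuous_im.comp FIbQ_cont
  have hTc : ∀ M : ℕ, Continuous (fun ψ : Un (q + 2) => ((FIbQ_z ψ).re ^ (2 * M) *
      (A * (FIbQ_z ψ).re ^ 2 / (2 * M + 2) - B * (FIbQ_z ψ).im ^ 2))) := fun M =>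
    (hre.pow (2 * M)).mul (((continuous_const.mul (hre.pow 2)).div_const _).sub
      (continuous_const.mul (him.pow 2)))
  have hPc : ∀ K, Continuous (P K) := fun K =>
    continuous_finsetSum _ fun M _ => continuous_const.mul (hTc M)
  -- convergence of the integrals
  have hlim : Filter.Tendsto (fun K => ∫ ψ, w ψ * P K ψ ∂(haarU (q + 2))) Filter.atTop
      (nhds (∫ ψ, w ψ * (A - KQ A B (st (q + 2) 0) (uni ψ (st (q + 2) 0)))
        ∂(haarU (q + 2)))) := by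
    refine tendsto_integral_of_dominated_convergence
      (fun _ => ((q : ℝ) + 3) * (|A| + |B|)) ?_ ?_ ?_ ?_
    · intro K
      exact (hwc.mul (hPc K)).aestronglyMeasurable
    · exact integrable_const _
    · intro K
      refine Filter.Eventually.of_forall fun ψ => ?_
      rw [Real.norm_eq_abs, abs_mul]
      exact mul_le_mul (hwb ψ) (FIbQ_partial A B ψ K) (abs_nonneg _) (by positivity)
    · refine Filter.Eventually.of_forall fun ψ => ?_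
      exact (FIbQ_hasSum A B ψ).tendsto_sum_nat.const_mul (w ψ)
  -- the integrals
  have hval : ∀ K, ∫ ψ, w ψ * P K ψ ∂(haarU (q + 2)) = ∑ M ∈ Finset.range K,
      dd M * (dd (M + 1) * (A / (2 * M + 2) - B / (2 * M + 1)) *
        (((q : ℝ) + 2) * cq (q + 2) (M + 2) - cq (q + 2) (M + 1))) := by
    intro K
    have h1 : ∀ ψ : Un (q + 2), w ψ * P K ψ = ∑ M ∈ Finset.range K, dd M * (w ψ *
        ((FIbQ_z ψ).re ^ (2 * M) *
      (A * (FIbQ_z ψ).re ^ 2 / (2 * M + 2) - B * (FIbQ_z ψ).im ^ 2))) := by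
      intro ψ
      rw [hP]
      simp only
      rw [Finset.mul_sum]
      exact Finset.sum_congr rfl fun M _ => by ring
    rw [integral_congr_ae (Filter.Eventually.of_forall h1), integral_finsetSum]
    · refine Finset.sum_congr rfl fun M _ => ?_
      rw [integral_const_mul, int_termQ q A B M]
    · intro M _
      exact integrable_of_continuous (continuous_const.mul (hwc.mul (hTc M)))
  set b : ℝ := (2 * ((q : ℝ) + 2) + 1) / (4 * ((q : ℝ) + 2) + 1) with hb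
  set η : ℝ := B - b * A with hη
  have h4p : 0 < 4 * ((q : ℝ) + 2) + 1 := by positivity
  have hηpos : 0 < η := by
    have : b * A < B := by
      rw [hb, div_mul_eq_mul_div, div_lt_iff₀ h4p]
      linarith
    rw [hη]
    linarith
  -- the sum
  have hsum : ∀ K, ∑ M ∈ Finset.range K,
      dd M * (dd (M + 1) * (A / (2 * M + 2) - B / (2 * M + 1)) *
        (((q : ℝ) + 2) * cq (q + 2) (M + 2) - cq (q + 2) (M + 1))) =
      ((q : ℝ) + 1) * (A * FIbQ_rho q K - η * ∑ M ∈ Finset.range K, dd M * (dd (M + 1) *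
        (1 / (2 * M + 1)) * (cq (q + 2) (M + 1) * (((M : ℝ) + 1) / ((q : ℝ) + 2 + M + 1))))) := by
    intro K
    have hr : FIbQ_rho q K = ∑ M ∈ Finset.range K, (FIbQ_rho q (M + 1) - FIbQ_rho q M) := by
      rw [Finset.sum_range_sub]
      simp [FIbQ_rho]
    rw [hr, Finset.mul_sum, Finset.mul_sum, ← Finset.sum_sub_distrib, Finset.mul_sum]
    refine Finset.sum_congr rfl fun M _ => ?_
    rw [← FIbQ_tele, FIbQ_cq_succ q (M + 1)]
    have hB : B = b * A + η := by rw [hη]; ring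
    rw [hB, ← hb]
    push_cast
    have h1 : (2 * (M : ℝ) + 1) ≠ 0 := by positivity
    have h2 : (2 * (M : ℝ) + 2) ≠ 0 := by positivity
    have h5 : ((q : ℝ) + 2 + M + 1) ≠ 0 := by positivity
    have h6 : ((q : ℝ) + 2 + (M + 1)) ≠ 0 := by positivity
    field_simp
    ring
  have hlim2 : Filter.Tendsto (fun K => ((q : ℝ) + 1) * (A * FIbQ_rho q K -
      η * (dd 0 * (dd 1 * 1 * (cq (q + 2) 1 * (1 / ((q : ℝ) + 2 + 1)))))))
      Filter.atTop (nhds (((q : ℝ) + 1) * (A * 0 -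
      η * (dd 0 * (dd 1 * 1 * (cq (q + 2) 1 * (1 / ((q : ℝ) + 2 + 1)))))))) :=
    (((FIbQ_rho_tendsto q).const_mul A).sub_const _).const_mul _
  have hle : ∫ ψ, w ψ * (A - KQ A B (st (q + 2) 0) (uni ψ (st (q + 2) 0))) ∂(haarU (q + 2)) ≤
      ((q : ℝ) + 1) * (A * 0 -
        η * (dd 0 * (dd 1 * 1 * (cq (q + 2) 1 * (1 / ((q : ℝ) + 2 + 1)))))) := by
    refine le_of_tendsto_of_tendsto hlim hlim2 (Filter.eventually_atTop.2 ⟨1, fun K hK => ?_⟩)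
    beta_reduce
    rw [hval K, hsum K]
    refine mul_le_mul_of_nonneg_left ?_ (by positivity)
    have h4 := Finset.single_le_sum (f := fun M : ℕ => dd M * (dd (M + 1) *
        (1 / (2 * (M : ℝ) + 1)) * (cq (q + 2) (M + 1) * (((M : ℝ) + 1) / ((q : ℝ) + 2 + M + 1)))))
        (s := Finset.range K) (fun M _ => by
          have a1 := (dd_pos M).le
          have a2 := (dd_pos (M + 1)).le
          have a3 := (cq_pos (q + 2) (by omega) (M + 1)).le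
          positivity) (Finset.mem_range.2 hK)
    have h5 : dd 0 * (dd 1 * 1 * (cq (q + 2) 1 * (1 / ((q : ℝ) + 2 + 1)))) ≤
        ∑ M ∈ Finset.range K, dd M * (dd (M + 1) *
        (1 / (2 * (M : ℝ) + 1)) * (cq (q + 2) (M + 1) *
          (((M : ℝ) + 1) / ((q : ℝ) + 2 + M + 1)))) := by
      refine le_trans (le_of_eq ?_) h4
      norm_num
    have h6 := mul_le_mul_of_nonneg_left h5 hηpos.le
    linarith
  have hneg : ∫ ψ, w ψ * (A - KQ A B (st (q + 2) 0) (uni ψ (st (q + 2) 0))) ∂(haarU (q + 2)) <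
      0 := by
    refine lt_of_le_of_lt hle ?_
    have a1 := dd_pos 0
    have a2 := dd_pos 1
    have a3 := cq_pos (q + 2) (by omega) 1
    have h7 : 0 < ((q : ℝ) + 1) *
        (η * (dd 0 * (dd 1 * 1 * (cq (q + 2) 1 * (1 / ((q : ℝ) + 2 + 1)))))) := by positivity
    linarith
  have hKb : ∀ ψ : Un (q + 2), |KQ A B (st (q + 2) 0) (uni ψ (st (q + 2) 0))| ≤ |A| + |B| := by
    intro ψ
    have := KQ_pt_le q A B 1 ψ
    rwa [uni_one] at this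
  have hKm : Measurable (fun ψ : Un (q + 2) =>
      KQ A B (st (q + 2) 0) (uni ψ (st (q + 2) 0))) := by
    have h := (measurable_KQ_pt q A B).comp (measurable_const.prodMk measurable_id :
      Measurable (fun ψ : Un (q + 2) => ((1 : Un (q + 2)), ψ)))
    have e : (fun x : Un (q + 2) × Un (q + 2) =>
        KQ A B (uni x.1 (st (q + 2) 0)) (uni x.2 (st (q + 2) 0))) ∘
        (fun ψ : Un (q + 2) => ((1 : Un (q + 2)), ψ)) =
        fun ψ : Un (q + 2) => KQ A B (st (q + 2) 0) (uni ψ (st (q + 2) 0)) := by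
      funext ψ
      show KQ A B (uni 1 (st (q + 2) 0)) (uni ψ (st (q + 2) 0)) = _
      rw [uni_one]
    rw [← e]
    exact h
  have hKi : Integrable (fun ψ : Un (q + 2) => w ψ *
      KQ A B (st (q + 2) 0) (uni ψ (st (q + 2) 0))) (haarU (q + 2)) := by
    refine Integrable.of_bound (hwc.measurable.mul hKm).aestronglyMeasurable
      (((q : ℝ) + 3) * (|A| + |B|)) (Filter.Eventually.of_forall fun ψ => ?_)
    rw [Real.norm_eq_abs, abs_mul]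
    exact mul_le_mul (hwb ψ) (hKb ψ) (abs_nonneg _) (by positivity)
  have hw0 : ∫ ψ, w ψ ∂(haarU (q + 2)) = 0 := by
    have h1 := momQ (q := q) 1
    have hi : Integrable (fun ψ : Un (q + 2) => ‖FIbQ_z ψ‖ ^ (2 * 1))
        (haarU (q + 2)) := integrable_of_continuous (FIbQ_cont.norm.pow (2 * 1))
    have e : ∀ ψ : Un (q + 2), w ψ = ((q : ℝ) + 2) * ‖FIbQ_z ψ‖ ^ (2 * 1) - 1 := by
      intro ψ
      simp only [hw, mul_one]
    have h1' : ∫ ψ : Un (q + 2), ‖FIbQ_z ψ‖ ^ (2 * 1) ∂(haarU (q + 2)) = cq (q + 2) 1 := h1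
    rw [integral_congr_ae (Filter.Eventually.of_forall e),
      integral_sub (hi.const_mul _) (integrable_const _), integral_const_mul, h1',
      FIbQ_cq_succ q 0]
    have h2 : ((q : ℝ) + 2) ≠ 0 := by positivity
    simp [cq]
    field_simp
    ring
  have hsplit : ∫ ψ, w ψ * (A - KQ A B (st (q + 2) 0) (uni ψ (st (q + 2) 0)))
      ∂(haarU (q + 2)) = A * ∫ ψ, w ψ ∂(haarU (q + 2)) -
        ∫ ψ, w ψ * KQ A B (st (q + 2) 0) (uni ψ (st (q + 2) 0)) ∂(haarU (q + 2)) := by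
    rw [← integral_const_mul, ← integral_sub ((integrable_of_continuous hwc).const_mul A) hKi]
    exact integral_congr_ae (Filter.Eventually.of_forall fun ψ => by
      show w ψ * (A - KQ A B (st (q + 2) 0) (uni ψ (st (q + 2) 0))) =
        A * w ψ - w ψ * KQ A B (st (q + 2) 0) (uni ψ (st (q + 2) 0))
      ring)
  rw [hsplit, hw0, mul_zero, zero_sub] at hneg
  have hfin : 0 < ∫ ψ, w ψ * KQ A B (st (q + 2) 0) (uni ψ (st (q + 2) 0))
    ∂(haarU (q + 2)) := by linarith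
  exact hfin

end Pool.Agent.H89.EN
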