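import Mathlib
import Pool.Agent.H89.CZ.FSamp
import Pool.Agent.H89.EN.FIbQ

set_option autoImplicit false

/-!
# FConfQ: a finite configuration violating the reversed Cauchy–Schwarz inequality

As `H89/CZ/FConf.lean`, with `σ` = exchange of the coordinates `0` and `1` of `ℂ^(q+2)`
(a permutation matrix in `U(q+2)`); it permutes the basis `bb (q+2)`; `KQ` is `σ`-invariant,
`dlQ (σ u) = - dlQ u`.  Points: `bb (q+2) l` (weight `lam = 1`, `u = 0`), `pt φ_j`, `σ (pt φ_j)`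
(`lam = 1`, `u = dlQ`).
-/

open MeasureTheory Pool.Agent.H61.UProj Pool.Agent.H89.CZ Pool.Agent.H35.NI

noncomputable section

namespace Pool.Agent.H89.EN

/-! ### The exchange of the first two coordinates -/

private def FConfQ_s (q : ℕ) : Un (q + 2) :=
  ⟨(Equiv.swap (0 : Fin (q + 2)) 1).permMatrix ℂ, by
    rw [Matrix.mem_unitaryGroup_iff, Matrix.star_eq_conjTranspose,
      Matrix.conjTranspose_permMatrix, Equiv.swap_inv, ← Matrix.permMatrix_mul, Equiv.swap_mul_self,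
      Matrix.permMatrix_one]⟩

private theorem FConfQ_s_apply {q : ℕ} (u : Cn (q + 2)) (j : Fin (q + 2)) :
    uni (FConfQ_s q) u j = u (Equiv.swap 0 1 j) := by
  rw [uni_apply]
  change ∑ l, ((Equiv.swap (0 : Fin (q + 2)) 1).permMatrix ℂ) j l * u l = _
  rw [Finset.sum_eq_single (Equiv.swap (0 : Fin (q + 2)) 1 j)]
  · simp [Equiv.Perm.permMatrix, PEquiv.toMatrix_apply]
  · intro b _ hb
    rw [Equiv.Perm.permMatrix, PEquiv.toMatrix_apply, if_neg, zero_mul]
    simp only [Equiv.toPEquiv_apply, Option.mem_def, Option.some.injEq]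
    exact fun h => hb h.symm
  · intro h
    exact absurd (Finset.mem_univ _) h

private theorem FConfQ_ss {q : ℕ} (u : Cn (q + 2)) :
    uni (FConfQ_s q) (uni (FConfQ_s q) u) = u := by
  ext j
  rw [FConfQ_s_apply, FConfQ_s_apply, Equiv.swap_apply_self]

private theorem FConfQ_area {q : ℕ} (φ : Un q) (u v : Cn q) :
    area (uni φ u) (uni φ v) = area u v := by
  unfold area
  rw [LinearIsometry.norm_map, LinearIsometry.norm_map, LinearIsometry.inner_map_map]

private theorem FConfQ_KQ {q : ℕ} (A B : ℝ) (φ : Un q) (u v : Cn q) :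
    KQ A B (uni φ u) (uni φ v) = KQ A B u v := by
  unfold KQ
  rw [FConfQ_area, om_uni]

private theorem FConfQ_KQ' {q : ℕ} (A B : ℝ) (u v : Cn (q + 2)) :
    KQ A B (uni (FConfQ_s q) u) v = KQ A B u (uni (FConfQ_s q) v) := by
  conv_lhs => rw [← FConfQ_ss v]
  rw [FConfQ_KQ]

private theorem FConfQ_dl_s {q : ℕ} (u : Cn (q + 2)) : dlQ (uni (FConfQ_s q) u) = - dlQ u := by
  unfold dlQ
  rw [FConfQ_s_apply, FConfQ_s_apply, Equiv.swap_apply_left, Equiv.swap_apply_right]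
  ring

/-! ### The basis is permuted -/

private def FConfQ_bv (p t : ℕ) : Cn p :=
  if t % 2 = 0 then st p (t / 2) else Complex.I • st p (t / 2)

private def FConfQ_pn (t : ℕ) : ℕ := if t < 2 then t + 2 else if t < 4 then t - 2 else t

private theorem FConfQ_pn_pn (t : ℕ) : FConfQ_pn (FConfQ_pn t) = t := by
  unfold FConfQ_pn
  split_ifs <;> omega

private theorem FConfQ_pn_lt {q t : ℕ} (h : t < 2 * (q + 2)) : FConfQ_pn t < 2 * (q + 2) := by
  unfold FConfQ_pn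
  split_ifs <;> omega

private def FConfQ_perm (q : ℕ) : Equiv.Perm (Fin (2 * (q + 2))) where
  toFun a := ⟨FConfQ_pn a, FConfQ_pn_lt a.2⟩
  invFun a := ⟨FConfQ_pn a, FConfQ_pn_lt a.2⟩
  left_inv a := Fin.ext (FConfQ_pn_pn a)
  right_inv a := Fin.ext (FConfQ_pn_pn a)

private theorem FConfQ_bb (m : ℕ) (a : Fin (2 * m)) : bb m a = FConfQ_bv m a := by
  unfold bb vf FConfQ_bv
  rw [if_pos a.2]

private theorem FConfQ_st0 (q : ℕ) : uni (FConfQ_s q) (st (q + 2) 0) = st (q + 2) 1 := by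
  ext j
  rw [FConfQ_s_apply, st_apply, st_apply]
  by_cases h0 : j = 0
  · subst h0
    simp
  by_cases h1 : j = 1
  · subst h1
    simp
  · rw [Equiv.swap_apply_of_ne_of_ne h0 h1, if_neg, if_neg]
    · intro h
      exact h1 (Fin.ext (by simpa using h))
    · intro h
      exact h0 (Fin.ext (by simpa using h))

private theorem FConfQ_st1 (q : ℕ) : uni (FConfQ_s q) (st (q + 2) 1) = st (q + 2) 0 := by
  rw [← FConfQ_st0, FConfQ_ss]

private theorem FConfQ_st2 (q t : ℕ) (ht : 2 ≤ t) :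
    uni (FConfQ_s q) (st (q + 2) t) = st (q + 2) t := by
  ext j
  rw [FConfQ_s_apply, st_apply, st_apply]
  by_cases h0 : j = 0
  · subst h0
    have h1 : ((1 : Fin (q + 2)) : ℕ) = 1 := by simp
    rw [Equiv.swap_apply_left, if_neg, if_neg]
    · simp; omega
    · rw [h1]; omega
  by_cases h1 : j = 1
  · subst h1
    have h1 : ((1 : Fin (q + 2)) : ℕ) = 1 := by simp
    rw [Equiv.swap_apply_right, if_neg, if_neg]
    · rw [h1]; omega
    · simp; omega
  · rw [Equiv.swap_apply_of_ne_of_ne h0 h1]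

private theorem FConfQ_s_bv (q t : ℕ) :
    uni (FConfQ_s q) (FConfQ_bv (q + 2) t) = FConfQ_bv (q + 2) (FConfQ_pn t) := by
  rcases Nat.lt_or_ge t 4 with h | h
  · interval_cases t
    · simp [FConfQ_bv, FConfQ_pn, FConfQ_st0]
    · simp [FConfQ_bv, FConfQ_pn, uni_csmul, FConfQ_st0]
    · simp [FConfQ_bv, FConfQ_pn, FConfQ_st1]
    · simp [FConfQ_bv, FConfQ_pn, uni_csmul, FConfQ_st1]
  · have h1 : FConfQ_pn t = t := by
      unfold FConfQ_pn
      rw [if_neg (by omega), if_neg (by omega)]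
    rw [h1]
    unfold FConfQ_bv
    split_ifs
    · exact FConfQ_st2 q _ (by omega)
    · rw [uni_csmul, FConfQ_st2 q _ (by omega)]

private theorem FConfQ_s_bb (q : ℕ) (a : Fin (2 * (q + 2))) :
    uni (FConfQ_s q) (bb (q + 2) a) = bb (q + 2) (FConfQ_perm q a) := by
  rw [FConfQ_bb, FConfQ_bb, FConfQ_s_bv]
  rfl

/-! ### The symmetrized kernel -/

private theorem FConfQ_st_norm (q : ℕ) : ‖st (q + 2) 0‖ = 1 := by
  have h := cinner_st (q + 2) 0 0 (by omega)
  rw [if_pos rfl] at h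
  have h2 : ‖st (q + 2) 0‖ ^ 2 = 1 := by
    rw [← real_inner_self_eq_norm_sq, rinner_eq, h]
    simp
  have h3 := norm_nonneg (st (q + 2) 0)
  nlinarith

private theorem FConfQ_dl_le {q : ℕ} (φ : Un (q + 2)) : |dlQ (uni φ (st (q + 2) 0))| ≤ 1 := by
  set v := uni φ (st (q + 2) 0) with hv
  have h1 : ‖v‖ ^ 2 = 1 := by
    rw [hv, LinearIsometry.norm_map, FConfQ_st_norm]
    norm_num
  rw [EuclideanSpace.norm_sq_eq, Fin.sum_univ_succ, Fin.sum_univ_succ] at h1
  have h2 : 0 ≤ ∑ i : Fin q, ‖v i.succ.succ‖ ^ 2 := Finset.sum_nonneg fun i _ => sq_nonneg _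
  have h3 : ‖v (Fin.succ 0)‖ ^ 2 = ‖v 1‖ ^ 2 := rfl
  have h4 := sq_nonneg ‖v 0‖
  have h5 := sq_nonneg ‖v 1‖
  unfold dlQ
  rw [abs_le]
  constructor <;> linarith

private theorem FConfQ_dl_cont (q : ℕ) :
    Continuous (fun φ : Un (q + 2) => dlQ (uni φ (st (q + 2) 0))) := by
  have h := continuous_uni (st (q + 2) 0)
  unfold dlQ
  fun_prop

private theorem FConfQ_meas (q : ℕ) (A B : ℝ) : Measurable (fun x : Un (q + 2) × Un (q + 2) =>
    dlQ (uni x.1 (st (q + 2) 0)) * dlQ (uni x.2 (st (q + 2) 0)) *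
      KQ A B (uni x.1 (st (q + 2) 0)) (uni x.2 (st (q + 2) 0))) :=
  (((FConfQ_dl_cont q).measurable.comp measurable_fst).mul
    ((FConfQ_dl_cont q).measurable.comp measurable_snd)).mul (measurable_KQ_pt q A B)

private theorem FConfQ_bound {q : ℕ} (A B : ℝ) (φ ψ : Un (q + 2)) :
    |dlQ (uni φ (st (q + 2) 0)) * dlQ (uni ψ (st (q + 2) 0)) *
      KQ A B (uni φ (st (q + 2) 0)) (uni ψ (st (q + 2) 0))| ≤ |A| + |B| := by
  rw [abs_mul, abs_mul]
  have h1 := FConfQ_dl_le φ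
  have h2 := FConfQ_dl_le ψ
  have h3 := KQ_pt_le q A B φ ψ
  have h4 : |dlQ (uni φ (st (q + 2) 0))| * |dlQ (uni ψ (st (q + 2) 0))| ≤ 1 :=
    mul_le_one₀ h1 (abs_nonneg _) h2
  calc _ ≤ 1 * |KQ A B (uni φ (st (q + 2) 0)) (uni ψ (st (q + 2) 0))| :=
        mul_le_mul_of_nonneg_right h4 (abs_nonneg _)
    _ ≤ _ := by rw [one_mul]; exact h3

/-- the symmetrized kernel -/
private def FConfQ_G (q : ℕ) (A B : ℝ) (φ ψ : Un (q + 2)) : ℝ :=
  dlQ (uni φ (st (q + 2) 0)) * dlQ (uni ψ (st (q + 2) 0)) *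
    (KQ A B (uni φ (st (q + 2) 0)) (uni ψ (st (q + 2) 0)) -
      KQ A B (uni φ (st (q + 2) 0)) (uni (FConfQ_s q) (uni ψ (st (q + 2) 0))))

private theorem FConfQ_G_eq (q : ℕ) (A B : ℝ) (φ ψ : Un (q + 2)) : FConfQ_G q A B φ ψ =
    dlQ (uni φ (st (q + 2) 0)) * dlQ (uni ψ (st (q + 2) 0)) *
      KQ A B (uni φ (st (q + 2) 0)) (uni ψ (st (q + 2) 0)) +
    dlQ (uni φ (st (q + 2) 0)) * dlQ (uni (FConfQ_s q * ψ) (st (q + 2) 0)) *
      KQ A B (uni φ (st (q + 2) 0)) (uni (FConfQ_s q * ψ) (st (q + 2) 0)) := by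
  unfold FConfQ_G
  rw [uni_mul, FConfQ_dl_s]
  ring

/-- the product kernel -/
private def FConfQ_F (q : ℕ) (A B : ℝ) (φ ψ : Un (q + 2)) : ℝ :=
  dlQ (uni φ (st (q + 2) 0)) * dlQ (uni ψ (st (q + 2) 0)) *
    KQ A B (uni φ (st (q + 2) 0)) (uni ψ (st (q + 2) 0))


private theorem FConfQ_F_meas0 (q : ℕ) (A B : ℝ) :
    Measurable (Function.uncurry (FConfQ_F q A B)) := by
  have h := FConfQ_meas q A B
  have e : Function.uncurry (FConfQ_F q A B) = fun x : Un (q + 2) × Un (q + 2) =>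
      dlQ (uni x.1 (st (q + 2) 0)) * dlQ (uni x.2 (st (q + 2) 0)) *
        KQ A B (uni x.1 (st (q + 2) 0)) (uni x.2 (st (q + 2) 0)) := by
    funext x
    rfl
  rw [e]
  exact h


private theorem FConfQ_F_meas (q : ℕ) (A B : ℝ) (φ : Un (q + 2)) :
    Measurable (FConfQ_F q A B φ) :=
  (FConfQ_F_meas0 q A B).of_uncurry_left

private theorem FConfQ_F_bound {q : ℕ} (A B : ℝ) (φ ψ : Un (q + 2)) :
    ‖FConfQ_F q A B φ ψ‖ ≤ |A| + |B| := FConfQ_bound A B φ ψ

private theorem FConfQ_G_eqF (q : ℕ) (A B : ℝ) (φ ψ : Un (q + 2)) : FConfQ_G q A B φ ψ =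
    FConfQ_F q A B φ ψ + FConfQ_F q A B φ (FConfQ_s q * ψ) := FConfQ_G_eq q A B φ ψ

private theorem FConfQ_int1 (q : ℕ) (A B : ℝ) (φ : Un (q + 2)) :
    ∫ ψ, FConfQ_G q A B φ ψ ∂(haarU (q + 2)) =
      2 * ∫ ψ, FConfQ_F q A B φ ψ ∂(haarU (q + 2)) := by
  have hm := FConfQ_F_meas q A B φ
  have hi : Integrable (FConfQ_F q A B φ) (haarU (q + 2)) :=
    Integrable.of_bound hm.aestronglyMeasurable (|A| + |B|)
      (Filter.Eventually.of_forall fun ψ => FConfQ_F_bound A B φ ψ)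
  have hm' : Measurable (fun ψ => FConfQ_F q A B φ (FConfQ_s q * ψ)) :=
    hm.comp (measurable_const_mul (FConfQ_s q))
  have hi' : Integrable (fun ψ => FConfQ_F q A B φ (FConfQ_s q * ψ)) (haarU (q + 2)) :=
    Integrable.of_bound hm'.aestronglyMeasurable (|A| + |B|)
      (Filter.Eventually.of_forall fun ψ => FConfQ_F_bound A B φ (FConfQ_s q * ψ))
  have h2 : (fun ψ => FConfQ_G q A B φ ψ) = fun ψ =>
      FConfQ_F q A B φ ψ + FConfQ_F q A B φ (FConfQ_s q * ψ) :=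
    funext fun ψ => FConfQ_G_eqF q A B φ ψ
  rw [h2, integral_add hi hi', integral_mulLeft (FConfQ_F q A B φ) (FConfQ_s q)]
  ring

private theorem FConfQ_int (q : ℕ) {A B : ℝ} (h : (2 * ((q : ℝ) + 2) + 1) * A <
    (4 * ((q : ℝ) + 2) + 1) * B) :
    0 < ∫ φ, ∫ ψ, FConfQ_G q A B φ ψ ∂(haarU (q + 2)) ∂(haarU (q + 2)) := by
  have h3 := int_reducedQ_pos q h
  obtain ⟨κ, hκ, hr⟩ := int_reduceQ q
  have h4 : ∫ φ, ∫ ψ, FConfQ_F q A B φ ψ ∂(haarU (q + 2)) ∂(haarU (q + 2)) =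
      κ * ∫ ψ : Un (q + 2), (((q : ℝ) + 2) *
        ‖(ψ : Matrix (Fin (q + 2)) (Fin (q + 2)) ℂ) 0 0‖ ^ 2 - 1) *
        KQ A B (st (q + 2) 0) (uni ψ (st (q + 2) 0)) ∂(haarU (q + 2)) := hr A B
  have h5 : ∫ φ, ∫ ψ, FConfQ_G q A B φ ψ ∂(haarU (q + 2)) ∂(haarU (q + 2)) =
      2 * ∫ φ, ∫ ψ, FConfQ_F q A B φ ψ ∂(haarU (q + 2)) ∂(haarU (q + 2)) := by
    rw [← integral_const_mul]
    exact integral_congr_ae (Filter.Eventually.of_forall fun φ => FConfQ_int1 q A B φ)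
  rw [h5, h4]
  exact mul_pos two_pos (mul_pos hκ h3)

theorem exists_confQ (q : ℕ) {A B : ℝ} (h : (2 * ((q : ℝ) + 2) + 1) * A <
    (4 * ((q : ℝ) + 2) + 1) * B) :
    ∃ (N : ℕ) (x : Fin (2 * (q + 2)) ⊕ Fin N → Cn (q + 2))
      (lam u : Fin (2 * (q + 2)) ⊕ Fin N → ℝ),
      (∀ l, x (Sum.inl l) = bb (q + 2) l) ∧ (∀ j, 0 < lam j) ∧
      ∑ j, ∑ l, lam j * u l * KQ A B (x j) (x l) = 0 ∧
      0 < ∑ j, ∑ l, u j * u l * KQ A B (x j) (x l) := by
  have hmeas : Measurable (fun x : Un (q + 2) × Un (q + 2) => FConfQ_G q A B x.1 x.2) := by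
    have h1 : Measurable (fun x : Un (q + 2) × Un (q + 2) =>
        ((x.1, FConfQ_s q * x.2) : Un (q + 2) × Un (q + 2))) :=
      measurable_fst.prodMk ((measurable_const_mul (FConfQ_s q)).comp measurable_snd)
    have h2 := (FConfQ_meas q A B).add ((FConfQ_meas q A B).comp h1)
    have h3 : (fun x : Un (q + 2) × Un (q + 2) => FConfQ_G q A B x.1 x.2) = _ :=
      funext fun x => FConfQ_G_eq q A B x.1 x.2
    rw [h3]
    exact h2
  have hbd : ∀ φ ψ, |FConfQ_G q A B φ ψ| ≤ 2 * (|A| + |B|) := by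
    intro φ ψ
    rw [FConfQ_G_eq]
    refine (abs_add_le _ _).trans ?_
    have h1 := FConfQ_bound A B φ ψ
    have h2 := FConfQ_bound A B φ (FConfQ_s q * ψ)
    linarith
  obtain ⟨N, φ, hφ⟩ := sampling (haarU (q + 2)) (FConfQ_G q A B) hmeas _ hbd (FConfQ_int q h)
  -- the configuration
  obtain ⟨y, hy⟩ : ∃ y : Fin N → Cn (q + 2), y = fun j => uni (φ j) (st (q + 2) 0) := ⟨_, rfl⟩
  obtain ⟨sg, hsg⟩ : ∃ sg : Cn (q + 2) → Cn (q + 2), sg = fun u => uni (FConfQ_s q) u := ⟨_, rfl⟩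
  have sg1 : ∀ u v, KQ A B (sg u) (sg v) = KQ A B u v := fun u v => by
    rw [hsg]; exact FConfQ_KQ A B _ u v
  have sg2 : ∀ u v, KQ A B (sg u) v = KQ A B u (sg v) := fun u v => by
    rw [hsg]; exact FConfQ_KQ' A B u v
  refine ⟨N + N, Sum.elim (bb (q + 2)) (Fin.append y fun j => sg (y j)), fun _ => 1,
    Sum.elim (fun _ => 0) (Fin.append (fun j => dlQ (y j)) fun j => - dlQ (y j)), fun l => rfl,
    fun _ => one_pos, ?_, ?_⟩
  · -- the total kernel is symmetric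
    have hK : ∀ v : Cn (q + 2),
        ∑ j, KQ A B (Sum.elim (bb (q + 2)) (Fin.append y fun j => sg (y j)) j) (sg v) =
        ∑ j, KQ A B (Sum.elim (bb (q + 2)) (Fin.append y fun j => sg (y j)) j) v := by
      intro v
      rw [Fintype.sum_sum_type, Fintype.sum_sum_type]
      simp only [Sum.elim_inl, Sum.elim_inr, Fin.sum_univ_add, Fin.append_left, Fin.append_right,
        sg1]
      have e1 : ∑ a, KQ A B (bb (q + 2) a) (sg v) = ∑ a, KQ A B (bb (q + 2) a) v := by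
        rw [← Equiv.sum_comp (FConfQ_perm q) (fun a => KQ A B (bb (q + 2) a) v)]
        refine Finset.sum_congr rfl fun a _ => ?_
        rw [← FConfQ_s_bb, ← sg2, hsg]
      have e5 : ∀ j, KQ A B (sg (y j)) v = KQ A B (y j) (sg v) := fun j => sg2 _ _
      rw [e1]
      simp only [e5]
      ring
    rw [Finset.sum_comm]
    have h1 : ∀ l, ∑ j, (fun _ => (1 : ℝ)) j *
        Sum.elim (fun _ => 0) (Fin.append (fun j => dlQ (y j)) fun j => - dlQ (y j)) l *
        KQ A B (Sum.elim (bb (q + 2)) (Fin.append y fun j => sg (y j)) j)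
          (Sum.elim (bb (q + 2)) (Fin.append y fun j => sg (y j)) l) =
        Sum.elim (fun _ => 0) (Fin.append (fun j => dlQ (y j)) fun j => - dlQ (y j)) l *
        ∑ j, KQ A B (Sum.elim (bb (q + 2)) (Fin.append y fun j => sg (y j)) j)
          (Sum.elim (bb (q + 2)) (Fin.append y fun j => sg (y j)) l) := by
      intro l
      rw [Finset.mul_sum]
      refine Finset.sum_congr rfl fun j _ => ?_
      simp only [one_mul]
    rw [Finset.sum_congr rfl fun l _ => h1 l, Fintype.sum_sum_type, Fin.sum_univ_add]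
    simp only [Sum.elim_inl, Sum.elim_inr, Fin.append_left, Fin.append_right, zero_mul,
      Finset.sum_const_zero, zero_add, hK]
    rw [← Finset.sum_add_distrib]
    refine Finset.sum_eq_zero fun j _ => ?_
    ring
  · have h1 : ∑ j, ∑ l, Sum.elim (fun _ => 0) (Fin.append (fun j => dlQ (y j))
          fun j => - dlQ (y j)) j *
        Sum.elim (fun _ => 0) (Fin.append (fun j => dlQ (y j)) fun j => - dlQ (y j)) l *
        KQ A B (Sum.elim (bb (q + 2)) (Fin.append y fun j => sg (y j)) j)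
          (Sum.elim (bb (q + 2)) (Fin.append y fun j => sg (y j)) l) =
        2 * ∑ j, ∑ l, FConfQ_G q A B (φ j) (φ l) := by
      simp only [Fintype.sum_sum_type, Sum.elim_inl, Sum.elim_inr, zero_mul, mul_zero,
        Finset.sum_const_zero, zero_add, Fin.sum_univ_add, Fin.append_left, Fin.append_right]
      rw [← Finset.sum_add_distrib, Finset.mul_sum]
      refine Finset.sum_congr rfl fun j _ => ?_
      rw [← Finset.sum_add_distrib, ← Finset.sum_add_distrib, ← Finset.sum_add_distrib,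
        Finset.mul_sum]
      refine Finset.sum_congr rfl fun l _ => ?_
      rw [sg1, sg2]
      unfold FConfQ_G
      rw [hy, hsg]
      ring
    rw [h1]
    positivity

end Pool.Agent.H89.EN
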