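import Mathlib
import Pool.Agent.H35.NI.VEI
import Pool.Agent.H89.CZ.FLead
import Pool.Agent.H89.CZ.ZEl
import Pool.Agent.H89.CZ.ZAdd
import Pool.Agent.H89.EN.FConfQ
import Pool.Agent.H89.EN.KForm

set_option autoImplicit false

/-!
# FBodyQ: zonotopes violating the Brunn–Minkowski inequality

As `H89/CZ/FBody.lean`: `g w = gg e w` with `e k = J (single k 1)`: symmetric, alternating (zero when
two entries agree) and homogeneous (`|det|`; see how `H35/NI/BMI.lean` or `H35/T3/BM3.lean` obtain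
these for `PZ`), `VE_zonI` for the volume functional.  Let `(x, lam, u)` be the configuration of
`exists_confQ`, `N' = 2q + N` points, `emb = io s`, `W = cf (s+q) s` (`2s` vectors).
`A_R(τ) = append (R W) ((lam + τ u) io x)`, `τ ∈ {t, -t, 0}`, `R` large: `lead` (with `k = 2s`),
`PZ_two`, hypothesis `hK` and homogeneity of `KQ`:
`PZ (2s+2) g (A_R(τ)) / R^(2s) → (1/2) Q(lam + τ u)`, `Q(μ) = ∑ μ_j μ_l KQ A B x_j x_l`,
`Q(lam ± t u) = Q(lam) + t² Q(u) > Q(lam)`.
Interior: the `2s + 2q = 2(s+q)` vectors `R W_b`, `(lam_l ± t u_l) io (bb q l)` are linearly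
independent (orthogonal); `interior_zon`.
-/

open MeasureTheory Pool.Agent.H61.UProj Pool.Agent.H89.CZ Pool.Agent.H35.NI
open scoped ENNReal Pointwise

noncomputable section

namespace Pool.Agent.H89.EN

/-! ### The functional `gg e` -/

private theorem FBQ_perm {n i : ℕ} (e : Fin i → Cn n) (σ : Equiv.Perm (Fin i))
    (w : Fin i → Cn n) : gg e (w ∘ σ) = gg e w := by
  unfold gg
  refine integral_congr_ae (Filter.Eventually.of_forall fun φ => ?_)
  simp only []
  have h1 : DD (fun a => uni φ (e a)) (w ∘ σ) =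
      ((Equiv.Perm.sign σ : ℤ) : ℝ) * DD (fun a => uni φ (e a)) w := by
    unfold DD
    rw [← Matrix.det_permute']
    rfl
  rw [h1, abs_mul]
  have h2 : |((Equiv.Perm.sign σ : ℤ) : ℝ)| = 1 := by
    rcases Int.units_eq_one_or (Equiv.Perm.sign σ) with h | h
    · rw [h]; simp
    · rw [h]; simp
  rw [h2, one_mul]

private theorem FBQ_eq_zero {n i : ℕ} (e w : Fin i → Cn n) (x y : Fin i) (hne : x ≠ y)
    (h : w x = w y) : gg e w = 0 := by
  unfold gg
  have h0 : ∀ φ : Un n, DD (fun a => uni φ (e a)) w = 0 := by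
    intro φ
    unfold DD
    refine Matrix.det_zero_of_column_eq hne fun k => ?_
    simp only [Matrix.of_apply]
    rw [h]
  simp [h0]

private theorem FBQ_smul {n i : ℕ} (e : Fin i → Cn n) (t : Fin i → ℝ) (w : Fin i → Cn n) :
    gg e (fun l => t l • w l) = (∏ l, |t l|) * gg e w := by
  rw [gg_symm e, gg_symm e, gg_comb (e := fun l => t l • w l) (e' := w)
    (R := Matrix.diagonal t), Matrix.det_diagonal, Finset.abs_prod]
  intro a
  rw [Finset.sum_eq_single a]
  · rw [Matrix.diagonal_apply_eq]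
  · intro b _ hb
    rw [Matrix.diagonal_apply_ne _ hb.symm, zero_smul]
  · intro h
    exact absurd (Finset.mem_univ a) h

/-! ### The kernel -/

private theorem FBQ_area_symm {q : ℕ} (u v : Cn q) : area v u = area u v := by
  unfold area
  rw [real_inner_comm, mul_comm]

private theorem FBQ_ker_symm {q : ℕ} (A B : ℝ) (u v : Cn q) : KQ A B u v = KQ A B v u := by
  unfold KQ
  rw [om_symm v u, FBQ_area_symm u v]
  simp

private theorem FBQ_om_smul {q : ℕ} (s t : ℝ) (u v : Cn q) :
    om (s • u) (t • v) = s * t * om u v := by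
  unfold om
  rw [← Complex.coe_smul s u, ← Complex.coe_smul t v, inner_smul_left, inner_smul_right,
    Complex.conj_ofReal, ← mul_assoc, ← Complex.ofReal_mul, Complex.im_ofReal_mul]

private theorem FBQ_area_smul {q : ℕ} {s t : ℝ} (hs : 0 ≤ s) (ht : 0 ≤ t) (u v : Cn q) :
    area (s • u) (t • v) = s * t * area u v := by
  unfold area
  rw [norm_smul, norm_smul, real_inner_smul_left, real_inner_smul_right, Real.norm_eq_abs,
    Real.norm_eq_abs, abs_of_nonneg hs, abs_of_nonneg ht]
  have : (s * ‖u‖) ^ 2 * (t * ‖v‖) ^ 2 - (s * (t * inner ℝ u v)) ^ 2 =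
      (s * t) ^ 2 * (‖u‖ ^ 2 * ‖v‖ ^ 2 - (inner ℝ u v) ^ 2) := by ring
  rw [this, Real.sqrt_mul (sq_nonneg _), Real.sqrt_sq (mul_nonneg hs ht)]

private theorem FBQ_ker_smul {q : ℕ} (A B : ℝ) {s t : ℝ} (hs : 0 ≤ s) (ht : 0 ≤ t)
    (u v : Cn q) : KQ A B (s • u) (t • v) = s * t * KQ A B u v := by
  unfold KQ
  rw [FBQ_om_smul, FBQ_area_smul hs ht]
  by_cases h : s * t = 0
  · simp [h]
  · by_cases h' : area u v = 0
    · simp [h']
    · field_simp

/-! ### Orthogonality and interior points -/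

private theorem FBQ_inner_cf (s q : ℕ) (b : Fin (2 * s)) (u : Cn q) :
    (inner ℝ (cf (s + q) s b) (io s u) : ℝ) = 0 := by
  have hb : (b : ℕ) < 2 * s := b.2
  have hb2 : (b : ℕ) / 2 < s := by omega
  have h1 : (inner ℂ (st (s + q) ((b : ℕ) / 2)) (io s u) : ℂ) = 0 := by
    have h := inner_st_left (s + q) (Fin.castAdd q (⟨(b : ℕ) / 2, hb2⟩ : Fin s)) (io s u)
    rw [io_castAdd] at h
    exact h
  rw [rinner_eq]
  unfold cf vf
  rw [if_pos hb]
  split_ifs
  · rw [h1]; simp
  · rw [inner_smul_left, h1]; simp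

private theorem FBQ_orth_io {s q : ℕ} {ι : Type*} {f : ι → Cn q} (hf : Orthonormal ℝ f) :
    Orthonormal ℝ (fun l => io s (f l)) := by
  classical
  rw [orthonormal_iff_ite] at hf ⊢
  intro i j
  rw [rinner_io]
  exact hf i j

private theorem FBQ_li {n k m N : ℕ} {e : Fin m → Cn n} (he : Orthonormal ℝ e)
    {w : Fin k → Cn n} (hw : Orthonormal ℝ w) (hwe : ∀ j l, inner ℝ (w j) (e l) = 0)
    (R : ℝ) (hR : R ≠ 0) (c : Fin m → ℝ) (hc : ∀ l, c l ≠ 0)
    (hdim : k + m = Module.finrank ℝ (Cn n)) (Z : Fin (m + N) → Cn n)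
    (hZ : ∀ l, Z (Fin.castAdd N l) = c l • e l) :
    (interior (zon (Fin.append (fun j => R • w j) Z))).Nonempty := by
  have hle : k + m ≤ k + (m + N) := by omega
  refine interior_zon (Fin.append (fun j => R • w j) (fun l => c l • e l)) ?_ hdim _
    (Fin.castLE hle) (Fin.castLE_injective hle) ?_
  · apply linearIndependent_of_ne_zero_of_inner_eq_zero (𝕜 := ℝ)
    · intro i
      refine Fin.addCases (fun j => ?_) (fun l => ?_) i
      · rw [Fin.append_left]
        exact smul_ne_zero hR (hw.ne_zero j)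
      · rw [Fin.append_right]
        exact smul_ne_zero (hc l) (he.ne_zero l)
    · intro i i' hii
      revert hii
      refine Fin.addCases (fun j => ?_) (fun l => ?_) i
      · refine Fin.addCases (fun j' => ?_) (fun l' => ?_) i'
        · intro hii
          have hjj : j ≠ j' := fun h => hii (by rw [h])
          rw [Fin.append_left, Fin.append_left, real_inner_smul_left, real_inner_smul_right,
            hw.2 hjj]
          simp
        · intro _
          rw [Fin.append_left, Fin.append_right, real_inner_smul_left, real_inner_smul_right,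
            hwe]
          simp
      · refine Fin.addCases (fun j' => ?_) (fun l' => ?_) i'
        · intro _
          rw [Fin.append_left, Fin.append_right, real_inner_smul_left, real_inner_smul_right,
            real_inner_comm, hwe]
          simp
        · intro hii
          have hll : l ≠ l' := fun h => hii (by rw [h])
          rw [Fin.append_right, Fin.append_right, real_inner_smul_left, real_inner_smul_right,
            he.2 hll]
          simp
  · intro i
    refine Fin.addCases (fun j => ?_) (fun l => ?_) i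
    · have h1 : Fin.castLE hle (Fin.castAdd m j) = Fin.castAdd (m + N) j := rfl
      rw [h1, Fin.append_left, Fin.append_left]
    · have h1 : Fin.castLE hle (Fin.natAdd k l) = Fin.natAdd k (Fin.castAdd N l) := rfl
      rw [h1, Fin.append_right, Fin.append_right, hZ]

/-! ### The quadratic form -/

private theorem FBQ_eps {ι : Type*} [Fintype ι] (lam u : ι → ℝ) (hlam : ∀ j, 0 < lam j) :
    ∃ t : ℝ, 0 < t ∧ (∀ j, 0 < lam j + t * u j) ∧ ∀ j, 0 < lam j + -t * u j := by
  have h1 : ∀ j, ∀ᶠ t in nhds (0 : ℝ), 0 < lam j + t * u j ∧ 0 < lam j + -t * u j := by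
    intro j
    have c1 : Filter.Tendsto (fun t : ℝ => lam j + t * u j) (nhds 0) (nhds (lam j + 0 * u j)) :=
      (Continuous.tendsto (by fun_prop) 0)
    have c2 : Filter.Tendsto (fun t : ℝ => lam j + -t * u j) (nhds 0)
        (nhds (lam j + -0 * u j)) := (Continuous.tendsto (by fun_prop) 0)
    refine (c1.eventually (lt_mem_nhds ?_)).and (c2.eventually (lt_mem_nhds ?_))
    · simpa using hlam j
    · simpa using hlam j
  have h2 : ∀ᶠ t in nhds (0 : ℝ), ∀ j, 0 < lam j + t * u j ∧ 0 < lam j + -t * u j :=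
    Filter.eventually_all.2 h1
  have h3 : ∀ᶠ t in nhdsWithin (0 : ℝ) (Set.Ioi 0),
      (∀ j, 0 < lam j + t * u j ∧ 0 < lam j + -t * u j) ∧ t ∈ Set.Ioi (0 : ℝ) :=
    (h2.filter_mono nhdsWithin_le_nhds).and self_mem_nhdsWithin
  obtain ⟨t, ht, ht0⟩ := h3.exists
  exact ⟨t, ht0, fun j => (ht j).1, fun j => (ht j).2⟩

private theorem FBQ_quad {ι : Type*} [Fintype ι] (K : ι → ι → ℝ) (hK : ∀ j l, K j l = K l j)
    (lam u : ι → ℝ) (h0 : ∑ j, ∑ l, lam j * u l * K j l = 0) (s : ℝ) :
    ∑ j, ∑ l, (lam j + s * u j) * (lam l + s * u l) * K j l =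
      ∑ j, ∑ l, lam j * lam l * K j l + s ^ 2 * ∑ j, ∑ l, u j * u l * K j l := by
  have h1 : ∑ j, ∑ l, u j * lam l * K j l = 0 := by
    rw [Finset.sum_comm, ← h0]
    refine Finset.sum_congr rfl fun j _ => Finset.sum_congr rfl fun l _ => ?_
    rw [hK]; ring
  have h2 : ∑ j, ∑ l, (lam j + s * u j) * (lam l + s * u l) * K j l =
      ∑ j, ∑ l, lam j * lam l * K j l + s * ∑ j, ∑ l, lam j * u l * K j l +
        s * ∑ j, ∑ l, u j * lam l * K j l + s ^ 2 * ∑ j, ∑ l, u j * u l * K j l := by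
    simp only [Finset.mul_sum, ← Finset.sum_add_distrib]
    refine Finset.sum_congr rfl fun j _ => Finset.sum_congr rfl fun l _ => ?_
    ring
  rw [h2, h0, h1]; ring

theorem exists_failQ {s q : ℕ} {A B : ℝ} (h : (2 * ((q : ℝ) + 2) + 1) * A <
    (4 * ((q : ℝ) + 2) + 1) * B) (J : Rn (2 * s + 2) →ₗᵢ[ℝ] Cn (s + (q + 2)))
    (hK : ∀ u v : Cn (q + 2), gg (fun k => J (EuclideanSpace.single k 1))
      (Fin.append (cf (s + (q + 2)) s) ![io s u, io s v]) = KQ A B u v) :
    ∃ (N : ℕ) (v v' : Fin N → Cn (s + (q + 2))), (interior (zon v)).Nonempty ∧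
      (interior (zon v')).Nonempty ∧
      (VE (LinearMap.range J.toLinearMap) (zon v + zon v')) ^ (1 / (2 * (s : ℝ) + 2)) <
        (VE (LinearMap.range J.toLinearMap) (zon v)) ^ (1 / (2 * (s : ℝ) + 2)) +
          (VE (LinearMap.range J.toLinearMap) (zon v')) ^ (1 / (2 * (s : ℝ) + 2)) := by
  have hdim : 2 * s + 2 * (q + 2) = Module.finrank ℝ (Cn (s + (q + 2))) := by
    rw [finrank_real_of_complex, finrank_euclideanSpace_fin]
    ring
  obtain ⟨N', x, lam', u', hx0, hlam', h0', hpos'⟩ := exists_confQ q h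
  have hw : Orthonormal ℝ (cf (s + (q + 2)) s) := orthonormal_cf (by omega)
  have he : Orthonormal ℝ (fun l => io s (bb (q + 2) l)) :=
    FBQ_orth_io (orthonormal_cf (n := q + 2) (r := q + 2) le_rfl)
  have hwe : ∀ j l, (inner ℝ (cf (s + (q + 2)) s j) (io s (bb (q + 2) l)) : ℝ) = 0 :=
    fun j l => FBQ_inner_cf s (q + 2) j _
  -- transport to Fin (2 (q+2) + N')
  let X : Fin (2 * (q + 2) + N') → Cn (q + 2) := fun j => x (finSumFinEquiv.symm j)
  let lam : Fin (2 * (q + 2) + N') → ℝ := fun j => lam' (finSumFinEquiv.symm j)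
  let u : Fin (2 * (q + 2) + N') → ℝ := fun j => u' (finSumFinEquiv.symm j)
  have hlam : ∀ j, 0 < lam j := fun j => hlam' _
  have h0 : ∑ j, ∑ l, lam j * u l * KQ A B (X j) (X l) = 0 := by
    rw [← h0', ← Equiv.sum_comp finSumFinEquiv.symm]
    refine Finset.sum_congr rfl fun j _ => ?_
    rw [← Equiv.sum_comp finSumFinEquiv.symm]
  have hpos : 0 < ∑ j, ∑ l, u j * u l * KQ A B (X j) (X l) := by
    refine hpos'.trans_eq ?_
    rw [← Equiv.sum_comp finSumFinEquiv.symm]
    refine Finset.sum_congr rfl fun j _ => ?_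
    rw [← Equiv.sum_comp finSumFinEquiv.symm]
  obtain ⟨t, ht, htp, htm⟩ := FBQ_eps lam u hlam
  let Y : Fin (2 * (q + 2) + N') → Cn (s + (q + 2)) := fun j => io s (X j)
  have hY : ∀ l, Y (Fin.castAdd N' l) = io s (bb (q + 2) l) := by
    intro l
    change io s (x (finSumFinEquiv.symm (Fin.castAdd N' l))) = io s (bb (q + 2) l)
    rw [finSumFinEquiv_symm_apply_castAdd, hx0]
  let g : (Fin (2 * s + 2) → Cn (s + (q + 2))) → ℝ := gg (fun k => J (EuclideanSpace.single k 1))
  let W : Fin (2 * s) → Cn (s + (q + 2)) := cf (s + (q + 2)) s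
  let AR : ℝ → ℝ → Fin (2 * s + (2 * (q + 2) + N')) → Cn (s + (q + 2)) := fun R τ =>
    Fin.append (fun j => R • W j) (fun l => (lam l + τ * u l) • Y l)
  let P : ℝ → ℝ → ℝ := fun R τ => PZ (2 * s + 2) g (AR R τ)
  let Q : ℝ → ℝ := fun τ => ∑ j, ∑ l, (lam j + τ * u j) * (lam l + τ * u l) *
    KQ A B (X j) (X l)
  -- the limit
  have hlim : ∀ τ : ℝ, (∀ j, 0 < lam j + τ * u j) →
      Filter.Tendsto (fun R : ℝ => P R τ / R ^ (2 * s)) Filter.atTop (nhds (Q τ / 2)) := by
    intro τ hs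
    have h := lead (2 * s) g (FBQ_perm _)
      (fun w p q hpq h => FBQ_eq_zero _ w p q hpq h) (FBQ_smul _) W
      (fun l => (lam l + τ * u l) • Y l)
    have hval : PZ 2 (fun t : Fin 2 → Cn (s + (q + 2)) => g (Fin.append W t))
        (fun l => (lam l + τ * u l) • Y l) = Q τ / 2 := by
      rw [PZ_two]
      have : ∀ j l, g (Fin.append W ![(lam j + τ * u j) • Y j, (lam l + τ * u l) • Y l]) =
          (lam j + τ * u j) * (lam l + τ * u l) * KQ A B (X j) (X l) := by
        intro j l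
        have e1 : ∀ j, (lam j + τ * u j) • Y j = io s ((lam j + τ * u j) • X j) := by
          intro j
          rw [io_rsmul]
        rw [e1, e1]
        change gg (fun k => J (EuclideanSpace.single k 1)) _ = _
        rw [← FBQ_ker_smul A B (hs j).le (hs l).le]
        exact hK _ _
      simp only [this]
      rfl
    rw [hval] at h
    exact h
  have hQ : ∀ τ : ℝ, Q τ = Q 0 + τ ^ 2 * ∑ j, ∑ l, u j * u l * KQ A B (X j) (X l) := by
    intro τ
    have e1 := FBQ_quad (fun j l => KQ A B (X j) (X l))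
      (fun j l => FBQ_ker_symm A B (X j) (X l)) lam u h0 τ
    have e2 := FBQ_quad (fun j l => KQ A B (X j) (X l))
      (fun j l => FBQ_ker_symm A B (X j) (X l)) lam u h0 0
    change (∑ j, ∑ l, (lam j + τ * u j) * (lam l + τ * u l) * KQ A B (X j) (X l)) =
      (∑ j, ∑ l, (lam j + 0 * u j) * (lam l + 0 * u l) * KQ A B (X j) (X l)) + _
    rw [e1, e2]; ring
  have hgap : ∀ τ : ℝ, τ ≠ 0 → Q 0 / 2 < Q τ / 2 := by
    intro τ hs
    rw [hQ τ]
    have : 0 < τ ^ 2 * ∑ j, ∑ l, u j * u l * KQ A B (X j) (X l) := by positivity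
    linarith
  have hz : ∀ j, 0 < lam j + 0 * u j := fun j => by simpa using hlam j
  have hev : ∀ τ : ℝ, τ ≠ 0 → (∀ j, 0 < lam j + τ * u j) →
      ∀ᶠ R in Filter.atTop, P R 0 < P R τ := by
    intro τ hs hs'
    have h := (hlim 0 hz).eventually_lt (hlim τ hs') (hgap τ hs)
    filter_upwards [h, Filter.eventually_gt_atTop (0 : ℝ)] with R h1 h2
    exact (div_lt_div_iff_of_pos_right (pow_pos h2 (2 * s))).1 h1
  obtain ⟨R, ⟨h1, h2⟩, hR⟩ := (((hev t ht.ne' htp).and (hev (-t) (neg_ne_zero.2 ht.ne') htm)).and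
    (Filter.eventually_gt_atTop (0 : ℝ))).exists
  have hP0 : 0 ≤ P R 0 := PZ_nonneg _ _ (gg_nonneg _) _
  refine ⟨2 * s + (2 * (q + 2) + N'), AR R t, AR R (-t), ?_, ?_, ?_⟩
  · refine FBQ_li he hw hwe R hR.ne' (fun l => lam (Fin.castAdd N' l) +
      t * u (Fin.castAdd N' l)) (fun l => (htp _).ne') hdim _ (fun l => ?_)
    rw [hY]
  · refine FBQ_li he hw hwe R hR.ne' (fun l => lam (Fin.castAdd N' l) +
      -t * u (Fin.castAdd N' l)) (fun l => (htm _).ne') hdim _ (fun l => ?_)
    rw [hY]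
  · -- the sum
    have hsum : zon (AR R t) + zon (AR R (-t)) = zon (fun j => (2 : ℝ) • AR R 0 j) := by
      let C : Fin (2 * s + (2 * (q + 2) + N')) → Cn (s + (q + 2)) :=
        Fin.append (fun j => R • W j) Y
      let V : ℝ → Fin (2 * s + (2 * (q + 2) + N')) → ℝ := fun τ =>
        Fin.append (fun _ => (1 : ℝ)) (fun l => lam l + τ * u l)
      have hA : ∀ τ, AR R τ = fun j => V τ j • C j := by
        intro τ
        funext i
        refine Fin.addCases (fun j => ?_) (fun l => ?_) i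
        · simp only [AR, V, C, Fin.append_left, one_smul]
        · simp only [AR, V, C, Fin.append_right]
      have hV : ∀ τ, (∀ j, 0 < lam j + τ * u j) → ∀ i, 0 ≤ V τ i := by
        intro τ hs i
        refine Fin.addCases (fun j => ?_) (fun l => ?_) i
        · simp only [V, Fin.append_left]; norm_num
        · simp only [V, Fin.append_right]; exact (hs l).le
      rw [hA t, hA (-t), hA 0, zon_add C (V t) (V (-t)) (hV t htp) (hV (-t) htm)]
      congr 1
      funext i
      rw [smul_smul]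
      congr 1
      refine Fin.addCases (fun j => ?_) (fun l => ?_) i
      · simp only [V, Fin.append_left]; norm_num
      · simp only [V, Fin.append_right]; ring
    have hp : (0 : ℝ) < 1 / (2 * (s : ℝ) + 2) := by positivity
    rw [hsum, VE_zonI J, VE_zonI J, VE_zonI J]
    have h3 : PZ (2 * s + 2) (gg fun k => J (EuclideanSpace.single k 1))
        (fun j => (2 : ℝ) • AR R 0 j) = 2 ^ (2 * s + 2) * P R 0 :=
      PZ_smul_const (2 * s + 2) _ (FBQ_smul _) (AR R 0) 2 (by norm_num)
    rw [h3, ENNReal.ofReal_mul (by positivity), ENNReal.mul_rpow_of_nonneg _ _ hp.le]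
    have h4 : (ENNReal.ofReal (2 ^ (2 * s + 2))) ^ (1 / (2 * (s : ℝ) + 2)) = 2 := by
      rw [ENNReal.ofReal_pow (by norm_num), ← ENNReal.rpow_natCast, ← ENNReal.rpow_mul]
      have : ((2 * s + 2 : ℕ) : ℝ) * (1 / (2 * (s : ℝ) + 2)) = 1 := by
        push_cast
        field_simp
      rw [this, ENNReal.rpow_one]
      simp
    rw [h4, two_mul]
    have h5 : (ENNReal.ofReal (P R 0)) ^ (1 / (2 * (s : ℝ) + 2)) <
        (ENNReal.ofReal (P R t)) ^ (1 / (2 * (s : ℝ) + 2)) :=
      ENNReal.rpow_lt_rpow ((ENNReal.ofReal_lt_ofReal_iff (hP0.trans_lt h1)).2 h1) hp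
    have h6 : (ENNReal.ofReal (P R 0)) ^ (1 / (2 * (s : ℝ) + 2)) <
        (ENNReal.ofReal (P R (-t))) ^ (1 / (2 * (s : ℝ) + 2)) :=
      ENNReal.rpow_lt_rpow ((ENNReal.ofReal_lt_ofReal_iff (hP0.trans_lt h2)).2 h2) hp
    exact ENNReal.add_lt_add h5 h6

end Pool.Agent.H89.EN
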