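import Mathlib
import Pool.Agent.H35.NI.Dua
import Pool.Agent.H89.EN.GExp
import Pool.Agent.H61.UProj.Stmt
import Pool.Agent.H89.CZ.SD

set_option autoImplicit false

/-!
# Near: complex subspaces

`TT_complex`: `E` complex, `e` a real orthonormal basis of `E`.  `Ω = (om (e a) (e b))` satisfies
`Ω² = -1`, `Ωᵀ = -Ω`: `om x y = ⟨i x, y⟩_ℝ` up to sign, `i e_a ∈ E = span e`, so
`∑_b om (e a) (e b) om (e b) (e c) = ∓ ⟨i e_a, i e_c⟩ = -δ`.  So with `M = cos + sin Ω`,
`M Mᵀ = cos² + sin² = 1`, `det M ^ 2 = 1`, continuous in `θ`, `det M = 1` at `θ = 0`: `det M = 1`.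

`dim_even`: the real dimension of a complex subspace is even.

`continuous_cond`: the map `f ↦ (r+1)(3n-3r+4) ∫ TT f cos 2θ - r(n-r) ∫ TT f` is continuous on
`Fin (2r) → ℂⁿ` (`TT` is jointly continuous;
`intervalIntegral.continuous_parametric_intervalIntegral_of_continuous'`).

`near_cond`: at `e` the two integrals are `∫_0^π cos 2θ = 0` and `π`.
-/

open MeasureTheory Pool.Agent.H61.UProj Pool.Agent.H89.CZ Pool.Agent.H35.NI

noncomputable section

namespace Pool.Agent.H89.EN

private theorem om_innerN {n : ℕ} (x y : Cn n) : om x y = (inner ℝ (Complex.I • x) y : ℝ) := by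
  rw [real_inner_eq, om, PiLp.inner_apply, Complex.im_sum, Complex.re_sum]
  refine Finset.sum_congr rfl fun j _ => ?_
  rw [RCLike.inner_apply, PiLp.smul_apply, smul_eq_mul, map_mul, Complex.conj_I]
  simp only [Complex.mul_re, Complex.mul_im, Complex.neg_re, Complex.neg_im, Complex.I_re,
    Complex.I_im, Complex.conj_re, Complex.conj_im]
  ring

private theorem inner_IN {n : ℕ} (x y : Cn n) :
    (inner ℝ (Complex.I • x) (Complex.I • y) : ℝ) = inner ℝ x y := by
  rw [real_inner_eq, real_inner_eq]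
  congr 1
  refine Finset.sum_congr rfl fun j _ => ?_
  rw [PiLp.smul_apply, PiLp.smul_apply, smul_eq_mul, smul_eq_mul, map_mul, Complex.conj_I]
  have h := Complex.I_mul_I
  linear_combination (-((starRingEnd ℂ) (x j) * y j)) * h

/-- a vector of the span of an orthonormal family -/
private theorem expandN {n i : ℕ} {e : Fin i → Cn n} (he : Orthonormal ℝ e) {y : Cn n}
    (hy : y ∈ Submodule.span ℝ (Set.range e)) : ∑ b, (inner ℝ (e b) y : ℝ) • e b = y := by
  induction hy using Submodule.span_induction with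
  | mem x hx =>
    obtain ⟨a, rfl⟩ := hx
    simp only [orthonormal_iff_ite.1 he, ite_smul, one_smul, zero_smul]
    simp
  | zero => simp
  | add x y _ _ hx hy =>
    simp only [inner_add_right, add_smul, Finset.sum_add_distrib]
    rw [hx, hy]
  | smul c x _ hx =>
    simp only [inner_smul_right, mul_smul]
    rw [← Finset.smul_sum, hx]

private theorem OmN_sq {n i : ℕ} (E : Submodule ℂ (Cn n)) {e : Fin i → Cn n}
    (he : SD.IsONB e (Stmt.real E)) :
    (Matrix.of fun a b => om (e a) (e b)) * (Matrix.of fun a b => om (e a) (e b)) =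
      (-1 : Matrix (Fin i) (Fin i) ℝ) := by
  have hmem : ∀ a, Complex.I • e a ∈ Submodule.span ℝ (Set.range e) := by
    intro a
    rw [he.2]
    have h1 : e a ∈ Stmt.real E := by
      rw [← he.2]
      exact Submodule.subset_span ⟨a, rfl⟩
    have h2 : e a ∈ E := h1
    exact E.smul_mem Complex.I h2
  ext a c
  rw [Matrix.mul_apply, Matrix.neg_apply]
  have h1 : ∀ j, (Matrix.of fun a b => om (e a) (e b)) a j *
      (Matrix.of fun a b => om (e a) (e b)) j c =
      -((inner ℝ (Complex.I • e a) (e j) : ℝ) * inner ℝ (e j) (Complex.I • e c)) := fun j => by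
    change om (e a) (e j) * om (e j) (e c) = _
    rw [om_symm (e c) (e j), om_innerN, om_innerN, real_inner_comm (e j) (Complex.I • e c)]
    ring
  rw [Finset.sum_congr rfl fun j _ => h1 j, Finset.sum_neg_distrib]
  have h2 : ∑ j, (inner ℝ (Complex.I • e a) (e j) : ℝ) * inner ℝ (e j) (Complex.I • e c) =
      inner ℝ (Complex.I • e a) (Complex.I • e c) := by
    conv_rhs => rw [← expandN he.1 (hmem c)]
    rw [inner_sum]
    refine Finset.sum_congr rfl fun j _ => ?_
    rw [inner_smul_right, mul_comm]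
  rw [h2, inner_IN, orthonormal_iff_ite.1 he.1 a c, Matrix.one_apply]

theorem TT_complex {n i : ℕ} (E : Submodule ℂ (Cn n)) {e : Fin i → Cn n}
    (he : SD.IsONB e (Stmt.real E)) (θ : ℝ) : TT e θ = 1 := by
  have hsq : ∀ t : ℝ, TT e t ^ 2 = 1 := by
    intro t
    set Ω : Matrix (Fin i) (Fin i) ℝ := Matrix.of fun a b => om (e a) (e b) with hΩ
    have hM : (Matrix.of fun a b => Real.cos t * (if a = b then 1 else 0) +
        Real.sin t * om (e a) (e b)) = Real.cos t • (1 : Matrix (Fin i) (Fin i) ℝ) +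
        Real.sin t • Ω := by
      ext a b
      rw [Matrix.add_apply, Matrix.smul_apply, Matrix.smul_apply, Matrix.one_apply]
      rfl
    have hT : (Real.cos t • (1 : Matrix (Fin i) (Fin i) ℝ) + Real.sin t • Ω).transpose =
        Real.cos t • (1 : Matrix (Fin i) (Fin i) ℝ) - Real.sin t • Ω := by
      have h1 : Ω.transpose = -Ω := by
        ext a b
        change om (e b) (e a) = - om (e a) (e b)
        exact om_symm _ _
      rw [Matrix.transpose_add, Matrix.transpose_smul, Matrix.transpose_smul, h1,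
        Matrix.transpose_one, smul_neg, sub_eq_add_neg]
    have hmul : (Real.cos t • (1 : Matrix (Fin i) (Fin i) ℝ) + Real.sin t • Ω) *
        (Real.cos t • (1 : Matrix (Fin i) (Fin i) ℝ) - Real.sin t • Ω) = 1 := by
      have hO : Ω * Ω = -1 := OmN_sq E he
      rw [add_mul, mul_sub, mul_sub]
      simp only [Matrix.smul_mul, Matrix.mul_smul, hO, Matrix.one_mul, Matrix.mul_one]
      have hcs : Real.cos t * Real.cos t + Real.sin t * Real.sin t = 1 := by
        have := Real.sin_sq_add_cos_sq t
        nlinarith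
      calc _ = (Real.cos t * Real.cos t + Real.sin t * Real.sin t) •
            (1 : Matrix (Fin i) (Fin i) ℝ) := by module
        _ = 1 := by rw [hcs, one_smul]
    have h := congrArg Matrix.det hmul
    rw [← hT, Matrix.det_mul, Matrix.det_transpose, Matrix.det_one, ← hM] at h
    rw [sq]
    exact h
  have h0 : TT e 0 = 1 := by
    unfold TT
    have h1 : (Matrix.of fun a b => Real.cos 0 * (if a = b then 1 else 0) +
        Real.sin 0 * om (e a) (e b)) = (1 : Matrix (Fin i) (Fin i) ℝ) := by
      ext a b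
      rw [Matrix.of_apply, Matrix.one_apply, Real.cos_zero, Real.sin_zero]
      ring
    rw [h1, Matrix.det_one]
  rcases sq_eq_sq_iff_eq_or_eq_neg.1 ((hsq θ).trans (one_pow 2).symm) with h | h
  · exact h
  · exfalso
    have h1 := intermediate_value_uIcc (a := θ) (b := 0) (continuous_TT e).continuousOn
    have h2 : (0 : ℝ) ∈ Set.uIcc (TT e θ) (TT e 0) := by
      rw [Set.mem_uIcc]
      left
      rw [h, h0]
      constructor <;> norm_num
    obtain ⟨t, -, ht⟩ := h1 h2
    have h3 := hsq t
    rw [ht] at h3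
    norm_num at h3

private theorem continuous_TTj {n i : ℕ} :
    Continuous fun p : (Fin i → Cn n) × ℝ => TT p.1 p.2 := by
  unfold TT
  refine Continuous.matrix_det ?_
  refine continuous_matrix fun a b => ?_
  have h1 : Continuous fun p : (Fin i → Cn n) × ℝ => om (p.1 a) (p.1 b) := by
    unfold om
    refine Complex.continuous_im.comp ?_
    exact ((continuous_apply a).comp continuous_fst).inner ((continuous_apply b).comp continuous_fst)
  exact ((Real.continuous_cos.comp continuous_snd).mul continuous_const).add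
    ((Real.continuous_sin.comp continuous_snd).mul h1)

private theorem continuous_cond {n i : ℕ} (A B : ℝ) :
    Continuous fun f : Fin i → Cn n =>
      A * (∫ θ in (0 : ℝ)..Real.pi, TT f θ * Real.cos (2 * θ)) -
        B * ∫ θ in (0 : ℝ)..Real.pi, TT f θ := by
  have h1 : Continuous fun f : Fin i → Cn n => ∫ θ in (0 : ℝ)..Real.pi, TT f θ :=
    intervalIntegral.continuous_parametric_intervalIntegral_of_continuous'
      (f := fun (f : Fin i → Cn n) θ => TT f θ) continuous_TTj 0 Real.pi
  have h2 : Continuous fun f : Fin i → Cn n =>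
      ∫ θ in (0 : ℝ)..Real.pi, TT f θ * Real.cos (2 * θ) := by
    refine intervalIntegral.continuous_parametric_intervalIntegral_of_continuous'
      (f := fun (f : Fin i → Cn n) θ => TT f θ * Real.cos (2 * θ)) ?_ 0 Real.pi
    exact continuous_TTj.mul (Real.continuous_cos.comp (continuous_const.mul continuous_snd))
  exact (continuous_const.mul h2).sub (continuous_const.mul h1)

theorem near_cond {n r : ℕ} (hr : 1 ≤ r) (hrn : r < n) (E : Submodule ℂ (Cn n))
    {e : Fin (2 * r) → Cn n} (he : SD.IsONB e (Stmt.real E)) :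
    ∃ η : ℝ, 0 < η ∧ ∀ f : Fin (2 * r) → Cn n, (∀ j, ‖f j - e j‖ < η) →
      ((r : ℝ) + 1) * (3 * n - 3 * r + 4) *
        (∫ θ in (0 : ℝ)..Real.pi, TT f θ * Real.cos (2 * θ)) <
          (r : ℝ) * (n - r) * ∫ θ in (0 : ℝ)..Real.pi, TT f θ := by
  have hc := continuous_cond (n := n) (i := 2 * r) (((r : ℝ) + 1) * (3 * n - 3 * r + 4))
    ((r : ℝ) * (n - r))
  have ho := isOpen_lt hc (continuous_const (y := (0 : ℝ)))
  have hr0 : (1 : ℝ) ≤ r := by exact_mod_cast hr
  have hrn0 : (r : ℝ) < n := by exact_mod_cast hrn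
  have hmem : e ∈ {f : Fin (2 * r) → Cn n | ((r : ℝ) + 1) * (3 * n - 3 * r + 4) *
        (∫ θ in (0 : ℝ)..Real.pi, TT f θ * Real.cos (2 * θ)) -
          (r : ℝ) * (n - r) * (∫ θ in (0 : ℝ)..Real.pi, TT f θ) < 0} := by
    change ((r : ℝ) + 1) * (3 * n - 3 * r + 4) *
        (∫ θ in (0 : ℝ)..Real.pi, TT e θ * Real.cos (2 * θ)) -
          (r : ℝ) * (n - r) * (∫ θ in (0 : ℝ)..Real.pi, TT e θ) < 0
    have h1 : (∫ θ in (0 : ℝ)..Real.pi, TT e θ * Real.cos (2 * θ)) = 0 := by
      simp only [TT_complex E he, one_mul]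
      rw [intervalIntegral.integral_comp_mul_left (fun x => Real.cos x) two_ne_zero, integral_cos]
      simp
    have h2 : (∫ θ in (0 : ℝ)..Real.pi, TT e θ) = Real.pi := by
      simp only [TT_complex E he]
      simp
    rw [h1, h2, mul_zero, zero_sub, neg_lt_zero]
    have h3 : 0 < (n : ℝ) - r := by linarith
    have h4 : (0 : ℝ) < r := by linarith
    exact mul_pos (mul_pos h4 h3) Real.pi_pos
  obtain ⟨η, hη, hb⟩ := Metric.isOpen_iff.1 ho e hmem
  refine ⟨η, hη, fun f hf => ?_⟩
  have h1 : f ∈ Metric.ball e η := by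
    rw [Metric.mem_ball, dist_pi_lt_iff hη]
    intro j
    rw [dist_eq_norm]
    exact hf j
  have h2 := hb h1
  exact sub_neg.1 h2

/-- the real dimension of `E` is `2 r`, `1 ≤ r < n` -/
theorem dim_complex {n i : ℕ} {E : Submodule ℂ (Cn n)} (hb : E ≠ ⊥) (ht : E ≠ ⊤)
    {e : Fin i → Cn n} (he : SD.IsONB e (Stmt.real E)) : ∃ r, i = 2 * r ∧ 1 ≤ r ∧ r < n := by
  have h1 : Module.finrank ℝ (Submodule.span ℝ (Set.range e)) = i := by
    rw [finrank_span_eq_card he.1.linearIndependent, Fintype.card_fin]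
  rw [he.2] at h1
  have h2 : Module.finrank ℝ (Stmt.real E) = 2 * Module.finrank ℂ E :=
    finrank_real_of_complex E
  refine ⟨Module.finrank ℂ E, by rw [← h1, h2], ?_, ?_⟩
  · rw [Nat.one_le_iff_ne_zero]
    intro h
    exact hb (Submodule.finrank_eq_zero.1 h)
  · have h3 := Submodule.finrank_lt ht
    rwa [finrank_euclideanSpace_fin] at h3

end Pool.Agent.H89.EN
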