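import Mathlib
import Pool.Agent.H89.EN.AB
import Pool.Agent.H89.EN.FBodyQ
import Pool.Agent.H89.EN.Near
import Pool.Agent.H89.CZ.ZI
import Pool.Agent.H61.UProj.StmtEquiv

set_option autoImplicit false

/-!
# Main: assembly

`r = s + 1`, `n = s + (q + 2)`.  `ab_val` gives `A`, `B`; `J` from `exists_iso`; `exists_failQ` gives
two zonotopes violating the inequality (see `H89/CZ/Main.lean`).
-/

open MeasureTheory Pool.Agent.H61.UProj Pool.Agent.H89.CZ Pool.Agent.H35.NI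
open scoped ENNReal Pointwise

noncomputable section

namespace Pool.Agent.H89.EN

private theorem Main_zonotope {n N : ℕ} (v : Fin N → Cn n) : SD.IsZonotope (zon v) :=
  (isZonotope_iff _).2 ⟨N, 0, v, by simp⟩

private theorem Main_zonoid {n N : ℕ} (v : Fin N → Cn n) : SD.IsZonoid (zon v) :=
  ⟨isCompact_zon v, fun ε hε => ⟨zon v, Main_zonotope v, fun x hx => ⟨x, hx, by simpa using hε.le⟩,
    fun x hx => ⟨x, hx, by simpa using hε.le⟩⟩⟩

theorem main_fail {n r : ℕ} (hr : 1 ≤ r) (hrn : r < n) (E : Submodule ℝ (Cn n))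
    {e : Fin (2 * r) → Cn n} (he : SD.IsONB e E)
    (hc : ((r : ℝ) + 1) * (3 * n - 3 * r + 4) *
      (∫ θ in (0 : ℝ)..Real.pi, TT e θ * Real.cos (2 * θ)) <
        (r : ℝ) * (n - r) * ∫ θ in (0 : ℝ)..Real.pi, TT e θ) :
    ¬ SD.HasBMZonoid E := by
  obtain ⟨s, rfl⟩ : ∃ s, r = s + 1 := ⟨r - 1, by omega⟩
  obtain ⟨q, rfl⟩ : ∃ q, n = s + (q + 2) := ⟨n - s - 2, by omega⟩
  obtain ⟨hon, hsp⟩ := he
  have hc' : ((s : ℝ) + 2) * (3 * ((q + 2 : ℕ) : ℝ) + 1) *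
      (∫ θ in (0 : ℝ)..Real.pi, TT e θ * Real.cos (2 * θ)) <
        ((s : ℝ) + 1) * (((q + 2 : ℕ) : ℝ) - 1) * ∫ θ in (0 : ℝ)..Real.pi, TT e θ := by
    have e1 : ((s : ℝ) + 2) * (3 * ((q + 2 : ℕ) : ℝ) + 1) =
        (((s + 1 : ℕ) : ℝ) + 1) * (3 * ((s + (q + 2) : ℕ) : ℝ) - 3 * ((s + 1 : ℕ) : ℝ) + 4) := by
      push_cast
      ring
    have e2 : ((s : ℝ) + 1) * (((q + 2 : ℕ) : ℝ) - 1) =
        ((s + 1 : ℕ) : ℝ) * (((s + (q + 2) : ℕ) : ℝ) - ((s + 1 : ℕ) : ℝ)) := by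
      push_cast
      ring
    rw [e1, e2]
    exact hc
  obtain ⟨A, B, hK, hAB⟩ := ab_val (s := s) (q := q + 2) (by omega) (e := e) hon hc'
  obtain ⟨J, hJe, hJ⟩ := exists_iso hon
  rw [hsp] at hJ
  have hJe' : (fun k => J (EuclideanSpace.single k 1)) = e := by
    funext k
    rw [hJe, Finset.sum_eq_single k]
    · simp
    · intro j _ hj
      simp [hj]
    · intro hk
      exact absurd (Finset.mem_univ k) hk
  have hfr : Module.finrank ℝ E = 2 * (s + 1) := by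
    rw [← hsp, finrank_span_eq_card hon.linearIndependent, Fintype.card_fin]
  have hp : (1 / (Module.finrank ℝ E : ℝ)) = 1 / (2 * (s : ℝ) + 2) := by
    rw [hfr]
    push_cast
    ring
  have hAB' : (2 * ((q : ℝ) + 2) + 1) * A < (4 * ((q : ℝ) + 2) + 1) * B := by
    have h := hAB
    push_cast at h
    exact h
  obtain ⟨N, v, v', h1, h2, h3⟩ := exists_failQ (s := s) hAB' J (by
    intro u v
    have h := hK u v
    rw [← hJe'] at h
    exact h)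
  intro h
  have h4 := h (zon v) (zon v') ⟨convex_zon v, isCompact_zon v, h1⟩
    ⟨convex_zon v', isCompact_zon v', h2⟩ (Main_zonoid v) (Main_zonoid v')
  rw [hp, Stmt.VE_eq, Stmt.VE_eq, Stmt.VE_eq] at h4
  rw [hJ] at h3
  exact absurd h4 (not_le.2 h3)

theorem main_near {n : ℕ} (E : Submodule ℂ (Cn n)) (hb : E ≠ ⊥) (ht : E ≠ ⊤) {i : ℕ}
    {e : Fin i → Cn n} (he : SD.IsONB e (Stmt.real E)) :
    ∃ η : ℝ, 0 < η ∧ ∀ (F : Submodule ℝ (Cn n)) (f : Fin i → Cn n), SD.IsONB f F →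
      (∀ j, ‖f j - e j‖ < η) → ¬ SD.HasBMZonoid F := by
  obtain ⟨r, rfl, hr, hrn⟩ := dim_complex hb ht he
  obtain ⟨η, hη, h⟩ := near_cond hr hrn E he
  exact ⟨η, hη, fun F f hf hn => main_fail hr hrn F hf (h f hn)⟩

end Pool.Agent.H89.EN
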